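import Pool.Agent.Helper83.OP.Defs

/-!
# Simple arcs
-/

namespace Pool.Agent.Helper83.OP

open Set

theorem IsArc.symm {α : Set (ℝ × ℝ)} {a b : ℝ × ℝ} (h : IsArc α a b) : IsArc α b a := by
  obtain ⟨γ, hc, hi, h0, h1, him⟩ := h
  have hm : MapsTo (fun t : ℝ => 1 - t) (Icc 0 1) (Icc 0 1) := by
    intro t ht
    exact ⟨by linarith [ht.2], by linarith [ht.1]⟩
  refine ⟨fun t => γ (1 - t), hc.comp (by fun_prop) hm, ?_, by simpa using h1, by simpa using h0,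
    ?_⟩
  · intro s hs t ht hst
    have := hi (hm hs) (hm ht) hst
    linarith
  · rw [← him]
    apply Subset.antisymm
    · rintro _ ⟨t, ht, rfl⟩
      exact ⟨1 - t, hm ht, rfl⟩
    · rintro _ ⟨t, ht, rfl⟩
      exact ⟨1 - t, hm ht, by simp⟩

theorem isArc_segment {a b : ℝ × ℝ} (h : a ≠ b) : IsArc (segment ℝ a b) a b := by
  refine ⟨fun t => a + t • (b - a), by fun_prop, ?_, by simp, by simp, ?_⟩
  · intro s _ t _ hst
    have h1 : s • (b - a) = t • (b - a) := add_left_cancel hst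
    have h2 : (s - t) • (b - a) = 0 := by rw [sub_smul, h1, sub_self]
    rcases smul_eq_zero.1 h2 with h3 | h3
    · linarith
    · exact absurd (sub_eq_zero.1 h3).symm h
  · rw [segment_eq_image']

theorem IsArc.union {α β : Set (ℝ × ℝ)} {a b c : ℝ × ℝ} (h : IsArc α a b) (h' : IsArc β b c)
    (hi : ∀ p ∈ α, p ∈ β → p = b) : IsArc (α ∪ β) a c := by
  obtain ⟨γ, hc, hj, h0, h1, him⟩ := h
  obtain ⟨γ', hc', hj', h0', h1', him'⟩ := h'
  set δ : ℝ → ℝ × ℝ := fun t => if t ≤ 1 / 2 then γ (2 * t) else γ' (2 * t - 1) with hδ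
  have hm1 : ∀ t ∈ Icc (0 : ℝ) (1 / 2), 2 * t ∈ Icc (0 : ℝ) 1 := fun t ht =>
    ⟨by linarith [ht.1], by linarith [ht.2]⟩
  have hm2 : ∀ t ∈ Icc (1 / 2 : ℝ) 1, 2 * t - 1 ∈ Icc (0 : ℝ) 1 := fun t ht =>
    ⟨by linarith [ht.1], by linarith [ht.2]⟩
  have e1 : ∀ t ∈ Icc (0 : ℝ) (1 / 2), δ t = γ (2 * t) := fun t ht => by
    rw [hδ]; simp only; rw [if_pos ht.2]
  have e2 : ∀ t ∈ Icc (1 / 2 : ℝ) 1, δ t = γ' (2 * t - 1) := fun t ht => by
    rw [hδ]; simp only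
    split_ifs with h2
    · have h3 : t = 1 / 2 := le_antisymm h2 ht.1
      rw [h3]
      norm_num
      rw [h1, h0']
    · rfl
  have c1 : ContinuousOn δ (Icc 0 (1 / 2)) := by
    refine (hc.comp (f := fun t : ℝ => 2 * t) (by fun_prop) hm1).congr ?_
    intro t ht; exact e1 t ht
  have c2 : ContinuousOn δ (Icc (1 / 2) 1) := by
    refine (hc'.comp (f := fun t : ℝ => 2 * t - 1) (by fun_prop) hm2).congr ?_
    intro t ht; exact e2 t ht
  have hun : Icc (0 : ℝ) (1 / 2) ∪ Icc (1 / 2) 1 = Icc 0 1 :=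
    Icc_union_Icc_eq_Icc (by norm_num) (by norm_num)
  have hcase : ∀ t ∈ Icc (0 : ℝ) 1, t ∈ Icc (0 : ℝ) (1 / 2) ∨ t ∈ Ioc (1 / 2 : ℝ) 1 := by
    intro t ht
    rcases le_or_gt t (1 / 2) with h2 | h2
    · exact Or.inl ⟨ht.1, h2⟩
    · exact Or.inr ⟨h2, ht.2⟩
  have hmem : ∀ s ∈ Icc (0 : ℝ) 1, ∀ t ∈ Icc (0 : ℝ) 1, γ s = γ' t → s = 1 ∧ t = 0 := by
    intro s hs t ht hst
    have h2 : γ s = b := hi _ (him ▸ ⟨s, hs, rfl⟩) (him' ▸ ⟨t, ht, hst.symm⟩)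
    exact ⟨hj hs ⟨zero_le_one, le_rfl⟩ (h2.trans h1.symm),
      hj' ht ⟨le_rfl, zero_le_one⟩ ((hst.symm.trans h2).trans h0'.symm)⟩
  refine ⟨δ, ?_, ?_, ?_, ?_, ?_⟩
  · rw [← hun]
    exact c1.union_of_isClosed c2 isClosed_Icc isClosed_Icc
  · intro s hs t ht hst
    rcases hcase s hs with h2 | h2 <;> rcases hcase t ht with h3 | h3
    · rw [e1 s h2, e1 t h3] at hst
      have := hj (hm1 s h2) (hm1 t h3) hst
      linarith
    · have h3' : t ∈ Icc (1 / 2 : ℝ) 1 := ⟨h3.1.le, h3.2⟩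
      rw [e1 s h2, e2 t h3'] at hst
      have := (hmem _ (hm1 s h2) _ (hm2 t h3') hst).2
      linarith [h3.1]
    · have h2' : s ∈ Icc (1 / 2 : ℝ) 1 := ⟨h2.1.le, h2.2⟩
      rw [e1 t h3, e2 s h2'] at hst
      have := (hmem _ (hm1 t h3) _ (hm2 s h2') hst.symm).2
      linarith [h2.1]
    · have h2' : s ∈ Icc (1 / 2 : ℝ) 1 := ⟨h2.1.le, h2.2⟩
      have h3' : t ∈ Icc (1 / 2 : ℝ) 1 := ⟨h3.1.le, h3.2⟩
      rw [e2 s h2', e2 t h3'] at hst
      have := hj' (hm2 s h2') (hm2 t h3') hst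
      linarith
  · rw [e1 0 ⟨le_rfl, by norm_num⟩]
    simpa using h0
  · rw [e2 1 ⟨by norm_num, le_rfl⟩]
    norm_num
    exact h1'
  · rw [← hun, image_union]
    congr 1
    · rw [← him]
      apply Subset.antisymm
      · rintro _ ⟨t, ht, rfl⟩
        exact ⟨2 * t, hm1 t ht, (e1 t ht).symm⟩
      · rintro _ ⟨t, ht, rfl⟩
        refine ⟨t / 2, ⟨by linarith [ht.1], by linarith [ht.2]⟩, ?_⟩
        rw [e1 _ ⟨by linarith [ht.1], by linarith [ht.2]⟩]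
        congr 1; ring
    · rw [← him']
      apply Subset.antisymm
      · rintro _ ⟨t, ht, rfl⟩
        exact ⟨2 * t - 1, hm2 t ht, (e2 t ht).symm⟩
      · rintro _ ⟨t, ht, rfl⟩
        refine ⟨(t + 1) / 2, ⟨by linarith [ht.1], by linarith [ht.2]⟩, ?_⟩
        rw [e2 _ ⟨by linarith [ht.1], by linarith [ht.2]⟩]
        congr 1; ring

theorem IsArc.left_mem {α : Set (ℝ × ℝ)} {a b : ℝ × ℝ} (h : IsArc α a b) : a ∈ α := by
  obtain ⟨γ, -, -, h0, -, him⟩ := h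
  exact him ▸ ⟨0, ⟨le_rfl, zero_le_one⟩, h0⟩

theorem IsArc.right_mem {α : Set (ℝ × ℝ)} {a b : ℝ × ℝ} (h : IsArc α a b) : b ∈ α :=
  h.symm.left_mem

theorem IsArc.ne {α : Set (ℝ × ℝ)} {a b : ℝ × ℝ} (h : IsArc α a b) : a ≠ b := by
  obtain ⟨γ, -, hi, h0, h1, -⟩ := h
  intro hab
  have := hi (⟨le_rfl, zero_le_one⟩ : (0 : ℝ) ∈ Icc (0 : ℝ) 1) ⟨zero_le_one, le_rfl⟩
    (h0.trans (hab.trans h1.symm))
  exact zero_ne_one this

theorem IsArc.isCompact {α : Set (ℝ × ℝ)} {a b : ℝ × ℝ} (h : IsArc α a b) : IsCompact α := by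
  obtain ⟨γ, hc, -, -, -, him⟩ := h
  exact him ▸ isCompact_Icc.image_of_continuousOn hc

theorem IsArc.isClosed {α : Set (ℝ × ℝ)} {a b : ℝ × ℝ} (h : IsArc α a b) : IsClosed α :=
  h.isCompact.isClosed

theorem IsArc.isConnected {α : Set (ℝ × ℝ)} {a b : ℝ × ℝ} (h : IsArc α a b) :
    IsConnected α := by
  obtain ⟨γ, hc, -, -, -, him⟩ := h
  exact him ▸ (isConnected_Icc zero_le_one).image _ hc

/-- a piece of a parametrised arc is an arc -/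
theorem isArc_image {γ : ℝ → ℝ × ℝ} (hc : ContinuousOn γ (Icc 0 1)) (hi : InjOn γ (Icc 0 1))
    {s t : ℝ} (hs : 0 ≤ s) (hst : s < t) (ht : t ≤ 1) : IsArc (γ '' Icc s t) (γ s) (γ t) := by
  have hm : ∀ u ∈ Icc (0 : ℝ) 1, s + u * (t - s) ∈ Icc s t := by
    intro u hu
    have h1 : 0 ≤ u * (t - s) := mul_nonneg hu.1 (by linarith)
    have h2 : u * (t - s) ≤ 1 * (t - s) := mul_le_mul_of_nonneg_right hu.2 (by linarith)
    exact ⟨by linarith, by linarith⟩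
  have hm' : ∀ u ∈ Icc s t, u ∈ Icc (0 : ℝ) 1 := fun u hu =>
    ⟨hs.trans hu.1, hu.2.trans ht⟩
  refine ⟨fun u => γ (s + u * (t - s)), hc.comp (by fun_prop) fun u hu => hm' _ (hm u hu), ?_,
    by simp, by simp, ?_⟩
  · intro u hu v hv huv
    have h1 := hi (hm' _ (hm u hu)) (hm' _ (hm v hv)) huv
    have h2 : u * (t - s) = v * (t - s) := by linarith
    exact mul_right_cancel₀ (by linarith) h2
  · apply Subset.antisymm
    · rintro _ ⟨u, hu, rfl⟩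
      exact ⟨_, hm u hu, rfl⟩
    · rintro _ ⟨u, hu, rfl⟩
      have h0 : 0 < t - s := by linarith
      refine ⟨(u - s) / (t - s), ⟨div_nonneg (by linarith [hu.1]) h0.le,
        (div_le_one h0).2 (by linarith [hu.2])⟩, ?_⟩
      simp only
      rw [div_mul_cancel₀ _ h0.ne', add_sub_cancel]

/-- an arc split at an inner time -/
theorem IsArc.split {γ : ℝ → ℝ × ℝ} (hc : ContinuousOn γ (Icc 0 1)) (hi : InjOn γ (Icc 0 1))
    {t : ℝ} (h0 : 0 < t) (h1 : t < 1) : IsArc (γ '' Icc 0 t) (γ 0) (γ t) ∧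
      IsArc (γ '' Icc t 1) (γ t) (γ 1) :=
  ⟨isArc_image hc hi le_rfl h0 h1.le, isArc_image hc hi h0.le h1 le_rfl⟩

end Pool.Agent.Helper83.OP
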