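import Mathlib

/-!
# Definitions for MP_0dbcb7_co (1-planar-critical graphs)
-/

namespace Pool.Agent.Helper83.OP

open Set

/-! ## Drawings (the conditions of the frozen statement) -/

/-- the curves `γ` and the points `pos` are a drawing of `H` -/
structure IsDrawing {V : Type} (H : SimpleGraph V) (pos : V → ℝ × ℝ)
    (γ : Sym2 V → ℝ → ℝ × ℝ) : Prop where
  pos_inj : Function.Injective pos
  ends : ∀ u v : V, H.Adj u v →
    ((γ s(u, v) 0 = pos u ∧ γ s(u, v) 1 = pos v) ∨ (γ s(u, v) 0 = pos v ∧ γ s(u, v) 1 = pos u))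
  cont : ∀ e ∈ H.edgeSet, ContinuousOn (γ e) (Icc (0 : ℝ) 1)
  inj : ∀ e ∈ H.edgeSet, InjOn (γ e) (Icc (0 : ℝ) 1)
  avoid : ∀ e ∈ H.edgeSet, ∀ t : ℝ, t ∈ Ioo (0 : ℝ) 1 → ∀ w : V, γ e t ≠ pos w

/-- the crossings on the edge `e`: pairs (other edge, common interior point) -/
def crossSet {V : Type} (H : SimpleGraph V) (γ : Sym2 V → ℝ → ℝ × ℝ) (e : Sym2 V) :
    Set (Sym2 V × (ℝ × ℝ)) :=
  {q | q.1 ∈ H.edgeSet ∧ q.1 ≠ e ∧ q.2 ∈ γ e '' Ioo (0 : ℝ) 1 ∧ q.2 ∈ γ q.1 '' Ioo (0 : ℝ) 1}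

/-- `H` is `m`-planar -/
def KPl (m : ℕ) {V : Type} (H : SimpleGraph V) : Prop :=
  ∃ (pos : V → ℝ × ℝ) (γ : Sym2 V → ℝ → ℝ × ℝ), IsDrawing H pos γ ∧
    ∀ e ∈ H.edgeSet, (crossSet H γ e).encard ≤ (m : ℕ∞)

/-- number of neighbours -/
noncomputable def deg {V : Type} (H : SimpleGraph V) (v : V) : ℕ := (H.neighborSet v).ncard

/-! ## Continuous arguments -/

/-- `x` is the total change of the argument of `g` along `[0,1]` -/
def IsInc (g : ℝ → ℂ) (x : ℝ) : Prop :=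
  ∃ θ : ℝ → ℝ, ContinuousOn θ (Icc 0 1) ∧
    (∀ t ∈ Icc (0 : ℝ) 1, g t = (‖g t‖ : ℂ) * Complex.exp ((θ t : ℂ) * Complex.I)) ∧ θ 1 - θ 0 = x

/-! ## Minors -/

/-- a model of the complete graph on `r` vertices: disjoint connected branch sets, pairwise
adjacent -/
def HasModel (r : ℕ) {S : Type} (Γ : SimpleGraph S) : Prop :=
  ∃ B : Fin r → Set S, (∀ i, (Γ.induce (B i)).Connected) ∧
    (∀ i j, i ≠ j → Disjoint (B i) (B j)) ∧
    ∀ i j, i ≠ j → ∃ s ∈ B i, ∃ t ∈ B j, Γ.Adj s t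

/-- a copy of the complete bipartite graph with parts of size three -/
def HasK33 {S : Type} (Γ : SimpleGraph S) : Prop :=
  ∃ a b : Fin 3 → S, Function.Injective a ∧ Function.Injective b ∧ (∀ i j, a i ≠ b j) ∧
    ∀ i j, Γ.Adj (a i) (b j)

/-- The relation `X` on edges behaves like the crossing relation of a drawing in the plane:
any system `Γ` of links, each realised by a walk of `H`, such that node-disjoint links are
vertex-disjoint and do not cross has neither a `K₅` model nor a `K₃₃`. -/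
def PlanarLike {V : Type} (H : SimpleGraph V) (X : Sym2 V → Sym2 V → Prop) : Prop :=
  ∀ (Γ : SimpleGraph V) (R : ∀ s t, Γ.Adj s t → H.Walk s t),
    (∀ s t s' t' (h : Γ.Adj s t) (h' : Γ.Adj s' t'), s ≠ s' → s ≠ t' → t ≠ s' → t ≠ t' →
      (∀ v ∈ (R s t h).support, v ∉ (R s' t' h').support) ∧
      (∀ f ∈ (R s t h).edges, ∀ f' ∈ (R s' t' h').edges, ¬ X f f')) →
    ¬ HasModel 5 Γ ∧ ¬ HasK33 Γ

/-- the crossing relation of a drawing -/
def CrossRel {V : Type} (γ : Sym2 V → ℝ → ℝ × ℝ) (f f' : Sym2 V) : Prop :=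
  f ≠ f' ∧ ∃ p : ℝ × ℝ, p ∈ γ f '' Ioo (0 : ℝ) 1 ∧ p ∈ γ f' '' Ioo (0 : ℝ) 1

/-! ## Arcs and plane multigraphs -/

/-- `α` is a simple arc from `a` to `b` -/
def IsArc (α : Set (ℝ × ℝ)) (a b : ℝ × ℝ) : Prop :=
  ∃ γ : ℝ → ℝ × ℝ, ContinuousOn γ (Icc 0 1) ∧ InjOn γ (Icc 0 1) ∧ γ 0 = a ∧ γ 1 = b ∧
    γ '' Icc (0 : ℝ) 1 = α

/-- A plane multigraph with nodes `J` and arcs `I`. -/
structure PG (J I : Type) (src tgt : I → J) where
  pos : J → ℝ × ℝ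
  pos_inj : Function.Injective pos
  arc : I → Set (ℝ × ℝ)
  isArc : ∀ i, IsArc (arc i) (pos (src i)) (pos (tgt i))
  nodes : ∀ i j, pos j ∈ arc i → j = src i ∨ j = tgt i
  disj : ∀ i i', i ≠ i' → ∀ p ∈ arc i, p ∈ arc i' →
    (p = pos (src i) ∨ p = pos (tgt i)) ∧ (p = pos (src i') ∨ p = pos (tgt i'))

/-- the graph on the nodes of a plane multigraph given by the arcs in `A` -/
def nodeGraph {J I : Type} (src tgt : I → J) (A : Set I) : SimpleGraph J :=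
  SimpleGraph.fromRel (fun x y => ∃ i ∈ A, src i = x ∧ tgt i = y)

/-! ## Cells -/

/-- adjacency (common side) of unit cells indexed by `ℤ × ℤ` -/
def CAdj (c c' : ℤ × ℤ) : Prop :=
  (c.1 = c'.1 ∧ (c.2 = c'.2 + 1 ∨ c'.2 = c.2 + 1)) ∨
    (c.2 = c'.2 ∧ (c.1 = c'.1 + 1 ∨ c'.1 = c.1 + 1))

/-- the closed unit cell -/
def cell (c : ℤ × ℤ) : Set (ℝ × ℝ) :=
  Icc (c.1 : ℝ) (c.1 + 1) ×ˢ Icc (c.2 : ℝ) (c.2 + 1)

/-- the cells of the block `[x0,x1) × [y0,y1)` -/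
def block (x0 x1 y0 y1 : ℤ) : Set (ℤ × ℤ) :=
  {c | x0 ≤ c.1 ∧ c.1 < x1 ∧ y0 ≤ c.2 ∧ c.2 < y1}

/-- A grid layout: each node owns a rectangular block of cells, each arc owns a path of cells. -/
structure Layout (J I : Type) (src tgt : I → J) where
  x0 : J → ℤ
  x1 : J → ℤ
  y0 : J → ℤ
  y1 : J → ℤ
  hx : ∀ j, x0 j < x1 j
  hy : ∀ j, y0 j < y1 j
  blocks : ∀ j j' (c : ℤ × ℤ), c ∈ block (x0 j) (x1 j) (y0 j) (y1 j) →
    c ∈ block (x0 j') (x1 j') (y0 j') (y1 j') → j = j'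
  cells : I → List (ℤ × ℤ)
  cs : I → ℤ × ℤ
  ce : I → ℤ × ℤ
  ne : ∀ i, cells i ≠ []
  nodup : ∀ i, (cells i).Nodup
  chain : ∀ i, List.IsChain CAdj (cs i :: (cells i ++ [ce i]))
  cs_mem : ∀ i, cs i ∈ block (x0 (src i)) (x1 (src i)) (y0 (src i)) (y1 (src i))
  ce_mem : ∀ i, ce i ∈ block (x0 (tgt i)) (x1 (tgt i)) (y0 (tgt i)) (y1 (tgt i))
  cells_free : ∀ i, ∀ c ∈ cells i, ∀ j, c ∉ block (x0 j) (x1 j) (y0 j) (y1 j)
  cells_disj : ∀ i i', i ≠ i' → ∀ c ∈ cells i, c ∉ cells i'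

/-- the closed and the open rectangle of a block -/
def crect (x0 x1 y0 y1 : ℤ) : Set (ℝ × ℝ) := Icc (x0 : ℝ) x1 ×ˢ Icc (y0 : ℝ) y1

@[inherit_doc crect]
def orect (x0 x1 y0 y1 : ℤ) : Set (ℝ × ℝ) := Ioo (x0 : ℝ) x1 ×ˢ Ioo (y0 : ℝ) y1

/-- two disjoint strands in every corridor of a layout -/
structure Strands {J I : Type} {src tgt : I → J} (L : Layout J I src tgt) where
  St : I → Bool → Set (ℝ × ℝ)
  A : I → Bool → ℝ × ℝ
  B : I → Bool → ℝ × ℝ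
  isArc : ∀ i b, IsArc (St i b) (A i b) (B i b)
  only : ∀ i b, ∀ p ∈ St i b, ∀ c, p ∈ cell c →
    c ∈ L.cells i ∨ (c = L.cs i ∧ p = A i b) ∨ (c = L.ce i ∧ p = B i b)
  some : ∀ i b, ∀ p ∈ St i b, ∃ c ∈ L.cells i, p ∈ cell c
  disj : ∀ i, Disjoint (St i false) (St i true)
  A_mem : ∀ i b, A i b ∈ cell (L.cs i)
  B_mem : ∀ i b, B i b ∈ cell (L.ce i)
  A_rat : ∀ i b, ∃ q r : ℚ, A i b = ((q : ℝ), (r : ℝ))
  B_rat : ∀ i b, ∃ q r : ℚ, B i b = ((q : ℝ), (r : ℝ))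

/-- the arc of `i` in the realisation with node positions `h` and strand `b` -/
def Strands.arc {J I : Type} {src tgt : I → J} {L : Layout J I src tgt} (Sd : Strands L)
    (h : J → ℝ × ℝ) (b : Bool) (i : I) : Set (ℝ × ℝ) :=
  segment ℝ (h (src i)) (Sd.A i b) ∪ (Sd.St i b ∪ segment ℝ (Sd.B i b) (h (tgt i)))

/-! ## Planarization data of a 1-planar drawing -/

/-- Nodes: the vertices (`vn`) and one break node `bn f` on every edge `f`; crossing edges share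
their break node. -/
structure Plz {V : Type} (H : SimpleGraph V) where
  J : Type
  fin : Finite J
  vn : V → J
  bn : H.edgeSet → J
  a : H.edgeSet → V
  b : H.edgeSet → V
  vn_inj : Function.Injective vn
  vn_ne : ∀ v f, vn v ≠ bn f
  ends : ∀ f : H.edgeSet, (f : Sym2 V) = s(a f, b f)
  pair : ∀ f f' f'' : H.edgeSet, f' ≠ f → f'' ≠ f → bn f' = bn f → bn f'' = bn f → f' = f''

/-- source of the half edge `(f, false)` or `(f, true)` -/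
def Plz.src {V : Type} {H : SimpleGraph V} (Z : Plz H) : H.edgeSet × Bool → Z.J :=
  fun i => bif i.2 then Z.bn i.1 else Z.vn (Z.a i.1)

/-- target of the half edge `(f, false)` or `(f, true)` -/
def Plz.tgt {V : Type} {H : SimpleGraph V} (Z : Plz H) : H.edgeSet × Bool → Z.J :=
  fun i => bif i.2 then Z.vn (Z.b i.1) else Z.bn i.1

/-- a 1-planar drawing of `H` together with an additional arc from `u` to `v` -/
def Aug {V : Type} (H : SimpleGraph V) (u v : V) (k : ℕ) : Prop :=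
  ∃ (pos : V → ℝ × ℝ) (γ : Sym2 V → ℝ → ℝ × ℝ) (E : Set (ℝ × ℝ)), IsDrawing H pos γ ∧
    (∀ e ∈ H.edgeSet, (crossSet H γ e).encard ≤ 1) ∧
    IsArc E (pos u) (pos v) ∧ (∀ w, w ≠ u → w ≠ v → pos w ∉ E) ∧
    (∀ f ∈ H.edgeSet, {p | p ∈ E ∧ p ∈ γ f '' Icc (0 : ℝ) 1 ∧ p ≠ pos u ∧ p ≠ pos v}.encard ≤ 8) ∧
    {q : Sym2 V × (ℝ × ℝ) | q.1 ∈ H.edgeSet ∧ q.2 ∈ E ∧ q.2 ∈ γ q.1 '' Icc (0 : ℝ) 1 ∧
      q.2 ≠ pos u ∧ q.2 ≠ pos v}.encard ≤ (k : ℕ∞)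

/-! ## Clusters -/

/-- Voronoi clusters of `H[N]` with radius `2ρ` and parent pointers; centres are at distance
more than `2ρ`, so balls of radius `ρ` around centres lie in one cluster. -/
structure Clus {V : Type} (H : SimpleGraph V) (N : Set V) (ρ : ℕ) where
  ctr : V → V
  par : V → V
  d : V → ℕ
  ctr_mem : ∀ v ∈ N, ctr v ∈ N
  ctr_ctr : ∀ v ∈ N, ctr (ctr v) = ctr v
  d_ctr : ∀ v ∈ N, d (ctr v) = 0
  d_zero : ∀ v ∈ N, d v = 0 → ctr v = v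
  d_le : ∀ v ∈ N, d v ≤ 2 * ρ
  par_mem : ∀ v ∈ N, d v ≠ 0 → par v ∈ N
  par_adj : ∀ v ∈ N, d v ≠ 0 → H.Adj v (par v)
  par_d : ∀ v ∈ N, d v ≠ 0 → d (par v) + 1 = d v
  par_ctr : ∀ v ∈ N, d v ≠ 0 → ctr (par v) = ctr v
  lip : ∀ v ∈ N, ∀ w ∈ N, H.Adj v w → d w ≤ d v + 1
  near : ∀ v ∈ N, ∀ w ∈ N, H.Adj v w → d v < ρ → ctr w = ctr v

/-- the set of centres -/
def Clus.Ctr {V : Type} {H : SimpleGraph V} {N : Set V} {ρ : ℕ} (K : Clus H N ρ) : Set V :=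
  {s | s ∈ N ∧ K.ctr s = s}

/-- the cluster of `s` -/
def Clus.cl {V : Type} {H : SimpleGraph V} {N : Set V} {ρ : ℕ} (K : Clus H N ρ) (s : V) : Set V :=
  {v | v ∈ N ∧ K.ctr v = s}

/-- edges from the cluster of `s` to other clusters -/
def Clus.cOut {V : Type} {H : SimpleGraph V} {N : Set V} {ρ : ℕ} (K : Clus H N ρ) (s : V) :
    Set (V × V) :=
  {e | e.1 ∈ N ∧ e.2 ∈ N ∧ H.Adj e.1 e.2 ∧ K.ctr e.1 = s ∧ K.ctr e.2 ≠ s}

/-- edges from the cluster of `s` to vertices outside `N` -/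
def Clus.hOut {V : Type} {H : SimpleGraph V} {N : Set V} {ρ : ℕ} (K : Clus H N ρ) (s : V) :
    Set (V × V) :=
  {e | e.1 ∈ N ∧ K.ctr e.1 = s ∧ e.2 ∉ N ∧ H.Adj e.1 e.2}

/-- the clusters are trees, there is at most one edge between two clusters and between a cluster
and a vertex outside `N` -/
structure Clus.Tidy {V : Type} {H : SimpleGraph V} {N : Set V} {ρ : ℕ} (K : Clus H N ρ) :
    Prop where
  tree : ∀ v ∈ N, ∀ w ∈ N, H.Adj v w → K.ctr v = K.ctr w →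
    (K.d v ≠ 0 ∧ w = K.par v) ∨ (K.d w ≠ 0 ∧ v = K.par w)
  two : ∀ v ∈ N, ∀ w ∈ N, ∀ v' ∈ N, ∀ w' ∈ N, H.Adj v w → H.Adj v' w' → K.ctr v = K.ctr v' →
    K.ctr w = K.ctr w' → K.ctr v ≠ K.ctr w → v = v' ∧ w = w'
  hub : ∀ v ∈ N, ∀ v' ∈ N, ∀ g, g ∉ N → H.Adj v g → H.Adj v' g → K.ctr v = K.ctr v' → v = v'

/-- clusters met by edges that cross an edge of `E0` -/
def Clus.conf {V : Type} {H : SimpleGraph V} {N : Set V} {ρ : ℕ} (K : Clus H N ρ)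
    (X : Sym2 V → Sym2 V → Prop) (E0 : Set (Sym2 V)) : Set V :=
  {s | ∃ f ∈ E0, ∃ f' ∈ H.edgeSet, X f f' ∧ ∃ x ∈ f', x ∈ N ∧ K.ctr x = s}

/-! ## Suppressing a vertex of degree two -/

/-- delete `z` and add the edge `xy` -/
def supp {V : Type} (H : SimpleGraph V) (z x y : V) : SimpleGraph V :=
  SimpleGraph.fromRel (fun a b => (H.Adj a b ∧ a ≠ z ∧ b ≠ z) ∨ (a = x ∧ b = y))

/-- `g` is one of the edges represented by `f` -/
def exps {V : Type} (z x y : V) (f g : Sym2 V) : Prop :=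
  (f = s(x, y) ∧ (g = s(x, z) ∨ g = s(z, y))) ∨ (f ≠ s(x, y) ∧ g = f)

/-- the crossing relation after suppression -/
def suppX {V : Type} (X : Sym2 V → Sym2 V → Prop) (z x y : V) (f f' : Sym2 V) : Prop :=
  f ≠ f' ∧ ∃ g g', exps z x y f g ∧ exps z x y f' g' ∧ X g g'

open Classical in
/-- the weights after suppression -/
noncomputable def suppW {V : Type} (w : Sym2 V → ℕ) (z x y : V) (f : Sym2 V) : ℕ :=
  if f = s(x, y) then w s(x, z) + w s(z, y) else w f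

/-- two paths `T`, `Q` with the same ends and otherwise disjoint; the inner vertices of `T` have
degree two, those of `Q` have degree at most `D`, and `Q` has weight at most `B`. -/
def GoodPair {V : Type} (H : SimpleGraph V) (D B : ℕ) (w : Sym2 V → ℕ) : Prop :=
  ∃ (u v : V) (T Q : H.Walk u v), u ≠ v ∧ T.IsPath ∧ Q.IsPath ∧
    (∀ f ∈ T.edges, f ∉ Q.edges) ∧
    (∀ x ∈ T.support, x ∈ Q.support → x = u ∨ x = v) ∧
    (∀ x ∈ T.support, x ≠ u → x ≠ v → deg H x = 2) ∧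
    (∀ x ∈ Q.support, x ≠ u → x ≠ v → deg H x ≤ D) ∧ (Q.edges.map w).sum ≤ B

end Pool.Agent.Helper83.OP
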