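import Pool.Agent.Helper83.OP.Defs

/-!
# OP-03: dense graphs have complete minors (Mader)
-/

namespace Pool.Agent.Helper83.OP

section MaderAux

variable {S : Type} [DecidableEq S] (Γ : SimpleGraph S) [DecidableRel Γ.Adj]

/-- number of ordered adjacent pairs inside `W` -/
def maderD (W : Finset S) : ℕ := ∑ x ∈ W, (W.filter (fun y => Γ.Adj x y)).card

/-- the outer neighbours of `U` in `W` -/
def maderN (W U : Finset S) : Finset S := (W \ U).filter (fun v => ∃ u ∈ U, Γ.Adj u v)

theorem maderD_insert (W : Finset S) (v : S) (hv : v ∉ W) :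
    maderD Γ (insert v W) = maderD Γ W + 2 * (W.filter (fun y => Γ.Adj v y)).card := by
  unfold maderD
  rw [Finset.sum_insert hv]
  have h1 : ((insert v W).filter (fun y => Γ.Adj v y)) = W.filter (fun y => Γ.Adj v y) := by
    rw [Finset.filter_insert, if_neg (Γ.irrefl)]
  have h2 : ∀ x ∈ W, ((insert v W).filter (fun y => Γ.Adj x y)).card =
      (W.filter (fun y => Γ.Adj x y)).card + if Γ.Adj x v then 1 else 0 := by
    intro x hx
    rw [Finset.filter_insert]
    by_cases h : Γ.Adj x v
    · rw [if_pos h, if_pos h, Finset.card_insert_of_notMem]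
      intro h'
      exact hv (Finset.mem_filter.mp h').1
    · rw [if_neg h, if_neg h, add_zero]
  rw [Finset.sum_congr rfl h2, Finset.sum_add_distrib, h1]
  have h3 : (∑ x ∈ W, if Γ.Adj x v then 1 else 0) = (W.filter (fun y => Γ.Adj v y)).card := by
    rw [Finset.card_filter]
    refine Finset.sum_congr rfl fun x _ => ?_
    simp only [Γ.adj_comm x v]
  rw [h3]
  ring

theorem maderN_insert (W U : Finset S) (v : S) (hv : v ∈ maderN Γ W U) :
    (maderN Γ W (insert v U)).card + ((maderN Γ W U).filter (fun y => Γ.Adj v y)).card + 1 =
      (maderN Γ W U).card + ((W \ insert v U).filter (fun y => Γ.Adj v y)).card := by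
  have h1 : maderN Γ W (insert v U) =
      ((maderN Γ W U).erase v) ∪ ((W \ insert v U).filter (fun y => Γ.Adj v y)) := by
    ext y
    simp only [maderN, Finset.mem_filter, Finset.mem_sdiff, Finset.mem_insert, Finset.mem_union,
      Finset.mem_erase]
    constructor
    · rintro ⟨⟨hy, hyn⟩, u, rfl | hu, hadj⟩
      · exact Or.inr ⟨⟨hy, hyn⟩, hadj⟩
      · push Not at hyn
        exact Or.inl ⟨hyn.1, ⟨hy, hyn.2⟩, u, hu, hadj⟩
    · rintro (⟨hne, ⟨hy, hyU⟩, u, hu, hadj⟩ | ⟨⟨hy, hyn⟩, hadj⟩)
      · exact ⟨⟨hy, by push Not; exact ⟨hne, hyU⟩⟩, u, Or.inr hu, hadj⟩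
      · exact ⟨⟨hy, hyn⟩, v, Or.inl rfl, hadj⟩
  have h2 : ((maderN Γ W U).erase v) ∩ ((W \ insert v U).filter (fun y => Γ.Adj v y)) =
      (maderN Γ W U).filter (fun y => Γ.Adj v y) := by
    ext y
    simp only [maderN, Finset.mem_filter, Finset.mem_sdiff, Finset.mem_insert, Finset.mem_inter,
      Finset.mem_erase]
    constructor
    · rintro ⟨⟨hne, ⟨hy, hyU⟩, u, hu, hadj⟩, -, hvy⟩
      exact ⟨⟨⟨hy, hyU⟩, u, hu, hadj⟩, hvy⟩
    · rintro ⟨⟨⟨hy, hyU⟩, u, hu, hadj⟩, hvy⟩
      have hne : y ≠ v := by rintro rfl; exact Γ.irrefl hvy
      exact ⟨⟨hne, ⟨hy, hyU⟩, u, hu, hadj⟩, ⟨hy, by push Not; exact ⟨hne, hyU⟩⟩, hvy⟩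
  have h3 := Finset.card_union_add_card_inter ((maderN Γ W U).erase v)
    ((W \ insert v U).filter (fun y => Γ.Adj v y))
  rw [← h1, h2] at h3
  have h4 := Finset.card_erase_add_one hv
  omega

/-- The main claim, for vertex sets inside a fixed graph. -/
theorem mader_aux (r : ℕ) : ∀ n : ℕ, ∀ W : Finset S, W.card ≤ n → W.Nonempty →
    2 ^ r * W.card ≤ maderD Γ W →
    ∃ B : Fin (r + 2) → Set S, (∀ i, B i ⊆ (W : Set S)) ∧
      (∀ i, (Γ.induce (B i)).Connected) ∧ (∀ i j, i ≠ j → Disjoint (B i) (B j)) ∧
      ∀ i j, i ≠ j → ∃ s ∈ B i, ∃ t ∈ B j, Γ.Adj s t := by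
  classical
  induction r with
  | zero =>
    intro n W _ hW h
    have hpos : 0 < maderD Γ W := by
      have := hW.card_pos
      simp only [pow_zero, one_mul] at h
      omega
    unfold maderD at hpos
    obtain ⟨x, hx, hx'⟩ : ∃ x ∈ W, (W.filter (fun y => Γ.Adj x y)).card ≠ 0 := by
      by_contra hcon
      push Not at hcon
      rw [Finset.sum_eq_zero hcon] at hpos
      exact lt_irrefl _ hpos
    obtain ⟨y, hy⟩ := Finset.card_pos.mp (Nat.pos_of_ne_zero hx')
    rw [Finset.mem_filter] at hy
    have hne : x ≠ y := hy.2.ne
    have hsing : ∀ z : S, (Γ.induce ({z} : Set S)).Connected := by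
      intro z
      have : Nonempty ({z} : Set S) := ⟨⟨z, rfl⟩⟩
      have : Subsingleton ({z} : Set S) := by
        rw [Set.subsingleton_coe]; exact Set.subsingleton_singleton
      exact SimpleGraph.Connected.mk (fun a b => by rw [Subsingleton.elim a b])
    refine ⟨![{x}, {y}], ?_, ?_, ?_, ?_⟩
    · intro i
      fin_cases i
      · simpa using hx
      · simpa using hy.1
    · intro i
      fin_cases i
      · exact hsing x
      · exact hsing y
    · intro i j hij
      fin_cases i <;> fin_cases j
      · exact absurd rfl hij
      · simpa using hne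
      · simpa using hne.symm
      · exact absurd rfl hij
    · intro i j hij
      fin_cases i <;> fin_cases j
      · exact absurd rfl hij
      · exact ⟨x, rfl, y, rfl, hy.2⟩
      · exact ⟨y, rfl, x, rfl, hy.2.symm⟩
      · exact absurd rfl hij
  | succ r ih =>
    intro n
    induction n with
    | zero =>
      intro W hn hW
      exact absurd hW.card_pos (by omega)
    | succ n ihn =>
      intro W hn hW h
      -- the good sets
      set Q : Finset S → Prop := fun U => (Γ.induce (U : Set S)).Connected ∧
        2 ^ (r + 1) * ((W \ U).card + 1) ≤ maderD Γ (W \ U) + 2 * (maderN Γ W U).card with hQ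
      obtain ⟨w0, hw0⟩ := hW
      have hQ0 : Q {w0} := by
        constructor
        · have : Nonempty ((({w0} : Finset S) : Set S)) := ⟨⟨w0, by simp⟩⟩
          have : Subsingleton ((({w0} : Finset S) : Set S)) := by
            rw [Set.subsingleton_coe, Finset.coe_singleton]; exact Set.subsingleton_singleton
          exact SimpleGraph.Connected.mk (fun a b => by rw [Subsingleton.elim a b])
        · have hins : insert w0 (W \ {w0}) = W := by
            ext y; simp only [Finset.mem_insert, Finset.mem_sdiff, Finset.mem_singleton]
            constructor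
            · rintro (rfl | h')
              · exact hw0
              · exact h'.1
            · intro hy
              by_cases hyw : y = w0
              · exact Or.inl hyw
              · exact Or.inr ⟨hy, hyw⟩
          have hnm : w0 ∉ W \ {w0} := by simp
          have e1 := maderD_insert Γ (W \ {w0}) w0 hnm
          rw [hins] at e1
          have e2 : (W \ {w0}).card + 1 = W.card := by
            rw [← Finset.card_insert_of_notMem hnm, hins]
          have e3 : maderN Γ W {w0} = (W \ {w0}).filter (fun y => Γ.Adj w0 y) := by
            unfold maderN; congr 1; ext y; simp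
          rw [e2, e3, ← e1]
          exact h
      obtain ⟨U, hU, hmax⟩ : ∃ U ∈ W.powerset.filter Q, ∀ U' ∈ W.powerset.filter Q,
          U'.card ≤ U.card := by
        apply Finset.exists_max_image
        exact ⟨{w0}, by simp only [Finset.mem_filter, Finset.mem_powerset,
          Finset.singleton_subset_iff]; exact ⟨hw0, hQ0⟩⟩
      rw [Finset.mem_filter, Finset.mem_powerset] at hU
      obtain ⟨hUW, hUconn, hUineq⟩ := hU
      have hUne : U.Nonempty := by
        obtain ⟨⟨x, hx⟩⟩ := hUconn.nonempty
        exact ⟨x, by simpa using hx⟩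
      by_cases hN : (maderN Γ W U) = ∅
      · -- pass to the rest
        rw [hN, Finset.card_empty, mul_zero, add_zero] at hUineq
        have hne : (W \ U).Nonempty := by
          rw [Finset.nonempty_iff_ne_empty]
          intro he
          rw [he] at hUineq
          simp [maderD] at hUineq
        have hcard : (W \ U).card ≤ n := by
          have h1 := Finset.card_sdiff_add_card_eq_card hUW
          have h2 := hUne.card_pos
          omega
        obtain ⟨B, h1, h2, h3, h4⟩ := ihn (W \ U) hcard hne (by
          refine le_trans ?_ hUineq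
          exact Nat.mul_le_mul_left _ (Nat.le_succ _))
        refine ⟨B, fun i => (h1 i).trans ?_, h2, h3, h4⟩
        intro x hx
        exact (Finset.mem_sdiff.mp (by simpa using hx)).1
      · -- use the neighbourhood
        have hNne : (maderN Γ W U).Nonempty := Finset.nonempty_iff_ne_empty.mpr hN
        have hdeg : ∀ v ∈ maderN Γ W U,
            2 ^ r ≤ ((maderN Γ W U).filter (fun y => Γ.Adj v y)).card := by
          intro v hv
          have hv' := hv
          rw [maderN, Finset.mem_filter, Finset.mem_sdiff] at hv'
          obtain ⟨⟨hvW, hvU⟩, u, hu, huv⟩ := hv'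
          have hconn : (Γ.induce ((insert v U : Finset S) : Set S)).Connected := by
            have := SimpleGraph.connected_induce_union (G := Γ) (s := (U : Set S))
              (t := ({v} : Set S)) hUconn.preconnected
              (by
                have : Subsingleton ({v} : Set S) := by
                  rw [Set.subsingleton_coe]; exact Set.subsingleton_singleton
                exact fun a b => by rw [Subsingleton.elim a b])
              (by simpa using hu) (Set.mem_singleton v) huv
            rwa [Finset.coe_insert, ← Set.union_singleton]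
          have hnot : ¬ Q (insert v U) := by
            intro hq
            have := hmax (insert v U) (by
              rw [Finset.mem_filter, Finset.mem_powerset]
              exact ⟨Finset.insert_subset hvW hUW, hq⟩)
            rw [Finset.card_insert_of_notMem hvU] at this
            omega
          have hlt : maderD Γ (W \ insert v U) + 2 * (maderN Γ W (insert v U)).card <
              2 ^ (r + 1) * ((W \ insert v U).card + 1) := by
            by_contra hcon
            exact hnot ⟨hconn, not_lt.mp hcon⟩
          have hnm : v ∉ W \ insert v U := by simp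
          have hins : insert v (W \ insert v U) = W \ U := by
            ext y
            simp only [Finset.mem_insert, Finset.mem_sdiff, not_or]
            constructor
            · rintro (rfl | ⟨h1, h2, h3⟩)
              · exact ⟨hvW, hvU⟩
              · exact ⟨h1, h3⟩
            · rintro ⟨h1, h2⟩
              by_cases hyv : y = v
              · exact Or.inl hyv
              · exact Or.inr ⟨h1, hyv, h2⟩
          have e1 := maderD_insert Γ (W \ insert v U) v hnm
          rw [hins] at e1
          have e2 : (W \ insert v U).card + 1 = (W \ U).card := by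
            rw [← Finset.card_insert_of_notMem hnm, hins]
          have e3 := maderN_insert Γ W U v hv
          rw [e2] at hlt
          have e4 : 2 ^ (r + 1) * ((W \ U).card + 1) =
            2 ^ (r + 1) * (W \ U).card + 2 * 2 ^ r := by ring
          rw [e4, e1] at hUineq
          omega
        have hD : 2 ^ r * (maderN Γ W U).card ≤ maderD Γ (maderN Γ W U) := by
          unfold maderD
          rw [mul_comm, ← smul_eq_mul]
          exact Finset.card_nsmul_le_sum _ _ _ hdeg
        obtain ⟨B, h1, h2, h3, h4⟩ := ih _ (maderN Γ W U) le_rfl hNne hD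
        have hBU : ∀ i, Disjoint (U : Set S) (B i) := by
          intro i
          rw [Set.disjoint_left]
          intro x hx hxB
          have := h1 i hxB
          simp only [maderN, Finset.coe_filter, Finset.mem_sdiff, Set.mem_ofPred_eq] at this
          exact this.1.2 (by simpa using hx)
        have hadj : ∀ i, ∃ s ∈ (U : Set S), ∃ t ∈ B i, Γ.Adj s t := by
          intro i
          obtain ⟨⟨t, ht⟩⟩ := (h2 i).nonempty
          have := h1 i ht
          simp only [maderN, Finset.coe_filter, Finset.mem_sdiff, Set.mem_ofPred_eq] at this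
          obtain ⟨-, u, hu, hadj⟩ := this
          exact ⟨u, by simpa using hu, t, ht, hadj⟩
        refine ⟨Fin.cons (U : Set S) B, ?_, ?_, ?_, ?_⟩
        · intro i
          refine Fin.cases ?_ (fun i => ?_) i
          · simpa using hUW
          · rw [Fin.cons_succ]
            refine (h1 i).trans ?_
            intro x hx
            simp only [maderN, Finset.coe_filter, Finset.mem_sdiff, Set.mem_ofPred_eq] at hx
            simpa using hx.1.1
        · intro i
          refine Fin.cases ?_ (fun i => ?_) i
          · exact hUconn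
          · rw [Fin.cons_succ]; exact h2 i
        · intro i j
          refine Fin.cases ?_ (fun i => ?_) i <;> refine Fin.cases ?_ (fun j => ?_) j
          · intro hij; exact absurd rfl hij
          · intro _; rw [Fin.cons_zero, Fin.cons_succ]; exact hBU j
          · intro _; rw [Fin.cons_zero, Fin.cons_succ]; exact (hBU i).symm
          · intro hij
            rw [Fin.cons_succ, Fin.cons_succ]
            exact h3 i j (fun h' => hij (by rw [h']))
        · intro i j
          refine Fin.cases ?_ (fun i => ?_) i <;> refine Fin.cases ?_ (fun j => ?_) j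
          · intro hij; exact absurd rfl hij
          · intro _; rw [Fin.cons_zero, Fin.cons_succ]; exact hadj j
          · intro _; rw [Fin.cons_zero, Fin.cons_succ]
            obtain ⟨s, hs, t, ht, hst⟩ := hadj i
            exact ⟨t, ht, s, hs, hst.symm⟩
          · intro hij
            rw [Fin.cons_succ, Fin.cons_succ]
            exact h4 i j (fun h' => hij (by rw [h']))

end MaderAux

open Classical in
theorem maderD_univ {S : Type} [Fintype S] (Γ : SimpleGraph S) :
    maderD Γ Finset.univ = 2 * Γ.edgeSet.ncard := by
  have h1 := Γ.sum_degrees_eq_twice_card_edges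
  have h2 : Γ.edgeSet.ncard = Γ.edgeFinset.card := by
    rw [← SimpleGraph.coe_edgeFinset, Set.ncard_coe_finset]
  rw [h2, ← h1]
  unfold maderD
  refine Finset.sum_congr rfl fun x _ => ?_
  rw [← SimpleGraph.card_neighborFinset_eq_degree, SimpleGraph.neighborFinset_eq_filter]

theorem mader {S : Type} [Finite S] [Nonempty S] (Γ : SimpleGraph S) (r : ℕ) (hr : 2 ≤ r)
    (h : 2 ^ (r - 2) * Nat.card S ≤ 2 * Γ.edgeSet.ncard) : HasModel r Γ := by
  classical
  have := Fintype.ofFinite S
  obtain ⟨q, rfl⟩ : ∃ q, r = q + 2 := ⟨r - 2, by omega⟩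
  obtain ⟨B, -, h2, h3, h4⟩ := mader_aux Γ q _ (Finset.univ : Finset S) le_rfl
    Finset.univ_nonempty (by
      rw [maderD_univ, Finset.card_univ, ← Nat.card_eq_fintype_card]
      simpa using h)
  exact ⟨B, h2, h3, h4⟩

theorem few_edges {V : Type} [Finite V] (Γ : SimpleGraph V) (T : Set V)
    (hT : ∀ s t, Γ.Adj s t → s ∈ T ∧ t ∈ T) (h : ¬ HasModel 5 Γ) :
    Γ.edgeSet.ncard ≤ 4 * T.ncard := by
  classical
  have := Fintype.ofFinite V
  by_contra hcon
  push Not at hcon
  apply h
  have hTcard : T.ncard = T.toFinset.card := Set.ncard_eq_toFinset_card' T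
  have hD : maderD Γ T.toFinset = 2 * Γ.edgeSet.ncard := by
    rw [← maderD_univ]
    unfold maderD
    rw [← Finset.sum_subset (Finset.subset_univ T.toFinset)]
    · refine Finset.sum_congr rfl fun x _ => ?_
      congr 1
      ext y
      simp only [Finset.mem_filter, Set.mem_toFinset, Finset.mem_univ, true_and]
      exact ⟨fun h' => h'.2, fun h' => ⟨(hT x y h').2, h'⟩⟩
    · intro x _ hx
      rw [Finset.card_eq_zero, Finset.filter_eq_empty_iff]
      intro y _ hxy
      exact hx (by rw [Set.mem_toFinset]; exact (hT x y hxy).1)
  have hne : T.toFinset.Nonempty := by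
    rw [Finset.nonempty_iff_ne_empty]
    intro he
    rw [he] at hD
    simp only [maderD, Finset.sum_empty] at hD
    omega
  obtain ⟨B, -, h2, h3, h4⟩ := mader_aux Γ 3 _ T.toFinset le_rfl hne (by
    rw [hD, ← hTcard]; omega)
  exact ⟨B, h2, h3, h4⟩

end Pool.Agent.Helper83.OP
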