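import Mathlib

/-!
# OP-07: random sampling
-/

namespace Pool.Agent.Helper83.OP

open Finset

section Sampling

variable {S : Type} [Fintype S] [DecidableEq S]

private theorem samp_weight (A F : Finset S) (hAF : Disjoint A F) (q : ℝ) :
    ∑ T : Finset S, (if A ⊆ T ∧ Disjoint F T then q ^ T.card * (1 - q) ^ (Tᶜ).card else 0) =
      q ^ A.card * (1 - q) ^ F.card := by
  have h1 := Finset.prod_add (fun s => if s ∉ F then q else 0)
    (fun s => if s ∉ A then 1 - q else 0) (univ : Finset S)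
  have h2 : ∀ s, ((if s ∉ F then q else 0) + (if s ∉ A then 1 - q else 0) : ℝ) =
      (if s ∈ A then q else 1) * (if s ∈ F then 1 - q else 1) := by
    intro s
    by_cases hA : s ∈ A
    · have hF : s ∉ F := fun h => (Finset.disjoint_left.1 hAF hA h)
      simp [hA, hF]
    · by_cases hF : s ∈ F
      · simp [hA, hF]
      · simp [hA, hF]
  rw [Finset.prod_congr rfl (fun s _ => h2 s), Finset.prod_mul_distrib, Finset.prod_ite_mem,
    Finset.prod_ite_mem, Finset.univ_inter, Finset.univ_inter, Finset.prod_const,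
    Finset.prod_const, Finset.powerset_univ] at h1
  rw [h1]
  refine Finset.sum_congr rfl (fun T _ => ?_)
  rw [Finset.prod_ite_zero, Finset.prod_ite_zero]
  have h3 : (∀ i ∈ T, i ∉ F) ↔ Disjoint F T := by
    rw [disjoint_comm, Finset.disjoint_left]
  have h4 : (∀ i ∈ univ \ T, i ∉ A) ↔ A ⊆ T := by
    constructor
    · intro h i hi
      by_contra hiT
      exact h i (by simp [hiT]) hi
    · intro h i hi hiA
      rw [mem_sdiff] at hi
      exact hi.2 (h hiA)
  by_cases h5 : A ⊆ T
  · by_cases h6 : Disjoint F T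
    · rw [if_pos ⟨h5, h6⟩, if_pos (h3.2 h6), if_pos (h4.2 h5), Finset.prod_const,
        Finset.prod_const, Finset.compl_eq_univ_sdiff]
    · rw [if_neg (fun h => h6 h.2), if_neg (fun h => h6 (h3.1 h)), zero_mul]
  · rw [if_neg (fun h => h5 h.1), if_neg (fun h => h5 (h4.1 h)), mul_zero]

private theorem samp_third (M : ℕ) (f : ℕ) (hf : f ≤ M) :
    (1 : ℝ) / 3 ≤ (1 - 1 / ((M : ℝ) + 1)) ^ f := by
  have hM : (0 : ℝ) < (M : ℝ) + 1 := by positivity
  have h0 : (0 : ℝ) ≤ 1 - 1 / ((M : ℝ) + 1) := by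
    rw [sub_nonneg, div_le_one hM]
    have : (0 : ℝ) ≤ M := Nat.cast_nonneg M
    linarith
  have h1 : 1 - 1 / ((M : ℝ) + 1) ≤ 1 := by
    have : 0 ≤ 1 / ((M : ℝ) + 1) := by positivity
    linarith
  have h2 : (1 - 1 / ((M : ℝ) + 1)) ^ M ≤ (1 - 1 / ((M : ℝ) + 1)) ^ f :=
    pow_le_pow_of_le_one h0 h1 hf
  refine le_trans ?_ h2
  rcases Nat.eq_zero_or_pos M with rfl | hpos
  · norm_num
  · have hMpos : (0 : ℝ) < M := by exact_mod_cast hpos
    have h3 : 1 - 1 / ((M : ℝ) + 1) = (1 + 1 / (M : ℝ))⁻¹ := by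
      field_simp
      ring
    rw [h3, inv_pow]
    have h4 : (1 + 1 / (M : ℝ)) ^ M ≤ Real.exp 1 := by
      have h5 : 1 + 1 / (M : ℝ) ≤ Real.exp (1 / M) := by
        have := Real.add_one_le_exp (1 / (M : ℝ))
        linarith
      calc (1 + 1 / (M : ℝ)) ^ M ≤ (Real.exp (1 / M)) ^ M :=
            pow_le_pow_left₀ (by positivity) h5 M
        _ = Real.exp 1 := by
            rw [← Real.exp_nat_mul]
            congr 1
            field_simp
    have h6 : Real.exp 1 < 3 := lt_trans Real.exp_one_lt_d9 (by norm_num)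
    rw [one_div]
    apply inv_anti₀ (by positivity)
    linarith

theorem sampling {S I : Type} [Fintype S] [Fintype I] [DecidableEq S] (A F : I → Finset S)
    (a M : ℕ) (hA : ∀ i, (A i).card = a) (hF : ∀ i, (F i).card ≤ M)
    (hAF : ∀ i, Disjoint (A i) (F i)) (c h : ℕ)
    (hT : ∀ T : Finset S,
      (Finset.univ.filter (fun i => A i ⊆ T ∧ Disjoint (F i) T)).card ≤ c * T.card + h) :
    (M + 1) * Fintype.card I ≤ 3 * (M + 1) ^ a * (c * Fintype.card S + (M + 1) * h) := by
  set q : ℝ := 1 / ((M : ℝ) + 1) with hq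
  have hM : (0 : ℝ) < (M : ℝ) + 1 := by positivity
  have hq0 : 0 < q := by positivity
  have hq1 : 0 ≤ 1 - q := by
    rw [hq, sub_nonneg, div_le_one hM]
    have : (0 : ℝ) ≤ M := Nat.cast_nonneg M
    linarith
  set w : Finset S → ℝ := fun T => q ^ T.card * (1 - q) ^ (Tᶜ).card with hw
  have hw0 : ∀ T, 0 ≤ w T := fun T => by positivity
  -- total weight
  have htot : ∑ T : Finset S, w T = 1 := by
    have := samp_weight (∅ : Finset S) ∅ (disjoint_bot_left) q
    simpa using this
  -- expected size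
  have hsize : ∑ T : Finset S, w T * (T.card : ℝ) = q * Fintype.card S := by
    have h1 : ∀ s : S, ∑ T : Finset S, (if s ∈ T then w T else 0) = q := by
      intro s
      have := samp_weight ({s} : Finset S) ∅ (disjoint_bot_right) q
      simpa using this
    have h2 : ∀ T : Finset S, w T * (T.card : ℝ) = ∑ s : S, (if s ∈ T then w T else 0) := by
      intro T
      rw [Finset.sum_ite_mem, Finset.univ_inter, Finset.sum_const, nsmul_eq_mul, mul_comm]
    rw [Finset.sum_congr rfl (fun T _ => h2 T), Finset.sum_comm,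
      Finset.sum_congr rfl (fun s _ => h1 s), Finset.sum_const, nsmul_eq_mul, mul_comm]
    rfl
  -- expected number of good indices
  have hgood : ∑ T : Finset S, w T *
      ((Finset.univ.filter (fun i => A i ⊆ T ∧ Disjoint (F i) T)).card : ℝ) =
      ∑ i, q ^ a * (1 - q) ^ (F i).card := by
    have h2 : ∀ T : Finset S, w T *
        ((Finset.univ.filter (fun i => A i ⊆ T ∧ Disjoint (F i) T)).card : ℝ) =
        ∑ i : I, (if A i ⊆ T ∧ Disjoint (F i) T then w T else 0) := by
      intro T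
      rw [← Finset.sum_filter, Finset.sum_const, nsmul_eq_mul, mul_comm]
    rw [Finset.sum_congr rfl (fun T _ => h2 T), Finset.sum_comm]
    refine Finset.sum_congr rfl (fun i _ => ?_)
    rw [← hA i]
    exact samp_weight (A i) (F i) (hAF i) q
  have h1 : (Fintype.card I : ℝ) * (q ^ a * (1 / 3)) ≤ ∑ i, q ^ a * (1 - q) ^ (F i).card := by
    rw [← nsmul_eq_mul, ← Finset.card_univ, ← Finset.sum_const]
    refine Finset.sum_le_sum (fun i _ => ?_)
    exact mul_le_mul_of_nonneg_left (samp_third M _ (hF i)) (by positivity)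
  have h2 : ∑ T : Finset S, w T *
      ((Finset.univ.filter (fun i => A i ⊆ T ∧ Disjoint (F i) T)).card : ℝ) ≤
      ∑ T : Finset S, w T * ((c : ℝ) * T.card + h) := by
    refine Finset.sum_le_sum (fun T _ => mul_le_mul_of_nonneg_left ?_ (hw0 T))
    exact_mod_cast hT T
  have h3 : ∑ T : Finset S, w T * ((c : ℝ) * T.card + h) = c * (q * Fintype.card S) + h := by
    simp only [mul_add]
    rw [Finset.sum_add_distrib, ← Finset.sum_mul, htot, one_mul]
    congr 1
    rw [← hsize, Finset.mul_sum]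
    exact Finset.sum_congr rfl (fun T _ => by ring)
  rw [hgood, h3] at h2
  have h4 := le_trans h1 h2
  have hqM : q * ((M : ℝ) + 1) = 1 := by
    rw [hq]
    field_simp
  have h5 : ((M : ℝ) + 1) * Fintype.card I ≤
      3 * ((M : ℝ) + 1) ^ a * (c * Fintype.card S + ((M : ℝ) + 1) * h) := by
    have hpow : q ^ a * ((M : ℝ) + 1) ^ a = 1 := by
      rw [← mul_pow, hqM, one_pow]
    have h6 := mul_le_mul_of_nonneg_right h4
      (by positivity : (0 : ℝ) ≤ 3 * ((M : ℝ) + 1) ^ a * ((M : ℝ) + 1))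
    calc ((M : ℝ) + 1) * Fintype.card I
        = (Fintype.card I : ℝ) * (q ^ a * (1 / 3)) * (3 * ((M : ℝ) + 1) ^ a * ((M : ℝ) + 1)) := by
          have : (Fintype.card I : ℝ) * (q ^ a * (1 / 3)) *
              (3 * ((M : ℝ) + 1) ^ a * ((M : ℝ) + 1)) =
              (Fintype.card I : ℝ) * ((M : ℝ) + 1) * (q ^ a * ((M : ℝ) + 1) ^ a) := by ring
          rw [this, hpow]
          ring
      _ ≤ (c * (q * Fintype.card S) + h) * (3 * ((M : ℝ) + 1) ^ a * ((M : ℝ) + 1)) := h6
      _ = 3 * ((M : ℝ) + 1) ^ a *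
          (c * Fintype.card S * (q * ((M : ℝ) + 1)) + ((M : ℝ) + 1) * h) := by ring
      _ = _ := by rw [hqM, mul_one]
  exact_mod_cast h5

end Sampling

end Pool.Agent.Helper83.OP
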