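import Pool.Agent.Helper83.OP.Defs

/-! # Clusters are tidy (OP-09) -/

namespace Pool.Agent.Helper83.OP

open Set

section F

variable {V : Type} {H : SimpleGraph V} {N : Set V} {ρ : ℕ}

theorem clus_path (K : Clus H N ρ) : ∀ v ∈ N, ∃ p : H.Walk (K.ctr v) v,
    p.length = K.d v ∧ (∀ x ∈ p.support, x ∈ N ∧ K.ctr x = K.ctr v) ∧
    (∀ f ∈ p.edges, ∃ x ∈ N, K.d x ≠ 0 ∧ f = s(x, K.par x) ∧ K.ctr x = K.ctr v) := by
  have key : ∀ n : ℕ, ∀ v ∈ N, K.d v = n → ∃ p : H.Walk (K.ctr v) v,
      p.length = K.d v ∧ (∀ x ∈ p.support, x ∈ N ∧ K.ctr x = K.ctr v) ∧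
      (∀ f ∈ p.edges, ∃ x ∈ N, K.d x ≠ 0 ∧ f = s(x, K.par x) ∧ K.ctr x = K.ctr v) := by
    intro n
    induction n with
    | zero =>
      intro v hv hd
      have h := K.d_zero v hv hd
      refine ⟨(SimpleGraph.Walk.nil : H.Walk v v).copy h.symm rfl, ?_, ?_, ?_⟩
      · rw [SimpleGraph.Walk.length_copy, hd]; rfl
      · intro x hx
        rw [SimpleGraph.Walk.support_copy, SimpleGraph.Walk.support_nil, List.mem_singleton] at hx
        rw [hx]
        exact ⟨hv, rfl⟩
      · intro f hf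
        rw [SimpleGraph.Walk.edges_copy, SimpleGraph.Walk.edges_nil] at hf
        exact absurd hf List.not_mem_nil
    | succ n ih =>
      intro v hv hd
      have h0 : K.d v ≠ 0 := by omega
      have h1 := K.par_mem v hv h0
      have h2 := K.par_adj v hv h0
      have h3 := K.par_d v hv h0
      have h4 := K.par_ctr v hv h0
      obtain ⟨p, hp1, hp2, hp3⟩ := ih (K.par v) h1 (by omega)
      refine ⟨(p.concat h2.symm).copy h4 rfl, ?_, ?_, ?_⟩
      · rw [SimpleGraph.Walk.length_copy, SimpleGraph.Walk.length_concat, hp1, h3]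
      · intro x hx
        rw [SimpleGraph.Walk.support_copy, SimpleGraph.Walk.support_concat,
          List.mem_append, List.mem_singleton] at hx
        rcases hx with hx | hx
        · exact ⟨(hp2 x hx).1, (hp2 x hx).2.trans h4⟩
        · rw [hx]; exact ⟨hv, rfl⟩
      · intro f hf
        rw [SimpleGraph.Walk.edges_copy, SimpleGraph.Walk.edges_concat,
          List.concat_eq_append, List.mem_append, List.mem_singleton] at hf
        rcases hf with hf | hf
        · obtain ⟨x, e1, e2, e3, e4⟩ := hp3 f hf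
          exact ⟨x, e1, e2, e3, e4.trans h4⟩
        · exact ⟨v, hv, h0, by rw [hf]; exact Sym2.eq_swap, rfl⟩
  intro v hv
  exact key _ v hv rfl

private theorem cyc [DecidableEq V] {v w : V} (h : H.Adj v w) (q : H.Walk v w)
    (hq : s(v, w) ∉ q.edges) {n : ℕ} (hn : q.length ≤ n) :
    ∃ C : H.Walk w w, C.IsCycle ∧ C.length ≤ n + 1 ∧ ∀ x ∈ C.support, x ∈ q.support := by
  refine ⟨SimpleGraph.Walk.cons h.symm q.bypass, ?_, ?_, ?_⟩
  · rw [SimpleGraph.Walk.cons_isCycle_iff]
    refine ⟨q.bypass_isPath, ?_⟩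
    rw [show s(w, v) = s(v, w) from Sym2.eq_swap]
    exact fun hh => hq (q.edges_bypass_subset_edges hh)
  · rw [SimpleGraph.Walk.length_cons]
    have := q.length_bypass_le_length
    omega
  · intro x hx
    rw [SimpleGraph.Walk.support_cons, List.mem_cons] at hx
    rcases hx with hx | hx
    · rw [hx]; exact q.end_mem_support
    · exact q.support_bypass_subset_support hx

private theorem join (K : Clus H N ρ) {v w : V} (hv : v ∈ N) (hw : w ∈ N)
    (h : K.ctr v = K.ctr w) : ∃ q : H.Walk v w, q.length ≤ 4 * ρ ∧ (∀ x ∈ q.support, x ∈ N) ∧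
      ∀ f ∈ q.edges, ∃ x ∈ N, K.d x ≠ 0 ∧ f = s(x, K.par x) := by
  obtain ⟨p, p1, p2, p3⟩ := clus_path K v hv
  obtain ⟨p', p1', p2', p3'⟩ := clus_path K w hw
  refine ⟨p.reverse.append (p'.copy h.symm rfl), ?_, ?_, ?_⟩
  · rw [SimpleGraph.Walk.length_append, SimpleGraph.Walk.length_reverse,
      SimpleGraph.Walk.length_copy, p1, p1']
    have := K.d_le v hv
    have := K.d_le w hw
    omega
  · intro x hx
    rw [SimpleGraph.Walk.mem_support_append_iff, SimpleGraph.Walk.support_reverse,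
      List.mem_reverse, SimpleGraph.Walk.support_copy] at hx
    rcases hx with hx | hx
    · exact (p2 x hx).1
    · exact (p2' x hx).1
  · intro f hf
    rw [SimpleGraph.Walk.edges_append, List.mem_append, SimpleGraph.Walk.edges_reverse,
      List.mem_reverse, SimpleGraph.Walk.edges_copy] at hf
    rcases hf with hf | hf
    · obtain ⟨x, e1, e2, e3, _⟩ := p3 f hf
      exact ⟨x, e1, e2, e3⟩
    · obtain ⟨x, e1, e2, e3, _⟩ := p3' f hf
      exact ⟨x, e1, e2, e3⟩

theorem clus_tidy (K : Clus H N ρ)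
    (hno : ∀ (u : V) (C : H.Walk u u), C.IsCycle → C.length ≤ 8 * ρ + 2 →
      ∀ hub, ∃ v ∈ C.support, v ≠ hub ∧ v ∉ N) : K.Tidy := by
  classical
  refine ⟨?_, ?_, ?_⟩
  · intro v hv w hw hvw hc
    by_contra hcon
    rw [not_or] at hcon
    obtain ⟨q, q1, q2, q3⟩ := join K hv hw hc
    have hq : s(v, w) ∉ q.edges := by
      intro hh
      obtain ⟨x, e1, e2, e3⟩ := q3 _ hh
      rw [Sym2.eq_iff] at e3
      rcases e3 with ⟨e3, e4⟩ | ⟨e3, e4⟩
      · exact hcon.1 ⟨by rw [e3]; exact e2, by rw [e4, e3]⟩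
      · exact hcon.2 ⟨by rw [e4]; exact e2, by rw [e3, e4]⟩
    obtain ⟨C, c1, c2, c3⟩ := cyc hvw q hq q1
    obtain ⟨x, x1, x2, x3⟩ := hno w C c1 (by omega) v
    exact x3 (q2 x (c3 x x1))
  · intro v hv w hw v' hv' w' hw' hvw hvw' hc hc' hne
    by_contra hcon
    obtain ⟨q, q1, q2, q3⟩ := join K hv hv' hc
    obtain ⟨q', q1', q2', q3'⟩ := join K hw' hw hc'.symm
    have hnp : ∀ x ∈ N, K.d x ≠ 0 → s(v, w) ≠ s(x, K.par x) := by
      intro x hx hd he
      have hpc := K.par_ctr x hx hd
      rw [Sym2.eq_iff] at he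
      rcases he with ⟨e3, e4⟩ | ⟨e3, e4⟩
      · exact hne (by rw [e4, hpc, e3])
      · exact hne (by rw [e3, hpc, e4])
    let Q : H.Walk v w := q.append (SimpleGraph.Walk.cons hvw' q')
    have hQ : s(v, w) ∉ Q.edges := by
      intro hh
      rw [SimpleGraph.Walk.edges_append, SimpleGraph.Walk.edges_cons, List.mem_append,
        List.mem_cons] at hh
      rcases hh with hh | hh | hh
      · obtain ⟨x, e1, e2, e3⟩ := q3 _ hh
        exact hnp x e1 e2 e3
      · rw [Sym2.eq_iff] at hh
        rcases hh with hh | ⟨h1, h2⟩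
        · exact hcon hh
        · exact hne (by rw [hc, ← h2])
      · obtain ⟨x, e1, e2, e3⟩ := q3' _ hh
        exact hnp x e1 e2 e3
    have hl : Q.length ≤ 8 * ρ + 1 := by
      rw [SimpleGraph.Walk.length_append, SimpleGraph.Walk.length_cons]
      omega
    obtain ⟨C, c1, c2, c3⟩ := cyc hvw Q hQ hl
    obtain ⟨x, x1, x2, x3⟩ := hno w C c1 (by omega) v
    have := c3 x x1
    rw [SimpleGraph.Walk.mem_support_append_iff, SimpleGraph.Walk.support_cons,
      List.mem_cons] at this
    rcases this with h | h | h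
    · exact x3 (q2 x h)
    · rw [h] at x3; exact x3 hv'
    · exact x3 (q2' x h)
  · intro v hv v' hv' g hg hvg hvg' hc
    by_contra hcon
    obtain ⟨q, q1, q2, q3⟩ := join K hv hv' hc
    let Q : H.Walk v g := q.concat hvg'
    have hQ : s(v, g) ∉ Q.edges := by
      intro hh
      rw [SimpleGraph.Walk.edges_concat, List.concat_eq_append, List.mem_append, List.mem_singleton] at hh
      rcases hh with hh | hh
      · have : g ∈ q.support := q.snd_mem_support_of_mem_edges hh
        exact hg (q2 g this)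
      · rw [Sym2.eq_iff] at hh
        rcases hh with ⟨h1, _⟩ | ⟨h1, h2⟩
        · exact hcon h1
        · exact hg (h1 ▸ hv)
    have hl : Q.length ≤ 4 * ρ + 1 := by
      rw [SimpleGraph.Walk.length_concat]
      omega
    obtain ⟨C, c1, c2, c3⟩ := cyc hvg Q hQ hl
    obtain ⟨x, x1, x2, x3⟩ := hno g C c1 (by omega) g
    have := c3 x x1
    rw [SimpleGraph.Walk.support_concat, List.mem_append, List.mem_singleton] at this
    rcases this with h | h
    · exact x3 (q2 x h)
    · exact x2 h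

theorem conf_card [Finite V] (X : Sym2 V → Sym2 V → Prop) (m : ℕ)
    (hX : ∀ f ∈ H.edgeSet, {f' | f' ∈ H.edgeSet ∧ X f f'}.ncard ≤ m) (K : Clus H N ρ)
    (E0 : Set (Sym2 V)) (hE : E0 ⊆ H.edgeSet) : (K.conf X E0).ncard ≤ 2 * m * E0.ncard := by
  classical
  have : Fintype V := Fintype.ofFinite V
  let part : Sym2 V → Finset (Sym2 V) := fun f =>
    Finset.univ.filter fun f' => f' ∈ H.edgeSet ∧ X f f'
  let nd : Sym2 V → Finset V := fun f' => (Finset.univ.filter fun x => x ∈ f').image K.ctr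
  have hnd : ∀ f', (nd f').card ≤ 2 := by
    intro f'
    refine Finset.card_image_le.trans ?_
    induction f' with
    | h a b =>
      have : (Finset.univ.filter fun x => x ∈ s(a, b)) ⊆ {a, b} := by
        intro x hx
        have := (Finset.mem_filter.1 hx).2
        rw [Sym2.mem_iff] at this
        simpa using this
      exact (Finset.card_le_card this).trans Finset.card_le_two
  have hpart : ∀ f ∈ H.edgeSet, (part f).card ≤ m := by
    intro f hf
    rw [← Set.ncard_coe_finset]
    refine le_trans (le_of_eq ?_) (hX f hf)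
    congr 1
    ext f'
    simp [part]
  have hE0 : E0.Finite := Set.toFinite _
  have hsub : K.conf X E0 ⊆
      ((hE0.toFinset.biUnion fun f => (part f).biUnion nd : Finset V) : Set V) := by
    rintro s ⟨f, hf, f', hf', hXf, x, hx, hxN, rfl⟩
    rw [Finset.mem_coe, Finset.mem_biUnion]
    refine ⟨f, hE0.mem_toFinset.2 hf, Finset.mem_biUnion.2 ⟨f', ?_, ?_⟩⟩
    · exact Finset.mem_filter.2 ⟨Finset.mem_univ _, hf', hXf⟩
    · exact Finset.mem_image.2 ⟨x, Finset.mem_filter.2 ⟨Finset.mem_univ _, hx⟩, rfl⟩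
  refine (Set.ncard_le_ncard hsub (Finset.finite_toSet _)).trans ?_
  rw [Set.ncard_coe_finset]
  refine (Finset.card_biUnion_le_card_mul _ _ (2 * m) ?_).trans ?_
  · intro f hf
    have hf' := hE (hE0.mem_toFinset.1 hf)
    refine (Finset.card_biUnion_le_card_mul _ _ 2 fun f' _ => hnd f').trans ?_
    have := hpart f hf'
    omega
  · rw [Set.ncard_eq_toFinset_card _ hE0]
    exact le_of_eq (by ring)

end F

end Pool.Agent.Helper83.OP
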