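import Pool.Agent.Helper83.OP.Defs
import Pool.Agent.Helper83.OP.Sampling
import Pool.Agent.Helper83.OP.Mader
import Pool.Agent.Helper83.OP.Tidy

/-! # Few edges between clusters (OP-12) -/

namespace Pool.Agent.Helper83.OP

open Set

section F

variable {V : Type} [Finite V] {H : SimpleGraph V} {N : Set V} {ρ : ℕ}

omit [Finite V] in
private theorem ctr_mem' (K : Clus H N ρ) {v : V} (hv : v ∈ N) : K.ctr v ∈ K.Ctr :=
  ⟨K.ctr_mem v hv, K.ctr_ctr v hv⟩

omit [Finite V] in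
private theorem cc_inj (K : Clus H N ρ) (hK : K.Tidy) :
    Set.InjOn (fun e : V × V => (K.ctr e.1, K.ctr e.2))
      {e : V × V | e.1 ∈ N ∧ e.2 ∈ N ∧ H.Adj e.1 e.2 ∧ K.ctr e.1 ≠ K.ctr e.2} := by
  rintro ⟨v, w⟩ ⟨h1, h2, h3, h4⟩ ⟨v', w'⟩ ⟨h1', h2', h3', h4'⟩ h
  simp only [Prod.mk.injEq] at h
  obtain ⟨e1, e2⟩ := hK.two v h1 w h2 v' h1' w' h2' h3 h3' h.1 h.2 h4
  rw [e1, e2]

theorem cc_small (K : Clus H N ρ) (hK : K.Tidy) :
    {e : V × V | e.1 ∈ N ∧ e.2 ∈ N ∧ H.Adj e.1 e.2 ∧ K.ctr e.1 ≠ K.ctr e.2}.ncard ≤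
      K.Ctr.ncard * (K.Ctr.ncard - 1) := by
  classical
  have hfin : K.Ctr.Finite := Set.toFinite _
  have h1 : K.Ctr.offDiag.ncard = K.Ctr.ncard * (K.Ctr.ncard - 1) := by
    rw [← Set.Finite.coe_toFinset hfin, ← Finset.coe_offDiag, Set.ncard_coe_finset,
      Set.ncard_coe_finset, Finset.offDiag_card, Nat.mul_sub, mul_one]
  rw [← h1]
  refine Set.ncard_le_ncard_of_injOn (fun e : V × V => (K.ctr e.1, K.ctr e.2)) ?_ (cc_inj K hK)
    (Set.toFinite _)
  rintro e ⟨h1, h2, h3, h4⟩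
  exact ⟨ctr_mem' K h1, ctr_mem' K h2, h4⟩

private theorem dart_count (Γ : SimpleGraph V) :
    {e : V × V | Γ.Adj e.1 e.2}.ncard = 2 * Γ.edgeSet.ncard := by
  classical
  have := Fintype.ofFinite V
  have h1 := Γ.dart_card_eq_twice_card_edges
  have h2 : Γ.edgeFinset.card = Γ.edgeSet.ncard := by
    rw [← Set.ncard_coe_finset, SimpleGraph.coe_edgeFinset]
  rw [← h2, ← h1, ← Nat.card_eq_fintype_card, ← Nat.card_coe_set_eq]
  exact Nat.card_congr
    { toFun := fun e => ⟨e.1, e.2⟩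
      invFun := fun d => ⟨d.toProd, d.adj⟩
      left_inv := fun _ => rfl
      right_inv := fun _ => rfl }

theorem cc_bound (X : Sym2 V → Sym2 V → Prop) (m : ℕ)
    (hX : ∀ f ∈ H.edgeSet, {f' | f' ∈ H.edgeSet ∧ X f f'}.ncard ≤ m) (hP : PlanarLike H X)
    (K : Clus H N ρ) (hK : K.Tidy) :
    {e : V × V | e.1 ∈ N ∧ e.2 ∈ N ∧ H.Adj e.1 e.2 ∧ K.ctr e.1 ≠ K.ctr e.2}.ncard ≤
      24 * (2 * m * (4 * ρ + 1) + 1) * K.Ctr.ncard := by
  classical
  have : Fintype V := Fintype.ofFinite V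
  have hinj := cc_inj K hK
  set M : ℕ := 2 * m * (4 * ρ + 1) with hM
  set J : Set (V × V) :=
    {e : V × V | e.1 ∈ N ∧ e.2 ∈ N ∧ H.Adj e.1 e.2 ∧ K.ctr e.1 ≠ K.ctr e.2} with hJ
  choose P hP1 hP2 hP3 using clus_path K
  -- route edges
  let E0 : V × V → Set (Sym2 V) := fun e =>
    {f | (∃ h : e.1 ∈ N, f ∈ (P e.1 h).edges) ∨ f = s(e.1, e.2) ∨
      ∃ h : e.2 ∈ N, f ∈ (P e.2 h).edges}
  have hE0H : ∀ e ∈ J, E0 e ⊆ H.edgeSet := by
    rintro e ⟨h1, h2, h3, h4⟩ f (⟨_, hf⟩ | hf | ⟨_, hf⟩)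
    · exact SimpleGraph.Walk.edges_subset_edgeSet _ hf
    · rw [hf]; exact h3
    · exact SimpleGraph.Walk.edges_subset_edgeSet _ hf
  have hE0c : ∀ e ∈ J, (E0 e).ncard ≤ 4 * ρ + 1 := by
    rintro e ⟨h1, h2, h3, h4⟩
    have hsub : E0 e ⊆
        (((P e.1 h1).edges ++ s(e.1, e.2) :: (P e.2 h2).edges).toFinset : Set (Sym2 V)) := by
      intro f hf
      simp only [List.coe_toFinset, Set.mem_ofPred_eq, List.mem_append, List.mem_cons]
      rcases hf with ⟨_, hf⟩ | hf | ⟨_, hf⟩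
      · exact Or.inl hf
      · exact Or.inr (Or.inl hf)
      · exact Or.inr (Or.inr hf)
    refine (Set.ncard_le_ncard hsub (Finset.finite_toSet _)).trans ?_
    rw [Set.ncard_coe_finset]
    refine (List.toFinset_card_le _).trans ?_
    rw [List.length_append, List.length_cons, SimpleGraph.Walk.length_edges,
      SimpleGraph.Walk.length_edges, hP1 _ h1, hP1 _ h2]
    have := K.d_le _ h1
    have := K.d_le _ h2
    omega
  have hsym : ∀ e : V × V, E0 e.swap = E0 e := by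
    intro e
    ext f
    show ((∃ h : e.2 ∈ N, f ∈ (P e.2 h).edges) ∨ f = s(e.2, e.1) ∨
        ∃ h : e.1 ∈ N, f ∈ (P e.1 h).edges) ↔
      ((∃ h : e.1 ∈ N, f ∈ (P e.1 h).edges) ∨ f = s(e.1, e.2) ∨
        ∃ h : e.2 ∈ N, f ∈ (P e.2 h).edges)
    rw [show s(e.2, e.1) = s(e.1, e.2) from Sym2.eq_swap]
    tauto
  have hJsym : ∀ e ∈ J, e.swap ∈ J := fun e ⟨h1, h2, h3, h4⟩ => ⟨h2, h1, h3.symm, h4.symm⟩
  -- every route edge has an end in the clusters
  have hend : ∀ e ∈ J, ∀ f ∈ E0 e,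
      ∃ x ∈ f, x ∈ N ∧ (K.ctr x = K.ctr e.1 ∨ K.ctr x = K.ctr e.2) := by
    rintro e ⟨h1, h2, h3, h4⟩ f (⟨_, hf⟩ | hf | ⟨_, hf⟩)
    · obtain ⟨x, hx, _, hx2, hx3⟩ := hP3 _ h1 f hf
      exact ⟨x, by rw [hx2]; simp, hx, Or.inl hx3⟩
    · exact ⟨e.1, by rw [hf]; simp, h1, Or.inl rfl⟩
    · obtain ⟨x, hx, _, hx2, hx3⟩ := hP3 _ h2 f hf
      exact ⟨x, by rw [hx2]; simp, hx, Or.inr hx3⟩
  -- sampling data
  let A : J → Finset K.Ctr := fun e => Finset.univ.filter fun s : K.Ctr =>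
    (s : V) = K.ctr e.1.1 ∨ (s : V) = K.ctr e.1.2
  let Fc : J → Finset K.Ctr := fun e => Finset.univ.filter fun s : K.Ctr =>
    (s : V) ∈ K.conf X (E0 e.1) ∧ (s : V) ≠ K.ctr e.1.1 ∧ (s : V) ≠ K.ctr e.1.2
  have hA : ∀ e, (A e).card = 2 := by
    intro e
    obtain ⟨h1, h2, h3, h4⟩ := e.2
    have : A e = {⟨K.ctr e.1.1, ctr_mem' K h1⟩, ⟨K.ctr e.1.2, ctr_mem' K h2⟩} := by
      ext s
      simp only [A, Finset.mem_filter, Finset.mem_univ, true_and, Finset.mem_insert,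
        Finset.mem_singleton, Subtype.ext_iff]
    rw [this, Finset.card_pair]
    intro h
    exact h4 (congrArg Subtype.val h)
  have hFc : ∀ e, (Fc e).card ≤ M := by
    intro e
    have h1 : (Fc e).card = ((Fc e).map (Function.Embedding.subtype _)).card :=
      (Finset.card_map _).symm
    rw [h1, ← Set.ncard_coe_finset]
    have h2 : (((Fc e).map (Function.Embedding.subtype _) : Finset V) : Set V) ⊆
        K.conf X (E0 e.1) := by
      intro s hs
      simp only [Finset.coe_map, Function.Embedding.subtype_apply, Set.mem_image,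
        Finset.mem_coe] at hs
      obtain ⟨s', hs', rfl⟩ := hs
      exact (Finset.mem_filter.1 hs').2.1
    refine (Set.ncard_le_ncard h2 (Set.toFinite _)).trans ?_
    refine (conf_card X m hX K (E0 e.1) (hE0H _ e.2)).trans ?_
    exact Nat.mul_le_mul_left _ (hE0c _ e.2)
  have hAF : ∀ e, Disjoint (A e) (Fc e) := by
    intro e
    rw [Finset.disjoint_left]
    intro s h1 h2
    have h3 := (Finset.mem_filter.1 h1).2
    have h4 := (Finset.mem_filter.1 h2).2
    rcases h3 with h3 | h3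
    · exact h4.2.1 h3
    · exact h4.2.2 h3
  have : Fintype J := Fintype.ofFinite J
  have hT : ∀ T : Finset K.Ctr,
      (Finset.univ.filter (fun e => A e ⊆ T ∧ Disjoint (Fc e) T)).card ≤ 8 * T.card + 0 := by
    intro T
    set T' : Set V := (fun s : K.Ctr => (s : V)) '' (T : Set K.Ctr) with hT'
    have hTc : T'.ncard = T.card := by
      rw [hT', Set.ncard_image_of_injective _ Subtype.val_injective, Set.ncard_coe_finset]
    let Γ : SimpleGraph V :=
      { Adj := fun s t => ∃ e ∈ J, K.ctr e.1 = s ∧ K.ctr e.2 = t ∧ s ∈ T' ∧ t ∈ T' ∧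
          ∀ x ∈ T', x ∈ K.conf X (E0 e) → x = s ∨ x = t
        symm := ⟨by
          rintro s t ⟨e, he, h1, h2, h3, h4, h5⟩
          refine ⟨e.swap, hJsym e he, h2, h1, h4, h3, ?_⟩
          intro x hx hx2
          rw [hsym] at hx2
          exact (h5 x hx hx2).symm⟩
        loopless := ⟨by
          rintro s ⟨e, he, h1, h2, _⟩
          exact he.2.2.2 (h1.trans h2.symm)⟩ }
    have hW : ∀ s t, Γ.Adj s t → ∃ p : H.Walk s t,
        (∀ x ∈ p.support, K.ctr x = s ∨ K.ctr x = t) ∧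
        ∃ e ∈ J, K.ctr e.1 = s ∧ K.ctr e.2 = t ∧ s ∈ T' ∧ t ∈ T' ∧ (∀ f ∈ p.edges, f ∈ E0 e) ∧
          ∀ x ∈ T', x ∈ K.conf X (E0 e) → x = s ∨ x = t := by
      rintro s t ⟨e, he, rfl, rfl, h3, h4, h5⟩
      obtain ⟨k1, k2, k3, k4⟩ := he
      refine ⟨(P e.1 k1).append (SimpleGraph.Walk.cons k3 (P e.2 k2).reverse), ?_, e,
        ⟨k1, k2, k3, k4⟩, rfl, rfl, h3, h4, ?_, h5⟩
      · intro x hx
        rw [SimpleGraph.Walk.mem_support_append_iff, SimpleGraph.Walk.support_cons,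
          List.mem_cons, SimpleGraph.Walk.support_reverse, List.mem_reverse] at hx
        rcases hx with hx | hx | hx
        · exact Or.inl (hP2 _ k1 x hx).2
        · rw [hx]; exact Or.inl rfl
        · exact Or.inr (hP2 _ k2 x hx).2
      · intro f hf
        rw [SimpleGraph.Walk.edges_append, SimpleGraph.Walk.edges_cons, List.mem_append,
          List.mem_cons, SimpleGraph.Walk.edges_reverse, List.mem_reverse] at hf
        rcases hf with hf | hf | hf
        · exact Or.inl ⟨k1, hf⟩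
        · exact Or.inr (Or.inl hf)
        · exact Or.inr (Or.inr ⟨k2, hf⟩)
    choose R hR1 hR2 using hW
    have hmod := hP Γ R (by
      intro s t s' t' h h' n1 n2 n3 n4
      refine ⟨?_, ?_⟩
      · intro v hv hv'
        rcases hR1 s t h v hv with h1 | h1
        · rcases hR1 s' t' h' v hv' with h2 | h2
          · exact n1 (h1.symm.trans h2)
          · exact n2 (h1.symm.trans h2)
        · rcases hR1 s' t' h' v hv' with h2 | h2
          · exact n3 (h1.symm.trans h2)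
          · exact n4 (h1.symm.trans h2)
      · intro f hf f' hf' hXf
        obtain ⟨e, he, e1, e2, e3, e4, e5, e6⟩ := hR2 s t h
        obtain ⟨e', he', e1', e2', e3', e4', e5', e6'⟩ := hR2 s' t' h'
        obtain ⟨x, hx, hxN, hx2⟩ := hend e' he' f' (e5' f' hf')
        rw [e1', e2'] at hx2
        have hxT : K.ctr x ∈ T' := by
          rcases hx2 with h0 | h0
          · rw [h0]; exact e3'
          · rw [h0]; exact e4'
        have hxc : K.ctr x ∈ K.conf X (E0 e) :=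
          ⟨f, e5 f hf, f', hE0H e' he' (e5' f' hf'), hXf, x, hx, hxN, rfl⟩
        rcases e6 _ hxT hxc with h1 | h1
        · rcases hx2 with h0 | h0
          · exact n1 (h1.symm.trans h0)
          · exact n2 (h1.symm.trans h0)
        · rcases hx2 with h0 | h0
          · exact n3 (h1.symm.trans h0)
          · exact n4 (h1.symm.trans h0))
    have hfe := few_edges Γ T' (by
      rintro s t ⟨e, he, h1, h2, h3, h4, h5⟩
      exact ⟨h3, h4⟩) hmod.1
    have hcount : (Finset.univ.filter (fun e => A e ⊆ T ∧ Disjoint (Fc e) T)).card ≤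
        {e : V × V | Γ.Adj e.1 e.2}.ncard := by
      rw [← Set.ncard_coe_finset]
      refine Set.ncard_le_ncard_of_injOn (fun e : J => (K.ctr e.1.1, K.ctr e.1.2)) ?_ ?_
        (Set.toFinite _)
      · intro e he
        obtain ⟨h1, h2⟩ := (Finset.mem_filter.1 (Finset.mem_coe.1 he)).2
        obtain ⟨k1, k2, k3, k4⟩ := e.2
        refine ⟨e.1, e.2, rfl, rfl, ?_, ?_, ?_⟩
        · exact ⟨⟨K.ctr e.1.1, ctr_mem' K k1⟩,
            Finset.mem_coe.2 (h1 (Finset.mem_filter.2 ⟨Finset.mem_univ _, Or.inl rfl⟩)), rfl⟩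
        · exact ⟨⟨K.ctr e.1.2, ctr_mem' K k2⟩,
            Finset.mem_coe.2 (h1 (Finset.mem_filter.2 ⟨Finset.mem_univ _, Or.inr rfl⟩)), rfl⟩
        · rintro x ⟨s, hs, rfl⟩ hx
          by_contra hcon
          rw [not_or] at hcon
          exact Finset.disjoint_left.1 h2
            (Finset.mem_filter.2 ⟨Finset.mem_univ _, hx, hcon.1, hcon.2⟩) (Finset.mem_coe.1 hs)
      · intro e _ e' _ hee
        exact Subtype.ext (hinj e.2 e'.2 hee)
    rw [dart_count Γ] at hcount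
    rw [hTc] at hfe
    omega
  have hS := sampling A Fc 2 M hA hFc hAF 8 0 hT
  have hc1 : Fintype.card J = J.ncard := by
    rw [← Nat.card_eq_fintype_card, Nat.card_coe_set_eq]
  have hc2 : Fintype.card K.Ctr = K.Ctr.ncard := by
    rw [← Nat.card_eq_fintype_card, Nat.card_coe_set_eq]
  rw [hc1, hc2] at hS
  have h5 : (M + 1) * J.ncard ≤ (M + 1) * (24 * (M + 1) * K.Ctr.ncard) := by
    calc (M + 1) * J.ncard ≤ 3 * (M + 1) ^ 2 * (8 * K.Ctr.ncard + (M + 1) * 0) := hS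
      _ = (M + 1) * (24 * (M + 1) * K.Ctr.ncard) := by ring
  exact Nat.le_of_mul_le_mul_left h5 (Nat.succ_pos M)

end F

end Pool.Agent.Helper83.OP
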