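import Pool.Agent.Helper83.OP.Mader
import Pool.Agent.Helper83.OP.Tidy
import Pool.Agent.Helper83.OP.Sampling

/-!
# OP-13: edges between clusters and vertices outside `N`
-/

namespace Pool.Agent.Helper83.OP

open Set

section CH

variable {V : Type} [Finite V] {H : SimpleGraph V} {N : Set V} {ρ : ℕ}

/-- the route from the centre of the cluster of `v` to a neighbour `g` of `v` -/
theorem ch_route (K : Clus H N ρ) (v g : V) (hv : v ∈ N) (hvg : H.Adj v g) :
    ∃ p : H.Walk (K.ctr v) g, p.length ≤ 2 * ρ + 1 ∧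
      (∀ x ∈ p.support, (x ∈ N ∧ K.ctr x = K.ctr v) ∨ x = g) ∧
      (∀ f ∈ p.edges, ∃ x ∈ f, x ∈ N ∧ K.ctr x = K.ctr v) := by
  obtain ⟨p, hp1, hp2, hp3⟩ := clus_path K v hv
  refine ⟨p.concat hvg, ?_, ?_, ?_⟩
  · rw [SimpleGraph.Walk.length_concat, hp1]
    have := K.d_le v hv
    omega
  · intro x hx
    rw [SimpleGraph.Walk.support_concat, List.mem_append] at hx
    rcases hx with hx | hx
    · exact Or.inl (hp2 x hx)
    · exact Or.inr (by simpa using hx)
  · intro f hf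
    rw [SimpleGraph.Walk.edges_concat, List.concat_eq_append, List.mem_append] at hf
    rcases hf with hf | hf
    · obtain ⟨x, hx, _, hfx, hc⟩ := hp3 f hf
      exact ⟨x, by rw [hfx]; exact Sym2.mem_mk_left _ _, hx, hc⟩
    · have hf' : f = s(v, g) := by simpa using hf
      exact ⟨v, by rw [hf']; exact Sym2.mem_mk_left _ _, hv, rfl⟩

theorem ch_bound (X : Sym2 V → Sym2 V → Prop) (m : ℕ)
    (hX : ∀ f ∈ H.edgeSet, {f' | f' ∈ H.edgeSet ∧ X f f'}.ncard ≤ m) (hP : PlanarLike H X)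
    (K : Clus H N ρ) (hK : K.Tidy) :
    {e : V × V | e.1 ∈ N ∧ e.2 ∉ N ∧ H.Adj e.1 e.2}.ncard ≤
      12 * (K.Ctr.ncard + (2 * m * (4 * ρ + 1) + 1) * {g | g ∉ N ∧ deg H g ≠ 0}.ncard) := by
  classical
  have _ := Fintype.ofFinite V
  set M := 2 * m * (4 * ρ + 1) with hM
  set Hb : Set V := {g | g ∉ N ∧ deg H g ≠ 0} with hHb
  let I : Type := {e : V × V // e.1 ∈ N ∧ e.2 ∉ N ∧ H.Adj e.1 e.2}
  let S : Type := {s : V // s ∈ K.Ctr}
  have hroute : ∀ e : I, ∃ p : H.Walk (K.ctr e.1.1) e.1.2, p.length ≤ 2 * ρ + 1 ∧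
      (∀ x ∈ p.support, (x ∈ N ∧ K.ctr x = K.ctr e.1.1) ∨ x = e.1.2) ∧
      (∀ f ∈ p.edges, ∃ x ∈ f, x ∈ N ∧ K.ctr x = K.ctr e.1.1) :=
    fun e => ch_route K e.1.1 e.1.2 e.2.1 e.2.2.2
  choose p hp1 hp2 hp3 using hroute
  let E0 : I → Set (Sym2 V) := fun e => {f | f ∈ (p e).edges}
  have hE0 : ∀ e, E0 e ⊆ H.edgeSet := fun e f hf => (p e).edges_subset_edgeSet hf
  have hE0c : ∀ e, (E0 e).ncard ≤ 2 * ρ + 1 := by
    intro e
    have h1 : E0 e = ((p e).edges.toFinset : Set (Sym2 V)) := by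
      ext f; simp [E0]
    rw [h1, Set.ncard_coe_finset]
    refine (List.toFinset_card_le _).trans ?_
    rw [SimpleGraph.Walk.length_edges]
    exact hp1 e
  have hctr : ∀ e : I, K.ctr e.1.1 ∈ K.Ctr := fun e => ⟨K.ctr_mem _ e.2.1, K.ctr_ctr _ e.2.1⟩
  let A : I → Finset S := fun e => {⟨K.ctr e.1.1, hctr e⟩}
  let F : I → Finset S := fun e =>
    Finset.univ.filter (fun s : S => s.1 ∈ K.conf X (E0 e) ∧ s.1 ≠ K.ctr e.1.1)
  have hF : ∀ e, (F e).card ≤ M := by
    intro e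
    have h1 : (F e).card ≤ (K.conf X (E0 e)).ncard := by
      rw [← Set.ncard_coe_finset]
      refine Set.ncard_le_ncard_of_injOn (fun s : S => s.1) ?_ ?_ (Set.toFinite _)
      · intro s hs
        have hs' : s ∈ F e := hs
        rw [Finset.mem_filter] at hs'
        exact hs'.2.1
      · intro s _ t _ hst
        exact Subtype.ext hst
    have h2 := conf_card X m hX K (E0 e) (hE0 e)
    have h3 := hE0c e
    calc (F e).card ≤ 2 * m * (E0 e).ncard := h1.trans h2
      _ ≤ 2 * m * (4 * ρ + 1) := Nat.mul_le_mul_left _ (by omega)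
  have hAF : ∀ e, Disjoint (A e) (F e) := by
    intro e
    rw [Finset.disjoint_left]
    intro s hs hs'
    rw [Finset.mem_singleton] at hs
    rw [Finset.mem_filter] at hs'
    exact hs'.2.2 (by rw [hs])
  have hT : ∀ T : Finset S,
      (Finset.univ.filter (fun e : I => A e ⊆ T ∧ Disjoint (F e) T)).card ≤
        4 * T.card + 4 * Hb.ncard := by
    intro T
    let good : I → Prop := fun e => A e ⊆ T ∧ Disjoint (F e) T
    let Γ : SimpleGraph V := SimpleGraph.fromRel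
      (fun s g => ∃ e : I, good e ∧ K.ctr e.1.1 = s ∧ e.1.2 = g)
    have hAT : ∀ e : I, good e → (⟨K.ctr e.1.1, hctr e⟩ : S) ∈ T := by
      intro e he
      exact he.1 (Finset.mem_singleton_self _)
    have hcN : ∀ e : I, K.ctr e.1.1 ∈ N := fun e => K.ctr_mem _ e.2.1
    have hadj : ∀ s t, Γ.Adj s t → ∃ e : I, good e ∧
        ((K.ctr e.1.1 = s ∧ e.1.2 = t) ∨ (K.ctr e.1.1 = t ∧ e.1.2 = s)) := by
      intro s t hst
      rw [SimpleGraph.fromRel_adj] at hst
      obtain ⟨_, h | h⟩ := hst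
      · obtain ⟨e, he, h1, h2⟩ := h
        exact ⟨e, he, Or.inl ⟨h1, h2⟩⟩
      · obtain ⟨e, he, h1, h2⟩ := h
        exact ⟨e, he, Or.inr ⟨h1, h2⟩⟩
    -- the walks
    have hR : ∀ s t (_ : Γ.Adj s t), ∃ w : H.Walk s t, ∃ e : I, good e ∧
        ((K.ctr e.1.1 = s ∧ e.1.2 = t) ∨ (K.ctr e.1.1 = t ∧ e.1.2 = s)) ∧
        (∀ x ∈ w.support, x ∈ (p e).support) ∧ (∀ f ∈ w.edges, f ∈ (p e).edges) := by
      intro s t hst
      obtain ⟨e, he, ⟨h1, h2⟩ | ⟨h1, h2⟩⟩ := hadj s t hst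
      · refine ⟨(p e).copy h1 h2, e, he, Or.inl ⟨h1, h2⟩, ?_, ?_⟩
        · intro x hx; rwa [SimpleGraph.Walk.support_copy] at hx
        · intro f hf; rwa [SimpleGraph.Walk.edges_copy] at hf
      · refine ⟨((p e).copy h1 h2).reverse, e, he, Or.inr ⟨h1, h2⟩, ?_, ?_⟩
        · intro x hx
          rw [SimpleGraph.Walk.support_reverse, List.mem_reverse,
            SimpleGraph.Walk.support_copy] at hx
          exact hx
        · intro f hf
          rw [SimpleGraph.Walk.edges_reverse, List.mem_reverse,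
            SimpleGraph.Walk.edges_copy] at hf
          exact hf
    choose R ee hee hends hsupp hedges using hR
    have hPL := hP Γ R (by
      intro s t s' t' h h' hss hst hts htt
      have hne1 : K.ctr (ee s t h).1.1 ≠ K.ctr (ee s' t' h').1.1 := by
        rcases hends s t h with ⟨a1, a2⟩ | ⟨a1, a2⟩ <;>
        rcases hends s' t' h' with ⟨b1, b2⟩ | ⟨b1, b2⟩ <;> rw [a1, b1] <;> assumption
      have hne2 : (ee s t h).1.2 ≠ (ee s' t' h').1.2 := by
        rcases hends s t h with ⟨a1, a2⟩ | ⟨a1, a2⟩ <;>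
        rcases hends s' t' h' with ⟨b1, b2⟩ | ⟨b1, b2⟩ <;> rw [a2, b2] <;> assumption
      refine ⟨?_, ?_⟩
      · intro x hx hx'
        have h1 := hp2 _ x (hsupp s t h x hx)
        have h2 := hp2 _ x (hsupp s' t' h' x hx')
        rcases h1 with ⟨h1, h1'⟩ | h1 <;> rcases h2 with ⟨h2, h2'⟩ | h2
        · exact hne1 (h1'.symm.trans h2')
        · rw [h2] at h1
          exact (ee s' t' h').2.2.1 h1
        · rw [h1] at h2
          exact (ee s t h).2.2.1 h2
        · exact hne2 (h1.symm.trans h2)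
      · intro f hf f' hf' hXf
        have h1 := hedges s t h f hf
        have h2 := hedges s' t' h' f' hf'
        obtain ⟨x, hx, hxN, hxc⟩ := hp3 _ f' h2
        have h3 : K.ctr (ee s' t' h').1.1 ∈ K.conf X (E0 (ee s t h)) :=
          ⟨f, h1, f', (p _).edges_subset_edgeSet h2, hXf, x, hx, hxN, hxc⟩
        have h4 : (⟨K.ctr (ee s' t' h').1.1, hctr _⟩ : S) ∈ F (ee s t h) := by
          rw [Finset.mem_filter]
          exact ⟨Finset.mem_univ _, h3, hne1.symm⟩
        exact (Finset.disjoint_left.1 (hee s t h).2 h4) (hAT _ (hee s' t' h')))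
    let T' : Set V := ((fun s : S => s.1) '' (T : Set S)) ∪ Hb
    have hHbmem : ∀ e : I, e.1.2 ∈ Hb := by
      intro e
      refine ⟨e.2.2.1, ?_⟩
      have h1 : e.1.1 ∈ H.neighborSet e.1.2 := e.2.2.2.symm
      unfold deg
      exact ((Set.ncard_pos (Set.toFinite _)).2 ⟨_, h1⟩).ne'
    have hTmem : ∀ e : I, good e → K.ctr e.1.1 ∈ T' := by
      intro e he
      exact Or.inl ⟨⟨K.ctr e.1.1, hctr e⟩, hAT e he, rfl⟩
    have hfew := few_edges Γ T' (by
      intro s t hst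
      obtain ⟨e, he, ⟨h1, h2⟩ | ⟨h1, h2⟩⟩ := hadj s t hst
      · exact ⟨h1 ▸ hTmem e he, h2 ▸ Or.inr (hHbmem e)⟩
      · exact ⟨h2 ▸ Or.inr (hHbmem e), h1 ▸ hTmem e he⟩) hPL.1
    have hT'c : T'.ncard ≤ T.card + Hb.ncard := by
      refine (Set.ncard_union_le _ _).trans ?_
      have : ((fun s : S => s.1) '' (T : Set S)).ncard ≤ T.card := by
        refine (Set.ncard_image_le (Set.toFinite _)).trans ?_
        rw [Set.ncard_coe_finset]
      omega
    have hinj : (Finset.univ.filter (fun e : I => A e ⊆ T ∧ Disjoint (F e) T)).card ≤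
        Γ.edgeSet.ncard := by
      rw [← Set.ncard_coe_finset]
      refine Set.ncard_le_ncard_of_injOn (fun e : I => s(K.ctr e.1.1, e.1.2)) ?_ ?_
        (Set.toFinite _)
      · intro e he
        have he' : e ∈ Finset.univ.filter (fun e : I => A e ⊆ T ∧ Disjoint (F e) T) := he
        rw [Finset.mem_filter] at he'
        change Γ.Adj _ _
        rw [SimpleGraph.fromRel_adj]
        refine ⟨fun heq => ?_, Or.inl ⟨e, he'.2, rfl, rfl⟩⟩
        have heq' : K.ctr e.1.1 = e.1.2 := heq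
        have := hcN e
        rw [heq'] at this
        exact e.2.2.1 this
      · intro e _ e' _ hee'
        have h1 : s(K.ctr e.1.1, e.1.2) = s(K.ctr e'.1.1, e'.1.2) := hee'
        rw [Sym2.eq_iff] at h1
        rcases h1 with ⟨h1, h2⟩ | ⟨h1, h2⟩
        · apply Subtype.ext
          have h3 : e.1.1 = e'.1.1 :=
            hK.hub e.1.1 e.2.1 e'.1.1 e'.2.1 e.1.2 e.2.2.1 e.2.2.2 (h2 ▸ e'.2.2.2) h1
          exact Prod.ext h3 h2
        · exfalso
          have := hcN e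
          rw [h1] at this
          exact e'.2.2.1 this
    calc (Finset.univ.filter (fun e : I => A e ⊆ T ∧ Disjoint (F e) T)).card
        ≤ 4 * T'.ncard := hinj.trans hfew
      _ ≤ 4 * (T.card + Hb.ncard) := Nat.mul_le_mul_left _ hT'c
      _ = 4 * T.card + 4 * Hb.ncard := by ring
  have hs := sampling A F 1 M (fun e => Finset.card_singleton _) hF hAF 4 (4 * Hb.ncard) hT
  have hI : Fintype.card I = {e : V × V | e.1 ∈ N ∧ e.2 ∉ N ∧ H.Adj e.1 e.2}.ncard := by
    rw [← Nat.card_eq_fintype_card]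
    rfl
  have hS : Fintype.card S = K.Ctr.ncard := by
    rw [← Nat.card_eq_fintype_card]
    rfl
  rw [hI, hS, pow_one] at hs
  have h2 : (M + 1) * {e : V × V | e.1 ∈ N ∧ e.2 ∉ N ∧ H.Adj e.1 e.2}.ncard ≤
      (M + 1) * (12 * (K.Ctr.ncard + (M + 1) * Hb.ncard)) := by
    refine hs.trans (le_of_eq ?_)
    ring
  exact Nat.le_of_mul_le_mul_left h2 (Nat.succ_pos _)

end CH

end Pool.Agent.Helper83.OP
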