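import Pool.Agent.Helper83.OP.Defs
import Pool.Agent.Helper83.OP.Mader

/-!
# OP-15: the number of edges
-/

namespace Pool.Agent.Helper83.OP

open Set

section EdgeBound

variable {V : Type} [Finite V] {H : SimpleGraph V}

theorem edge_bound (X : Sym2 V → Sym2 V → Prop) (m : ℕ) (hsym : ∀ f f', X f f' → X f' f)
    (hX : ∀ f ∈ H.edgeSet, {f' | f' ∈ H.edgeSet ∧ X f f'}.ncard ≤ m) (hP : PlanarLike H X) :
    H.edgeSet.ncard ≤ 4 * (m + 1) * {v | deg H v ≠ 0}.ncard := by
  classical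
  have hne : {E : Set (Sym2 V) | E ⊆ H.edgeSet ∧
      ∀ f ∈ E, ∀ f' ∈ E, f ≠ f' → ¬ X f f'}.Nonempty := ⟨∅, by simp⟩
  obtain ⟨E, hE⟩ := (Set.toFinite {E : Set (Sym2 V) | E ⊆ H.edgeSet ∧
      ∀ f ∈ E, ∀ f' ∈ E, f ≠ f' → ¬ X f f'}).exists_maximal hne
  obtain ⟨hEH, hEX⟩ := hE.prop
  -- counting
  have hcov : H.edgeSet ⊆ E ∪ ⋃ f ∈ E, {f' | f' ∈ H.edgeSet ∧ X f f'} := by
    intro f hf
    by_cases hfE : f ∈ E
    · exact Or.inl hfE
    · right
      by_contra hcon
      apply hfE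
      have hins : insert f E ∈ {E : Set (Sym2 V) | E ⊆ H.edgeSet ∧
          ∀ f ∈ E, ∀ f' ∈ E, f ≠ f' → ¬ X f f'} := by
        refine ⟨Set.insert_subset hf hEH, ?_⟩
        have hno : ∀ g ∈ E, ¬ X g f := by
          intro g hg hgf
          exact hcon (Set.mem_biUnion hg ⟨hf, hgf⟩)
        rintro g (rfl | hg) g' (rfl | hg') hne hgg
        · exact hne rfl
        · exact hno g' hg' (hsym _ _ hgg)
        · exact hno g hg hgg
        · exact hEX g hg g' hg' hne hgg
      exact hE.le_of_ge hins (Set.subset_insert f E) (Set.mem_insert f E)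
  have hcard : H.edgeSet.ncard ≤ (m + 1) * E.ncard := by
    have hEf : E.Finite := Set.toFinite E
    have h1 : (⋃ f ∈ E, {f' | f' ∈ H.edgeSet ∧ X f f'}).ncard ≤ m * E.ncard := by
      have h2 : (⋃ f ∈ E, {f' | f' ∈ H.edgeSet ∧ X f f'}) =
          ⋃ f ∈ hEf.toFinset, {f' | f' ∈ H.edgeSet ∧ X f f'} := by
        simp
      rw [h2]
      refine (Finset.set_ncard_biUnion_le _ _).trans ?_
      rw [Set.ncard_eq_toFinset_card E hEf, mul_comm]
      refine (Finset.sum_le_card_nsmul _ _ m ?_).trans (le_of_eq (smul_eq_mul _ _))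
      intro f hf
      exact hX f (hEH ((Set.Finite.mem_toFinset hEf).1 hf))
    have h3 := Set.ncard_le_ncard hcov (Set.toFinite _)
    have h4 := Set.ncard_union_le E (⋃ f ∈ E, {f' | f' ∈ H.edgeSet ∧ X f f'})
    calc H.edgeSet.ncard ≤ E.ncard + m * E.ncard := by omega
      _ = (m + 1) * E.ncard := by ring
  -- the graph
  let Γ : SimpleGraph V := SimpleGraph.fromEdgeSet E
  have hΓE : Γ.edgeSet = E := by
    rw [SimpleGraph.edgeSet_fromEdgeSet]
    ext e
    simp only [Set.mem_sdiff]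
    refine ⟨fun h => h.1, fun h => ⟨h, ?_⟩⟩
    intro hd
    exact (H.not_isDiag_of_mem_edgeSet (hEH h)) hd
  have hΓ : ∀ s t, Γ.Adj s t → s(s, t) ∈ E := by
    intro s t h
    rw [← hΓE]
    exact h
  have hΓH : ∀ s t, Γ.Adj s t → H.Adj s t := fun s t h => hEH (hΓ s t h)
  have hmod : ¬ HasModel 5 Γ := by
    refine (hP Γ (fun s t h => SimpleGraph.Walk.cons (hΓH s t h) SimpleGraph.Walk.nil) ?_).1
    intro s t s' t' h h' h1 h2 h3 h4
    constructor
    · intro v hv hv'
      simp only [SimpleGraph.Walk.support_cons, SimpleGraph.Walk.support_nil, List.mem_cons,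
        List.not_mem_nil, or_false] at hv hv'
      rcases hv with rfl | rfl <;> rcases hv' with rfl | rfl
      · exact h1 rfl
      · exact h2 rfl
      · exact h3 rfl
      · exact h4 rfl
    · intro f hf f' hf'
      simp only [SimpleGraph.Walk.edges_cons, SimpleGraph.Walk.edges_nil, List.mem_cons,
        List.not_mem_nil, or_false] at hf hf'
      subst hf hf'
      apply hEX _ (hΓ s t h) _ (hΓ s' t' h')
      intro he
      rcases Sym2.eq_iff.1 he with ⟨e1, _⟩ | ⟨e1, _⟩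
      · exact h1 e1
      · exact h2 e1
  have hdeg : ∀ s t, Γ.Adj s t → s ∈ {v | deg H v ≠ 0} ∧ t ∈ {v | deg H v ≠ 0} := by
    intro s t h
    have hH := hΓH s t h
    constructor
    · change (H.neighborSet s).ncard ≠ 0
      exact ((Set.ncard_pos (Set.toFinite _)).mpr ⟨t, hH⟩).ne'
    · change (H.neighborSet t).ncard ≠ 0
      exact ((Set.ncard_pos (Set.toFinite _)).mpr ⟨s, hH.symm⟩).ne'
  have hfew := few_edges Γ {v | deg H v ≠ 0} hdeg hmod
  rw [hΓE] at hfew
  calc H.edgeSet.ncard ≤ (m + 1) * E.ncard := hcard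
    _ ≤ (m + 1) * (4 * {v | deg H v ≠ 0}.ncard) := Nat.mul_le_mul_left _ hfew
    _ = 4 * (m + 1) * {v | deg H v ≠ 0}.ncard := by ring

end EdgeBound

end Pool.Agent.Helper83.OP
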