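import Pool.Agent.Helper83.OP.Defs

/-!
# Geometry of rectangles (OP-26)
-/

namespace Pool.Agent.Helper83.OP

open Set

section RectGeo

theorem crect_cell {x0 x1 y0 y1 : ℤ} (hx : x0 < x1) (hy : y0 < y1) (p : ℝ × ℝ)
    (hp : p ∈ crect x0 x1 y0 y1) : ∃ c ∈ block x0 x1 y0 y1, p ∈ cell c := by
  obtain ⟨⟨h1, h2⟩, ⟨h3, h4⟩⟩ := hp
  have key : ∀ (a b : ℤ) (t : ℝ), a < b → (a : ℝ) ≤ t → t ≤ b →
      ∃ c : ℤ, a ≤ c ∧ c < b ∧ (c : ℝ) ≤ t ∧ t ≤ c + 1 := by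
    intro a b t hab ha hb
    have hf : a ≤ ⌊t⌋ := Int.le_floor.2 ha
    rcases le_or_gt ⌊t⌋ (b - 1) with h | h
    · exact ⟨⌊t⌋, hf, by omega, Int.floor_le t, (Int.lt_floor_add_one t).le⟩
    · refine ⟨b - 1, by omega, by omega, ?_, ?_⟩
      · have : ((b - 1 : ℤ) : ℝ) ≤ (⌊t⌋ : ℝ) := by exact_mod_cast h.le
        exact this.trans (Int.floor_le t)
      · push_cast
        linarith
  obtain ⟨c1, a1, a2, a3, a4⟩ := key x0 x1 p.1 hx h1 h2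
  obtain ⟨c2, b1, b2, b3, b4⟩ := key y0 y1 p.2 hy h3 h4
  exact ⟨(c1, c2), ⟨a1, a2, b1, b2⟩, ⟨⟨a3, a4⟩, ⟨b3, b4⟩⟩⟩

theorem orect_cell {x0 x1 y0 y1 : ℤ} (p : ℝ × ℝ) (hp : p ∈ orect x0 x1 y0 y1) (c : ℤ × ℤ)
    (hc : p ∈ cell c) : c ∈ block x0 x1 y0 y1 := by
  obtain ⟨⟨h1, h2⟩, ⟨h3, h4⟩⟩ := hp
  obtain ⟨⟨g1, g2⟩, ⟨g3, g4⟩⟩ := hc
  refine ⟨?_, ?_, ?_, ?_⟩
  · have : (x0 : ℝ) < ((c.1 + 1 : ℤ) : ℝ) := by push_cast; linarith
    have := Int.cast_lt.1 this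
    omega
  · have : (c.1 : ℝ) < (x1 : ℝ) := by linarith
    exact Int.cast_lt.1 this
  · have : (y0 : ℝ) < ((c.2 + 1 : ℤ) : ℝ) := by push_cast; linarith
    have := Int.cast_lt.1 this
    omega
  · have : (c.2 : ℝ) < (y1 : ℝ) := by linarith
    exact Int.cast_lt.1 this

theorem cell_crect {x0 x1 y0 y1 : ℤ} (c : ℤ × ℤ) (hc : c ∈ block x0 x1 y0 y1) :
    cell c ⊆ crect x0 x1 y0 y1 := by
  rintro p ⟨⟨g1, g2⟩, ⟨g3, g4⟩⟩
  obtain ⟨h1, h2, h3, h4⟩ := hc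
  have e1 : (x0 : ℝ) ≤ c.1 := by exact_mod_cast h1
  have e2 : (c.1 : ℝ) + 1 ≤ x1 := by exact_mod_cast h2
  have e3 : (y0 : ℝ) ≤ c.2 := by exact_mod_cast h3
  have e4 : (c.2 : ℝ) + 1 ≤ y1 := by exact_mod_cast h4
  exact ⟨⟨e1.trans g1, g2.trans e2⟩, ⟨e3.trans g3, g4.trans e4⟩⟩

/-- points of a segment, by coordinates -/
private theorem seg_coord {o q p : ℝ × ℝ} (hp : p ∈ segment ℝ o q) :
    ∃ t : ℝ, 0 ≤ t ∧ t ≤ 1 ∧ p.1 = o.1 + t * (q.1 - o.1) ∧ p.2 = o.2 + t * (q.2 - o.2) := by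
  rw [segment_eq_image'] at hp
  obtain ⟨t, ⟨h0, h1⟩, rfl⟩ := hp
  exact ⟨t, h0, h1, rfl, rfl⟩

private theorem coord_seg {o q p : ℝ × ℝ} (t : ℝ) (h0 : 0 ≤ t) (h1 : t ≤ 1)
    (e1 : p.1 = o.1 + t * (q.1 - o.1)) (e2 : p.2 = o.2 + t * (q.2 - o.2)) :
    p ∈ segment ℝ o q := by
  rw [segment_eq_image']
  exact ⟨t, ⟨h0, h1⟩, Prod.ext e1.symm e2.symm⟩

theorem seg_orect {x0 x1 y0 y1 : ℤ} (o q p : ℝ × ℝ) (ho : o ∈ orect x0 x1 y0 y1)
    (hq : q ∈ crect x0 x1 y0 y1) (hp : p ∈ segment ℝ o q) : p = q ∨ p ∈ orect x0 x1 y0 y1 := by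
  obtain ⟨t, h0, h1, e1, e2⟩ := seg_coord hp
  obtain ⟨⟨a1, a2⟩, ⟨a3, a4⟩⟩ := ho
  obtain ⟨⟨b1, b2⟩, ⟨b3, b4⟩⟩ := hq
  rcases h1.eq_or_lt with h | h
  · left
    subst h
    exact Prod.ext (by rw [e1]; ring) (by rw [e2]; ring)
  · right
    have ht : 0 < 1 - t := by linarith
    refine ⟨⟨?_, ?_⟩, ⟨?_, ?_⟩⟩
    · rw [e1]
      nlinarith [mul_pos ht (sub_pos.2 a1), mul_nonneg h0 (sub_nonneg.2 b1)]
    · rw [e1]
      nlinarith [mul_pos ht (sub_pos.2 a2), mul_nonneg h0 (sub_nonneg.2 b2)]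
    · rw [e2]
      nlinarith [mul_pos ht (sub_pos.2 a3), mul_nonneg h0 (sub_nonneg.2 b3)]
    · rw [e2]
      nlinarith [mul_pos ht (sub_pos.2 a4), mul_nonneg h0 (sub_nonneg.2 b4)]

/-- the case that the second point is nearer -/
private theorem star_aux {x0 x1 y0 y1 : ℤ} (o q q' p : ℝ × ℝ) (ho : o ∈ orect x0 x1 y0 y1)
    (hq : q ∈ crect x0 x1 y0 y1) (hq0' : q' ∉ orect x0 x1 y0 y1) (hne : q ≠ q') (t t' : ℝ)
    (h0 : 0 ≤ t) (h0' : 0 < t') (hle : t ≤ t')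
    (e1 : p.1 = o.1 + t * (q.1 - o.1)) (e2 : p.2 = o.2 + t * (q.2 - o.2))
    (e1' : p.1 = o.1 + t' * (q'.1 - o.1)) (e2' : p.2 = o.2 + t' * (q'.2 - o.2)) : False := by
  have h : q' ∈ segment ℝ o q := by
    refine coord_seg (t / t') (div_nonneg h0 h0'.le) ((div_le_one h0').2 hle) ?_ ?_
    · have : t' * (q'.1 - o.1) = t * (q.1 - o.1) := by linarith
      field_simp
      linarith
    · have : t' * (q'.2 - o.2) = t * (q.2 - o.2) := by linarith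
      field_simp
      linarith
  rcases seg_orect o q q' ho hq h with h | h
  · exact hne h.symm
  · exact hq0' h

theorem star_disj {x0 x1 y0 y1 : ℤ} (o q q' p : ℝ × ℝ) (ho : o ∈ orect x0 x1 y0 y1)
    (hq : q ∈ crect x0 x1 y0 y1) (hq0 : q ∉ orect x0 x1 y0 y1) (hq' : q' ∈ crect x0 x1 y0 y1)
    (hq0' : q' ∉ orect x0 x1 y0 y1) (hne : q ≠ q') (hp : p ∈ segment ℝ o q)
    (hp' : p ∈ segment ℝ o q') : p = o := by
  obtain ⟨t, h0, -, e1, e2⟩ := seg_coord hp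
  obtain ⟨t', h0', -, e1', e2'⟩ := seg_coord hp'
  by_contra hpo
  have ht : 0 < t := by
    refine lt_of_le_of_ne h0 ?_
    rintro rfl
    exact hpo (Prod.ext (by rw [e1]; ring) (by rw [e2]; ring))
  have ht' : 0 < t' := by
    refine lt_of_le_of_ne h0' ?_
    rintro rfl
    exact hpo (Prod.ext (by rw [e1']; ring) (by rw [e2']; ring))
  rcases le_total t t' with h | h
  · exact star_aux o q q' p ho hq hq0' hne t t' h0 ht' h e1 e2 e1' e2'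
  · exact star_aux o q' q p ho hq' hq0 (Ne.symm hne) t' t h0' ht h e1' e2' e1 e2

private theorem irr (μ : ℝ) (d1 d2 : ℚ) (h1 : 1 / 8 = μ * d1) (h2 : √2 / 8 = μ * d2) : False := by
  have hd : (d1 : ℝ) ≠ 0 := by
    intro h
    rw [h, mul_zero] at h1
    norm_num at h1
  have hμ : μ ≠ 0 := by
    rintro rfl
    rw [zero_mul] at h1
    norm_num at h1
  have h3 : μ * (√2 * d1) = μ * d2 := by
    rw [← h2]
    have : μ * (√2 * d1) = √2 * (μ * d1) := by ring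
    rw [this, ← h1]; ring
  have h4 := mul_left_cancel₀ hμ h3
  have h5 : √2 = ((d2 / d1 : ℚ) : ℝ) := by
    push_cast
    rw [eq_div_iff hd, h4]
  exact irrational_sqrt_two ⟨_, h5.symm⟩

theorem seg_cross (x y q r : ℚ) (a : ℝ × ℝ) :
    (segment ℝ (((x : ℝ) + 1 / 8, (y : ℝ) + √2 / 8) : ℝ × ℝ) a ∩
      segment ℝ ((x : ℝ), (y : ℝ)) ((q : ℝ), (r : ℝ))).Subsingleton ∧
    (((x : ℝ) + 1 / 8, (y : ℝ) + √2 / 8) : ℝ × ℝ) ∉ segment ℝ ((x : ℝ), (y : ℝ)) ((q : ℝ), (r : ℝ)) := by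
  constructor
  · rintro p ⟨hp, hp'⟩ p2 ⟨hp2, hp2'⟩
    obtain ⟨s, -, -, e1, e2⟩ := seg_coord hp
    obtain ⟨t, -, -, f1, f2⟩ := seg_coord hp'
    obtain ⟨s', -, -, e1', e2'⟩ := seg_coord hp2
    obtain ⟨t', -, -, f1', f2'⟩ := seg_coord hp2'
    simp only at e1 e2 f1 f2 e1' e2' f1' f2'
    by_contra hne
    have hs : s - s' ≠ 0 := by
      intro h
      have h' : s = s' := by linarith
      subst h'
      exact hne (Prod.ext (by rw [e1, e1']) (by rw [e2, e2']))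
    refine irr (t - s * ((t - t') / (s - s'))) (q - x) (r - y) ?_ ?_
    · have h1 : (s - s') * (a.1 - (x + 1 / 8)) = (t - t') * (q - x) := by linarith
      have h2 : a.1 - (x + 1 / 8) = (t - t') / (s - s') * (q - x) := by
        field_simp
        linarith
      push_cast
      have h3 : (x : ℝ) + 1 / 8 + s * (a.1 - (x + 1 / 8)) = x + t * (q - x) := by
        rw [← e1, f1]
      rw [h2] at h3
      linarith
    · have h1 : (s - s') * (a.2 - (y + √2 / 8)) = (t - t') * (r - y) := by linarith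
      have h2 : a.2 - (y + √2 / 8) = (t - t') / (s - s') * (r - y) := by
        field_simp
        linarith
      push_cast
      have h3 : (y : ℝ) + √2 / 8 + s * (a.2 - (y + √2 / 8)) = y + t * (r - y) := by
        rw [← e2, f2]
      rw [h2] at h3
      linarith
  · intro h
    obtain ⟨t, -, -, f1, f2⟩ := seg_coord h
    simp only at f1 f2
    refine irr t (q - x) (r - y) ?_ ?_
    · push_cast
      linarith
    · push_cast
      linarith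

end RectGeo

end Pool.Agent.Helper83.OP
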