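import Pool.Agent.Helper83.OP.Arcs
import Pool.Agent.Helper83.OP.RectGeo

/-!
# Realisations of a layout (OP-27)
-/

namespace Pool.Agent.Helper83.OP

open Set

section Realize

variable {J I : Type} {src tgt : I → J}

private theorem arc_left_mem {α : Set (ℝ × ℝ)} {a b : ℝ × ℝ} (h : IsArc α a b) : a ∈ α := by
  obtain ⟨γ, -, -, h0, -, hα⟩ := h
  rw [← hα, ← h0]
  exact mem_image_of_mem γ ⟨le_refl _, zero_le_one⟩

private theorem arc_right_mem {α : Set (ℝ × ℝ)} {a b : ℝ × ℝ} (h : IsArc α a b) : b ∈ α := by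
  obtain ⟨γ, -, -, -, h1, hα⟩ := h
  rw [← hα, ← h1]
  exact mem_image_of_mem γ ⟨zero_le_one, le_refl _⟩

private theorem arc_ne {α : Set (ℝ × ℝ)} {a b : ℝ × ℝ} (h : IsArc α a b) : a ≠ b := by
  obtain ⟨γ, -, hinj, h0, h1, -⟩ := h
  intro hab
  have h2 : γ 0 = γ 1 := by rw [h0, h1, hab]
  exact zero_ne_one (hinj ⟨le_refl _, zero_le_one⟩ ⟨zero_le_one, le_refl _⟩ h2)

/-- `q` is the door of the strand `(i, b)` at the node `j` -/
private def Door {L : Layout J I src tgt} (Sd : Strands L) (i : I) (b : Bool) (j : J)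
    (q : ℝ × ℝ) : Prop :=
  j = src i ∧ q = Sd.A i b ∨ j = tgt i ∧ q = Sd.B i b

private theorem block_uniq (L : Layout J I src tgt) {j j' : J} {p : ℝ × ℝ}
    (hp : p ∈ orect (L.x0 j) (L.x1 j) (L.y0 j) (L.y1 j))
    (hp' : p ∈ crect (L.x0 j') (L.x1 j') (L.y0 j') (L.y1 j')) : j = j' := by
  obtain ⟨c, hc, hpc⟩ := crect_cell (L.hx j') (L.hy j') p hp'
  exact L.blocks j j' c (orect_cell p hp c hpc) hc

private theorem orect_crect {x0 x1 y0 y1 : ℤ} : orect x0 x1 y0 y1 ⊆ crect x0 x1 y0 y1 :=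
  Set.prod_mono Ioo_subset_Icc_self Ioo_subset_Icc_self

private theorem seg_crect' {x0 x1 y0 y1 : ℤ} {o q p : ℝ × ℝ} (ho : o ∈ orect x0 x1 y0 y1)
    (hq : q ∈ crect x0 x1 y0 y1) (hp : p ∈ segment ℝ o q) : p ∈ crect x0 x1 y0 y1 := by
  rcases seg_orect o q p ho hq hp with rfl | h
  · exact hq
  · exact orect_crect h

variable {L : Layout J I src tgt} (Sd : Strands L)

private theorem St_not_orect {i : I} {b : Bool} {p : ℝ × ℝ} (hp : p ∈ Sd.St i b) (j : J) :
    p ∉ orect (L.x0 j) (L.x1 j) (L.y0 j) (L.y1 j) := by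
  intro h
  obtain ⟨c, hc, hpc⟩ := Sd.some i b p hp
  exact L.cells_free i c hc j (orect_cell p h c hpc)

private theorem St_St {i k : I} {b b' : Bool} {p : ℝ × ℝ} (hp : p ∈ Sd.St i b)
    (hp' : p ∈ Sd.St k b') : i = k ∧ b = b' := by
  have hik : i = k := by
    by_contra hne
    obtain ⟨c, hc, hpc⟩ := Sd.some k b' p hp'
    rcases Sd.only i b p hp c hpc with h | ⟨h, -⟩ | ⟨h, -⟩
    · exact L.cells_disj i k hne c h hc
    · exact L.cells_free k c hc (src i) (h ▸ L.cs_mem i)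
    · exact L.cells_free k c hc (tgt i) (h ▸ L.ce_mem i)
  subst hik
  refine ⟨rfl, ?_⟩
  have hd := Set.disjoint_left.1 (Sd.disj i)
  cases b <;> cases b'
  · rfl
  · exact absurd hp' (hd hp)
  · exact absurd hp (hd hp')
  · rfl

private theorem Door.mem_St {i : I} {b : Bool} {j : J} {q : ℝ × ℝ} (h : Door Sd i b j q) :
    q ∈ Sd.St i b := by
  rcases h with ⟨-, rfl⟩ | ⟨-, rfl⟩
  · exact arc_left_mem (Sd.isArc i b)
  · exact arc_right_mem (Sd.isArc i b)

private theorem Door.mem_crect {i : I} {b : Bool} {j : J} {q : ℝ × ℝ} (h : Door Sd i b j q) :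
    q ∈ crect (L.x0 j) (L.x1 j) (L.y0 j) (L.y1 j) := by
  rcases h with ⟨rfl, rfl⟩ | ⟨rfl, rfl⟩
  · exact cell_crect _ (L.cs_mem i) (Sd.A_mem i b)
  · exact cell_crect _ (L.ce_mem i) (Sd.B_mem i b)

private theorem mem_arc_iff (h : J → ℝ × ℝ) (b : Bool) (i : I) (p : ℝ × ℝ) :
    p ∈ Sd.arc h b i ↔
      (∃ j q, Door Sd i b j q ∧ p ∈ segment ℝ (h j) q) ∨ p ∈ Sd.St i b := by
  unfold Strands.arc
  constructor
  · rintro (hp | hp | hp)
    · exact Or.inl ⟨src i, Sd.A i b, Or.inl ⟨rfl, rfl⟩, hp⟩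
    · exact Or.inr hp
    · exact Or.inl ⟨tgt i, Sd.B i b, Or.inr ⟨rfl, rfl⟩, by rw [segment_symm]; exact hp⟩
  · rintro (⟨j, q, ⟨rfl, rfl⟩ | ⟨rfl, rfl⟩, hp⟩ | hp)
    · exact Or.inl hp
    · exact Or.inr (Or.inr (by rw [segment_symm]; exact hp))
    · exact Or.inr (Or.inl hp)

/-- a spoke meets the strands only in its door -/
private theorem spoke_St {h : J → ℝ × ℝ}
    (hh : ∀ j, h j ∈ orect (L.x0 j) (L.x1 j) (L.y0 j) (L.y1 j)) {i k : I} {b b' : Bool} {j : J}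
    {q p : ℝ × ℝ} (hd : Door Sd i b j q) (hp : p ∈ segment ℝ (h j) q) (hp' : p ∈ Sd.St k b') :
    p = q := by
  rcases seg_orect (h j) q p (hh j) hd.mem_crect hp with h1 | h1
  · exact h1
  · exact absurd h1 (St_not_orect Sd hp' j)

private theorem arc_cross (h h' : J → ℝ × ℝ)
    (hh : ∀ j, h j ∈ orect (L.x0 j) (L.x1 j) (L.y0 j) (L.y1 j))
    (hh' : ∀ j, h' j ∈ orect (L.x0 j) (L.x1 j) (L.y0 j) (L.y1 j)) (i k : I) (b b' : Bool)
    (hne : ¬ (i = k ∧ b = b')) (p : ℝ × ℝ)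
    (hp : p ∈ Sd.arc h b i) (hp' : p ∈ Sd.arc h' b' k) :
    ∃ j q q', Door Sd i b j q ∧ Door Sd k b' j q' ∧
      p ∈ segment ℝ (h j) q ∧ p ∈ segment ℝ (h' j) q' ∧ q ≠ q' ∧
      q ∈ crect (L.x0 j) (L.x1 j) (L.y0 j) (L.y1 j) ∧
      q ∉ orect (L.x0 j) (L.x1 j) (L.y0 j) (L.y1 j) ∧
      q' ∈ crect (L.x0 j) (L.x1 j) (L.y0 j) (L.y1 j) ∧
      q' ∉ orect (L.x0 j) (L.x1 j) (L.y0 j) (L.y1 j) := by
  rw [mem_arc_iff] at hp hp'
  rcases hp with ⟨j, q, hd, hq⟩ | hp
  · rcases hp' with ⟨j', q', hd', hq'⟩ | hp'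
    · have hqq : q ≠ q' := by
        rintro rfl
        exact hne (St_St Sd (hd.mem_St) (hd'.mem_St))
      by_cases hj : j = j'
      · subst hj
        exact ⟨j, q, q', hd, hd', hq, hq', hqq, hd.mem_crect, St_not_orect Sd hd.mem_St j,
          hd'.mem_crect, St_not_orect Sd hd'.mem_St j⟩
      · exfalso
        have h1 : p = q := by
          rcases seg_orect (h j) q p (hh j) hd.mem_crect hq with h1 | h1
          · exact h1
          · exact absurd (block_uniq L h1 (seg_crect' (hh' j') hd'.mem_crect hq')) hj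
        have h2 : p = q' := by
          rcases seg_orect (h' j') q' p (hh' j') hd'.mem_crect hq' with h2 | h2
          · exact h2
          · exact absurd (block_uniq L h2 (seg_crect' (hh j) hd.mem_crect hq)).symm hj
        exact hqq (h1.symm.trans h2)
    · exfalso
      have h1 := spoke_St Sd hh hd hq hp'
      rw [h1] at hp'
      exact hne (St_St Sd hd.mem_St hp')
  · exfalso
    rcases hp' with ⟨j', q', hd', hq'⟩ | hp'
    · have h1 := spoke_St Sd hh' hd' hq' hp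
      rw [h1] at hp
      exact hne (St_St Sd hp hd'.mem_St)
    · exact hne (St_St Sd hp hp')

theorem realize (L : Layout J I src tgt) (hst : ∀ i, src i ≠ tgt i) (Sd : Strands L)
    (h : J → ℝ × ℝ) (hh : ∀ j, h j ∈ orect (L.x0 j) (L.x1 j) (L.y0 j) (L.y1 j)) (b : Bool) :
    ∃ P : PG J I src tgt, P.pos = h ∧ ∀ i, P.arc i = Sd.arc h b i := by
  have hinj : Function.Injective h := by
    intro j j' hjj
    refine block_uniq L (hh j) ?_
    rw [hjj]
    exact orect_crect (hh j')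
  have hends : ∀ i j q, Door Sd i b j q → j = src i ∨ j = tgt i := by
    rintro i j q (⟨h1, -⟩ | ⟨h1, -⟩)
    · exact Or.inl h1
    · exact Or.inr h1
  refine ⟨{ pos := h, pos_inj := hinj, arc := fun i => Sd.arc h b i, isArc := ?_, nodes := ?_,
            disj := ?_ }, rfl, fun _ => rfl⟩
  · intro i
    have hdA : Door Sd i b (src i) (Sd.A i b) := Or.inl ⟨rfl, rfl⟩
    have hdB : Door Sd i b (tgt i) (Sd.B i b) := Or.inr ⟨rfl, rfl⟩
    have hA : h (src i) ≠ Sd.A i b := by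
      intro h1
      exact St_not_orect Sd hdA.mem_St (src i) (h1 ▸ hh (src i))
    have hB : Sd.B i b ≠ h (tgt i) := by
      intro h1
      exact St_not_orect Sd hdB.mem_St (tgt i) (h1 ▸ hh (tgt i))
    refine (isArc_segment hA).union (((Sd.isArc i b)).union (isArc_segment hB) ?_) ?_
    · intro p hp hp'
      rw [segment_symm] at hp'
      exact spoke_St Sd hh hdB hp' hp
    · rintro p hp (hp' | hp')
      · exact spoke_St Sd hh hdA hp hp'
      · rw [segment_symm] at hp'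
        rcases seg_orect _ _ p (hh (src i)) hdA.mem_crect hp with h1 | h1
        · exact h1
        · exact absurd (block_uniq L h1 (seg_crect' (hh (tgt i)) hdB.mem_crect hp')) (hst i)
  · intro i j hj
    rcases (mem_arc_iff Sd h b i (h j)).1 hj with ⟨j', q, hd, hq⟩ | hq
    · have h1 := block_uniq L (hh j) (seg_crect' (hh j') hd.mem_crect hq)
      rw [h1]
      exact hends i j' q hd
    · exact absurd (hh j) (St_not_orect Sd hq j)
  · intro i i' hne p hp hp'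
    obtain ⟨j, q, q', hd, hd', h1, h2, h3, h4, h5, h6, h7⟩ :=
      arc_cross Sd h h hh hh i i' b b (fun hc => hne hc.1) p hp hp'
    have hpj : p = h j := star_disj (h j) q q' p (hh j) h4 h5 h6 h7 h3 h1 h2
    constructor
    · rcases hends i j q hd with h8 | h8
      · left; rw [hpj, h8]
      · right; rw [hpj, h8]
    · rcases hends i' j q' hd' with h8 | h8
      · left; rw [hpj, h8]
      · right; rw [hpj, h8]

/-- intersections of two realisations -/
theorem cross_real (L : Layout J I src tgt) (hst : ∀ i, src i ≠ tgt i) (Sd : Strands L)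
    (h h' : J → ℝ × ℝ) (hh : ∀ j, h j ∈ orect (L.x0 j) (L.x1 j) (L.y0 j) (L.y1 j))
    (hh' : ∀ j, h' j ∈ orect (L.x0 j) (L.x1 j) (L.y0 j) (L.y1 j)) (i k : I) (p : ℝ × ℝ)
    (hp : p ∈ Sd.arc h false i) (hp' : p ∈ Sd.arc h' true k) :
    ∃ j q q', (j = src i ∧ q = Sd.A i false ∨ j = tgt i ∧ q = Sd.B i false) ∧
      (j = src k ∧ q' = Sd.A k true ∨ j = tgt k ∧ q' = Sd.B k true) ∧
      p ∈ segment ℝ (h j) q ∧ p ∈ segment ℝ (h' j) q' ∧ q ≠ q' ∧
      q ∈ crect (L.x0 j) (L.x1 j) (L.y0 j) (L.y1 j) ∧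
      q ∉ orect (L.x0 j) (L.x1 j) (L.y0 j) (L.y1 j) ∧
      q' ∈ crect (L.x0 j) (L.x1 j) (L.y0 j) (L.y1 j) ∧
      q' ∉ orect (L.x0 j) (L.x1 j) (L.y0 j) (L.y1 j) := by
  have _ := hst
  exact arc_cross Sd h h' hh hh' i k false true (fun hc => Bool.false_ne_true hc.2) p hp hp'

end Realize

end Pool.Agent.Helper83.OP
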