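import Pool.Agent.Helper83.OP.Corridor
import Pool.Agent.Helper83.OP.Realize

/-!
# Two realisations of a layout (OP-28)
-/

namespace Pool.Agent.Helper83.OP

open Set

section ExAug

variable {J I : Type} {src tgt : I → J}

/-- the centre of the block of `j` -/
private noncomputable def ctrX (L : Layout J I src tgt) (j : J) : ℚ := ((L.x0 j : ℚ) + L.x1 j) / 2

private noncomputable def ctrY (L : Layout J I src tgt) (j : J) : ℚ := ((L.y0 j : ℚ) + L.y1 j) / 2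

private theorem ctr_mem (L : Layout J I src tgt) (j : J) :
    (((ctrX L j : ℝ), (ctrY L j : ℝ)) : ℝ × ℝ) ∈ orect (L.x0 j) (L.x1 j) (L.y0 j) (L.y1 j) := by
  have hx : ((L.x0 j : ℤ) : ℝ) < ((L.x1 j : ℤ) : ℝ) := by exact_mod_cast L.hx j
  have hy : ((L.y0 j : ℤ) : ℝ) < ((L.y1 j : ℤ) : ℝ) := by exact_mod_cast L.hy j
  refine ⟨⟨?_, ?_⟩, ⟨?_, ?_⟩⟩ <;> simp only [ctrX, ctrY] <;> push_cast <;> linarith

private theorem sqrt_two_bounds : 0 < √2 ∧ √2 < 2 := by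
  refine ⟨by positivity, ?_⟩
  rw [Real.sqrt_lt' (by norm_num)]
  norm_num

private theorem ctr_mem' (L : Layout J I src tgt) (j : J) :
    (((ctrX L j : ℝ) + 1 / 8, (ctrY L j : ℝ) + √2 / 8) : ℝ × ℝ) ∈
      orect (L.x0 j) (L.x1 j) (L.y0 j) (L.y1 j) := by
  have hx : ((L.x0 j : ℤ) : ℝ) + 1 ≤ ((L.x1 j : ℤ) : ℝ) := by exact_mod_cast L.hx j
  have hy : ((L.y0 j : ℤ) : ℝ) + 1 ≤ ((L.y1 j : ℤ) : ℝ) := by exact_mod_cast L.hy j
  obtain ⟨h1, h2⟩ := sqrt_two_bounds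
  refine ⟨⟨?_, ?_⟩, ⟨?_, ?_⟩⟩ <;> simp only [ctrX, ctrY] <;> push_cast <;> linarith

/-- closed rectangles of other blocks do not meet the open rectangle -/
private theorem block_unique (L : Layout J I src tgt) (j j' : J) (p : ℝ × ℝ)
    (hp : p ∈ orect (L.x0 j) (L.x1 j) (L.y0 j) (L.y1 j))
    (hp' : p ∈ crect (L.x0 j') (L.x1 j') (L.y0 j') (L.y1 j')) : j = j' := by
  obtain ⟨c, hc, hpc⟩ := crect_cell (L.hx j') (L.hy j') p hp'
  exact L.blocks j j' c (orect_cell p hp c hpc) hc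

private theorem orect_sub_crect {x0 x1 y0 y1 : ℤ} : orect x0 x1 y0 y1 ⊆ crect x0 x1 y0 y1 :=
  Set.prod_mono Ioo_subset_Icc_self Ioo_subset_Icc_self

private theorem seg_crect {x0 x1 y0 y1 : ℤ} {o q p : ℝ × ℝ} (ho : o ∈ orect x0 x1 y0 y1)
    (hq : q ∈ crect x0 x1 y0 y1) (hp : p ∈ segment ℝ o q) : p ∈ crect x0 x1 y0 y1 := by
  rcases seg_orect o q p ho hq hp with rfl | h
  · exact hq
  · exact orect_sub_crect h

/-- two realisations of a layout -/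
theorem exists_aug [Finite J] [Finite I] (L : Layout J I src tgt) (hst : ∀ i, src i ≠ tgt i)
    (inner : Set J) :
    ∃ (P1 P2 : PG J I src tgt) (Z : J → I → I → Set (ℝ × ℝ)),
      (∀ j, j ∉ inner → P1.pos j = P2.pos j) ∧
      (∀ j ∈ inner, ∀ k, P1.pos j ∉ P2.arc k) ∧
      (∀ j i k, (Z j i k).Subsingleton) ∧
      (∀ j, j ∉ inner → ∀ i k, Z j i k ⊆ {P1.pos j}) ∧
      ∀ i k p, p ∈ P1.arc i → p ∈ P2.arc k →
        ∃ j, (j = src i ∨ j = tgt i) ∧ (j = src k ∨ j = tgt k) ∧ p ∈ Z j i k := by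
  classical
  obtain ⟨Sd⟩ := exists_strands hst L
  obtain ⟨c, hc⟩ : ∃ c : J → ℝ × ℝ, ∀ j, c j =
      ((ctrX L j : ℝ) + 1 / 8, (ctrY L j : ℝ) + √2 / 8) := ⟨_, fun _ => rfl⟩
  obtain ⟨c', hc'⟩ : ∃ c' : J → ℝ × ℝ, ∀ j, c' j =
      if j ∈ inner then ((ctrX L j : ℝ), (ctrY L j : ℝ)) else c j := ⟨_, fun _ => rfl⟩
  have hm : ∀ j, c j ∈ orect (L.x0 j) (L.x1 j) (L.y0 j) (L.y1 j) := fun j => by
    rw [hc]; exact ctr_mem' L j
  have hm' : ∀ j, c' j ∈ orect (L.x0 j) (L.x1 j) (L.y0 j) (L.y1 j) := fun j => by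
    rw [hc']
    split_ifs
    · exact ctr_mem L j
    · exact hm j
  obtain ⟨P1, hp1, ha1⟩ := realize L hst Sd c hm false
  obtain ⟨P2, hp2, ha2⟩ := realize L hst Sd c' hm' true
  obtain ⟨Z, hZ⟩ : ∃ Z : J → I → I → Set (ℝ × ℝ), ∀ j i k, Z j i k =
      {p | ∃ q q', (j = src i ∧ q = Sd.A i false ∨ j = tgt i ∧ q = Sd.B i false) ∧
      (j = src k ∧ q' = Sd.A k true ∨ j = tgt k ∧ q' = Sd.B k true) ∧
      p ∈ segment ℝ (c j) q ∧ p ∈ segment ℝ (c' j) q' ∧ q ≠ q' ∧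
      q ∈ crect (L.x0 j) (L.x1 j) (L.y0 j) (L.y1 j) ∧
      q ∉ orect (L.x0 j) (L.x1 j) (L.y0 j) (L.y1 j) ∧
      q' ∈ crect (L.x0 j) (L.x1 j) (L.y0 j) (L.y1 j) ∧
      q' ∉ orect (L.x0 j) (L.x1 j) (L.y0 j) (L.y1 j)} := ⟨_, fun _ _ _ => rfl⟩
  have hout : ∀ j, j ∉ inner → ∀ i k, Z j i k ⊆ {P1.pos j} := by
    intro j hj i k p hp
    rw [hZ] at hp
    obtain ⟨q, q', -, -, h1, h2, h3, h4, h5, h6, h7⟩ := hp
    rw [hc', if_neg hj] at h2
    rw [mem_singleton_iff, hp1]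
    exact star_disj (c j) q q' p (hm j) h4 h5 h6 h7 h3 h1 h2
  refine ⟨P1, P2, Z, ?_, ?_, ?_, hout, ?_⟩
  · intro j hj
    rw [hp1, hp2, hc', if_neg hj]
  · intro j hj k hk
    rw [hp1, ha2] at hk
    unfold Strands.arc at hk
    have hA : ∀ q : ℝ × ℝ, (∃ x y : ℚ, q = ((x : ℝ), (y : ℝ))) → c j ∉ segment ℝ (c' j) q := by
      rintro q ⟨x, y, rfl⟩ h
      rw [hc', if_pos hj, hc] at h
      exact (seg_cross (ctrX L j) (ctrY L j) x y (0, 0)).2 h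
    have hcs := cell_crect _ (L.cs_mem k) (Sd.A_mem k true)
    have hce := cell_crect _ (L.ce_mem k) (Sd.B_mem k true)
    rcases hk with hk | hk | hk
    · have h1 := block_unique L j (src k) (c j) (hm j) (seg_crect (hm' (src k)) hcs hk)
      rw [← h1] at hk
      exact hA _ (Sd.A_rat k true) hk
    · obtain ⟨d, hd, hdp⟩ := Sd.some k true _ hk
      exact L.cells_free k d hd j (orect_cell (c j) (hm j) d hdp)
    · rw [segment_symm] at hk
      have h1 := block_unique L j (tgt k) (c j) (hm j) (seg_crect (hm' (tgt k)) hce hk)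
      rw [← h1] at hk
      exact hA _ (Sd.B_rat k true) hk
  · intro j i k
    by_cases hj : j ∈ inner
    · intro p hp p2 hp2'
      rw [hZ] at hp hp2'
      obtain ⟨q, q', e1, e2, h1, h2, -⟩ := hp
      obtain ⟨r, r', f1, f2, g1, g2, -⟩ := hp2'
      have hqr : q = r := by
        rcases e1 with ⟨e1, rfl⟩ | ⟨e1, rfl⟩ <;> rcases f1 with ⟨f1, rfl⟩ | ⟨f1, rfl⟩
        · rfl
        · exact absurd (e1.symm.trans f1) (hst i)
        · exact absurd (f1.symm.trans e1) (hst i)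
        · rfl
      have hqr' : q' = r' := by
        rcases e2 with ⟨e2, rfl⟩ | ⟨e2, rfl⟩ <;> rcases f2 with ⟨f2, rfl⟩ | ⟨f2, rfl⟩
        · rfl
        · exact absurd (e2.symm.trans f2) (hst k)
        · exact absurd (f2.symm.trans e2) (hst k)
        · rfl
      have hrat : ∃ x y : ℚ, q' = ((x : ℝ), (y : ℝ)) := by
        rcases e2 with ⟨-, rfl⟩ | ⟨-, rfl⟩
        · exact Sd.A_rat k true
        · exact Sd.B_rat k true
      obtain ⟨x, y, hxy⟩ := hrat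
      rw [← hqr, hc] at g1
      rw [← hqr', hc', if_pos hj, hxy] at g2
      rw [hc] at h1
      rw [hc', if_pos hj, hxy] at h2
      exact (seg_cross (ctrX L j) (ctrY L j) x y q).1 ⟨h1, h2⟩ ⟨g1, g2⟩
    · exact subsingleton_singleton.anti (hout j hj i k)
  · intro i k p hp hp'
    rw [ha1] at hp
    rw [ha2] at hp'
    obtain ⟨j, q, q', e1, e2, h⟩ := cross_real L hst Sd c c' hm hm' i k p hp hp'
    refine ⟨j, ?_, ?_, ?_⟩
    · rcases e1 with ⟨e1, -⟩ | ⟨e1, -⟩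
      · exact Or.inl e1
      · exact Or.inr e1
    · rcases e2 with ⟨e2, -⟩ | ⟨e2, -⟩
      · exact Or.inl e2
      · exact Or.inr e2
    · rw [hZ]
      exact ⟨q, q', e1, e2, h⟩

end ExAug

end Pool.Agent.Helper83.OP
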