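import Pool.Agent.Helper83.OP.Defs

/-!
# Existence of Voronoi clusters
-/

namespace Pool.Agent.Helper83.OP

open Set

section ExClus

variable {S : Type} (G : SimpleGraph S)

/-- there is a walk of length at most `k` -/
private def Near (k : ℕ) (u v : S) : Prop := ∃ p : G.Walk u v, p.length ≤ k

private theorem Near.symm {k : ℕ} {u v : S} (h : Near G k u v) : Near G k v u := by
  obtain ⟨p, hp⟩ := h
  exact ⟨p.reverse, by rwa [SimpleGraph.Walk.length_reverse]⟩

private theorem Near.trans {k l : ℕ} {u v w : S} (h : Near G k u v) (h' : Near G l v w) :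
    Near G (k + l) u w := by
  obtain ⟨p, hp⟩ := h
  obtain ⟨q, hq⟩ := h'
  exact ⟨p.append q, by rw [SimpleGraph.Walk.length_append]; omega⟩

private theorem Near.mono {k l : ℕ} {u v : S} (h : Near G k u v) (hkl : k ≤ l) : Near G l u v := by
  obtain ⟨p, hp⟩ := h
  exact ⟨p, hp.trans hkl⟩

private theorem ec_net [Finite S] (R : ℕ) : ∃ C : Set S,
    (∀ a ∈ C, ∀ b ∈ C, Near G R a b → a = b) ∧ ∀ v, ∃ c ∈ C, Near G R v c := by
  have hfin : {C : Set S | ∀ a ∈ C, ∀ b ∈ C, Near G R a b → a = b}.Finite := Set.toFinite _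
  obtain ⟨C, hC⟩ := hfin.exists_maximal ⟨∅, by simp⟩
  refine ⟨C, hC.1, fun v => ?_⟩
  by_contra hno
  push Not at hno
  have hv : v ∈ insert v C := Set.mem_insert _ _
  have hins : insert v C ∈ {C : Set S | ∀ a ∈ C, ∀ b ∈ C, Near G R a b → a = b} := by
    rintro a (rfl | ha) b (rfl | hb) hab
    · rfl
    · exact absurd hab (hno b hb)
    · exact absurd (Near.symm G hab) (hno a ha)
    · exact hC.1 a ha b hb hab
  have hvC : v ∈ C := hC.2 hins (Set.subset_insert _ _) hv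
  exact hno v hvC ⟨SimpleGraph.Walk.nil, Nat.zero_le _⟩

/-- Voronoi clusters of a finite graph -/
private theorem ec_main [Finite S] (ρ : ℕ) : ∃ (ctr par : S → S) (d : S → ℕ),
    (∀ v, ctr (ctr v) = ctr v) ∧ (∀ v, d (ctr v) = 0) ∧ (∀ v, d v = 0 → ctr v = v) ∧
    (∀ v, d v ≤ 2 * ρ) ∧ (∀ v, d v ≠ 0 → G.Adj v (par v)) ∧
    (∀ v, d v ≠ 0 → d (par v) + 1 = d v) ∧ (∀ v, d v ≠ 0 → ctr (par v) = ctr v) ∧
    (∀ v w, G.Adj v w → d w ≤ d v + 1) ∧ (∀ v w, G.Adj v w → d v < ρ → ctr w = ctr v) := by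
  classical
  obtain ⟨C, hC1, hC2⟩ := ec_net G (2 * ρ)
  have hex : ∀ v, ∃ k, ∃ c ∈ C, Near G k v c := fun v => ⟨_, hC2 v⟩
  let d : S → ℕ := fun v => Nat.find (hex v)
  have hd : ∀ v, ∃ c ∈ C, Near G (d v) v c := fun v => Nat.find_spec (hex v)
  have hmin : ∀ v k, (∃ c ∈ C, Near G k v c) → d v ≤ k := fun v k h => Nat.find_min' (hex v) h
  have hle : ∀ v, d v ≤ 2 * ρ := fun v => hmin v _ (hC2 v)
  have hlip : ∀ v w, G.Adj v w → d w ≤ d v + 1 := by
    intro v w hvw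
    obtain ⟨c, hc, h⟩ := hd v
    refine hmin w _ ⟨c, hc, ?_⟩
    have h1 : Near G 1 w v := ⟨hvw.symm.toWalk, by simp⟩
    exact Near.mono G (Near.trans G h1 h) (by omega)
  have hpar : ∀ v, ∃ u, d v ≠ 0 → G.Adj v u ∧ d u + 1 = d v := by
    intro v
    by_cases hv : d v = 0
    · exact ⟨v, fun h => absurd hv h⟩
    · obtain ⟨c, hc, p, hp⟩ := hd v
      cases p with
      | nil =>
        have : d v ≤ 0 := hmin v 0 ⟨v, hc, SimpleGraph.Walk.nil, le_rfl⟩
        exact absurd (Nat.le_zero.mp this) hv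
      | @cons _ u _ h q =>
        refine ⟨u, fun _ => ⟨h, ?_⟩⟩
        rw [SimpleGraph.Walk.length_cons] at hp
        have h1 : d u ≤ d v - 1 := hmin u _ ⟨c, hc, q, by omega⟩
        have h2 := hlip u v h.symm
        omega
  choose par hpar using hpar
  let ctr : S → S := fun v => par^[d v] v
  have hctr : ∀ v, d v ≠ 0 → ctr (par v) = ctr v := by
    intro v hv
    have h1 := (hpar v hv).2
    change par^[d (par v)] (par v) = par^[d v] v
    rw [← h1, Function.iterate_succ_apply]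
  have h0 : ∀ v, d v = 0 → ctr v = v := by
    intro v hv
    change par^[d v] v = v
    rw [hv]
    rfl
  have hbase : ∀ k v, d v = k → ctr v ∈ C ∧ d (ctr v) = 0 ∧ Near G k v (ctr v) := by
    intro k
    induction k with
    | zero =>
      intro v hv
      rw [h0 v hv]
      obtain ⟨c, hc, p, hp⟩ := hd v
      rw [hv] at hp
      have := SimpleGraph.Walk.eq_of_length_eq_zero (Nat.le_zero.mp hp)
      exact ⟨this ▸ hc, hv, SimpleGraph.Walk.nil, le_rfl⟩
    | succ k ih =>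
      intro v hv
      have hne : d v ≠ 0 := by omega
      obtain ⟨h1, h2, h3⟩ := ih (par v) (by have := (hpar v hne).2; omega)
      rw [hctr v hne] at h1 h2 h3
      refine ⟨h1, h2, ?_⟩
      have h4 : Near G 1 v (par v) := ⟨(hpar v hne).1.toWalk, by simp⟩
      exact Near.mono G (Near.trans G h4 h3) (by omega)
  refine ⟨ctr, par, d, fun v => h0 _ (hbase _ v rfl).2.1, fun v => (hbase _ v rfl).2.1, h0, hle,
    fun v hv => (hpar v hv).1, fun v hv => (hpar v hv).2, hctr, hlip, ?_⟩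
  intro v w hvw hv
  obtain ⟨c1, -, n1⟩ := hbase _ v rfl
  obtain ⟨c2, -, n2⟩ := hbase _ w rfl
  have h1 := hlip v w hvw
  refine hC1 _ c2 _ c1 ?_
  have h4 : Near G 1 w v := ⟨hvw.symm.toWalk, by simp⟩
  exact Near.mono G (Near.trans G (Near.trans G (Near.symm G n2) h4) n1) (by omega)

end ExClus

theorem exists_clus {V : Type} [Finite V] (H : SimpleGraph V) (N : Set V) (ρ : ℕ) :
    Nonempty (Clus H N ρ) := by
  classical
  obtain ⟨ctr, par, d, h1, h2, h3, h4, h5, h6, h7, h8, h9⟩ := ec_main (H.induce N) ρ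
  let ctr' : V → V := fun v => if h : v ∈ N then (ctr ⟨v, h⟩ : V) else v
  let par' : V → V := fun v => if h : v ∈ N then (par ⟨v, h⟩ : V) else v
  let d' : V → ℕ := fun v => if h : v ∈ N then d ⟨v, h⟩ else 0
  have ec : ∀ v (h : v ∈ N), ctr' v = (ctr ⟨v, h⟩ : V) := fun v h => dif_pos h
  have ep : ∀ v (h : v ∈ N), par' v = (par ⟨v, h⟩ : V) := fun v h => dif_pos h
  have ed : ∀ v (h : v ∈ N), d' v = d ⟨v, h⟩ := fun v h => dif_pos h
  have ecc : ∀ v : N, ctr' (v : V) = (ctr v : V) := fun v => ec v v.2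
  have edd : ∀ v : N, d' (v : V) = d v := fun v => ed v v.2
  refine ⟨⟨ctr', par', d', ?_, ?_, ?_, ?_, ?_, ?_, ?_, ?_, ?_, ?_, ?_⟩⟩
  · intro v hv
    rw [ec v hv]
    exact (ctr ⟨v, hv⟩).2
  · intro v hv
    rw [ec v hv, ecc, h1]
  · intro v hv
    rw [ec v hv, edd, h2]
  · intro v hv h
    rw [ed v hv] at h
    rw [ec v hv, h3 _ h]
  · intro v hv
    rw [ed v hv]
    exact h4 _
  · intro v hv _
    rw [ep v hv]
    exact (par ⟨v, hv⟩).2
  · intro v hv h
    rw [ed v hv] at h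
    rw [ep v hv]
    exact h5 _ h
  · intro v hv h
    rw [ed v hv] at h ⊢
    rw [ep v hv, edd]
    exact h6 _ h
  · intro v hv h
    rw [ed v hv] at h
    rw [ep v hv, ecc, ec v hv, h7 _ h]
  · intro v hv w hw hvw
    rw [ed v hv, ed w hw]
    exact h8 ⟨v, hv⟩ ⟨w, hw⟩ hvw
  · intro v hv w hw hvw h
    rw [ed v hv] at h
    rw [ec v hv, ec w hw, h9 ⟨v, hv⟩ ⟨w, hw⟩ hvw h]

end Pool.Agent.Helper83.OP
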