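import Pool.Agent.Helper83.OP.Defs

namespace Pool.Agent.Helper83.OP

open Set

theorem deg_del_le {V : Type} [Finite V] (H : SimpleGraph V) (e : Sym2 V) (v : V) :
    deg H v ≤ deg (H.deleteEdges {e}) v + 1 := by
  classical
  unfold deg
  have key : ∀ w, H.Adj v w → (H.deleteEdges {e}).Adj v w ∨ s(v, w) = e := by
    intro w hw
    by_cases h : s(v, w) = e
    · exact Or.inr h
    · left; rw [SimpleGraph.deleteEdges_adj]; exact ⟨hw, by simpa using h⟩
  by_cases h : ∃ w0, s(v, w0) = e
  · obtain ⟨w0, hw0⟩ := h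
    refine le_trans (Set.ncard_le_ncard (t := insert w0 ((H.deleteEdges {e}).neighborSet v)) ?_
      (Set.toFinite _)) (Set.ncard_insert_le _ _)
    intro w hw
    rcases key w hw with h1 | h1
    · exact Or.inr h1
    · left
      rw [← hw0] at h1
      rwa [Sym2.congr_right] at h1
  · refine le_trans (Set.ncard_le_ncard (t := (H.deleteEdges {e}).neighborSet v) ?_
      (Set.toFinite _)) (Nat.le_succ _)
    intro w hw
    rcases key w hw with h1 | h1
    · exact h1
    · exact absurd ⟨w, h1⟩ h

theorem deg_del_eq {V : Type} (H : SimpleGraph V) (x0 y0 v : V) (h1 : v ≠ x0)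
    (h2 : v ≠ y0) : deg (H.deleteEdges {s(x0, y0)}) v = deg H v := by
  unfold deg
  congr 1
  ext w
  constructor
  · intro h
    exact (SimpleGraph.deleteEdges_le _) h
  · intro h
    change (H.deleteEdges {s(x0, y0)}).Adj v w
    rw [SimpleGraph.deleteEdges_adj]
    refine ⟨h, ?_⟩
    simp only [Set.mem_singleton_iff, Sym2.eq_iff, not_or, not_and]
    exact ⟨fun h3 => absurd h3 h1, fun h3 => absurd h3 h2⟩

theorem good_base {V : Type} [Finite V] (H : SimpleGraph V) (e : Sym2 V) (w : Sym2 V → ℕ)
    (ℓ D0 W : ℕ) (hw : ∀ f ∈ H.edgeSet, w f ≤ W) (u : V) (C : (H.deleteEdges {e}).Walk u u)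
    (hub : V) (hC : C.IsCycle) (hl : C.length ≤ ℓ)
    (hD : ∀ v ∈ C.support, v ≠ hub → deg (H.deleteEdges {e}) v ≤ D0) :
    GoodPair H (max (D0 + 1) 2) (max (ℓ * W) W) w := by
  classical
  obtain ⟨a, C', hC', hl', hsup, hhub⟩ : ∃ (a : V) (C' : (H.deleteEdges {e}).Walk a a),
      C'.IsCycle ∧ C'.length ≤ ℓ ∧ (∀ x, x ∈ C'.support → x ∈ C.support) ∧
      (hub ∈ C.support → a = hub) := by
    by_cases h : hub ∈ C.support
    · refine ⟨hub, C.rotate hub h, (SimpleGraph.Walk.isCycle_rotate h).2 hC, ?_, ?_, fun _ => rfl⟩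
      · rw [SimpleGraph.Walk.length_rotate]; exact hl
      · intro x hx
        exact (SimpleGraph.Walk.mem_support_rotate_iff C hub h).1 hx
    · exact ⟨u, C, hC, hl, fun x hx => hx, fun h' => absurd h' h⟩
  cases C' with
  | nil => exact absurd hC' SimpleGraph.Walk.not_isCycle_nil
  | @cons _ b _ h p =>
    rw [SimpleGraph.Walk.cons_isCycle_iff] at hC'
    obtain ⟨hp, hne⟩ := hC'
    have hle : ∀ f ∈ p.edges, f ∈ H.edgeSet := fun f hf =>
      SimpleGraph.edgeSet_mono (SimpleGraph.deleteEdges_le _) (SimpleGraph.Walk.edges_subset_edgeSet p hf)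
    have hab : H.Adj a b := (SimpleGraph.deleteEdges_le _) h
    refine ⟨b, a, SimpleGraph.Walk.cons hab.symm SimpleGraph.Walk.nil, p.transfer H hle, hab.ne.symm,
      ?_, hp.transfer hle, ?_, ?_, ?_, ?_, ?_⟩
    · simp [SimpleGraph.Walk.cons_isPath_iff, hab.ne.symm]
    · intro f hf
      rw [SimpleGraph.Walk.edges_transfer]
      simp only [SimpleGraph.Walk.edges_cons, SimpleGraph.Walk.edges_nil, List.mem_singleton] at hf
      rw [hf, Sym2.eq_swap]
      exact hne
    · intro x hx _
      simpa using hx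
    · intro x hx h1 h2
      simp only [SimpleGraph.Walk.support_cons, SimpleGraph.Walk.support_nil, List.mem_cons,
        List.not_mem_nil, or_false] at hx
      rcases hx with hx | hx
      · exact absurd hx h1
      · exact absurd hx h2
    · intro x hx _ h2
      rw [SimpleGraph.Walk.support_transfer] at hx
      have hxC : x ∈ C.support := hsup x (by simp [hx])
      have hxh : x ≠ hub := by
        rintro rfl
        exact h2 (hhub hxC).symm
      have := hD x hxC hxh
      have h3 := deg_del_le H e x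
      exact le_trans (by omega) (le_max_left _ _)
    · rw [SimpleGraph.Walk.edges_transfer]
      have h1 : (p.edges.map w).sum ≤ (p.edges.map w).length • W := by
        apply List.sum_le_card_nsmul
        intro x hx
        rw [List.mem_map] at hx
        obtain ⟨f, hf, rfl⟩ := hx
        exact hw f (hle f hf)
      rw [List.length_map, SimpleGraph.Walk.length_edges, smul_eq_mul] at h1
      have h2 : p.length * W ≤ ℓ * W := Nat.mul_le_mul_right _ (by
        simp only [SimpleGraph.Walk.length_cons] at hl'; omega)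
      exact (h1.trans h2).trans (le_max_left _ _)

open Classical in
theorem good_pair_of
    (supp_deg : ∀ {V : Type} [Finite V] (H : SimpleGraph V) (z x y : V) (_ : H.Adj z x)
      (_ : H.Adj z y) (_ : x ≠ y) (_ : ∀ a, H.Adj z a → a = x ∨ a = y) (_ : ¬ H.Adj x y),
      deg (supp H z x y) z = 0 ∧ ∀ a, a ≠ z → deg (supp H z x y) a = deg H a)
    (supp_partner : ∀ {V : Type} [Finite V] (H : SimpleGraph V) (z x y : V) (_ : H.Adj z x)
      (_ : H.Adj z y) (_ : x ≠ y) (_ : ∀ a, H.Adj z a → a = x ∨ a = y) (_ : ¬ H.Adj x y)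
      (e : Sym2 V)
      (_ : e ∈ H.edgeSet) (X : Sym2 V → Sym2 V → Prop) (w : Sym2 V → ℕ)
      (_ : ∀ f ∈ H.edgeSet, f ≠ e → {f' | f' ∈ H.edgeSet ∧ f' ≠ e ∧ X f f'}.ncard ≤ w f)
      (e' : Sym2 V) (_ : e' = if e = s(x, z) ∨ e = s(z, y) then s(x, y) else e),
      e' ∈ (supp H z x y).edgeSet ∧ ∀ f ∈ (supp H z x y).edgeSet, f ≠ e' →
      {f' | f' ∈ (supp H z x y).edgeSet ∧ f' ≠ e' ∧ suppX X z x y f f'}.ncard ≤
        suppW w z x y f)
    (supp_planar : ∀ {V : Type} [Finite V] (H : SimpleGraph V) (z x y : V) (_ : H.Adj z x)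
      (_ : H.Adj z y) (_ : x ≠ y) (_ : ∀ a, H.Adj z a → a = x ∨ a = y) (_ : ¬ H.Adj x y)
      (e : Sym2 V)
      (_ : e ∈ H.edgeSet) (X : Sym2 V → Sym2 V → Prop)
      (_ : PlanarLike (H.deleteEdges {e}) X)
      (e' : Sym2 V) (_ : e' = if e = s(x, z) ∨ e = s(z, y) then s(x, y) else e),
      PlanarLike ((supp H z x y).deleteEdges {e'}) (suppX X z x y))
    (supp_weight : ∀ {V : Type} [Finite V] (H : SimpleGraph V) (z x y : V) (_ : H.Adj z x)
      (_ : H.Adj z y) (_ : x ≠ y) (_ : ∀ a, H.Adj z a → a = x ∨ a = y) (_ : ¬ H.Adj x y)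
      (w : Sym2 V → ℕ) (W : ℕ)
      (_ : ∀ u v (p : H.Walk u v), p.IsPath → (∀ c ∈ p.support, c ≠ u → c ≠ v → deg H c = 2) →
        (p.edges.map w).sum ≤ W),
      ∀ u v (p : (supp H z x y).Walk u v), p.IsPath →
      (∀ c ∈ p.support, c ≠ u → c ≠ v → deg (supp H z x y) c = 2) →
      (p.edges.map (suppW w z x y)).sum ≤ W)
    (supp_good : ∀ {V : Type} [Finite V] (H : SimpleGraph V) (z x y : V) (_ : H.Adj z x)
      (_ : H.Adj z y) (_ : x ≠ y) (_ : ∀ a, H.Adj z a → a = x ∨ a = y) (_ : ¬ H.Adj x y)
      (w : Sym2 V → ℕ) (D B : ℕ) (_ : 2 ≤ D)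
      (_ : GoodPair (supp H z x y) D B (suppW w z x y)), GoodPair H D B w)
    (W : ℕ)
    (nlc : ∃ ℓ D : ℕ, ∀ (V : Type) [Finite V] (H : SimpleGraph V)
    (X : Sym2 V → Sym2 V → Prop) (x0 y0 : V), (∀ f f', X f f' → X f' f) →
    (∀ f ∈ H.edgeSet, {f' | f' ∈ H.edgeSet ∧ X f f'}.ncard ≤ W) → PlanarLike H X →
    2 ≤ deg H x0 → 2 ≤ deg H y0 → (∀ v, v ≠ x0 → v ≠ y0 → deg H v = 0 ∨ 3 ≤ deg H v) →
    ∃ (u : V) (C : H.Walk u u) (hub : V), C.IsCycle ∧ C.length ≤ ℓ ∧
      ∀ v ∈ C.support, v ≠ hub → deg H v ≤ D) :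
    ∃ B D : ℕ, ∀ (V : Type) [Finite V] (H : SimpleGraph V) (e : Sym2 V)
    (X : Sym2 V → Sym2 V → Prop) (w : Sym2 V → ℕ), e ∈ H.edgeSet → (∀ f f', X f f' → X f' f) →
    (∀ f ∈ H.edgeSet, f ≠ e → {f' | f' ∈ H.edgeSet ∧ f' ≠ e ∧ X f f'}.ncard ≤ w f) →
    PlanarLike (H.deleteEdges {e}) X → (∀ v, deg H v ≠ 1) →
    (∀ u v (p : H.Walk u v), p.IsPath → (∀ c ∈ p.support, c ≠ u → c ≠ v → deg H c = 2) →
      (p.edges.map w).sum ≤ W) → GoodPair H D B w := by
  obtain ⟨ℓ, D0, hnlc⟩ := nlc
  refine ⟨max (ℓ * W) W, max (D0 + 1) 2, fun V _ => ?_⟩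
  suffices h : ∀ n : ℕ, ∀ (H : SimpleGraph V) (e : Sym2 V)
      (X : Sym2 V → Sym2 V → Prop) (w : Sym2 V → ℕ), {v | deg H v = 2}.ncard = n →
      e ∈ H.edgeSet → (∀ f f', X f f' → X f' f) →
      (∀ f ∈ H.edgeSet, f ≠ e → {f' | f' ∈ H.edgeSet ∧ f' ≠ e ∧ X f f'}.ncard ≤ w f) →
      PlanarLike (H.deleteEdges {e}) X → (∀ v, deg H v ≠ 1) →
      (∀ u v (p : H.Walk u v), p.IsPath → (∀ c ∈ p.support, c ≠ u → c ≠ v → deg H c = 2) →
      (p.edges.map w).sum ≤ W) → GoodPair H (max (D0 + 1) 2) (max (ℓ * W) W) w from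
    fun H e X w => h _ H e X w rfl
  intro n
  induction n using Nat.strong_induction_on with
  | _ n ih =>
    intro H e X w hn he hsym hX hP hd1 hW
    have hwW : ∀ f ∈ H.edgeSet, w f ≤ W := by
      intro f hf
      induction f using Sym2.ind with
      | _ a b =>
        have hab : H.Adj a b := hf
        have := hW a b (SimpleGraph.Walk.cons hab SimpleGraph.Walk.nil)
          (by simp [SimpleGraph.Walk.cons_isPath_iff, hab.ne]) (by
            intro c hc h1 h2
            simp only [SimpleGraph.Walk.support_cons, SimpleGraph.Walk.support_nil, List.mem_cons,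
              List.not_mem_nil, or_false] at hc
            rcases hc with hc | hc
            · exact absurd hc h1
            · exact absurd hc h2)
        simpa using this
    by_cases hz : ∃ z, deg H z = 2
    · obtain ⟨z, hz⟩ := hz
      have hz' := hz
      unfold deg at hz'
      rw [Set.ncard_eq_two] at hz'
      obtain ⟨x, y, hxy, hnbr⟩ := hz'
      have hmem : ∀ a, H.Adj z a ↔ a = x ∨ a = y := by
        intro a
        have : a ∈ H.neighborSet z ↔ a ∈ ({x, y} : Set V) := by rw [hnbr]
        simpa using this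
      have hzx : H.Adj z x := (hmem x).2 (Or.inl rfl)
      have hzy : H.Adj z y := (hmem y).2 (Or.inr rfl)
      have hnb : ∀ a, H.Adj z a → a = x ∨ a = y := fun a => (hmem a).1
      by_cases hadj : H.Adj x y
      · refine ⟨x, y, SimpleGraph.Walk.cons hzx.symm (SimpleGraph.Walk.cons hzy
          SimpleGraph.Walk.nil), SimpleGraph.Walk.cons hadj SimpleGraph.Walk.nil, hxy, ?_, ?_, ?_,
          ?_, ?_, ?_, ?_⟩
        · simp [SimpleGraph.Walk.cons_isPath_iff, hzx.ne.symm, hzy.ne, hxy]
        · simp [SimpleGraph.Walk.cons_isPath_iff, hxy]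
        · intro f hf
          simp only [SimpleGraph.Walk.edges_cons, SimpleGraph.Walk.edges_nil, List.mem_cons,
            List.not_mem_nil, or_false] at hf ⊢
          rcases hf with rfl | rfl
          · rw [Sym2.eq_iff]
            rintro (⟨_, h⟩ | ⟨h, _⟩)
            · exact hzy.ne h
            · exact hxy h
          · rw [Sym2.eq_iff]
            rintro (⟨h, _⟩ | ⟨h, _⟩)
            · exact hzx.ne h
            · exact hzy.ne h
        · intro c _ hc
          simpa using hc
        · intro c hc h1 h2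
          simp only [SimpleGraph.Walk.support_cons, SimpleGraph.Walk.support_nil, List.mem_cons,
            List.not_mem_nil, or_false] at hc
          rcases hc with hc | hc | hc
          · exact absurd hc h1
          · rw [hc]; exact hz
          · exact absurd hc h2
        · intro c hc h1 h2
          simp only [SimpleGraph.Walk.support_cons, SimpleGraph.Walk.support_nil, List.mem_cons,
            List.not_mem_nil, or_false] at hc
          rcases hc with hc | hc
          · exact absurd hc h1
          · exact absurd hc h2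
        · have := hwW s(x, y) hadj
          simp only [SimpleGraph.Walk.edges_cons, SimpleGraph.Walk.edges_nil, List.map_cons,
            List.map_nil, List.sum_cons, List.sum_nil, add_zero]
          exact this.trans (le_max_right _ _)
      · obtain ⟨e', he'⟩ : ∃ e', e' = if e = s(x, z) ∨ e = s(z, y) then s(x, y) else e := ⟨_, rfl⟩
        obtain ⟨d1, d2⟩ := supp_deg H z x y hzx hzy hxy hnb hadj
        obtain ⟨p1, p2⟩ := supp_partner H z x y hzx hzy hxy hnb hadj e he X w hX e' he'
        refine supp_good H z x y hzx hzy hxy hnb hadj w _ _ (le_max_right _ _) ?_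
        refine ih _ ?_ (supp H z x y) e' (suppX X z x y) (suppW w z x y) rfl p1 ?_ p2
          (supp_planar H z x y hzx hzy hxy hnb hadj e he X hP e' he') ?_
          (supp_weight H z x y hzx hzy hxy hnb hadj w W hW)
        · rw [← hn]
          refine Set.ncard_lt_ncard ?_ (Set.toFinite _)
          refine ⟨fun v hv => ?_, fun hsub => ?_⟩
          · have hvz : v ≠ z := by
              rintro rfl
              rw [Set.mem_ofPred_eq, d1] at hv
              exact absurd hv (by norm_num)
            rw [Set.mem_ofPred_eq, d2 v hvz] at hv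
            exact hv
          · have := hsub (show z ∈ {v | deg H v = 2} from hz)
            rw [Set.mem_ofPred_eq, d1] at this
            exact absurd this (by norm_num)
        · rintro f f' ⟨h1, g, g', h2, h3, h4⟩
          exact ⟨h1.symm, g', g, h3, h2, hsym _ _ h4⟩
        · intro v
          by_cases hvz : v = z
          · rw [hvz, d1]; norm_num
          · rw [d2 v hvz]; exact hd1 v
    · have hd2 : ∀ v, deg H v ≠ 2 := fun v hv => hz ⟨v, hv⟩
      induction e using Sym2.ind with
      | _ x0 y0 =>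
        have hadj : H.Adj x0 y0 := he
        have hpos : ∀ a b, H.Adj a b → deg H a ≠ 0 := by
          intro a b hab
          unfold deg
          rw [Ne, Set.ncard_eq_zero]
          intro h
          have : b ∈ H.neighborSet a := hab
          rw [h] at this
          exact this
        have hx3 : 3 ≤ deg H x0 := by
          have := hpos x0 y0 hadj
          have := hd1 x0
          have := hd2 x0
          omega
        have hy3 : 3 ≤ deg H y0 := by
          have := hpos y0 x0 hadj.symm
          have := hd1 y0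
          have := hd2 y0
          omega
        obtain ⟨u, C, hub, hC, hl, hD⟩ := hnlc V (H.deleteEdges {s(x0, y0)}) X x0 y0 hsym
          (by
            intro f hf
            rw [SimpleGraph.edgeSet_deleteEdges] at hf
            refine le_trans (Set.ncard_le_ncard ?_ (Set.toFinite _))
              ((hX f hf.1 (by simpa using hf.2)).trans (hwW f hf.1))
            rintro f' ⟨h1, h2⟩
            rw [SimpleGraph.edgeSet_deleteEdges] at h1
            exact ⟨h1.1, by simpa using h1.2, h2⟩)
          hP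
          (by have := deg_del_le H s(x0, y0) x0; omega)
          (by have := deg_del_le H s(x0, y0) y0; omega)
          (by
            intro v h1 h2
            rw [deg_del_eq H x0 y0 v h1 h2]
            have := hd1 v
            have := hd2 v
            omega)
        exact good_base H s(x0, y0) w ℓ D0 W hwW u C hub hC hl hD

end Pool.Agent.Helper83.OP
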