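import Pool.Agent.Helper83.OP.Defs

/-!
# OP-11: exponential growth of the clusters
-/

namespace Pool.Agent.Helper83.OP

open Set

section Growth

variable {V : Type} [Finite V] {H : SimpleGraph V} {N : Set V} {ρ : ℕ}

private theorem gr_sum (H : SimpleGraph V) (C : Set V) (h3 : ∀ v ∈ C, 3 ≤ deg H v) :
    3 * C.ncard ≤ {e : V × V | e.1 ∈ C ∧ H.Adj e.1 e.2}.ncard := by
  classical
  have := Fintype.ofFinite V
  have h1 : {e : V × V | e.1 ∈ C ∧ H.Adj e.1 e.2}.ncard =
      (Finset.univ.filter fun e : V × V => e.1 ∈ C ∧ H.Adj e.1 e.2).card := by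
    rw [← Set.ncard_coe_finset]
    congr 1
    ext e
    simp
  have h2 : C.ncard = (Finset.univ.filter fun v : V => v ∈ C).card := by
    rw [← Set.ncard_coe_finset]
    congr 1
    ext e
    simp
  rw [h1, h2, Finset.card_eq_sum_card_fiberwise (f := Prod.fst)
    (t := Finset.univ.filter fun v : V => v ∈ C)]
  · rw [mul_comm, ← smul_eq_mul]
    apply Finset.card_nsmul_le_sum
    intro v hv
    have hv' : v ∈ C := by simpa using hv
    refine (h3 v hv').trans (le_of_eq ?_)
    rw [deg, ← Set.ncard_coe_finset]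
    refine Set.ncard_congr (fun w _ => (v, w)) ?_ ?_ ?_
    · intro w hw
      simp only [Finset.coe_filter, Finset.mem_filter, Finset.mem_univ, true_and,
        Set.mem_ofPred_eq]
      exact ⟨⟨hv', hw⟩, trivial⟩
    · intro a b _ _ hab
      exact (Prod.mk.inj hab).2
    · rintro ⟨a, b⟩ hab
      simp only [Finset.coe_filter, Finset.mem_univ, true_and, Finset.mem_filter,
        Set.mem_ofPred_eq] at hab
      obtain ⟨⟨_, h2⟩, rfl⟩ := hab
      exact ⟨b, h2, rfl⟩
  · intro e he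
    simp only [Finset.coe_filter, Finset.mem_univ, true_and, Set.mem_ofPred_eq] at he ⊢
    exact he.1

/-- the vertices of the cluster of `s` at depth `i` -/
private def lev (K : Clus H N ρ) (s : V) (i : ℕ) : Set V := {v | v ∈ K.cl s ∧ K.d v = i}

private theorem gr_step (K : Clus H N ρ) (hK : K.Tidy) (s : V)
    (h3 : ∀ v ∈ K.cl s, 3 ≤ deg H v) (i : ℕ) (hi : i < ρ) :
    3 * (lev K s i).ncard ≤ (lev K s (i + 1)).ncard + (if i = 0 then 0 else (lev K s i).ncard) +
      {e : V × V | e ∈ K.hOut s ∧ K.d e.1 = i}.ncard := by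
  refine (gr_sum H (lev K s i) (fun v hv => h3 v hv.1)).trans ?_
  have hsub : {e : V × V | e.1 ∈ lev K s i ∧ H.Adj e.1 e.2} ⊆
      (fun w => (K.par w, w)) '' lev K s (i + 1) ∪
        (fun v => (v, K.par v)) '' (if i = 0 then ∅ else lev K s i) ∪
        {e : V × V | e ∈ K.hOut s ∧ K.d e.1 = i} := by
    rintro ⟨v, w⟩ ⟨⟨⟨hvN, hvs⟩, hvd⟩, hvw⟩
    simp only at hvN hvs hvd hvw
    by_cases hw : w ∈ N
    · have hws : K.ctr w = s := by
        rw [← hvs]
        exact K.near v hvN w hw hvw (by omega)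
      rcases hK.tree v hvN w hw hvw (hvs.trans hws.symm) with ⟨h1, h2⟩ | ⟨h1, h2⟩
      · left; right
        have hi0 : i ≠ 0 := by omega
        rw [if_neg hi0]
        exact ⟨v, ⟨⟨hvN, hvs⟩, hvd⟩, by simp only [h2]⟩
      · left; left
        have h4 := K.par_d w hw h1
        rw [← h2] at h4
        exact ⟨w, ⟨⟨hw, hws⟩, by omega⟩, by simp only [h2]⟩
    · right
      exact ⟨⟨hvN, hvs, hw, hvw⟩, hvd⟩
  refine (Set.ncard_le_ncard hsub (Set.toFinite _)).trans ?_
  refine (Set.ncard_union_le _ _).trans ?_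
  refine Nat.add_le_add_right ?_ _
  refine (Set.ncard_union_le _ _).trans ?_
  refine Nat.add_le_add (Set.ncard_image_le (Set.toFinite _)) ?_
  refine (Set.ncard_image_le (Set.toFinite _)).trans ?_
  split_ifs with h
  · simp
  · exact le_rfl

theorem growth (K : Clus H N ρ) (hK : K.Tidy) (hρ : 1 ≤ ρ) (s : V) (hs : s ∈ K.Ctr)
    (h3 : ∀ v ∈ K.cl s, 3 ≤ deg H v) (hh : (K.hOut s).ncard ≤ 2) :
    2 ^ (ρ - 1) ≤ (K.cl s).ncard := by
  classical
  have hss : s ∈ K.cl s := ⟨hs.1, hs.2⟩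
  -- depth zero
  have h0 : 1 ≤ (lev K s 0).ncard := by
    have hds : K.d s = 0 := by
      have := K.d_ctr s hs.1
      rwa [hs.2] at this
    exact (Set.ncard_pos (Set.toFinite _)).mpr ⟨s, hss, hds⟩
  have hD : ∀ i, {e : V × V | e ∈ K.hOut s ∧ K.d e.1 < i + 1}.ncard =
      {e : V × V | e ∈ K.hOut s ∧ K.d e.1 < i}.ncard +
        {e : V × V | e ∈ K.hOut s ∧ K.d e.1 = i}.ncard := by
    intro i
    rw [← Set.ncard_union_eq _ (Set.toFinite _) (Set.toFinite _)]
    · congr 1
      ext e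
      simp only [Set.mem_ofPred_eq, Set.mem_union]
      constructor
      · rintro ⟨h1, h2⟩
        rcases Nat.lt_succ_iff_lt_or_eq.1 h2 with h | h
        · exact Or.inl ⟨h1, h⟩
        · exact Or.inr ⟨h1, h⟩
      · rintro (⟨h1, h2⟩ | ⟨h1, h2⟩)
        · exact ⟨h1, by omega⟩
        · exact ⟨h1, by omega⟩
    · rw [Set.disjoint_left]
      rintro e ⟨_, h1⟩ ⟨_, h2⟩
      omega
  have hD2 : ∀ i, {e : V × V | e ∈ K.hOut s ∧ K.d e.1 < i}.ncard ≤ 2 := fun i =>
    (Set.ncard_le_ncard (fun e he => he.1) (Set.toFinite _)).trans hh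
  have key : ∀ i, i + 1 ≤ ρ → 2 ^ i * (3 - {e : V × V | e ∈ K.hOut s ∧ K.d e.1 < i + 1}.ncard) ≤
      (lev K s (i + 1)).ncard := by
    intro i
    induction i with
    | zero =>
      intro hi
      have h1 := gr_step K hK s h3 0 (by omega)
      have h2 := hD 0
      rw [if_pos rfl] at h1
      have h4 : {e : V × V | e ∈ K.hOut s ∧ K.d e.1 < 0}.ncard = 0 := by
        rw [Set.ncard_eq_zero (Set.toFinite _)]
        ext e
        simp
      rw [pow_zero, one_mul]
      omega
    | succ i ih =>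
      intro hi
      have h1 := gr_step K hK s h3 (i + 1) (by omega)
      have h2 := hD (i + 1)
      rw [if_neg (Nat.succ_ne_zero i)] at h1
      have h4 := ih (by omega)
      have h5 := hD2 (i + 1)
      have h6 := hD2 (i + 1 + 1)
      generalize {e : V × V | e ∈ K.hOut s ∧ K.d e.1 < i + 1}.ncard = x at *
      generalize {e : V × V | e ∈ K.hOut s ∧ K.d e.1 = i + 1}.ncard = y at *
      generalize {e : V × V | e ∈ K.hOut s ∧ K.d e.1 < i + 1 + 1}.ncard = z at *
      have hp : 1 ≤ 2 ^ i := Nat.one_le_two_pow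
      have e1 : 2 ^ (i + 1) * (3 - z) + y ≤ 2 * (2 ^ i * (3 - x)) := by
        have e2 : 3 - x = (3 - z) + y := by omega
        rw [e2, pow_succ]
        nlinarith
      omega
  have h1 := key (ρ - 1) (by omega)
  have h2 := hD2 (ρ - 1 + 1)
  have h4 : (lev K s (ρ - 1 + 1)).ncard ≤ (K.cl s).ncard :=
    Set.ncard_le_ncard (fun v hv => hv.1) (Set.toFinite _)
  refine le_trans ?_ (h1.trans h4)
  exact Nat.le_mul_of_pos_right _ (by omega)

end Growth

end Pool.Agent.Helper83.OP
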