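import Pool.Agent.Helper83.OP.Defs

/-!
# OP-23: the unit cells met by a connected set are connected through common sides
-/

namespace Pool.Agent.Helper83.OP

open Set

theorem cc_mem_cell {p : ℝ × ℝ} {c : ℤ × ℤ} : p ∈ cell c ↔
    ((c.1 : ℝ) ≤ p.1 ∧ p.1 ≤ c.1 + 1) ∧ ((c.2 : ℝ) ≤ p.2 ∧ p.2 ≤ c.2 + 1) := by
  simp only [cell, Set.mem_prod, Set.mem_Icc]

theorem cc_isClosed (c : ℤ × ℤ) : IsClosed (cell c) := isClosed_Icc.prod isClosed_Icc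

theorem cc_exists (p : ℝ × ℝ) : ∃ c, p ∈ cell c := by
  refine ⟨(⌊p.1⌋, ⌊p.2⌋), cc_mem_cell.2 ⟨⟨Int.floor_le _, (Int.lt_floor_add_one _).le⟩,
    Int.floor_le _, (Int.lt_floor_add_one _).le⟩⟩

/-- two cells with a common point are joined by a chain of cells containing this point -/
theorem cc_common {p : ℝ × ℝ} {a b : ℤ × ℤ} (ha : p ∈ cell a) (hb : p ∈ cell b) :
    Relation.ReflTransGen (fun a b => CAdj a b ∧ p ∈ cell b) a b := by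
  rw [cc_mem_cell] at ha hb
  obtain ⟨⟨a1, a2⟩, a3, a4⟩ := ha
  obtain ⟨⟨b1, b2⟩, b3, b4⟩ := hb
  have h1 : (a.1 : ℝ) ≤ (b.1 + 1 : ℤ) := by push_cast; linarith
  have h2 : (b.1 : ℝ) ≤ (a.1 + 1 : ℤ) := by push_cast; linarith
  have h3 : (a.2 : ℝ) ≤ (b.2 + 1 : ℤ) := by push_cast; linarith
  have h4 : (b.2 : ℝ) ≤ (a.2 + 1 : ℤ) := by push_cast; linarith
  have h1' : a.1 ≤ b.1 + 1 := by exact_mod_cast h1
  have h2' : b.1 ≤ a.1 + 1 := by exact_mod_cast h2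
  have h3' : a.2 ≤ b.2 + 1 := by exact_mod_cast h3
  have h4' : b.2 ≤ a.2 + 1 := by exact_mod_cast h4
  have hm : p ∈ cell (b.1, a.2) := cc_mem_cell.2 ⟨⟨b1, b2⟩, a3, a4⟩
  have hb' : p ∈ cell b := cc_mem_cell.2 ⟨⟨b1, b2⟩, b3, b4⟩
  have s1 : Relation.ReflTransGen (fun a b => CAdj a b ∧ p ∈ cell b) a (b.1, a.2) := by
    by_cases h : a.1 = b.1
    · have : a = (b.1, a.2) := Prod.ext h rfl
      rw [← this]
    · refine Relation.ReflTransGen.single ⟨Or.inr ⟨rfl, ?_⟩, hm⟩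
      simp only
      omega
  refine s1.trans ?_
  by_cases h : a.2 = b.2
  · have : (b.1, a.2) = b := Prod.ext rfl h
    rw [this]
  · refine Relation.ReflTransGen.single ⟨Or.inl ⟨rfl, ?_⟩, hb'⟩
    simp only
    omega

theorem cells_chain (M : Set (ℝ × ℝ)) (hM : IsPreconnected M) (hb : Bornology.IsBounded M)
    (c c' : ℤ × ℤ) (hc : (cell c ∩ M).Nonempty) (hc' : (cell c' ∩ M).Nonempty) :
    Relation.ReflTransGen (fun a b => CAdj a b ∧ (cell b ∩ M).Nonempty) c c' := by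
  -- finitely many cells meet `M`
  have hfin : {a : ℤ × ℤ | (cell a ∩ M).Nonempty}.Finite := by
    obtain ⟨r, hr⟩ := hb.subset_closedBall (0 : ℝ × ℝ)
    apply Set.Finite.subset ((Set.finite_Icc (-⌈r⌉ - 1) ⌈r⌉).prod
      (Set.finite_Icc (-⌈r⌉ - 1) ⌈r⌉))
    rintro a ⟨p, hpa, hpM⟩
    have h1 := hr hpM
    rw [mem_closedBall_zero_iff, Prod.norm_def, max_le_iff, Real.norm_eq_abs, Real.norm_eq_abs,
      abs_le, abs_le] at h1
    obtain ⟨⟨q1, q2⟩, q3, q4⟩ := h1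
    obtain ⟨⟨a1, a2⟩, a3, a4⟩ := cc_mem_cell.1 hpa
    have hr' := Int.le_ceil r
    have e1 : ((-⌈r⌉ - 1 : ℤ) : ℝ) ≤ a.1 := by push_cast; linarith
    have e2 : (a.1 : ℝ) ≤ (⌈r⌉ : ℤ) := by linarith
    have e3 : ((-⌈r⌉ - 1 : ℤ) : ℝ) ≤ a.2 := by push_cast; linarith
    have e4 : (a.2 : ℝ) ≤ (⌈r⌉ : ℤ) := by linarith
    exact ⟨⟨by exact_mod_cast e1, by exact_mod_cast e2⟩,
      by exact_mod_cast e3, by exact_mod_cast e4⟩
  by_contra hcon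
  let R : Set (ℤ × ℤ) := {a | (cell a ∩ M).Nonempty ∧
    Relation.ReflTransGen (fun a b => CAdj a b ∧ (cell b ∩ M).Nonempty) c a}
  let R' : Set (ℤ × ℤ) := {a | (cell a ∩ M).Nonempty ∧
    ¬ Relation.ReflTransGen (fun a b => CAdj a b ∧ (cell b ∩ M).Nonempty) c a}
  have hRf : R.Finite := hfin.subset (fun a ha => ha.1)
  have hRf' : R'.Finite := hfin.subset (fun a ha => ha.1)
  have k1 : IsClosed (⋃ a ∈ R, cell a) := hRf.isClosed_biUnion (fun a _ => cc_isClosed a)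
  have k2 : IsClosed (⋃ a ∈ R', cell a) := hRf'.isClosed_biUnion (fun a _ => cc_isClosed a)
  have k3 : M ⊆ (⋃ a ∈ R, cell a) ∪ (⋃ a ∈ R', cell a) := by
    intro p hp
    obtain ⟨a, ha⟩ := cc_exists p
    by_cases h : Relation.ReflTransGen (fun a b => CAdj a b ∧ (cell b ∩ M).Nonempty) c a
    · exact Or.inl (Set.mem_biUnion (show a ∈ R from ⟨⟨p, ha, hp⟩, h⟩) ha)
    · exact Or.inr (Set.mem_biUnion (show a ∈ R' from ⟨⟨p, ha, hp⟩, h⟩) ha)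
  have k4 : (M ∩ ⋃ a ∈ R, cell a).Nonempty := by
    obtain ⟨p, hp, hpM⟩ := hc
    exact ⟨p, hpM, Set.mem_biUnion (show c ∈ R from ⟨⟨p, hp, hpM⟩, Relation.ReflTransGen.refl⟩)
      hp⟩
  have k5 : (M ∩ ⋃ a ∈ R', cell a).Nonempty := by
    obtain ⟨p, hp, hpM⟩ := hc'
    exact ⟨p, hpM, Set.mem_biUnion (show c' ∈ R' from ⟨⟨p, hp, hpM⟩, hcon⟩) hp⟩
  obtain ⟨p, hpM, hp1, hp2⟩ := isPreconnected_closed_iff.1 hM _ _ k1 k2 k3 k4 k5
  obtain ⟨a, haR, ha⟩ := Set.mem_iUnion₂.1 hp1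
  obtain ⟨b, hbR, hb⟩ := Set.mem_iUnion₂.1 hp2
  apply hbR.2
  refine haR.2.trans ?_
  have hm : (fun a b : ℤ × ℤ => CAdj a b ∧ p ∈ cell b) ≤
      (fun a b : ℤ × ℤ => CAdj a b ∧ (cell b ∩ M).Nonempty) :=
    fun x y h => ⟨h.1, ⟨p, h.2, hpM⟩⟩
  exact Relation.ReflTransGen.mono hm _ _ (cc_common ha hb)

end Pool.Agent.Helper83.OP
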