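import Pool.Agent.Helper83.OP.Scaled
import Pool.Agent.Helper83.OP.CellsChain

/-!
# OP-24: grid layouts exist
-/

namespace Pool.Agent.Helper83.OP

open Set

/-- two cells with a common side meet -/
theorem le_cadj_meet {a b : ℤ × ℤ} (h : CAdj a b) : ¬ Disjoint (cell a) (cell b) := by
  rw [Set.not_disjoint_iff]
  refine ⟨(max (a.1 : ℝ) b.1, max (a.2 : ℝ) b.2), cc_mem_cell.2 ?_, cc_mem_cell.2 ?_⟩ <;>
  · rcases h with ⟨h1, h2 | h2⟩ | ⟨h1, h2 | h2⟩ <;>
    · have e1 := congrArg (fun z : ℤ => (z : ℝ)) h1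
      have e2 := congrArg (fun z : ℤ => (z : ℝ)) h2
      simp only [Int.cast_add, Int.cast_one] at e1 e2
      simp only
      refine ⟨⟨?_, ?_⟩, ?_, ?_⟩ <;>
        first
        | exact le_max_left _ _
        | exact le_max_right _ _
        | (apply max_le <;> linarith)

/-- the graph of the cells with the property `Q` -/
def leG (Q : ℤ × ℤ → Prop) : SimpleGraph (ℤ × ℤ) where
  Adj a b := CAdj a b ∧ Q a ∧ Q b
  symm := ⟨by
    rintro a b ⟨h, ha, hb⟩
    refine ⟨?_, hb, ha⟩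
    rcases h with ⟨h1, h2⟩ | ⟨h1, h2⟩
    · exact Or.inl ⟨h1.symm, h2.symm⟩
    · exact Or.inr ⟨h1.symm, h2.symm⟩⟩
  loopless := ⟨by
    rintro a ⟨h, _, _⟩
    rcases h with ⟨h1, h2 | h2⟩ | ⟨h1, h2 | h2⟩ <;> omega⟩

theorem le_walk {Q : ℤ × ℤ → Prop} {c c' : ℤ × ℤ} (hc : Q c)
    (h : Relation.ReflTransGen (fun a b => CAdj a b ∧ Q b) c c') :
    Q c' ∧ Nonempty ((leG Q).Walk c c') := by
  induction h with
  | refl => exact ⟨hc, ⟨SimpleGraph.Walk.nil⟩⟩
  | tail _ h2 ih =>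
    obtain ⟨hb, ⟨w⟩⟩ := ih
    exact ⟨h2.2, ⟨w.append (SimpleGraph.Walk.cons (⟨h2.1, hb, h2.2⟩ : (leG Q).Adj _ _)
      SimpleGraph.Walk.nil)⟩⟩

theorem le_support {V : Type} {G : SimpleGraph V} {c c' : V} (w : G.Walk c c') (h : c ≠ c') :
    ∃ l, w.support = c :: (l ++ [c']) := by
  cases w with
  | nil => exact absurd rfl h
  | cons h' q =>
    refine ⟨q.support.dropLast, ?_⟩
    have e1 := List.dropLast_append_getLast q.support_ne_nil
    have e2 : q.support.getLast q.support_ne_nil = c' := q.getLast_support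
    rw [e2] at e1
    rw [SimpleGraph.Walk.support_cons, e1]

/-- shortest walk between two sets -/
theorem le_path {Q : ℤ × ℤ → Prop} {B B' : Set (ℤ × ℤ)} (hBB : Disjoint B B')
    (h : ∃ c ∈ B, ∃ c' ∈ B', Nonempty ((leG Q).Walk c c')) :
    ∃ c ∈ B, ∃ c' ∈ B', ∃ l : List (ℤ × ℤ), List.IsChain CAdj (c :: (l ++ [c'])) ∧ l.Nodup ∧
      ∀ x ∈ l, Q x ∧ x ∉ B ∧ x ∉ B' := by
  classical
  have hex : ∃ n, ∃ c ∈ B, ∃ c' ∈ B', ∃ w : (leG Q).Walk c c', w.length = n := by
    obtain ⟨c, hc, c', hc', ⟨w⟩⟩ := h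
    exact ⟨w.length, c, hc, c', hc', w, rfl⟩
  obtain ⟨c, hc, c', hc', w0, hw0⟩ := Nat.find_spec hex
  have hmin : ∀ x ∈ B, ∀ x' ∈ B', ∀ w : (leG Q).Walk x x', Nat.find hex ≤ w.length :=
    fun x hx x' hx' w => Nat.find_min' hex ⟨x, hx, x', hx', w, rfl⟩
  set w := w0.bypass with hw
  have hwp : w.IsPath := w0.bypass_isPath
  have hwl : w.length ≤ Nat.find hex := by
    rw [← hw0]
    exact w0.length_bypass_le_length
  have hcc : c ≠ c' := fun e => (Set.disjoint_left.1 hBB) hc (e ▸ hc')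
  have hB1 : ∀ x ∈ w.support, x ∈ B → x = c := by
    intro x hx hxB
    by_contra hne
    have h1 := w.length_dropUntil_lt_length hx (fun e => hne e)
    have h2 := hmin x hxB c' hc' (w.dropUntil x hx)
    omega
  have hB2 : ∀ x ∈ w.support, x ∈ B' → x = c' := by
    intro x hx hxB
    by_contra hne
    have h1 := w.length_takeUntil_lt_length hx (fun e => hne e)
    have h2 := hmin c hc x hxB (w.takeUntil x hx)
    omega
  have hnd := hwp.support_nodup
  have hch := w.isChain_adj_support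
  have hQ : ∀ x ∈ w.support, Q x := by
    intro x hx
    obtain ⟨e, he⟩ : ∃ y, (leG Q).Adj x y := by
      have hnn : ¬ w.Nil := fun hn => hcc hn.eq
      obtain ⟨e, he, hxe⟩ := (w.mem_support_iff_exists_mem_edges_of_not_nil hnn).1 hx
      revert he hxe
      refine Sym2.ind (fun a b => ?_) e
      intro he hxe
      have hadj := w.adj_of_mem_edges he
      rcases Sym2.mem_iff.1 hxe with rfl | rfl
      · exact ⟨b, hadj⟩
      · exact ⟨a, hadj.symm⟩
    exact he.2.1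
  obtain ⟨l, hl⟩ := le_support w hcc
  rw [hl] at hnd hch hQ hB1 hB2
  refine ⟨c, hc, c', hc', l, hch.imp (fun a b h => h.1), ?_, ?_⟩
  · exact ((List.nodup_cons.1 hnd).2).of_append_left
  · intro x hx
    have hx1 : x ∈ c :: (l ++ [c']) := by simp [hx]
    refine ⟨hQ x hx1, fun hxB => ?_, fun hxB => ?_⟩
    · have := hB1 x hx1 hxB
      subst this
      apply (List.nodup_cons.1 hnd).1
      simp [hx]
    · have := hB2 x hx1 hxB
      subst this
      have h3 := (List.nodup_append.1 (List.nodup_cons.1 hnd).2).2.2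
      exact h3 x hx x (by simp) rfl

variable {J I : Type} {src tgt : I → J}

/-- T0c -/
theorem exists_layout [Finite J] [Finite I] (hst : ∀ i, src i ≠ tgt i) (P : PG J I src tgt) :
    Nonempty (Layout J I src tgt) := by
  obtain ⟨x0, x1, y0, y1, M, hx, hy, hbl, hpre, hbd, hs, ht, havoid, hdis⟩ := scaled P
  have hdisj : ∀ j j', j ≠ j' → Disjoint (block (x0 j) (x1 j) (y0 j) (y1 j))
      (block (x0 j') (x1 j') (y0 j') (y1 j')) := by
    intro j j' hjj
    rw [Set.disjoint_left]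
    intro c hc hc'
    have := hbl j j' hjj c hc c hc'
    rw [disjoint_self] at this
    have hmem : ((c.1 : ℝ), (c.2 : ℝ)) ∈ cell c := cc_mem_cell.2 ⟨⟨le_rfl, by simp⟩, le_rfl, by simp⟩
    rw [show cell c = ∅ from this] at hmem
    exact hmem
  have key : ∀ i, ∃ c ∈ block (x0 (src i)) (x1 (src i)) (y0 (src i)) (y1 (src i)),
      ∃ c' ∈ block (x0 (tgt i)) (x1 (tgt i)) (y0 (tgt i)) (y1 (tgt i)),
      ∃ l : List (ℤ × ℤ), List.IsChain CAdj (c :: (l ++ [c'])) ∧ l.Nodup ∧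
      ∀ x ∈ l, (cell x ∩ M i).Nonempty ∧
        x ∉ block (x0 (src i)) (x1 (src i)) (y0 (src i)) (y1 (src i)) ∧
        x ∉ block (x0 (tgt i)) (x1 (tgt i)) (y0 (tgt i)) (y1 (tgt i)) := by
    intro i
    refine le_path (Q := fun x => (cell x ∩ M i).Nonempty) (hdisj _ _ (hst i)) ?_
    obtain ⟨c, hc, hcM⟩ := hs i
    obtain ⟨c', hc', hcM'⟩ := ht i
    exact ⟨c, hc, c', hc', (le_walk hcM (cells_chain (M i) (hpre i) (hbd i) c c' hcM hcM')).2⟩
  choose cs hcs ce hce cells hch hnd hcells using key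
  refine ⟨⟨x0, x1, y0, y1, hx, hy, ?_, cells, cs, ce, ?_, hnd, hch, hcs, hce, ?_, ?_⟩⟩
  · intro j j' c hc hc'
    by_contra hne
    exact Set.disjoint_left.1 (hdisj j j' hne) hc hc'
  · intro i he
    have h1 := hch i
    rw [he] at h1
    have h2 : CAdj (cs i) (ce i) := by
      simpa using h1
    exact le_cadj_meet h2 (hbl _ _ (hst i) _ (hcs i) _ (hce i))
  · intro i c hc j hj
    obtain ⟨h1, h2, h3⟩ := hcells i c hc
    by_cases e1 : j = src i
    · subst e1; exact h2 hj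
    by_cases e2 : j = tgt i
    · subst e2; exact h3 hj
    obtain ⟨p, hp1, hp2⟩ := h1
    exact Set.disjoint_left.1 (havoid i j e1 e2 c hj) hp1 hp2
  · intro i i' hii c hc hc'
    exact hdis i i' hii c (hcells i c hc).1 (hcells i' c hc').1

end Pool.Agent.Helper83.OP
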