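import Pool.Agent.Helper83.OP.Defs

namespace Pool.Agent.Helper83.OP

open Set

theorem ncard_fiber {α β : Type} [Finite α] (S : Set α) (T : Finset β) (f : α → β)
    (h : ∀ x ∈ S, f x ∈ T) : S.ncard = ∑ t ∈ T, {x | x ∈ S ∧ f x = t}.ncard := by
  classical
  have := Fintype.ofFinite α
  have h1 : S.ncard = S.toFinset.card := Set.ncard_eq_toFinset_card' S
  rw [h1, Finset.card_eq_sum_card_fiberwise (f := f) (t := T) (fun x hx => h x (by simpa using hx))]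
  refine Finset.sum_congr rfl fun t _ => ?_
  rw [Set.ncard_eq_toFinset_card']
  congr 1
  ext x
  simp

theorem exists_rho (m : ℕ) : ∃ ρ : ℕ, 1 ≤ ρ ∧ 96 * (2 * m * (4 * ρ + 1) + 1) ≤ 2 ^ (ρ - 1) := by
  set c := 96 * (16 * m + 1) with hc
  refine ⟨2 * c + 1, by omega, ?_⟩
  have h1 : c < 2 ^ c := Nat.lt_two_pow_self
  have h2 : 2 ^ (2 * c + 1 - 1) = 2 ^ c * 2 ^ c := by
    rw [← pow_add]; congr 1; omega
  rw [h2]
  have h3 : (c + 1) * (c + 1) ≤ 2 ^ c * 2 ^ c := Nat.mul_le_mul h1 h1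
  refine le_trans ?_ h3
  have h4 : 96 * (2 * m * (4 * (2 * c + 1) + 1) + 1) ≤ c * (c + 1) := by
    have : 2 * m * (4 * (2 * c + 1) + 1) + 1 ≤ (16 * m + 1) * (c + 1) := by nlinarith
    calc 96 * (2 * m * (4 * (2 * c + 1) + 1) + 1) ≤ 96 * ((16 * m + 1) * (c + 1)) :=
          Nat.mul_le_mul_left _ this
      _ = c * (c + 1) := by rw [hc]; ring
  nlinarith

theorem handshake {V : Type} [Finite V] (H : SimpleGraph V) (D : ℕ) (S : Set V)
    (hS : ∀ v ∈ S, D + 1 ≤ deg H v) : (D + 1) * S.ncard ≤ 2 * H.edgeSet.ncard := by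
  classical
  have := Fintype.ofFinite V
  have h1 : H.edgeSet.ncard = H.edgeFinset.card := by
    rw [Set.ncard_eq_toFinset_card']; rfl
  have h2 : ∀ v, deg H v = H.degree v := by
    intro v
    unfold deg
    rw [Set.ncard_eq_toFinset_card']
    rfl
  rw [h1, ← H.sum_degrees_eq_twice_card_edges, Set.ncard_eq_toFinset_card']
  calc (D + 1) * S.toFinset.card = ∑ v ∈ S.toFinset, (D + 1) := by
        rw [Finset.sum_const, smul_eq_mul, mul_comm]
    _ ≤ ∑ v ∈ S.toFinset, H.degree v := by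
        refine Finset.sum_le_sum fun v hv => ?_
        rw [← h2]
        exact hS v (by simpa using hv)
    _ ≤ ∑ v, H.degree v := Finset.sum_le_univ_sum_of_nonneg (fun _ => Nat.zero_le _)

theorem nlc_of
    (exists_clus : ∀ {V : Type} [Finite V] (H : SimpleGraph V) (N : Set V) (ρ : ℕ),
      Nonempty (Clus H N ρ))
    (clus_tidy : ∀ {V : Type} [Finite V] {H : SimpleGraph V} {N : Set V} {ρ : ℕ} (K : Clus H N ρ)
      (_ : ∀ (u : V) (C : H.Walk u u), C.IsCycle → C.length ≤ 8 * ρ + 2 →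
      ∀ hub, ∃ v ∈ C.support, v ≠ hub ∧ v ∉ N), K.Tidy)
    (out_ge : ∀ {V : Type} [Finite V] {H : SimpleGraph V} {N : Set V} {ρ : ℕ} (K : Clus H N ρ)
      (_ : K.Tidy) (x0 y0 : V)
    (_ : ∀ v ∈ N, v ≠ x0 → v ≠ y0 → 3 ≤ deg H v) (_ : ∀ v ∈ N, 2 ≤ deg H v)
    (s : V) (_ : s ∈ K.Ctr),
    (K.cl s).ncard + 2 ≤ (K.cOut s).ncard + (K.hOut s).ncard + ({x0, y0} ∩ K.cl s : Set V).ncard)
    (growth : ∀ {V : Type} [Finite V] {H : SimpleGraph V} {N : Set V} {ρ : ℕ} (K : Clus H N ρ)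
      (_ : K.Tidy) (_ : 1 ≤ ρ) (s : V) (_ : s ∈ K.Ctr)
    (_ : ∀ v ∈ K.cl s, 3 ≤ deg H v) (_ : (K.hOut s).ncard ≤ 2),
    2 ^ (ρ - 1) ≤ (K.cl s).ncard)
    (cc_small : ∀ {V : Type} [Finite V] {H : SimpleGraph V} {N : Set V} {ρ : ℕ} (K : Clus H N ρ)
      (_ : K.Tidy),
    {e : V × V | e.1 ∈ N ∧ e.2 ∈ N ∧ H.Adj e.1 e.2 ∧ K.ctr e.1 ≠ K.ctr e.2}.ncard ≤
      K.Ctr.ncard * (K.Ctr.ncard - 1))
    (cc_bound : ∀ {V : Type} [Finite V] {H : SimpleGraph V} {N : Set V} {ρ : ℕ}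
      (X : Sym2 V → Sym2 V → Prop) (m : ℕ)
    (_ : ∀ f ∈ H.edgeSet, {f' | f' ∈ H.edgeSet ∧ X f f'}.ncard ≤ m) (_ : PlanarLike H X)
    (K : Clus H N ρ) (_ : K.Tidy),
    {e : V × V | e.1 ∈ N ∧ e.2 ∈ N ∧ H.Adj e.1 e.2 ∧ K.ctr e.1 ≠ K.ctr e.2}.ncard ≤
      24 * (2 * m * (4 * ρ + 1) + 1) * K.Ctr.ncard)
    (ch_bound : ∀ {V : Type} [Finite V] {H : SimpleGraph V} {N : Set V} {ρ : ℕ}
      (X : Sym2 V → Sym2 V → Prop) (m : ℕ)
    (_ : ∀ f ∈ H.edgeSet, {f' | f' ∈ H.edgeSet ∧ X f f'}.ncard ≤ m) (_ : PlanarLike H X)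
    (K : Clus H N ρ) (_ : K.Tidy),
    {e : V × V | e.1 ∈ N ∧ e.2 ∉ N ∧ H.Adj e.1 e.2}.ncard ≤
      12 * (K.Ctr.ncard + (2 * m * (4 * ρ + 1) + 1) * {g | g ∉ N ∧ deg H g ≠ 0}.ncard))
    (tri_bound : ∀ {V : Type} [Finite V] {H : SimpleGraph V} {N : Set V} {ρ : ℕ}
      (X : Sym2 V → Sym2 V → Prop) (m : ℕ)
    (_ : ∀ f ∈ H.edgeSet, {f' | f' ∈ H.edgeSet ∧ X f f'}.ncard ≤ m) (_ : PlanarLike H X)
    (K : Clus H N ρ) (_ : K.Tidy),
    {s | s ∈ K.Ctr ∧ 3 ≤ (K.hOut s).ncard}.ncard ≤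
      396 * (6 * m * (2 * ρ + 1) + 1) * {g | g ∉ N ∧ deg H g ≠ 0}.ncard)
    (edge_bound : ∀ {V : Type} [Finite V] {H : SimpleGraph V}
      (X : Sym2 V → Sym2 V → Prop) (m : ℕ) (_ : ∀ f f', X f f' → X f' f)
    (_ : ∀ f ∈ H.edgeSet, {f' | f' ∈ H.edgeSet ∧ X f f'}.ncard ≤ m) (_ : PlanarLike H X),
    H.edgeSet.ncard ≤ 4 * (m + 1) * {v | deg H v ≠ 0}.ncard)
    (m : ℕ) : ∃ ℓ D : ℕ, ∀ (V : Type) [Finite V] (H : SimpleGraph V)
    (X : Sym2 V → Sym2 V → Prop) (x0 y0 : V), (∀ f f', X f f' → X f' f) →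
    (∀ f ∈ H.edgeSet, {f' | f' ∈ H.edgeSet ∧ X f f'}.ncard ≤ m) → PlanarLike H X →
    2 ≤ deg H x0 → 2 ≤ deg H y0 → (∀ v, v ≠ x0 → v ≠ y0 → deg H v = 0 ∨ 3 ≤ deg H v) →
    ∃ (u : V) (C : H.Walk u u) (hub : V), C.IsCycle ∧ C.length ≤ ℓ ∧
      ∀ v ∈ C.support, v ≠ hub → deg H v ≤ D := by
  obtain ⟨ρ, hρ, hρ2⟩ := exists_rho m
  obtain ⟨Mm, hMm⟩ : ∃ Mm, Mm = 2 * m * (4 * ρ + 1) + 1 := ⟨_, rfl⟩
  obtain ⟨M3, hM3⟩ : ∃ M3, M3 = 6 * m * (2 * ρ + 1) + 1 := ⟨_, rfl⟩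
  obtain ⟨Pp, hPp⟩ : ∃ Pp, Pp = 792 * M3 + 3 := ⟨_, rfl⟩
  obtain ⟨C, hC⟩ : ∃ C, C = 24 * Mm * Pp + 12 * Pp + 12 * Mm + 2 := ⟨_, rfl⟩
  refine ⟨8 * ρ + 2, 8 * (m + 1) * (C + 1), fun V _ H X x0 y0 hsym hX hP hx0 hy0 hdeg => ?_⟩
  obtain ⟨D, hD⟩ : ∃ D, D = 8 * (m + 1) * (C + 1) := ⟨_, rfl⟩
  rw [← hD]
  by_contra hcon
  push Not at hcon
  classical
  have := Fintype.ofFinite V
  set N : Set V := {v | deg H v ≠ 0 ∧ deg H v ≤ D} with hN
  obtain ⟨K⟩ := exists_clus H N ρ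
  have hT : K.Tidy := clus_tidy K (fun u Cy hCy hlen hub => by
    obtain ⟨v, hv, hvh, hvD⟩ := hcon u Cy hub hCy hlen
    exact ⟨v, hv, hvh, fun hvN => absurd hvN.2 (not_le.2 hvD)⟩)
  have h3 : ∀ v ∈ N, v ≠ x0 → v ≠ y0 → 3 ≤ deg H v := fun v hv h1 h2 =>
    (hdeg v h1 h2).resolve_left hv.1
  have h2 : ∀ v ∈ N, 2 ≤ deg H v := by
    intro v hv
    by_cases h1 : v = x0
    · rw [h1]; exact hx0
    by_cases h2 : v = y0
    · rw [h2]; exact hy0
    exact le_trans (by norm_num) (h3 v hv h1 h2)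
  set h := {g | g ∉ N ∧ deg H g ≠ 0}.ncard with hh
  set p := K.Ctr.ncard with hp
  set τ := {s | s ∈ K.Ctr ∧ 3 ≤ (K.hOut s).ncard}.ncard with hτ
  set Cf : Finset V := K.Ctr.toFinset with hCf
  have hpCf : p = Cf.card := Set.ncard_eq_toFinset_card' _
  have hctr : ∀ v ∈ N, K.ctr v ∈ Cf := by
    intro v hv
    rw [hCf, Set.mem_toFinset]
    exact ⟨K.ctr_mem v hv, K.ctr_ctr v hv⟩
  set B2 := {e : V × V | e.1 ∈ N ∧ e.2 ∈ N ∧ H.Adj e.1 e.2 ∧ K.ctr e.1 ≠ K.ctr e.2}.ncard with hB2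
  set A := {e : V × V | e.1 ∈ N ∧ e.2 ∉ N ∧ H.Adj e.1 e.2}.ncard with hA
  have sN : N.ncard = ∑ s ∈ Cf, (K.cl s).ncard := by
    rw [ncard_fiber N Cf K.ctr hctr]
    rfl
  have sB : B2 = ∑ s ∈ Cf, (K.cOut s).ncard := by
    rw [hB2, ncard_fiber _ Cf (fun e : V × V => K.ctr e.1) (fun e he => hctr _ he.1)]
    refine Finset.sum_congr rfl fun s _ => ?_
    congr 1
    ext e
    constructor
    · rintro ⟨⟨a1, a2, a3, a4⟩, a5⟩
      exact ⟨a1, a2, a3, a5, fun h => a4 (a5.trans h.symm)⟩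
    · rintro ⟨a1, a2, a3, a4, a5⟩
      exact ⟨⟨a1, a2, a3, fun h => a5 (h.symm.trans a4)⟩, a4⟩
  have sA : A = ∑ s ∈ Cf, (K.hOut s).ncard := by
    rw [hA, ncard_fiber _ Cf (fun e : V × V => K.ctr e.1) (fun e he => hctr _ he.1)]
    refine Finset.sum_congr rfl fun s _ => ?_
    congr 1
    ext e
    constructor
    · rintro ⟨⟨a1, a2, a3⟩, a4⟩
      exact ⟨a1, a4, a2, a3⟩
    · rintro ⟨a1, a2, a3, a4⟩
      exact ⟨⟨a1, a3, a4⟩, a2⟩
  have sE : ∑ s ∈ Cf, ({x0, y0} ∩ K.cl s : Set V).ncard ≤ 2 := by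
    have e1 := ncard_fiber ({x0, y0} ∩ N : Set V) Cf K.ctr (fun v hv => hctr v hv.2)
    have e2 : ({x0, y0} ∩ N : Set V).ncard ≤ 2 :=
      (Set.ncard_le_ncard Set.inter_subset_left (Set.toFinite _)).trans
        ((Set.ncard_insert_le _ _).trans (by rw [Set.ncard_singleton]))
    rw [e1] at e2
    refine le_trans (le_of_eq ?_) e2
    refine Finset.sum_congr rfl fun s _ => ?_
    congr 1
    ext v
    constructor
    · rintro ⟨a1, a2, a3⟩; exact ⟨⟨a1, a2⟩, a3⟩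
    · rintro ⟨⟨a1, a2⟩, a3⟩; exact ⟨a1, a2, a3⟩
  have sum5 : N.ncard + 2 * p ≤ B2 + A + 2 := by
    have : ∑ s ∈ Cf, ((K.cl s).ncard + 2) ≤
        ∑ s ∈ Cf, ((K.cOut s).ncard + (K.hOut s).ncard + ({x0, y0} ∩ K.cl s : Set V).ncard) :=
      Finset.sum_le_sum fun s hs => out_ge K hT x0 y0 h3 h2 s (by
        rw [hCf, Set.mem_toFinset] at hs; exact hs)
    rw [Finset.sum_add_distrib, Finset.sum_add_distrib, Finset.sum_add_distrib, ← sN, ← sB, ← sA,
      Finset.sum_const, smul_eq_mul, ← hpCf] at this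
    omega
  -- good clusters
  have hgood : 3 * p ≤ 4 * τ + 8 := by
    set G := Cf.filter (fun s => (K.hOut s).ncard ≤ 2 ∧ x0 ∉ K.cl s ∧ y0 ∉ K.cl s) with hG
    have g1 : 96 * Mm * G.card ≤ B2 := by
      rw [sB]
      calc 96 * Mm * G.card = ∑ s ∈ G, 96 * Mm := by rw [Finset.sum_const, smul_eq_mul, mul_comm]
        _ ≤ ∑ s ∈ G, (K.cOut s).ncard := by
          refine Finset.sum_le_sum fun s hs => ?_
          rw [hG, Finset.mem_filter, hCf, Set.mem_toFinset] at hs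
          obtain ⟨hs1, hs2, hs3, hs4⟩ := hs
          have e0 : ({x0, y0} ∩ K.cl s : Set V).ncard = 0 := by
            rw [Set.ncard_eq_zero]
            ext v
            constructor
            · rintro ⟨a1, a2⟩
              rcases a1 with rfl | rfl
              · exact hs3 a2
              · exact hs4 a2
            · intro hv; exact absurd hv (Set.notMem_empty v)
          have e1 := out_ge K hT x0 y0 h3 h2 s hs1
          have e2 := growth K hT hρ s hs1 (fun v hv => h3 v hv.1 (fun h => hs3 (h ▸ hv))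
            (fun h => hs4 (h ▸ hv))) hs2
          rw [e0] at e1
          rw [hMm]
          omega
        _ ≤ ∑ s ∈ Cf, (K.cOut s).ncard :=
          Finset.sum_le_sum_of_subset_of_nonneg (Finset.filter_subset _ _)
            (fun _ _ _ => Nat.zero_le _)
    have g2 : B2 ≤ 24 * Mm * p := by rw [hMm]; exact cc_bound X m hX hP K hT
    have g3 : p ≤ G.card + τ + 2 := by
      have : Cf ⊆ G ∪ {s | s ∈ K.Ctr ∧ 3 ≤ (K.hOut s).ncard}.toFinset ∪ {K.ctr x0, K.ctr y0} := by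
        intro s hs
        have hs' := hs
        rw [hCf, Set.mem_toFinset] at hs'
        by_cases a1 : 3 ≤ (K.hOut s).ncard
        · refine Finset.mem_union_left _ (Finset.mem_union_right _ ?_)
          rw [Set.mem_toFinset]; exact ⟨hs', a1⟩
        by_cases a2 : x0 ∈ K.cl s
        · refine Finset.mem_union_right _ ?_
          rw [Finset.mem_insert]; left; exact a2.2.symm
        by_cases a3 : y0 ∈ K.cl s
        · refine Finset.mem_union_right _ ?_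
          rw [Finset.mem_insert, Finset.mem_singleton]; right; exact a3.2.symm
        refine Finset.mem_union_left _ (Finset.mem_union_left _ ?_)
        rw [hG, Finset.mem_filter]
        exact ⟨hs, by omega, a2, a3⟩
      have c1 := Finset.card_le_card this
      have c2 := Finset.card_union_le
        (G ∪ {s | s ∈ K.Ctr ∧ 3 ≤ (K.hOut s).ncard}.toFinset) {K.ctr x0, K.ctr y0}
      have c3 := Finset.card_union_le G {s | s ∈ K.Ctr ∧ 3 ≤ (K.hOut s).ncard}.toFinset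
      have c4 : ({K.ctr x0, K.ctr y0} : Finset V).card ≤ 2 := Finset.card_le_two
      have c5 : τ = {s | s ∈ K.Ctr ∧ 3 ≤ (K.hOut s).ncard}.toFinset.card :=
        Set.ncard_eq_toFinset_card' _
      omega
    have hMpos : 0 < 24 * Mm := by omega
    have g4 : 24 * Mm * (4 * G.card) ≤ 24 * Mm * p := by
      refine le_trans (le_of_eq ?_) (g1.trans g2)
      ring
    have g5 : 4 * G.card ≤ p := Nat.le_of_mul_le_mul_left g4 hMpos
    omega
  have hpn : p ≤ N.ncard := Set.ncard_le_ncard (fun s hs => hs.1) (Set.toFinite _)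
  have hEn : {v | deg H v ≠ 0}.ncard ≤ N.ncard + h := by
    refine le_trans (Set.ncard_le_ncard (t := N ∪ {g | g ∉ N ∧ deg H g ≠ 0}) ?_ (Set.toFinite _))
      (Set.ncard_union_le _ _)
    intro v hv
    by_cases hvN : v ∈ N
    · exact Or.inl hvN
    · exact Or.inr ⟨hvN, hv⟩
  rcases Nat.eq_zero_or_pos h with h0 | hpos
  · -- no hubs
    have hτ0 : τ = 0 := by
      have := tri_bound X m hX hP K hT
      rw [← hh, h0] at this
      simpa using this
    have hA0 : A = 0 := by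
      rw [hA, Set.ncard_eq_zero]
      ext e
      constructor
      · rintro ⟨a1, a2, a3⟩
        have : e.2 ∈ {g | g ∉ N ∧ deg H g ≠ 0} := by
          refine ⟨a2, ?_⟩
          unfold deg
          rw [Ne, Set.ncard_eq_zero]
          intro hemp
          have : e.1 ∈ H.neighborSet e.2 := a3.symm
          rw [hemp] at this
          exact this
        rw [hh, Set.ncard_eq_zero] at h0
        rw [h0] at this
        exact this
      · intro he; exact absurd he (Set.notMem_empty e)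
    have hp2 : p ≤ 2 := by omega
    have hB2' : B2 ≤ p * (p - 1) := cc_small K hT
    have hp1 : p ≠ 0 := by
      intro hp0
      have hNe : N.ncard = 0 := by rw [sN]; rw [hpCf, Finset.card_eq_zero] at hp0; rw [hp0]; simp
      have hx : x0 ∈ N ∪ {g | g ∉ N ∧ deg H g ≠ 0} := by
        by_cases hvN : x0 ∈ N
        · exact Or.inl hvN
        · exact Or.inr ⟨hvN, by omega⟩
      rw [hh, Set.ncard_eq_zero] at h0
      rw [Set.ncard_eq_zero] at hNe
      rw [h0, hNe] at hx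
      simp at hx
    have hcase : p = 1 ∨ p = 2 := by omega
    clear_value B2 A
    rcases hcase with hc | hc
    · rw [hc] at hB2' sum5 hpn
      omega
    · rw [hc] at hB2' sum5 hpn
      omega
  · have hτb : τ ≤ 396 * M3 * h := by rw [hM3]; exact tri_bound X m hX hP K hT
    have hAb : A ≤ 12 * (p + Mm * h) := by rw [hMm]; exact ch_bound X m hX hP K hT
    have hBb : B2 ≤ 24 * Mm * p := by rw [hMm]; exact cc_bound X m hX hP K hT
    have hpb : p ≤ Pp * h := by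
      rw [hPp]
      have : p ≤ 2 * τ + 3 := by omega
      nlinarith
    have hnb : N.ncard ≤ C * h := by
      have e1 : N.ncard ≤ B2 + A + 2 := by omega
      have e2 : 24 * Mm * p ≤ 24 * Mm * (Pp * h) := Nat.mul_le_mul_left _ hpb
      rw [hC]
      nlinarith
    have hEb := edge_bound X m hsym hX hP
    have hhs := handshake H D {g | g ∉ N ∧ deg H g ≠ 0} (fun v hv => by
      by_contra hlt
      exact hv.1 ⟨hv.2, by omega⟩)
    rw [← hh] at hhs
    have e3 : 4 * (m + 1) * {v | deg H v ≠ 0}.ncard ≤ 4 * (m + 1) * (C * h + h) :=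
      Nat.mul_le_mul_left _ (by omega)
    have e4 : (D + 1) * h ≤ D * h := by
      calc (D + 1) * h ≤ 2 * H.edgeSet.ncard := hhs
        _ ≤ 2 * (4 * (m + 1) * (C * h + h)) := by omega
        _ = D * h := by rw [hD]; ring
    have e5 : (D + 1) * h = D * h + h := by ring
    rw [e5] at e4
    exact absurd (Nat.le_of_add_le_add_left (a := D * h) (b := h) (c := 0) (by simpa using e4))
      (by exact not_le.2 hpos)

end Pool.Agent.Helper83.OP
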