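import Pool.Agent.Helper83.OP.Defs

/-!
# OP-32: paths and degrees in the node graph
-/

set_option autoImplicit false

namespace Pool.Agent.Helper83.OP

open Set

namespace NodePath

variable {V : Type}

theorem adj_node (H : SimpleGraph V) (Z : Plz H) (A : Set (H.edgeSet × Bool)) (f : H.edgeSet)
    (hf : ∀ b, (f, b) ∈ A) (x : V) (hx : x ∈ (f : Sym2 V)) :
    (nodeGraph Z.src Z.tgt A).Adj (Z.vn x) (Z.bn f) := by
  rw [Z.ends f, Sym2.mem_iff] at hx
  rw [nodeGraph, SimpleGraph.fromRel_adj]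
  refine ⟨Z.vn_ne x f, ?_⟩
  rcases hx with h | h
  · left
    refine ⟨(f, false), hf _, ?_, rfl⟩
    change Z.vn (Z.a f) = Z.vn x
    rw [h]
  · right
    refine ⟨(f, true), hf _, rfl, ?_⟩
    change Z.vn (Z.b f) = Z.vn x
    rw [h]

theorem exists_walk (H : SimpleGraph V) (Z : Plz H) (A : Set (H.edgeSet × Bool)) {u v : V}
    (Q : H.Walk u v) (hA : ∀ f : H.edgeSet, (f : Sym2 V) ∈ Q.edges → ∀ b, (f, b) ∈ A) :
    ∃ p : (nodeGraph Z.src Z.tgt A).Walk (Z.vn u) (Z.vn v), p.length ≤ 2 * Q.length ∧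
      ∀ x ∈ p.support, (∃ y ∈ Q.support, x = Z.vn y) ∨ ∃ f, x = Z.bn f := by
  induction Q with
  | @nil w =>
    refine ⟨SimpleGraph.Walk.nil, by simp, fun x hx => Or.inl ⟨w, by simp, ?_⟩⟩
    simpa using hx
  | @cons u w v h Q ih =>
    obtain ⟨p, hp, hs⟩ := ih (fun f hf b => hA f (by
      rw [SimpleGraph.Walk.edges_cons]; exact List.mem_cons_of_mem _ hf) b)
    have hf : ∀ b, ((⟨s(u, w), h⟩ : H.edgeSet), b) ∈ A := hA ⟨s(u, w), h⟩ (by
      rw [SimpleGraph.Walk.edges_cons]; exact List.mem_cons_self)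
    have h1 := adj_node H Z A ⟨s(u, w), h⟩ hf u (Sym2.mem_mk_left _ _)
    have h2 := adj_node H Z A ⟨s(u, w), h⟩ hf w (Sym2.mem_mk_right _ _)
    refine ⟨SimpleGraph.Walk.cons h1 (SimpleGraph.Walk.cons h2.symm p), ?_, ?_⟩
    · rw [SimpleGraph.Walk.length_cons, SimpleGraph.Walk.length_cons,
        SimpleGraph.Walk.length_cons]
      omega
    · intro x hx
      rw [SimpleGraph.Walk.support_cons, SimpleGraph.Walk.support_cons, List.mem_cons,
        List.mem_cons] at hx
      rcases hx with hx | hx | hx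
      · exact Or.inl ⟨u, by simp, hx⟩
      · exact Or.inr ⟨_, hx⟩
      · rcases hs x hx with ⟨y, hy, hxy⟩ | h3
        · exact Or.inl ⟨y, by
            rw [SimpleGraph.Walk.support_cons]; exact List.mem_cons_of_mem _ hy, hxy⟩
        · exact Or.inr h3

end NodePath

theorem node_path {V : Type} [Finite V] (H : SimpleGraph V) (Z : Plz H) (u v : V) (huv : u ≠ v)
    (Q : H.Walk u v) :
    ∃ p : (nodeGraph Z.src Z.tgt {i | (i.1 : Sym2 V) ∈ Q.edges}).Walk (Z.vn u) (Z.vn v),
      p.IsPath ∧ p.length ≤ 2 * Q.length ∧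
      ∀ x ∈ p.support, (∃ y ∈ Q.support, x = Z.vn y) ∨ ∃ f, x = Z.bn f := by
  classical
  obtain ⟨p, hp, hs⟩ := NodePath.exists_walk H Z {i | (i.1 : Sym2 V) ∈ Q.edges} Q
    (fun f hf b => hf)
  exact ⟨p.bypass, p.bypass_isPath, p.length_bypass_le_length.trans hp,
    fun x hx => hs x (p.support_bypass_subset_support hx)⟩

theorem node_deg {V : Type} [Finite V] (H : SimpleGraph V) (Z : Plz H) :
    (∀ y, {i | Z.src i = Z.vn y ∨ Z.tgt i = Z.vn y}.ncard ≤ deg H y) ∧
    (∀ f, {i | Z.src i = Z.bn f ∨ Z.tgt i = Z.bn f}.ncard ≤ 4) := by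
  classical
  constructor
  · intro y
    have hcase : ∀ i : H.edgeSet × Bool, (Z.src i = Z.vn y ∨ Z.tgt i = Z.vn y) →
        (i.2 = false ∧ Z.a i.1 = y) ∨ (i.2 = true ∧ Z.b i.1 = y) := by
      rintro ⟨f, _ | _⟩ h
      · left
        refine ⟨rfl, ?_⟩
        rcases h with h | h
        · exact Z.vn_inj h
        · exact absurd h.symm (Z.vn_ne y f)
      · right
        refine ⟨rfl, ?_⟩
        rcases h with h | h
        · exact absurd h.symm (Z.vn_ne y f)
        · exact Z.vn_inj h
    rw [deg]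
    refine Set.ncard_le_ncard_of_injOn (fun i => bif i.2 then Z.a i.1 else Z.b i.1) ?_ ?_
      (Set.toFinite _)
    · rintro ⟨f, x⟩ hi
      have hf : (f : Sym2 V) ∈ H.edgeSet := f.2
      rw [Z.ends f, SimpleGraph.mem_edgeSet] at hf
      rcases hcase _ hi with ⟨h1, h2⟩ | ⟨h1, h2⟩
      · simp only at h1 h2
        subst h1
        rw [h2] at hf
        exact hf
      · simp only at h1 h2
        subst h1
        rw [h2] at hf
        exact hf.symm
    · rintro ⟨f, x⟩ hi ⟨f', x'⟩ hi' heq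
      have hf : (f : Sym2 V) ∈ H.edgeSet := f.2
      have hf' : (f' : Sym2 V) ∈ H.edgeSet := f'.2
      rw [Z.ends f, SimpleGraph.mem_edgeSet] at hf
      rw [Z.ends f', SimpleGraph.mem_edgeSet] at hf'
      rcases hcase _ hi with ⟨h1, h2⟩ | ⟨h1, h2⟩ <;> rcases hcase _ hi' with ⟨h3, h4⟩ | ⟨h3, h4⟩ <;>
        simp only at h1 h2 h3 h4 <;> subst h1 <;> subst h3 <;> simp only [cond_true, cond_false] at heq
      · have : f = f' := Subtype.ext (by rw [Z.ends f, Z.ends f', h2, h4, heq])
        rw [this]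
      · -- `a f = y`, `b f' = y`, `b f = a f'`
        exfalso
        have : f = f' := Subtype.ext (by rw [Z.ends f, Z.ends f', h2, h4, heq, Sym2.eq_swap])
        subst this
        rw [h2, h4] at hf
        exact H.irrefl hf
      · exfalso
        have : f = f' := Subtype.ext (by rw [Z.ends f, Z.ends f', h2, h4, heq, Sym2.eq_swap])
        subst this
        rw [h2, h4] at hf
        exact H.irrefl hf
      · have : f = f' := Subtype.ext (by rw [Z.ends f, Z.ends f', h2, h4, heq])
        rw [this]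
  · intro f
    have hex : ∃ f' : H.edgeSet, ∀ g : H.edgeSet, Z.bn g = Z.bn f → g = f ∨ g = f' := by
      by_cases h : ∃ g : H.edgeSet, g ≠ f ∧ Z.bn g = Z.bn f
      · obtain ⟨f', hne, hf'⟩ := h
        refine ⟨f', fun g hg => ?_⟩
        by_cases hgf : g = f
        · exact Or.inl hgf
        · exact Or.inr (Z.pair f g f' hgf hne hg hf')
      · refine ⟨f, fun g hg => Or.inl ?_⟩
        by_contra hgf
        exact h ⟨g, hgf, hg⟩
    obtain ⟨f', hf'⟩ := hex
    have hsub : {i | Z.src i = Z.bn f ∨ Z.tgt i = Z.bn f} ⊆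
        (({(f, false), (f, true), (f', false), (f', true)} : Finset (H.edgeSet × Bool)) :
          Set (H.edgeSet × Bool)) := by
      rintro ⟨g, x⟩ hi
      have hg : Z.bn g = Z.bn f := by
        cases x
        · rcases hi with h | h
          · exact absurd h (Z.vn_ne _ _)
          · exact h
        · rcases hi with h | h
          · exact h
          · exact absurd h (Z.vn_ne _ _)
      rcases hf' g hg with h | h
      · subst h
        cases x <;> simp
      · subst h
        cases x <;> simp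
    calc _ ≤ (({(f, false), (f, true), (f', false), (f', true)} : Finset (H.edgeSet × Bool)) :
          Set (H.edgeSet × Bool)).ncard := Set.ncard_le_ncard hsub (Finset.finite_toSet _)
      _ = ({(f, false), (f, true), (f', false), (f', true)} :
          Finset (H.edgeSet × Bool)).card := Set.ncard_coe_finset _
      _ ≤ 4 := Finset.card_le_four

end Pool.Agent.Helper83.OP
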