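import Pool.Agent.Helper83.OP.Arcs

/-!
# The arc of a path in a plane multigraph (OP-29)
-/

namespace Pool.Agent.Helper83.OP

open Set

section PathArc

variable {J I : Type} {src tgt : I → J}

private theorem nodeGraph_adj {A : Set I} {x y : J} (h : (nodeGraph src tgt A).Adj x y) :
    ∃ i ∈ A, (src i = x ∧ tgt i = y) ∨ (src i = y ∧ tgt i = x) := by
  unfold nodeGraph at h
  rw [SimpleGraph.fromRel_adj] at h
  rcases h.2 with ⟨i, hi, h1⟩ | ⟨i, hi, h1⟩
  · exact ⟨i, hi, Or.inl h1⟩
  · exact ⟨i, hi, Or.inr h1⟩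

private theorem edge_arc (P : PG J I src tgt) {i : I} {x y : J}
    (h : (src i = x ∧ tgt i = y) ∨ (src i = y ∧ tgt i = x)) :
    IsArc (P.arc i) (P.pos x) (P.pos y) := by
  rcases h with ⟨rfl, rfl⟩ | ⟨rfl, rfl⟩
  · exact P.isArc i
  · exact (P.isArc i).symm

private theorem path_arc_aux [Finite J] [Finite I] (P : PG J I src tgt) (A : Set I) {j j' : J}
    (p : (nodeGraph src tgt A).Walk j j') :
    j ≠ j' → p.IsPath →
    ∃ As : Finset I, (∀ i ∈ As, i ∈ A ∧ src i ∈ p.support ∧ tgt i ∈ p.support) ∧
      IsArc (⋃ i ∈ As, P.arc i) (P.pos j) (P.pos j') ∧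
      (∀ x, {i | i ∈ As ∧ (src i = x ∨ tgt i = x)}.ncard ≤ 2) ∧
      {i | i ∈ As ∧ (src i = j ∨ tgt i = j)}.ncard ≤ 1 := by
  classical
  induction p with
  | nil => intro h; exact absurd rfl h
  | @cons a b c hab q ih =>
    intro hne hp
    rw [SimpleGraph.Walk.cons_isPath_iff] at hp
    obtain ⟨hq, ha⟩ := hp
    obtain ⟨i0, hi0, hends⟩ := nodeGraph_adj hab
    have harc := edge_arc P hends
    have hbs : b ∈ q.support := q.start_mem_support
    have hsup : ∀ i : I, (src i ∈ q.support ∧ tgt i ∈ q.support) → i ≠ i0 := by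
      rintro i ⟨h1, h2⟩ rfl
      rcases hends with ⟨h3, -⟩ | ⟨-, h3⟩
      · exact ha (h3 ▸ h1)
      · exact ha (h3 ▸ h2)
    have hinc : ∀ x, (src i0 = x ∨ tgt i0 = x) → x = a ∨ x = b := by
      intro x hx
      rcases hends with ⟨h3, h4⟩ | ⟨h3, h4⟩ <;> rcases hx with rfl | rfl
      · exact Or.inl h3
      · exact Or.inr h4
      · exact Or.inr h3
      · exact Or.inl h4
    have hi0s : src i0 ∈ (SimpleGraph.Walk.cons hab q).support ∧
        tgt i0 ∈ (SimpleGraph.Walk.cons hab q).support := by
      rw [SimpleGraph.Walk.support_cons]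
      rcases hends with ⟨h3, h4⟩ | ⟨h3, h4⟩
      · rw [h3, h4]; exact ⟨List.mem_cons_self, List.mem_cons_of_mem _ hbs⟩
      · rw [h3, h4]; exact ⟨List.mem_cons_of_mem _ hbs, List.mem_cons_self⟩
    by_cases hbc : b = c
    · subst hbc
      refine ⟨{i0}, ?_, ?_, ?_, ?_⟩
      · intro i hi
        rw [Finset.mem_singleton] at hi
        subst hi
        exact ⟨hi0, hi0s⟩
      · have : (⋃ i ∈ ({i0} : Finset I), P.arc i) = P.arc i0 := by simp
        rw [this]
        exact harc
      · intro x
        refine (Set.ncard_le_ncard (t := {i0}) ?_ (Set.toFinite _)).trans ?_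
        · rintro i ⟨hi, -⟩
          exact Finset.mem_singleton.1 hi
        · rw [Set.ncard_singleton]; norm_num
      · refine (Set.ncard_le_ncard (t := {i0}) ?_ (Set.toFinite _)).trans ?_
        · rintro i ⟨hi, -⟩
          exact Finset.mem_singleton.1 hi
        · rw [Set.ncard_singleton]
    · obtain ⟨As, h1, h2, h3, h4⟩ := ih hbc hq
      refine ⟨insert i0 As, ?_, ?_, ?_, ?_⟩
      · intro i hi
        rcases Finset.mem_insert.1 hi with rfl | hi
        · exact ⟨hi0, hi0s⟩
        · obtain ⟨g1, g2, g3⟩ := h1 i hi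
          rw [SimpleGraph.Walk.support_cons]
          exact ⟨g1, List.mem_cons_of_mem _ g2, List.mem_cons_of_mem _ g3⟩
      · rw [Finset.set_biUnion_insert]
        refine harc.union h2 ?_
        intro x hx hx'
        rw [Set.mem_iUnion₂] at hx'
        obtain ⟨i, hi, hxi⟩ := hx'
        obtain ⟨-, g2, g3⟩ := h1 i hi
        obtain ⟨e1, e2⟩ := P.disj i0 i (Ne.symm (hsup i ⟨g2, g3⟩)) x hx hxi
        have e3 : ∃ z, z ∈ q.support ∧ x = P.pos z := by
          rcases e2 with e2 | e2
          · exact ⟨_, g2, e2⟩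
          · exact ⟨_, g3, e2⟩
        obtain ⟨z, hz, hxz⟩ := e3
        have e4 : ∃ w, (w = a ∨ w = b) ∧ x = P.pos w := by
          rcases e1 with e1 | e1
          · exact ⟨_, hinc _ (Or.inl rfl), e1⟩
          · exact ⟨_, hinc _ (Or.inr rfl), e1⟩
        obtain ⟨w, hw, hxw⟩ := e4
        have hzw : z = w := P.pos_inj (hxz.symm.trans hxw)
        rcases hw with rfl | rfl
        · exact absurd (hzw ▸ hz) ha
        · exact hxw
      · intro x
        have key : {i | i ∈ insert i0 As ∧ (src i = x ∨ tgt i = x)} ⊆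
            insert i0 {i | i ∈ As ∧ (src i = x ∨ tgt i = x)} := by
          rintro i ⟨hi, hx⟩
          rcases Finset.mem_insert.1 hi with rfl | hi
          · exact Set.mem_insert _ _
          · exact Set.mem_insert_of_mem _ ⟨hi, hx⟩
        by_cases hxb : x = b
        · subst hxb
          refine (Set.ncard_le_ncard key (Set.toFinite _)).trans ?_
          exact (Set.ncard_insert_le _ _).trans (by omega)
        · by_cases hxa : x = a
          · subst hxa
            refine (Set.ncard_le_ncard (t := {i0}) ?_ (Set.toFinite _)).trans ?_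
            · rintro i ⟨hi, hx⟩
              rcases Finset.mem_insert.1 hi with rfl | hi
              · rfl
              · exfalso
                obtain ⟨-, g2, g3⟩ := h1 i hi
                rcases hx with hx | hx
                · exact ha (hx ▸ g2)
                · exact ha (hx ▸ g3)
            · rw [Set.ncard_singleton]; norm_num
          · refine (Set.ncard_le_ncard ?_ (Set.toFinite _)).trans (h3 x)
            rintro i ⟨hi, hx⟩
            rcases Finset.mem_insert.1 hi with rfl | hi
            · rcases hinc x hx with h | h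
              · exact absurd h hxa
              · exact absurd h hxb
            · exact ⟨hi, hx⟩
      · refine (Set.ncard_le_ncard (t := {i0}) ?_ (Set.toFinite _)).trans ?_
        · rintro i ⟨hi, hx⟩
          rcases Finset.mem_insert.1 hi with rfl | hi
          · rfl
          · exfalso
            obtain ⟨-, g2, g3⟩ := h1 i hi
            rcases hx with hx | hx
            · exact ha (hx ▸ g2)
            · exact ha (hx ▸ g3)
        · rw [Set.ncard_singleton]

theorem path_arc [Finite J] [Finite I] (P : PG J I src tgt) (A : Set I) (j j' : J) (hne : j ≠ j')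
    (p : (nodeGraph src tgt A).Walk j j') (hp : p.IsPath) :
    ∃ As : Finset I, (∀ i ∈ As, i ∈ A ∧ src i ∈ p.support ∧ tgt i ∈ p.support) ∧
      IsArc (⋃ i ∈ As, P.arc i) (P.pos j) (P.pos j') ∧
      (∀ x, {i | i ∈ As ∧ (src i = x ∨ tgt i = x)}.ncard ≤ 2) := by
  obtain ⟨As, h1, h2, h3, -⟩ := path_arc_aux P A p hne hp
  exact ⟨As, h1, h2, h3⟩

end PathArc

end Pool.Agent.Helper83.OP
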