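import Pool.Agent.Helper83.OP.Defs

/-!
# OP-35: half arcs and pendant edges
-/

namespace Pool.Agent.Helper83.OP

open Set

private theorem pend_segment {a b : ℝ × ℝ} (h : a ≠ b) : IsArc (segment ℝ a b) a b := by
  refine ⟨fun t => AffineMap.lineMap a b t, ?_, ?_, by simp, by simp, ?_⟩
  · exact (AffineMap.lineMap_continuous (R := ℝ) (p := a) (q := b)).continuousOn
  · exact (AffineMap.lineMap_injective ℝ h).injOn
  · rw [segment_eq_image_lineMap]

private theorem pend_isCompact {V : Type} {H : SimpleGraph V} {pos : V → ℝ × ℝ}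
    {γ : Sym2 V → ℝ → ℝ × ℝ} (hd : IsDrawing H pos γ) {f : Sym2 V} (hf : f ∈ H.edgeSet) :
    IsCompact (γ f '' Icc (0 : ℝ) 1) :=
  isCompact_Icc.image_of_continuousOn (hd.cont f hf)

/-- the position of a vertex is on the curve of an edge only if it is an end -/
private theorem pend_mem {V : Type} {H : SimpleGraph V} {pos : V → ℝ × ℝ}
    {γ : Sym2 V → ℝ → ℝ × ℝ} (hd : IsDrawing H pos γ) {f : Sym2 V} (hf : f ∈ H.edgeSet) {w : V}
    (hw : pos w ∈ γ f '' Icc (0 : ℝ) 1) : w ∈ f := by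
  obtain ⟨t, ht, htw⟩ := hw
  induction f with
  | _ a b =>
    have hab : H.Adj a b := hf
    rcases eq_or_lt_of_le ht.1 with h0 | h0
    · subst h0
      rcases hd.ends a b hab with h | h
      · have := hd.pos_inj (h.1.symm.trans htw); subst this; simp
      · have := hd.pos_inj (h.1.symm.trans htw); subst this; simp
    rcases eq_or_lt_of_le ht.2 with h1 | h1
    · subst h1
      rcases hd.ends a b hab with h | h
      · have := hd.pos_inj (h.2.symm.trans htw); subst this; simp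
      · have := hd.pos_inj (h.2.symm.trans htw); subst this; simp
    · exact absurd htw (hd.avoid _ hf t ⟨h0, h1⟩ w)

/-- half arcs, with the augmentation for the ends of one edge as hypothesis -/
theorem half_arc_of {V : Type} [Finite V] (H : SimpleGraph V) (hH : KPl 1 H) (w : V)
    (haug : ∀ w', H.Adj w w' → ∃ k : ℕ, Aug H w w' k) :
    ∃ (pos : V → ℝ × ℝ) (γ : Sym2 V → ℝ → ℝ × ℝ) (E : Set (ℝ × ℝ)) (c : ℝ × ℝ),
      IsDrawing H pos γ ∧ (∀ e ∈ H.edgeSet, (crossSet H γ e).encard ≤ 1) ∧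
      IsArc E (pos w) c ∧ (∀ x, x ≠ w → pos x ∉ E) ∧
      ∀ f ∈ H.edgeSet, ∀ p ∈ E, p ∈ γ f '' Icc (0 : ℝ) 1 → p = pos w := by
  by_cases hiso : ∃ w', H.Adj w w'
  · obtain ⟨w', hw'⟩ := hiso
    obtain ⟨k, pos, γ, E, hd, hcr, hE, hEpos, -, hEcr⟩ := haug w' hw'
    obtain ⟨ε, hεc, hεi, hε0, hε1, hεE⟩ := hE
    -- bad times
    have hfin : {q : Sym2 V × (ℝ × ℝ) | q.1 ∈ H.edgeSet ∧ q.2 ∈ E ∧ q.2 ∈ γ q.1 '' Icc (0 : ℝ) 1 ∧
      q.2 ≠ pos w ∧ q.2 ≠ pos w'}.Finite := by
      apply Set.finite_of_encard_le_coe hEcr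
    have hbad : {t : ℝ | t ∈ Icc (0 : ℝ) 1 ∧ ∃ f ∈ H.edgeSet, ε t ∈ γ f '' Icc (0 : ℝ) 1 ∧
        ε t ≠ pos w ∧ ε t ≠ pos w'}.Finite := by
      have h1 := (hfin.image Prod.snd)
      refine Set.Finite.of_finite_image (f := ε) (h1.subset ?_) ?_
      · rintro _ ⟨t, ⟨ht, f, hf, h2, h3, h4⟩, rfl⟩
        exact ⟨(f, ε t), ⟨hf, by rw [← hεE]; exact ⟨t, ht, rfl⟩, h2, h3, h4⟩, rfl⟩
      · exact hεi.mono (fun t ht => ht.1)
    obtain ⟨t0, ht0, ht1, htb⟩ : ∃ t0 : ℝ, 0 < t0 ∧ t0 < 1 ∧ ∀ t, 0 < t → t ≤ t0 →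
        ¬ (t ∈ Icc (0 : ℝ) 1 ∧ ∃ f ∈ H.edgeSet, ε t ∈ γ f '' Icc (0 : ℝ) 1 ∧
        ε t ≠ pos w ∧ ε t ≠ pos w') := by
      have hb2 : {t : ℝ | t ∈ Icc (0 : ℝ) 1 ∧ ∃ f ∈ H.edgeSet, ε t ∈ γ f '' Icc (0 : ℝ) 1 ∧
        ε t ≠ pos w ∧ ε t ≠ pos w'} ∩ {t | 0 < t} |>.Finite := hbad.subset inter_subset_left
      have hcl := hb2.isClosed
      have h0 : (0 : ℝ) ∉ {t : ℝ | t ∈ Icc (0 : ℝ) 1 ∧ ∃ f ∈ H.edgeSet,
        ε t ∈ γ f '' Icc (0 : ℝ) 1 ∧ ε t ≠ pos w ∧ ε t ≠ pos w'} ∩ {t | 0 < t} :=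
        fun h => lt_irrefl (0 : ℝ) h.2
      obtain ⟨δ, hδ, hball⟩ := Metric.isOpen_iff.1 hcl.isOpen_compl 0 h0
      refine ⟨min (δ / 2) (1 / 2), by positivity, ?_, ?_⟩
      · exact (min_le_right _ _).trans_lt (by norm_num)
      · intro t h1 h2 h3
        have h4 : t ∈ Metric.ball (0 : ℝ) δ := by
          rw [Metric.mem_ball, dist_zero_right, Real.norm_eq_abs, abs_of_pos h1]
          have := h2.trans (min_le_left _ _)
          linarith
        exact hball h4 ⟨h3, h1⟩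
    have hmem : ∀ s ∈ Icc (0 : ℝ) 1, t0 * s ∈ Icc (0 : ℝ) 1 := by
      intro s hs
      exact ⟨mul_nonneg ht0.le hs.1, by nlinarith [hs.1, hs.2]⟩
    have h01 : (0 : ℝ) ∈ Icc (0 : ℝ) 1 := by simp
    have h11 : (1 : ℝ) ∈ Icc (0 : ℝ) 1 := by simp
    have hne1 : ∀ s ∈ Icc (0 : ℝ) 1, ε (t0 * s) ≠ pos w' := by
      intro s hs h
      have := hεi (hmem s hs) h11 (h.trans hε1.symm)
      nlinarith [hs.1, hs.2]
    refine ⟨pos, γ, (fun s => ε (t0 * s)) '' Icc (0 : ℝ) 1, ε t0, hd, hcr, ?_, ?_, ?_⟩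
    · refine ⟨fun s => ε (t0 * s), ?_, ?_, by simp [hε0], by simp, rfl⟩
      · exact hεc.comp (by fun_prop) hmem
      · intro s hs s' hs' h
        have := hεi (hmem s hs) (hmem s' hs') h
        exact mul_left_cancel₀ ht0.ne' this
    · rintro x hx ⟨s, hs, h⟩
      by_cases hxw : x = w'
      · subst hxw; exact hne1 s hs h
      · apply hEpos x hx hxw
        rw [← h, ← hεE]
        exact ⟨_, hmem s hs, rfl⟩
    · rintro f hf p ⟨s, hs, rfl⟩ hp
      by_contra hne
      have hs0 : 0 < t0 * s := by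
        rcases eq_or_lt_of_le hs.1 with h | h
        · subst h
          exfalso; apply hne; simp [hε0]
        · positivity
      exact htb (t0 * s) hs0 (by nlinarith [hs.1, hs.2]) ⟨hmem s hs, f, hf, hp, hne, hne1 s hs⟩
  · push Not at hiso
    obtain ⟨pos, γ, hd, hcr⟩ := hH
    have hcr' : ∀ e ∈ H.edgeSet, (crossSet H γ e).encard ≤ 1 := by
      intro e he
      simpa using hcr e he
    let K : Set (ℝ × ℝ) := (⋃ f ∈ H.edgeSet, γ f '' Icc (0 : ℝ) 1) ∪ (pos '' {x | x ≠ w})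
    have hKc : IsClosed K := by
      apply IsClosed.union
      · exact (Set.toFinite H.edgeSet).isClosed_biUnion
          (fun f hf => (pend_isCompact hd hf).isClosed)
      · exact (Set.toFinite _).isClosed
    have hwK : pos w ∉ K := by
      rintro (h | ⟨x, hx, h⟩)
      · simp only [mem_iUnion] at h
        obtain ⟨f, hf, h⟩ := h
        have hwf := pend_mem hd hf h
        induction f with
        | _ a b =>
          have hab : H.Adj a b := hf
          rcases Sym2.mem_iff.1 hwf with h1 | h1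
          · subst h1; exact hiso _ hab
          · subst h1; exact hiso _ hab.symm
      · exact hx (hd.pos_inj h)
    obtain ⟨δ, hδ, hball⟩ := Metric.isOpen_iff.1 hKc.isOpen_compl _ hwK
    have hpt : pos w + (δ / 2, 0) ∈ Metric.ball (pos w) δ := by
      rw [Metric.mem_ball, dist_eq_norm]
      have : pos w + (δ / 2, 0) - pos w = ((δ / 2, 0) : ℝ × ℝ) := by abel
      rw [this, Prod.norm_def]
      simp only [norm_zero, Real.norm_eq_abs]
      rw [abs_of_pos (by positivity)]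
      exact max_lt (by linarith) hδ
    have hsub : segment ℝ (pos w) (pos w + (δ / 2, 0)) ⊆ Kᶜ :=
      ((convex_ball _ _).segment_subset (Metric.mem_ball_self hδ) hpt).trans hball
    refine ⟨pos, γ, segment ℝ (pos w) (pos w + (δ / 2, 0)), pos w + (δ / 2, 0), hd, hcr', ?_, ?_,
      ?_⟩
    · apply pend_segment
      intro h
      have h2 := congrArg Prod.fst h
      simp only [Prod.fst_add] at h2
      linarith
    · intro x hx h
      exact hsub h (Or.inr ⟨x, hx, rfl⟩)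
    · intro f hf p hp hpf
      exact absurd (Or.inl (by simp only [mem_iUnion]; exact ⟨f, hf, hpf⟩)) (hsub hp)

/-- adding a pendant edge, from the conclusion of `half_arc` -/
theorem pendant_of {V : Type} [Finite V] (G : SimpleGraph V) (v w : V) (hvw : G.Adj v w)
    (hdeg : deg G v = 1)
    (h : ∃ (pos : V → ℝ × ℝ) (γ : Sym2 V → ℝ → ℝ × ℝ) (E : Set (ℝ × ℝ)) (c : ℝ × ℝ),
      IsDrawing (G.deleteEdges {s(v, w)}) pos γ ∧
      (∀ e ∈ (G.deleteEdges {s(v, w)}).edgeSet,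
        (crossSet (G.deleteEdges {s(v, w)}) γ e).encard ≤ 1) ∧
      IsArc E (pos w) c ∧ (∀ x, x ≠ w → pos x ∉ E) ∧
      ∀ f ∈ (G.deleteEdges {s(v, w)}).edgeSet, ∀ p ∈ E, p ∈ γ f '' Icc (0 : ℝ) 1 → p = pos w) :
    KPl 1 G := by
  classical
  obtain ⟨pos, γ, E, c, hd, hcr, ⟨ε, hεc, hεi, hε0, hε1, hεE⟩, hpE, hE⟩ := h
  have hne : v ≠ w := hvw.ne
  have hnb : ∀ a, G.Adj v a → a = w := by
    intro a ha
    rw [deg, Set.ncard_eq_one] at hdeg
    obtain ⟨z, hz⟩ := hdeg
    have h1 : a ∈ G.neighborSet v := ha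
    have h2 : w ∈ G.neighborSet v := hvw
    rw [hz, mem_singleton_iff] at h1 h2
    rw [h1, h2]
  have hEdge : ∀ e, e ∈ (G.deleteEdges {s(v, w)}).edgeSet ↔ e ∈ G.edgeSet ∧ e ≠ s(v, w) := by
    intro e
    rw [SimpleGraph.edgeSet_deleteEdges]
    simp
  have hvnot : ∀ e ∈ (G.deleteEdges {s(v, w)}).edgeSet, v ∉ e := by
    intro e he hve
    rw [hEdge] at he
    induction e with
    | _ a b =>
      have hab : G.Adj a b := he.1
      rcases Sym2.mem_iff.1 hve with h1 | h1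
      · subst h1
        have := hnb b hab
        subst this
        exact he.2 rfl
      · subst h1
        have := hnb a hab.symm
        subst this
        exact he.2 Sym2.eq_swap
  have h01 : (0 : ℝ) ∈ Icc (0 : ℝ) 1 := by simp
  have h11 : (1 : ℝ) ∈ Icc (0 : ℝ) 1 := by simp
  have hcE : c ∈ E := by rw [← hεE, ← hε1]; exact ⟨1, h11, rfl⟩
  have hcw : c ≠ pos w := by
    intro h
    rw [← hε1, ← hε0] at h
    exact one_ne_zero (hεi h11 h01 h)
  have hcpos : ∀ x, pos x ≠ c := by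
    intro x hx
    by_cases hxw : x = w
    · subst hxw; exact hcw hx.symm
    · exact hpE x hxw (hx ▸ hcE)
  -- the interior of the new arc
  have hint : ∀ t ∈ Ioo (0 : ℝ) 1, ε t ≠ pos w := by
    intro t ht h
    rw [← hε0] at h
    exact ht.1.ne' (hεi (Ioo_subset_Icc_self ht) h01 h)
  have hmemE : ∀ t ∈ Icc (0 : ℝ) 1, ε t ∈ E := fun t ht => by rw [← hεE]; exact ⟨t, ht, rfl⟩
  set pos' : V → ℝ × ℝ := fun x => if x = v then c else pos x with hpos'
  set γ' : Sym2 V → ℝ → ℝ × ℝ := fun e => if e = s(v, w) then ε else γ e with hγ'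
  have hγe : γ' s(v, w) = ε := by simp [hγ']
  have hγn : ∀ e, e ≠ s(v, w) → γ' e = γ e := fun e he => by simp [hγ', he]
  have hpv : pos' v = c := by simp [hpos']
  have hpn : ∀ x, x ≠ v → pos' x = pos x := fun x hx => by simp [hpos', hx]
  refine ⟨pos', γ', ⟨?_, ?_, ?_, ?_, ?_⟩, ?_⟩
  · intro x y hxy
    by_cases hx : x = v
    · by_cases hy : y = v
      · rw [hx, hy]
      · rw [hx, hpv, hpn y hy] at hxy
        exact absurd hxy.symm (hcpos y)
    · by_cases hy : y = v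
      · rw [hy, hpv, hpn x hx] at hxy
        exact absurd hxy (hcpos x)
      · rw [hpn x hx, hpn y hy] at hxy
        exact hd.pos_inj hxy
  · intro a b hab
    by_cases he : s(a, b) = s(v, w)
    · rw [he, hγe]
      rcases Sym2.eq_iff.1 he with ⟨h1, h2⟩ | ⟨h1, h2⟩
      · right
        rw [h1, h2, hpv, hpn w hne.symm]
        exact ⟨hε0, hε1⟩
      · left
        rw [h1, h2, hpv, hpn w hne.symm]
        exact ⟨hε0, hε1⟩
    · rw [hγn _ he]
      have hmem : s(a, b) ∈ (G.deleteEdges {s(v, w)}).edgeSet := (hEdge _).2 ⟨hab, he⟩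
      have hvn := hvnot _ hmem
      rw [Sym2.mem_iff, not_or] at hvn
      rw [hpn a (fun h => hvn.1 h.symm), hpn b (fun h => hvn.2 h.symm)]
      exact hd.ends a b hmem
  · intro e he
    by_cases hev : e = s(v, w)
    · rw [hev, hγe]; exact hεc
    · rw [hγn _ hev]; exact hd.cont e ((hEdge e).2 ⟨he, hev⟩)
  · intro e he
    by_cases hev : e = s(v, w)
    · rw [hev, hγe]; exact hεi
    · rw [hγn _ hev]; exact hd.inj e ((hEdge e).2 ⟨he, hev⟩)
  · intro e he t ht x
    by_cases hev : e = s(v, w)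
    · rw [hev, hγe]
      by_cases hx : x = v
      · rw [hx, hpv]
        intro h
        rw [← hε1] at h
        exact ht.2.ne (hεi (Ioo_subset_Icc_self ht) h11 h)
      · rw [hpn x hx]
        by_cases hxw : x = w
        · rw [hxw]; exact hint t ht
        · intro h
          exact hpE x hxw (h ▸ hmemE t (Ioo_subset_Icc_self ht))
    · rw [hγn _ hev]
      have hmem := (hEdge e).2 ⟨he, hev⟩
      by_cases hx : x = v
      · rw [hx, hpv]
        intro h
        exact hcw (hE e hmem c hcE ⟨t, Ioo_subset_Icc_self ht, h⟩)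
      · rw [hpn x hx]
        exact hd.avoid e hmem t ht x
  · intro e he
    by_cases hev : e = s(v, w)
    · have : crossSet G γ' e = ∅ := by
        rw [Set.eq_empty_iff_forall_notMem]
        rintro ⟨f, p⟩ ⟨h1, h2, h3, h4⟩
        simp only at h1 h2 h3 h4
        rw [hev] at h2 h3
        rw [hγe] at h3
        rw [hγn f h2] at h4
        obtain ⟨t, ht, rfl⟩ := h3
        have := hE f ((hEdge f).2 ⟨h1, h2⟩) (ε t) (hmemE t (Ioo_subset_Icc_self ht))
          (image_mono Ioo_subset_Icc_self h4)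
        exact hint t ht this
      rw [this]; simp
    · have hmem := (hEdge e).2 ⟨he, hev⟩
      refine le_trans (Set.encard_le_encard ?_) (by simpa using hcr e hmem)
      rintro ⟨f, p⟩ ⟨h1, h2, h3, h4⟩
      simp only at h1 h2 h3 h4
      rw [hγn e hev] at h3
      by_cases hfv : f = s(v, w)
      · exfalso
        rw [hfv, hγe] at h4
        obtain ⟨t, ht, rfl⟩ := h4
        have := hE e hmem (ε t) (hmemE t (Ioo_subset_Icc_self ht))
          (image_mono Ioo_subset_Icc_self h3)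
        exact hint t ht this
      · rw [hγn f hfv] at h4
        exact ⟨(hEdge f).2 ⟨h1, hfv⟩, h2, h3, h4⟩

/-
The final statements (append with `import Pool.Agent.Helper83.OP.AugEx` once it is on main; checked with a
sorried `aug`):

variable {V : Type} [Finite V]

theorem half_arc (H : SimpleGraph V) (hH : KPl 1 H) (w : V) :
    ∃ (pos : V → ℝ × ℝ) (γ : Sym2 V → ℝ → ℝ × ℝ) (E : Set (ℝ × ℝ)) (c : ℝ × ℝ),
      IsDrawing H pos γ ∧ (∀ e ∈ H.edgeSet, (crossSet H γ e).encard ≤ 1) ∧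
      IsArc E (pos w) c ∧ (∀ x, x ≠ w → pos x ∉ E) ∧
      ∀ f ∈ H.edgeSet, ∀ p ∈ E, p ∈ γ f '' Icc (0 : ℝ) 1 → p = pos w := by
  refine half_arc_of H hH w (fun w' hw' => ⟨_, aug H hH w w' hw'.ne
    (SimpleGraph.Walk.cons hw' SimpleGraph.Walk.nil) ?_ 1 0 (by simp) ?_⟩)
  · simp [hw'.ne]
  · intro x hx h1 h2
    simp only [SimpleGraph.Walk.support_cons, SimpleGraph.Walk.support_nil, List.mem_cons,
      List.not_mem_nil, or_false] at hx
    rcases hx with hx | hx
    · exact absurd hx h1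
    · exact absurd hx h2

theorem pendant (G : SimpleGraph V) (v w : V) (hvw : G.Adj v w) (hdeg : deg G v = 1)
    (h : KPl 1 (G.deleteEdges {s(v, w)})) : KPl 1 G :=
  pendant_of G v w hvw hdeg (half_arc _ h w)
-/

end Pool.Agent.Helper83.OP
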