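import Pool.Agent.Helper83.OP.NoK

/-!
# OP-06: drawings are planar-like
-/

namespace Pool.Agent.Helper83.OP

open Set

/-! ## Concatenation of curves -/

private theorem pd_concat (f g : ℝ → ℂ) (hf : ContinuousOn f (Icc 0 1))
    (hg : ContinuousOn g (Icc 0 1)) (h : f 1 = g 0) :
    ∃ k : ℝ → ℂ, ContinuousOn k (Icc 0 1) ∧ k 0 = f 0 ∧ k 1 = g 1 ∧
      ∀ x ∈ Icc (0 : ℝ) 1, (∃ y ∈ Icc (0 : ℝ) 1, k x = f y) ∨
        (∃ y ∈ Icc (0 : ℝ) 1, k x = g y) := by
  have e1 : ∀ x ∈ Icc (0 : ℝ) (1 / 2), (if x ≤ 1 / 2 then f (2 * x) else g (2 * x - 1)) =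
      f (2 * x) := by
    intro x hx
    rw [if_pos hx.2]
  have e2 : ∀ x ∈ Icc (1 / 2 : ℝ) 1, (if x ≤ 1 / 2 then f (2 * x) else g (2 * x - 1)) =
      g (2 * x - 1) := by
    intro x hx
    by_cases hx2 : x ≤ 1 / 2
    · have : x = 1 / 2 := le_antisymm hx2 hx.1
      subst this
      rw [if_pos le_rfl]
      norm_num
      exact h
    · rw [if_neg hx2]
  refine ⟨fun x => if x ≤ 1 / 2 then f (2 * x) else g (2 * x - 1), ?_, ?_, ?_, ?_⟩
  · have hu : Icc (0 : ℝ) 1 = Icc 0 (1 / 2) ∪ Icc (1 / 2) 1 := by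
      rw [Icc_union_Icc_eq_Icc] <;> norm_num
    rw [hu]
    apply ContinuousOn.union_of_isClosed _ _ isClosed_Icc isClosed_Icc
    · apply ContinuousOn.congr _ e1
      apply hf.comp (by fun_prop)
      intro x hx
      constructor <;> [linarith [hx.1]; linarith [hx.2]]
    · apply ContinuousOn.congr _ e2
      apply hg.comp (by fun_prop)
      intro x hx
      constructor <;> [linarith [hx.1]; linarith [hx.2]]
  · norm_num
  · norm_num
  · intro x hx
    by_cases hx2 : x ≤ 1 / 2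
    · left
      refine ⟨2 * x, ⟨by linarith [hx.1], by linarith⟩, ?_⟩
      simp only [if_pos hx2]
    · right
      refine ⟨2 * x - 1, ⟨by linarith, by linarith [hx.2]⟩, ?_⟩
      simp only [if_neg hx2]

private theorem pd_walk_curve {S : Type} (Γ : SimpleGraph S) (P : S → ℂ)
    (c : ∀ s t, Γ.Adj s t → ℝ → ℂ) (hc : ∀ s t h, ContinuousOn (c s t h) (Icc 0 1))
    (h0 : ∀ s t h, c s t h 0 = P s) (h1 : ∀ s t h, c s t h 1 = P t) {u v : S}
    (p : Γ.Walk u v) : ¬ p.Nil → 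
    ∃ g : ℝ → ℂ, ContinuousOn g (Icc 0 1) ∧ g 0 = P u ∧ g 1 = P v ∧
      ∀ x ∈ Icc (0 : ℝ) 1, ∃ s t, ∃ h : Γ.Adj s t, s ∈ p.support ∧ t ∈ p.support ∧
        s(s, t) ∈ p.edges ∧ ∃ y ∈ Icc (0 : ℝ) 1, g x = c s t h y := by
  induction p with
  | nil => intro h; exact absurd SimpleGraph.Walk.Nil.nil h
  | @cons u w v h q ih =>
    intro _
    by_cases hq : q.Nil
    · have hwv : w = v := hq.eq
      subst hwv
      refine ⟨c u w h, hc _ _ _, h0 _ _ _, h1 _ _ _, ?_⟩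
      intro x hx
      exact ⟨u, w, h, by simp, by simp, by simp, x, hx, rfl⟩
    · obtain ⟨g, hg, hg0, hg1, hg2⟩ := ih hq
      obtain ⟨k, hk, hk0, hk1, hk2⟩ := pd_concat (c u w h) g (hc _ _ _) hg
        (by rw [h1, hg0])
      refine ⟨k, hk, by rw [hk0, h0], by rw [hk1, hg1], ?_⟩
      intro x hx
      rcases hk2 x hx with ⟨y, hy, hxy⟩ | ⟨y, hy, hxy⟩
      · exact ⟨u, w, h, by simp, by simp, by simp, y, hy, hxy⟩
      · obtain ⟨s, t, hst, hs, ht, he, z, hz, hgz⟩ := hg2 y hy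
        refine ⟨s, t, hst, ?_, ?_, ?_, z, hz, by rw [hxy, hgz]⟩
        · rw [SimpleGraph.Walk.support_cons]; exact List.mem_cons_of_mem _ hs
        · rw [SimpleGraph.Walk.support_cons]; exact List.mem_cons_of_mem _ ht
        · rw [SimpleGraph.Walk.edges_cons]; exact List.mem_cons_of_mem _ he

theorem walk_curve {S : Type} (Γ : SimpleGraph S) (P : S → ℂ)
    (c : ∀ s t, Γ.Adj s t → ℝ → ℂ) (hc : ∀ s t h, ContinuousOn (c s t h) (Icc 0 1))
    (h0 : ∀ s t h, c s t h 0 = P s) (h1 : ∀ s t h, c s t h 1 = P t) {u v : S}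
    (p : Γ.Walk u v) (huv : u ≠ v) :
    ∃ g : ℝ → ℂ, ContinuousOn g (Icc 0 1) ∧ g 0 = P u ∧ g 1 = P v ∧
      ∀ x ∈ Icc (0 : ℝ) 1, ∃ s t, ∃ h : Γ.Adj s t, s ∈ p.support ∧ t ∈ p.support ∧
        s(s, t) ∈ p.edges ∧ ∃ y ∈ Icc (0 : ℝ) 1, g x = c s t h y :=
  pd_walk_curve Γ P c hc h0 h1 p (fun hn => huv hn.eq)

/-! ## The two levels -/

private def pd_toC (p : ℝ × ℝ) : ℂ := ⟨p.1, p.2⟩

private theorem pd_toC_inj {p q : ℝ × ℝ} (h : pd_toC p = pd_toC q) : p = q := by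
  have h1 := congrArg Complex.re h
  have h2 := congrArg Complex.im h
  exact Prod.ext h1 h2

private theorem pd_toC_cont : Continuous pd_toC := by
  have : pd_toC = fun p : ℝ × ℝ => Complex.equivRealProdCLM.symm p := by
    funext p
    apply Complex.ext <;> simp [pd_toC]
  rw [this]
  exact Complex.equivRealProdCLM.symm.continuous

/-- walks with ends in a connected set -/
private theorem pd_conn {V : Type} (Γ : SimpleGraph V) (B : Set V)
    (hB : (Γ.induce B).Connected) (s t : V) (hs : s ∈ B) (ht : t ∈ B) :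
    ∃ p : Γ.Walk s t, ∀ x ∈ p.support, x ∈ B := by
  have key : ∀ (a b : B) (p : (Γ.induce B).Walk a b),
      ∃ q : Γ.Walk a.1 b.1, ∀ x ∈ q.support, x ∈ B := by
    intro a b p
    induction p with
    | nil => exact ⟨SimpleGraph.Walk.nil, by simp⟩
    | @cons u v w h q ih =>
      obtain ⟨q', hq'⟩ := ih
      have h' : Γ.Adj u.1 v.1 := h
      refine ⟨SimpleGraph.Walk.cons h' q', ?_⟩
      intro x hx
      rw [SimpleGraph.Walk.support_cons, List.mem_cons] at hx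
      rcases hx with rfl | hx
      · exact u.2
      · exact hq' x hx
  obtain ⟨p⟩ := hB.preconnected ⟨s, hs⟩ ⟨t, ht⟩
  exact key _ _ p

theorem planarLike_of_drawing {V : Type} [Finite V] (H : SimpleGraph V) (pos : V → ℝ × ℝ)
    (γ : Sym2 V → ℝ → ℝ × ℝ) (hd : IsDrawing H pos γ) : PlanarLike H (CrossRel γ) := by
  classical
  intro Γ R hR
  -- curves of edges
  have hcE : ∀ u v : V, ∀ _ : H.Adj u v, ∃ c : ℝ → ℂ, ContinuousOn c (Icc 0 1) ∧
      c 0 = pd_toC (pos u) ∧ c 1 = pd_toC (pos v) ∧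
      ∀ x ∈ Icc (0 : ℝ) 1, ∃ y ∈ Icc (0 : ℝ) 1, c x = pd_toC (γ s(u, v) y) := by
    intro u v h
    have hcont := hd.cont s(u, v) h
    rcases hd.ends u v h with ⟨h1, h2⟩ | ⟨h1, h2⟩
    · refine ⟨fun t => pd_toC (γ s(u, v) t), pd_toC_cont.comp_continuousOn hcont, ?_, ?_, ?_⟩
      · simp only [h1]
      · simp only [h2]
      · intro x hx
        exact ⟨x, hx, rfl⟩
    · refine ⟨fun t => pd_toC (γ s(u, v) (1 - t)), ?_, ?_, ?_, ?_⟩
      · apply pd_toC_cont.comp_continuousOn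
        apply hcont.comp (by fun_prop)
        intro x hx
        exact ⟨by linarith [hx.2], by linarith [hx.1]⟩
      · simp only [sub_zero, h2]
      · simp only [sub_self, h1]
      · intro x hx
        exact ⟨1 - x, ⟨by linarith [hx.2], by linarith [hx.1]⟩, rfl⟩
  choose cH cHc cH0 cH1 cHi using hcE
  -- curves of links
  have hL : ∀ s t : V, ∀ h : Γ.Adj s t, ∃ c : ℝ → ℂ, ContinuousOn c (Icc 0 1) ∧
      c 0 = pd_toC (pos s) ∧ c 1 = pd_toC (pos t) ∧
      ∀ x ∈ Icc (0 : ℝ) 1, ∃ f ∈ (R s t h).edges, ∃ y ∈ Icc (0 : ℝ) 1,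
        c x = pd_toC (γ f y) := by
    intro s t h
    obtain ⟨g, hg, hg0, hg1, hg2⟩ := walk_curve H (fun v => pd_toC (pos v)) cH cHc cH0 cH1
      (R s t h) h.ne
    refine ⟨g, hg, hg0, hg1, ?_⟩
    intro x hx
    obtain ⟨a, b, hab, _, _, he, y, hy, hgy⟩ := hg2 x hx
    obtain ⟨z, hz, hz2⟩ := cHi a b hab y hy
    exact ⟨s(a, b), he, z, hz, by rw [hgy, hz2]⟩
  choose L Lc L0 L1 Li using hL
  -- ends of curves
  have hend : ∀ f ∈ H.edgeSet, ∀ y ∈ Icc (0 : ℝ) 1, y ∈ Ioo (0 : ℝ) 1 ∨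
      ∃ a ∈ f, γ f y = pos a := by
    intro f
    induction f using Sym2.ind with
    | _ u v =>
      intro hf y hy
      rcases eq_or_lt_of_le hy.1 with h0 | h0
      · right
        subst h0
        rcases hd.ends u v hf with ⟨h1, h2⟩ | ⟨h1, h2⟩
        · exact ⟨u, by simp, h1⟩
        · exact ⟨v, by simp, h1⟩
      · rcases eq_or_lt_of_le hy.2 with h3 | h3
        · right
          subst h3
          rcases hd.ends u v hf with ⟨h1, h2⟩ | ⟨h1, h2⟩
          · exact ⟨v, by simp, h2⟩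
          · exact ⟨u, by simp, h2⟩
        · left
          exact ⟨h0, h3⟩
  -- disjoint links
  have hdis : ∀ s t s' t' (h : Γ.Adj s t) (h' : Γ.Adj s' t'), s ≠ s' → s ≠ t' → t ≠ s' →
      t ≠ t' → ∀ x ∈ Icc (0 : ℝ) 1, ∀ x' ∈ Icc (0 : ℝ) 1, L s t h x ≠ L s' t' h' x' := by
    intro s t s' t' h h' e1 e2 e3 e4 x hx x' hx' heq
    obtain ⟨hRv, hRe⟩ := hR s t s' t' h h' e1 e2 e3 e4
    obtain ⟨f, hf, y, hy, hfy⟩ := Li s t h x hx
    obtain ⟨f', hf', y', hy', hfy'⟩ := Li s' t' h' x' hx'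
    rw [hfy, hfy'] at heq
    have heq := pd_toC_inj heq
    have hfe : f ∈ H.edgeSet := SimpleGraph.Walk.edges_subset_edgeSet _ hf
    have hfe' : f' ∈ H.edgeSet := SimpleGraph.Walk.edges_subset_edgeSet _ hf'
    have hsup : ∀ a ∈ f, a ∈ (R s t h).support := fun a ha =>
      SimpleGraph.Walk.mem_support_of_mem_edges hf ha
    have hsup' : ∀ a ∈ f', a ∈ (R s' t' h').support := fun a ha =>
      SimpleGraph.Walk.mem_support_of_mem_edges hf' ha
    have hne : f ≠ f' := by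
      rintro rfl
      induction f using Sym2.ind with
      | _ u v => exact hRv u (hsup u (by simp)) (hsup' u (by simp))
    rcases hend f hfe y hy with hi | ⟨a, ha, hga⟩
    · rcases hend f' hfe' y' hy' with hi' | ⟨a', ha', hga'⟩
      · exact hRe f hf f' hf' ⟨hne, γ f y, ⟨y, hi, rfl⟩, ⟨y', hi', heq.symm⟩⟩
      · exact hd.avoid f hfe y hi a' (by rw [heq, hga'])
    · rcases hend f' hfe' y' hy' with hi' | ⟨a', ha', hga'⟩
      · exact hd.avoid f' hfe' y' hi' a (by rw [← heq, hga])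
      · have : a = a' := hd.pos_inj (by rw [← hga, ← hga', heq])
        subst this
        exact hRv a (hsup a ha) (hsup' a ha')
  constructor
  · rintro ⟨B, hB1, hB2, hB3⟩
    have hr : ∀ i, ∃ r, r ∈ B i := fun i => by
      obtain ⟨⟨r, hr⟩⟩ := (hB1 i).nonempty
      exact ⟨r, hr⟩
    choose r hr using hr
    have hBd : ∀ i j x, x ∈ B i → x ∈ B j → i = j := by
      intro i j x hi hj
      by_contra hne
      exact Set.disjoint_left.mp (hB2 i j hne) hi hj
    have hg : ∀ i j, ∃ g : ℝ → ℂ, i < j → (ContinuousOn g (Icc 0 1) ∧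
        g 0 = pd_toC (pos (r i)) ∧ g 1 = pd_toC (pos (r j)) ∧
        ∀ x ∈ Icc (0 : ℝ) 1, ∃ s t, ∃ h : Γ.Adj s t, (s ∈ B i ∨ s ∈ B j) ∧
          (t ∈ B i ∨ t ∈ B j) ∧ ∃ y ∈ Icc (0 : ℝ) 1, g x = L s t h y) := by
      intro i j
      by_cases hij : i < j
      · obtain ⟨s, hs, t, ht, hst⟩ := hB3 i j hij.ne
        obtain ⟨p, hp⟩ := pd_conn Γ (B i) (hB1 i) (r i) s (hr i) hs
        obtain ⟨q, hq⟩ := pd_conn Γ (B j) (hB1 j) t (r j) ht (hr j)
        have hne : r i ≠ r j := by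
          intro he
          exact hij.ne (hBd i j (r i) (hr i) (he ▸ hr j))
        obtain ⟨g, hg, hg0, hg1, hg2⟩ := walk_curve Γ (fun v => pd_toC (pos v)) L Lc L0 L1
          (p.append (SimpleGraph.Walk.cons hst q)) hne
        have hsupp : ∀ x ∈ (p.append (SimpleGraph.Walk.cons hst q)).support,
            x ∈ B i ∨ x ∈ B j := by
          intro x hx
          rw [SimpleGraph.Walk.mem_support_append_iff, SimpleGraph.Walk.support_cons,
            List.mem_cons] at hx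
          rcases hx with hx | hx | hx
          · exact Or.inl (hp x hx)
          · subst hx
            exact Or.inl hs
          · exact Or.inr (hq x hx)
        refine ⟨g, fun _ => ⟨hg, hg0, hg1, ?_⟩⟩
        intro x hx
        obtain ⟨a, b, hab, ha, hb, _, y, hy, hgy⟩ := hg2 x hx
        exact ⟨a, b, hab, hsupp a ha, hsupp b hb, y, hy, hgy⟩
      · exact ⟨fun _ => 0, fun h => absurd h hij⟩
    choose g hg using hg
    apply no_K5 (fun i => pd_toC (pos (r i))) g (fun i j hij => (hg i j hij).1)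
      (fun i j hij => (hg i j hij).2.1) (fun i j hij => (hg i j hij).2.2.1)
    intro i j k l hij hkl hik hil hjk hjl x hx x' hx' heq
    obtain ⟨s, t, hst, hs, ht, y, hy, hgy⟩ := (hg i j hij).2.2.2 x hx
    obtain ⟨s', t', hst', hs', ht', y', hy', hgy'⟩ := (hg k l hkl).2.2.2 x' hx'
    have hsep : ∀ a b, (a ∈ B i ∨ a ∈ B j) → (b ∈ B k ∨ b ∈ B l) → a ≠ b := by
      rintro a b ha hb rfl
      rcases ha with ha | ha <;> rcases hb with hb | hb
      · exact hik (hBd _ _ _ ha hb)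
      · exact hil (hBd _ _ _ ha hb)
      · exact hjk (hBd _ _ _ ha hb)
      · exact hjl (hBd _ _ _ ha hb)
    exact hdis s t s' t' hst hst' (hsep _ _ hs hs') (hsep _ _ hs ht') (hsep _ _ ht hs')
      (hsep _ _ ht ht') y hy y' hy' (by rw [← hgy, ← hgy', heq])
  · rintro ⟨a, b, ha, hb, hab, hadj⟩
    apply no_K33 (fun i => pd_toC (pos (a i))) (fun i => pd_toC (pos (b i)))
      (fun i j => L (a i) (b j) (hadj i j)) (fun i j => Lc _ _ _) (fun i j => L0 _ _ _)
      (fun i j => L1 _ _ _)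
    intro i j k l hik hjl x hx x' hx'
    exact hdis _ _ _ _ _ _ (fun h => hik (ha h)) (hab i l) (fun h => hab k j h.symm)
      (fun h => hjl (hb h)) x hx x' hx'

end Pool.Agent.Helper83.OP
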