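import Pool.Agent.Helper83.OP.Defs

/-!
# OP-30: the planarization of a 1-planar drawing
-/

set_option autoImplicit false

namespace Pool.Agent.Helper83.OP

open Set

namespace Planarize

/-- a subarc of an arc -/
theorem isArc_sub (g : ℝ → ℝ × ℝ) (hc : ContinuousOn g (Icc 0 1)) (hi : InjOn g (Icc 0 1))
    (lo hi' : ℝ) (h0 : 0 ≤ lo) (h1 : lo < hi') (h2 : hi' ≤ 1) :
    IsArc (g '' Icc lo hi') (g lo) (g hi') := by
  have hpos : 0 < hi' - lo := by linarith
  have hmaps : ∀ t ∈ Icc (0 : ℝ) 1, lo + (hi' - lo) * t ∈ Icc lo hi' := by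
    intro t ht
    constructor
    · nlinarith [ht.1]
    · nlinarith [ht.2]
  have hsub : Icc lo hi' ⊆ Icc (0 : ℝ) 1 := Icc_subset_Icc h0 h2
  refine ⟨fun t => g (lo + (hi' - lo) * t), ?_, ?_, ?_, ?_, ?_⟩
  · refine hc.comp (Continuous.continuousOn (by fun_prop)) ?_
    intro t ht
    exact hsub (hmaps t ht)
  · intro s hs t ht hst
    have h3 := hi (hsub (hmaps s hs)) (hsub (hmaps t ht)) hst
    have h4 : (hi' - lo) * (s - t) = 0 := by linarith
    rcases mul_eq_zero.1 h4 with h | h
    · exact absurd h hpos.ne'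
    · linarith
  · simp
  · simp
  · ext p
    constructor
    · rintro ⟨t, ht, rfl⟩
      exact ⟨_, hmaps t ht, rfl⟩
    · rintro ⟨s, hs, rfl⟩
      refine ⟨(s - lo) / (hi' - lo), ⟨div_nonneg (by linarith [hs.1]) hpos.le, ?_⟩, ?_⟩
      · rw [div_le_one hpos]
        linarith [hs.2]
      · simp only
        rw [mul_div_cancel₀ _ hpos.ne']
        congr 1
        ring

section

variable {V : Type} (H : SimpleGraph V) (pos : V → ℝ × ℝ) (γ : Sym2 V → ℝ → ℝ × ℝ)

theorem exists_tau (f : Sym2 V) :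
    ∃ t ∈ Ioo (0 : ℝ) 1, (crossSet H γ f).encard ≤ 1 →
      ∀ q ∈ crossSet H γ f, ∀ s ∈ Icc (0 : ℝ) 1, InjOn (γ f) (Icc 0 1) → γ f s = q.2 → s = t := by
  by_cases h : (crossSet H γ f).Nonempty
  · obtain ⟨q, hq⟩ := h
    obtain ⟨t, ht, hqt⟩ := hq.2.2.1
    refine ⟨t, ht, fun h1 q' hq' s hs hinj hs' => ?_⟩
    have : q' = q := Set.encard_le_one_iff.1 h1 q' q hq' hq
    subst this
    exact hinj hs (Ioo_subset_Icc_self ht) (hs'.trans hqt.symm)
  · refine ⟨1 / 2, by norm_num, fun _ q hq => absurd ⟨q, hq⟩ h⟩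

end

end Planarize

open Planarize in
theorem planarize {V : Type} [Finite V] (H : SimpleGraph V) (pos : V → ℝ × ℝ)
    (γ : Sym2 V → ℝ → ℝ × ℝ)
    (hd : IsDrawing H pos γ) (h1 : ∀ e ∈ H.edgeSet, (crossSet H γ e).encard ≤ 1) :
    ∃ Z : Plz H, Nonempty (PG Z.J (H.edgeSet × Bool) Z.src Z.tgt) := by
  classical
  choose tau htau htau' using exists_tau H γ
  have hT : ∀ f ∈ H.edgeSet, ∀ q ∈ crossSet H γ f, ∀ s ∈ Icc (0 : ℝ) 1, γ f s = q.2 → s = tau f :=
    fun f hf q hq s hs hs' => htau' f (h1 f hf) q hq s hs (hd.inj f hf) hs'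
  -- the ends
  have hends : ∀ f : H.edgeSet, ∃ a b : V, (f : Sym2 V) = s(a, b) ∧ γ f 0 = pos a ∧
      γ f 1 = pos b := by
    rintro ⟨f, hf⟩
    induction f using Sym2.ind with
    | _ u v =>
      rcases hd.ends u v hf with ⟨h0, h2⟩ | ⟨h0, h2⟩
      · exact ⟨u, v, rfl, h0, h2⟩
      · exact ⟨v, u, Sym2.eq_swap, h0, h2⟩
  choose a b hab ha hb using hends
  -- common points of two edges
  have hcommon : ∀ f ∈ H.edgeSet, ∀ f' ∈ H.edgeSet, f ≠ f' → ∀ s ∈ Icc (0 : ℝ) 1,
      ∀ t ∈ Icc (0 : ℝ) 1, γ f s = γ f' t → s = 0 ∨ s = 1 ∨ s = tau f := by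
    intro f hf f' hf' hne s hs t ht hst
    by_cases h0 : s = 0
    · exact Or.inl h0
    by_cases h2 : s = 1
    · exact Or.inr (Or.inl h2)
    have hs' : s ∈ Ioo (0 : ℝ) 1 := ⟨lt_of_le_of_ne hs.1 (Ne.symm h0), lt_of_le_of_ne hs.2 h2⟩
    have ht' : t ∈ Ioo (0 : ℝ) 1 := by
      refine ⟨lt_of_le_of_ne ht.1 fun h3 => ?_, lt_of_le_of_ne ht.2 fun h3 => ?_⟩
      · subst h3
        exact hd.avoid f hf s hs' _ (hst.trans (ha ⟨f', hf'⟩))
      · subst h3
        exact hd.avoid f hf s hs' _ (hst.trans (hb ⟨f', hf'⟩))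
    refine Or.inr (Or.inr (hT f hf (f', γ f s) ⟨hf', Ne.symm hne, ⟨s, hs', rfl⟩,
      ⟨t, ht', hst.symm⟩⟩ s hs rfl))
  -- break points
  have hbrk : ∀ f ∈ H.edgeSet, ∀ f' ∈ H.edgeSet, f ≠ f' → γ f (tau f) = γ f' (tau f') →
      (f', γ f (tau f)) ∈ crossSet H γ f := by
    intro f hf f' hf' hne h
    exact ⟨hf', Ne.symm hne, ⟨_, htau f, rfl⟩, ⟨_, htau f', h.symm⟩⟩
  let J : Type := {p : ℝ × ℝ // (∃ v, p = pos v) ∨ ∃ f : H.edgeSet, p = γ f (tau f)}
  have hJ : Finite J := by
    have h3 : ({p : ℝ × ℝ | (∃ v, p = pos v) ∨ ∃ f : H.edgeSet, p = γ f (tau f)}).Finite := by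
      have h4 : {p : ℝ × ℝ | (∃ v, p = pos v) ∨ ∃ f : H.edgeSet, p = γ f (tau f)} ⊆
          Set.range pos ∪ Set.range (fun f : H.edgeSet => γ f (tau f)) := by
        rintro p (⟨v, rfl⟩ | ⟨f, rfl⟩)
        · exact Or.inl ⟨v, rfl⟩
        · exact Or.inr ⟨f, rfl⟩
      exact ((Set.finite_range _).union (Set.finite_range _)).subset h4
    exact h3.to_subtype
  let Z : Plz H :=
    { J := J
      fin := hJ
      vn := fun v => ⟨pos v, Or.inl ⟨v, rfl⟩⟩
      bn := fun f => ⟨γ f (tau f), Or.inr ⟨f, rfl⟩⟩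
      a := a
      b := b
      vn_inj := fun v w h => hd.pos_inj (congrArg Subtype.val h)
      vn_ne := fun v f h => hd.avoid f f.2 _ (htau f) v (congrArg Subtype.val h).symm
      ends := hab
      pair := by
        intro f f' f'' hf' hf'' h h'
        have e1 : γ f (tau f) = γ f' (tau f') := (congrArg Subtype.val h).symm
        have e2 : γ f (tau f) = γ f'' (tau f'') := (congrArg Subtype.val h').symm
        have c1 := hbrk f f.2 f' f'.2 (fun h => hf' (Subtype.ext h).symm) e1
        have c2 := hbrk f f.2 f'' f''.2 (fun h => hf'' (Subtype.ext h).symm) e2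
        have := Set.encard_le_one_iff.1 (h1 f f.2) _ _ c1 c2
        exact Subtype.ext (congrArg Prod.fst this) }
  let lo : H.edgeSet × Bool → ℝ := fun i => bif i.2 then tau i.1 else 0
  let hi : H.edgeSet × Bool → ℝ := fun i => bif i.2 then 1 else tau i.1
  have hlo0 : ∀ i, 0 ≤ lo i := by
    rintro ⟨f, _ | _⟩
    · exact le_rfl
    · exact (htau f).1.le
  have hhi1 : ∀ i, hi i ≤ 1 := by
    rintro ⟨f, _ | _⟩
    · exact (htau f).2.le
    · exact le_rfl
  have hlohi : ∀ i, lo i < hi i := by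
    rintro ⟨f, _ | _⟩
    · exact (htau f).1
    · exact (htau f).2
  have hsrc : ∀ i, ((Z.src i : J) : ℝ × ℝ) = γ i.1 (lo i) := by
    rintro ⟨f, _ | _⟩
    · exact (ha f).symm
    · rfl
  have htgt : ∀ i, ((Z.tgt i : J) : ℝ × ℝ) = γ i.1 (hi i) := by
    rintro ⟨f, _ | _⟩
    · rfl
    · exact (hb f).symm
  -- special parameters in a half edge are its ends
  have hspec : ∀ i : H.edgeSet × Bool, ∀ s ∈ Icc (lo i) (hi i),
      (s = 0 ∨ s = 1 ∨ s = tau i.1) → s = lo i ∨ s = hi i := by
    rintro ⟨f, _ | _⟩ s hs h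
    · have h3 : s ≤ tau f := hs.2
      have h4 := (htau f).2
      rcases h with h | h | h
      · exact Or.inl h
      · linarith
      · exact Or.inr h
    · have h3 : tau f ≤ s := hs.1
      have h4 := (htau f).1
      rcases h with h | h | h
      · linarith
      · exact Or.inr h
      · exact Or.inl h
  have hsub : ∀ i, Icc (lo i) (hi i) ⊆ Icc (0 : ℝ) 1 := fun i => Icc_subset_Icc (hlo0 i) (hhi1 i)
  refine ⟨Z, ⟨?_⟩⟩
  exact
    { pos := fun j => (j : J).1
      pos_inj := Subtype.val_injective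
      arc := fun i => γ i.1 '' Icc (lo i) (hi i)
      isArc := by
        intro i
        have h3 := isArc_sub (γ i.1) (hd.cont _ i.1.2) (hd.inj _ i.1.2) (lo i) (hi i) (hlo0 i)
          (hlohi i) (hhi1 i)
        rw [← hsrc, ← htgt] at h3
        exact h3
      nodes := by
        rintro i j ⟨s, hs, hsj⟩
        have key : s = lo i ∨ s = hi i := by
          apply hspec i s hs
          rcases j.2 with ⟨v, hv⟩ | ⟨g, hg⟩
          · by_contra hcon
            push Not at hcon
            have hs' := hsub i hs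
            exact hd.avoid i.1 i.1.2 s ⟨lt_of_le_of_ne hs'.1 (Ne.symm hcon.1),
              lt_of_le_of_ne hs'.2 hcon.2.1⟩ v (hsj.trans hv)
          · by_cases hgi : (g : Sym2 V) = i.1
            · refine Or.inr (Or.inr ?_)
              refine hd.inj i.1 i.1.2 (hsub i hs) (Ioo_subset_Icc_self (htau _)) ?_
              rw [hsj, hg, hgi]
            · exact hcommon i.1 i.1.2 g g.2 (Ne.symm hgi) s (hsub i hs) (tau g)
                (Ioo_subset_Icc_self (htau _)) (hsj.trans hg)
        rcases key with h | h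
        · left
          apply Subtype.ext
          rw [hsrc, ← h, hsj]
        · right
          apply Subtype.ext
          rw [htgt, ← h, hsj]
      disj := by
        rintro i i' hne p ⟨s, hs, hsp⟩ ⟨t, ht, htp⟩
        have fin : ∀ i : H.edgeSet × Bool, ∀ s ∈ Icc (lo i) (hi i), γ i.1 s = p →
            (s = 0 ∨ s = 1 ∨ s = tau i.1) → (p = (Z.src i : J).1 ∨ p = (Z.tgt i : J).1) := by
          intro i s hs hsp h
          rcases hspec i s hs h with h | h
          · left; rw [hsrc, ← h, hsp]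
          · right; rw [htgt, ← h, hsp]
        by_cases hff : i.1 = i'.1
        · -- the two halves of one edge
          have hst : s = t := by
            refine hd.inj i.1 i.1.2 (hsub i hs) (hsub i' ht) ?_
            rw [hsp, hff, htp]
          have hst' : s = tau i.1 := by
            obtain ⟨f, bo⟩ := i
            obtain ⟨f', bo'⟩ := i'
            simp only at hff
            subst hff
            have hbo : bo ≠ bo' := fun h => hne (by rw [h])
            cases bo <;> cases bo'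
            · exact absurd rfl hbo
            · have h5 : s ≤ tau f := hs.2
              have h6 : tau f ≤ t := ht.1
              change s = tau f
              linarith
            · have h5 : tau f ≤ s := hs.1
              have h6 : t ≤ tau f := ht.2
              change s = tau f
              linarith
            · exact absurd rfl hbo
          refine ⟨fin i s hs hsp (Or.inr (Or.inr hst')), fin i' t ht htp (Or.inr (Or.inr ?_))⟩
          rw [← hst, hst', hff]
        · have hff' : (i.1 : Sym2 V) ≠ i'.1 := fun h => hff (Subtype.ext h)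
          exact ⟨fin i s hs hsp (hcommon i.1 i.1.2 i'.1 i'.1.2 hff' s (hsub i hs) t (hsub i' ht)
            (hsp.trans htp.symm)), fin i' t ht htp (hcommon i'.1 i'.1.2 i.1 i.1.2 (Ne.symm hff') t
            (hsub i' ht) s (hsub i hs) (htp.trans hsp.symm))⟩ }

end Pool.Agent.Helper83.OP
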