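import Pool.Agent.Helper83.OP.Defs

/-!
# OP-31: reassembling a drawing from a plane multigraph
-/

set_option autoImplicit false

namespace Pool.Agent.Helper83.OP

open Set

namespace Reasm

/-- two arcs which meet only in the common end form an arc -/
theorem arc_union {α β : Set (ℝ × ℝ)} {a b c : ℝ × ℝ} (h : IsArc α a b) (h' : IsArc β b c)
    (hi : ∀ p ∈ α, p ∈ β → p = b) : IsArc (α ∪ β) a c := by
  obtain ⟨g, gc, gi, g0, g1, gα⟩ := h
  obtain ⟨k, kc, ki, k0, k1, kβ⟩ := h'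
  have hm1 : ∀ t ∈ Icc (0 : ℝ) (1 / 2), 2 * t ∈ Icc (0 : ℝ) 1 := fun t ht =>
    ⟨by linarith [ht.1], by linarith [ht.2]⟩
  have hm2 : ∀ t ∈ Icc (1 / 2 : ℝ) 1, 2 * t - 1 ∈ Icc (0 : ℝ) 1 := fun t ht =>
    ⟨by linarith [ht.1], by linarith [ht.2]⟩
  let F : ℝ → ℝ × ℝ := fun t => if t ≤ 1 / 2 then g (2 * t) else k (2 * t - 1)
  have F1 : ∀ t ∈ Icc (0 : ℝ) (1 / 2), F t = g (2 * t) := fun t ht => if_pos ht.2
  have F2 : ∀ t ∈ Icc (1 / 2 : ℝ) 1, F t = k (2 * t - 1) := by
    intro t ht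
    by_cases h : t ≤ 1 / 2
    · have : t = 1 / 2 := le_antisymm h ht.1
      subst this
      change (if (1 / 2 : ℝ) ≤ 1 / 2 then g (2 * (1 / 2)) else k (2 * (1 / 2) - 1)) = _
      rw [if_pos le_rfl]
      norm_num
      rw [g1, k0]
    · exact if_neg h
  have hcov : ∀ t ∈ Icc (0 : ℝ) 1, t ∈ Icc (0 : ℝ) (1 / 2) ∨ t ∈ Icc (1 / 2 : ℝ) 1 := by
    intro t ht
    rcases le_total t (1 / 2) with h | h
    · exact Or.inl ⟨ht.1, h⟩
    · exact Or.inr ⟨h, ht.2⟩
  have hun : Icc (0 : ℝ) (1 / 2) ∪ Icc (1 / 2) 1 = Icc (0 : ℝ) 1 :=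
    Icc_union_Icc_eq_Icc (by norm_num) (by norm_num)
  have hmix : ∀ s ∈ Icc (0 : ℝ) (1 / 2), ∀ t ∈ Icc (1 / 2 : ℝ) 1, F s = F t → s = t := by
    intro s hs t ht hst
    rw [F1 s hs, F2 t ht] at hst
    have hα : g (2 * s) ∈ α := gα ▸ ⟨_, hm1 s hs, rfl⟩
    have hβ : g (2 * s) ∈ β := by rw [hst, ← kβ]; exact ⟨_, hm2 t ht, rfl⟩
    have hb := hi _ hα hβ
    have h1 : 2 * s = 1 := gi (hm1 s hs) (by norm_num) (by rw [hb, g1])
    have h2 : 2 * t - 1 = 0 := ki (hm2 t ht) (by norm_num) (by rw [← hst, hb, k0])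
    linarith
  refine ⟨F, ?_, ?_, ?_, ?_, ?_⟩
  · rw [← hun]
    refine ContinuousOn.union_of_isClosed ?_ ?_ isClosed_Icc isClosed_Icc
    · refine ContinuousOn.congr (gc.comp (Continuous.continuousOn (by fun_prop)) hm1) F1
    · refine ContinuousOn.congr (kc.comp (Continuous.continuousOn (by fun_prop)) hm2) F2
  · intro s hs t ht hst
    rcases hcov s hs with h1 | h1 <;> rcases hcov t ht with h2 | h2
    · rw [F1 s h1, F1 t h2] at hst
      have := gi (hm1 s h1) (hm1 t h2) hst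
      linarith
    · exact hmix s h1 t h2 hst
    · exact (hmix t h2 s h1 hst.symm).symm
    · rw [F2 s h1, F2 t h2] at hst
      have := ki (hm2 s h1) (hm2 t h2) hst
      linarith
  · rw [F1 0 (by norm_num)]; simpa using g0
  · rw [F2 1 (by norm_num)]
    norm_num
    exact k1
  · rw [← hun, image_union]
    congr 1
    · rw [← gα]
      ext p
      constructor
      · rintro ⟨t, ht, rfl⟩
        rw [F1 t ht]
        exact ⟨_, hm1 t ht, rfl⟩
      · rintro ⟨t, ht, rfl⟩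
        have ht' : t / 2 ∈ Icc (0 : ℝ) (1 / 2) := ⟨by linarith [ht.1], by linarith [ht.2]⟩
        refine ⟨t / 2, ht', ?_⟩
        rw [F1 _ ht']
        congr 1; ring
    · rw [← kβ]
      ext p
      constructor
      · rintro ⟨t, ht, rfl⟩
        rw [F2 t ht]
        exact ⟨_, hm2 t ht, rfl⟩
      · rintro ⟨t, ht, rfl⟩
        have ht' : (t + 1) / 2 ∈ Icc (1 / 2 : ℝ) 1 := ⟨by linarith [ht.1], by linarith [ht.2]⟩
        refine ⟨(t + 1) / 2, ht', ?_⟩
        rw [F2 _ ht']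
        congr 1; ring

end Reasm

theorem reasm {V : Type} [Finite V] (H : SimpleGraph V) (Z : Plz H)
    (P : PG Z.J (H.edgeSet × Bool) Z.src Z.tgt) :
    ∃ γ : Sym2 V → ℝ → ℝ × ℝ, IsDrawing H (fun v => P.pos (Z.vn v)) γ ∧
      (∀ e ∈ H.edgeSet, (crossSet H γ e).encard ≤ 1) ∧
      ∀ f : H.edgeSet, γ f '' Icc 0 1 = P.arc (f, false) ∪ P.arc (f, true) := by
  classical
  have hab : ∀ f : H.edgeSet, Z.a f ≠ Z.b f := by
    intro f h
    have h1 : (f : Sym2 V) ∈ H.edgeSet := f.2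
    rw [Z.ends f, SimpleGraph.mem_edgeSet, h] at h1
    exact H.irrefl h1
  have hU : ∀ f : H.edgeSet, IsArc (P.arc (f, false) ∪ P.arc (f, true))
      (P.pos (Z.vn (Z.a f))) (P.pos (Z.vn (Z.b f))) := by
    intro f
    have h1 : IsArc (P.arc (f, false)) (P.pos (Z.vn (Z.a f))) (P.pos (Z.bn f)) :=
      P.isArc (f, false)
    have h2 : IsArc (P.arc (f, true)) (P.pos (Z.bn f)) (P.pos (Z.vn (Z.b f))) :=
      P.isArc (f, true)
    refine Reasm.arc_union h1 h2 fun p hp hp' => ?_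
    obtain ⟨h3, h4⟩ := P.disj (f, false) (f, true) (by simp) p hp hp'
    have h3' : p = P.pos (Z.vn (Z.a f)) ∨ p = P.pos (Z.bn f) := h3
    have h4' : p = P.pos (Z.bn f) ∨ p = P.pos (Z.vn (Z.b f)) := h4
    rcases h3' with h5 | h5
    · rcases h4' with h6 | h6
      · exact h6
      · exact absurd (Z.vn_inj (P.pos_inj (h5.symm.trans h6))) (hab f)
    · exact h5
  choose γ' hc hi h0 h1 him using hU
  let γ : Sym2 V → ℝ → ℝ × ℝ := fun e => if h : e ∈ H.edgeSet then γ' ⟨e, h⟩ else 0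
  have hγ : ∀ f : H.edgeSet, γ f = γ' f := fun f => dif_pos f.2
  -- the points of the curve
  have hmem : ∀ f : H.edgeSet, ∀ t ∈ Icc (0 : ℝ) 1, γ' f t ∈ P.arc (f, false) ∪ P.arc (f, true) :=
    fun f t ht => him f ▸ ⟨t, ht, rfl⟩
  have havoid : ∀ f : H.edgeSet, ∀ t ∈ Ioo (0 : ℝ) 1, ∀ w, γ' f t ≠ P.pos (Z.vn w) := by
    intro f t ht w hw
    have ht' := Ioo_subset_Icc_self ht
    have hm := hmem f t ht'
    rw [hw] at hm
    have hcase : w = Z.a f ∨ w = Z.b f := by
      rcases hm with hm | hm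
      · rcases P.nodes _ _ hm with h | h
        · left; exact Z.vn_inj h
        · exact absurd h (Z.vn_ne w f)
      · rcases P.nodes _ _ hm with h | h
        · exact absurd h (Z.vn_ne w f)
        · right; exact Z.vn_inj h
    rcases hcase with h | h
    · rw [h, ← h0 f] at hw
      exact absurd (hi f ht' (by norm_num) hw) ht.1.ne'
    · rw [h, ← h1 f] at hw
      exact absurd (hi f ht' (by norm_num) hw) ht.2.ne
  -- interior common points are break nodes
  have hcross : ∀ f f' : H.edgeSet, f ≠ f' → ∀ s ∈ Ioo (0 : ℝ) 1, ∀ t ∈ Ioo (0 : ℝ) 1,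
      γ' f s = γ' f' t → γ' f s = P.pos (Z.bn f) ∧ Z.bn f' = Z.bn f := by
    intro f f' hne s hs t ht hst
    have hm := hmem f s (Ioo_subset_Icc_self hs)
    have hm' := hmem f' t (Ioo_subset_Icc_self ht)
    rw [← hst] at hm'
    have hx : ∃ x, γ' f s ∈ P.arc (f, x) := by
      rcases hm with h | h
      · exact ⟨_, h⟩
      · exact ⟨_, h⟩
    have hy : ∃ y, γ' f s ∈ P.arc (f', y) := by
      rcases hm' with h | h
      · exact ⟨_, h⟩
      · exact ⟨_, h⟩
    obtain ⟨x, hx⟩ := hx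
    obtain ⟨y, hy⟩ := hy
    obtain ⟨h3, h4⟩ := P.disj (f, x) (f', y) (fun h => hne (congrArg Prod.fst h)) _ hx hy
    have key : ∀ (g : H.edgeSet) (z : Bool), (γ' f s = P.pos (Z.src (g, z)) ∨
        γ' f s = P.pos (Z.tgt (g, z))) → γ' f s = P.pos (Z.bn g) := by
      intro g z h
      cases z
      · rcases h with h | h
        · exact absurd h (havoid f s hs (Z.a g))
        · exact h
      · rcases h with h | h
        · exact h
        · exact absurd h (havoid f s hs (Z.b g))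
    have h5 := key f x h3
    have h6 := key f' y h4
    exact ⟨h5, P.pos_inj (h6.symm.trans h5)⟩
  refine ⟨γ, ?_, ?_, ?_⟩
  · exact
      { pos_inj := fun v w h => Z.vn_inj (P.pos_inj h)
        ends := by
          intro u v huv
          have hγf := hγ ⟨s(u, v), huv⟩
          have he := Z.ends ⟨s(u, v), huv⟩
          have e0 := h0 ⟨s(u, v), huv⟩
          have e1 := h1 ⟨s(u, v), huv⟩
          simp only at hγf he
          rw [hγf, e0, e1]
          rcases Sym2.eq_iff.1 he with ⟨h, h'⟩ | ⟨h, h'⟩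
          · left
            rw [← h, ← h']
            exact ⟨rfl, rfl⟩
          · right
            rw [← h, ← h']
            exact ⟨rfl, rfl⟩
        cont := fun e he => by
          have h2 := hγ ⟨e, he⟩
          simp only at h2
          rw [h2]; exact hc _
        inj := fun e he => by
          have h2 := hγ ⟨e, he⟩
          simp only at h2
          rw [h2]; exact hi _
        avoid := fun e he t ht w => by
          have h2 := hγ ⟨e, he⟩
          simp only at h2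
          rw [h2]; exact havoid _ t ht w }
  · intro e he
    rw [Set.encard_le_one_iff]
    have key : ∀ q ∈ crossSet H γ e, ∃ f' : H.edgeSet, (f' : Sym2 V) = q.1 ∧
        f' ≠ ⟨e, he⟩ ∧ q.2 = P.pos (Z.bn ⟨e, he⟩) ∧ Z.bn f' = Z.bn ⟨e, he⟩ := by
      rintro ⟨e', p⟩ ⟨he', hne, ⟨s, hs, hsp⟩, ⟨t, ht, htp⟩⟩
      simp only at he' hne hsp htp
      have h2 := hγ ⟨e, he⟩
      have h3 := hγ ⟨e', he'⟩
      simp only at h2 h3
      rw [h2] at hsp
      rw [h3] at htp
      have hne' : (⟨e, he⟩ : H.edgeSet) ≠ ⟨e', he'⟩ := fun h =>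
        hne (congrArg Subtype.val h).symm
      obtain ⟨h4, h5⟩ := hcross _ _ hne' s hs t ht (hsp.trans htp.symm)
      exact ⟨⟨e', he'⟩, rfl, Ne.symm hne', hsp.symm.trans h4, h5⟩
    intro q q' hq hq'
    obtain ⟨f1, e1, n1, p1, b1⟩ := key q hq
    obtain ⟨f2, e2, n2, p2, b2⟩ := key q' hq'
    have := Z.pair ⟨e, he⟩ f1 f2 n1 n2 b1 b2
    refine Prod.ext ?_ (p1.trans p2.symm)
    rw [← e1, ← e2, this]
  · intro f
    rw [hγ]
    exact him f

end Pool.Agent.Helper83.OP
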