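import Pool.Agent.Helper83.OP.SuppX

/-!
# OP-19: weights and good pairs after suppression of a vertex of degree two
-/

namespace Pool.Agent.Helper83.OP

open Set

section SuppGood

variable {V : Type}

private theorem deg_z [Finite V] {H : SimpleGraph V} {z x y : V} (hzx : H.Adj z x)
    (hzy : H.Adj z y) (hxy : x ≠ y) (hnb : ∀ a, H.Adj z a → a = x ∨ a = y) : deg H z = 2 := by
  unfold deg
  have : H.neighborSet z = {x, y} := by
    ext a
    simp only [SimpleGraph.mem_neighborSet, mem_insert_iff, mem_singleton_iff]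
    constructor
    · exact hnb a
    · rintro (rfl | rfl)
      · exact hzx
      · exact hzy
  rw [this, ncard_pair hxy]

theorem supp_weight [Finite V] (H : SimpleGraph V) (z x y : V) (hzx : H.Adj z x)
    (hzy : H.Adj z y)
    (hxy : x ≠ y) (hnb : ∀ a, H.Adj z a → a = x ∨ a = y) (hn : ¬ H.Adj x y)
    (w : Sym2 V → ℕ) (W : ℕ)
    (hW : ∀ u v (p : H.Walk u v), p.IsPath → (∀ c ∈ p.support, c ≠ u → c ≠ v → deg H c = 2) →
      (p.edges.map w).sum ≤ W) :
    ∀ u v (p : (supp H z x y).Walk u v), p.IsPath →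
      (∀ c ∈ p.support, c ≠ u → c ≠ v → deg (supp H z x y) c = 2) →
      (p.edges.map (suppW w z x y)).sum ≤ W := by
  intro u v p hp hdeg
  by_cases huz : u = z
  · cases p with
    | nil => simp
    | cons h q => exact absurd huz (supp_adj_ne hzx hzy hxy h).1
  · obtain ⟨p', h1, -, h3, h4⟩ := lift_walk H z x y hzx hzy hxy hn w p huz
    have hz := supp_walk_ne hzx hzy hxy p huz
    rw [← h3]
    refine hW u v p' (h4 hp) (fun c hc hcu hcv => ?_)
    rcases (h1 c).1 hc with h5 | ⟨rfl, -⟩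
    · have hcz : c ≠ z := by
        rintro rfl
        exact hz h5
      rw [← (supp_deg H z x y hzx hzy hxy hnb hn).2 c hcz]
      exact hdeg c h5 hcu hcv
    · exact deg_z hzx hzy hxy hnb

theorem supp_good [Finite V] (H : SimpleGraph V) (z x y : V) (hzx : H.Adj z x)
    (hzy : H.Adj z y)
    (hxy : x ≠ y) (hnb : ∀ a, H.Adj z a → a = x ∨ a = y) (hn : ¬ H.Adj x y)
    (w : Sym2 V → ℕ) (D B : ℕ) (hD : 2 ≤ D)
    (hG : GoodPair (supp H z x y) D B (suppW w z x y)) : GoodPair H D B w := by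
  obtain ⟨u, v, T, Q, huv, hT, hQ, h1, h2, h3, h4, h5⟩ := hG
  have huz : u ≠ z := by
    cases T with
    | nil => exact absurd rfl huv
    | cons h q => exact (supp_adj_ne hzx hzy hxy h).1
  obtain ⟨T', a1, a2, -, a4⟩ := lift_walk H z x y hzx hzy hxy hn w T huz
  obtain ⟨Q', b1, b2, b3, b4⟩ := lift_walk H z x y hzx hzy hxy hn w Q huz
  have hzT := supp_walk_ne hzx hzy hxy T huz
  have hzQ := supp_walk_ne hzx hzy hxy Q huz
  have hdz := deg_z hzx hzy hxy hnb
  refine ⟨u, v, T', Q', huv, a4 hT, b4 hQ, ?_, ?_, ?_, ?_, by rw [b3]; exact h5⟩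
  · intro f hf hf'
    obtain ⟨g, hg, hgf⟩ := (a2 f).1 hf
    obtain ⟨g', hg', hgf'⟩ := (b2 f).1 hf'
    have e1 := exps_contr hzx hzy hxy (SimpleGraph.Walk.edges_subset_edgeSet _ hg) hgf
    have e2 := exps_contr hzx hzy hxy (SimpleGraph.Walk.edges_subset_edgeSet _ hg') hgf'
    rw [← e1] at hg
    rw [← e2] at hg'
    exact h1 _ hg hg'
  · intro c hc hc'
    rcases (a1 c).1 hc with k1 | ⟨rfl, k1⟩
    · rcases (b1 c).1 hc' with k2 | ⟨rfl, -⟩
      · exact h2 c k1 k2
      · exact absurd k1 hzT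
    · rcases (b1 c).1 hc' with k2 | ⟨-, k2⟩
      · exact absurd k2 hzQ
      · exact absurd k2 (h1 _ k1)
  · intro c hc hcu hcv
    rcases (a1 c).1 hc with k1 | ⟨rfl, -⟩
    · have hcz : c ≠ z := by
        rintro rfl
        exact hzT k1
      rw [← (supp_deg H z x y hzx hzy hxy hnb hn).2 c hcz]
      exact h3 c k1 hcu hcv
    · exact hdz
  · intro c hc hcu hcv
    rcases (b1 c).1 hc with k1 | ⟨rfl, -⟩
    · have hcz : c ≠ z := by
        rintro rfl
        exact hzQ k1
      rw [← (supp_deg H z x y hzx hzy hxy hnb hn).2 c hcz]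
      exact h4 c k1 hcu hcv
    · rw [hdz]
      exact hD

end SuppGood

end Pool.Agent.Helper83.OP
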