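import Pool.Agent.Helper83.OP.Lift

/-!
# OP-18: the crossing relation after suppression of a vertex of degree two
-/

namespace Pool.Agent.Helper83.OP

open Set

section SuppX

variable {V : Type}

theorem not_mem_supp_edge {H : SimpleGraph V} {z x y : V} (hzx : H.Adj z x) (hzy : H.Adj z y)
    (hxy : x ≠ y) {f : Sym2 V} (hf : f ∈ (supp H z x y).edgeSet) : z ∉ f := by
  induction f using Sym2.ind with | _ a b => ?_
  rw [SimpleGraph.mem_edgeSet] at hf
  have := supp_adj_ne hzx hzy hxy hf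
  rw [Sym2.mem_iff]
  rintro (h | h)
  · exact this.1 h.symm
  · exact this.2 h.symm

/-- an edge of the suppressed graph is the new edge or an old edge -/
theorem supp_edge_cases {H : SimpleGraph V} {z x y : V} (hxy : x ≠ y) {f : Sym2 V}
    (hf : f ∈ (supp H z x y).edgeSet) (hne : f ≠ s(x, y)) : f ∈ H.edgeSet := by
  induction f using Sym2.ind with | _ a b => ?_
  rw [SimpleGraph.mem_edgeSet] at hf ⊢
  rcases (supp_adj hxy).1 hf with h | h
  · exact h.1
  · exact absurd h hne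

theorem exps_mem {H : SimpleGraph V} {z x y : V} (hzx : H.Adj z x) (hzy : H.Adj z y)
    (hxy : x ≠ y) {f g : Sym2 V} (hf : f ∈ (supp H z x y).edgeSet) (h : exps z x y f g) :
    g ∈ H.edgeSet := by
  rcases h with ⟨-, rfl | rfl⟩ | ⟨h1, rfl⟩
  · exact hzx.symm
  · exact hzy
  · exact supp_edge_cases hxy hf h1

open Classical in
/-- the contraction of edges -/
noncomputable def contr (z x y : V) (g : Sym2 V) : Sym2 V :=
  if g = s(x, z) ∨ g = s(z, y) then s(x, y) else g

theorem exps_contr {H : SimpleGraph V} {z x y : V} (hzx : H.Adj z x) (hzy : H.Adj z y)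
    (hxy : x ≠ y) {f g : Sym2 V} (hf : f ∈ (supp H z x y).edgeSet) (h : exps z x y f g) :
    contr z x y g = f := by
  unfold contr
  rcases h with ⟨rfl, h1⟩ | ⟨h1, rfl⟩
  · rw [if_pos h1]
  · rw [if_neg]
    have := not_mem_supp_edge hzx hzy hxy hf
    rintro (rfl | rfl)
    · exact this (Sym2.mem_mk_right x z)
    · exact this (Sym2.mem_mk_left z y)

open Classical in
theorem supp_partner [Finite V] (H : SimpleGraph V) (z x y : V) (hzx : H.Adj z x)
    (hzy : H.Adj z y)
    (hxy : x ≠ y) (hnb : ∀ a, H.Adj z a → a = x ∨ a = y) (_hn : ¬ H.Adj x y) (e : Sym2 V)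
    (he : e ∈ H.edgeSet) (X : Sym2 V → Sym2 V → Prop) (w : Sym2 V → ℕ)
    (hX : ∀ f ∈ H.edgeSet, f ≠ e → {f' | f' ∈ H.edgeSet ∧ f' ≠ e ∧ X f f'}.ncard ≤ w f)
    (e' : Sym2 V) (he' : e' = if e = s(x, z) ∨ e = s(z, y) then s(x, y) else e) :
    e' ∈ (supp H z x y).edgeSet ∧ ∀ f ∈ (supp H z x y).edgeSet, f ≠ e' →
      {f' | f' ∈ (supp H z x y).edgeSet ∧ f' ≠ e' ∧ suppX X z x y f f'}.ncard ≤
        suppW w z x y f := by
  have he'' : contr z x y e = e' := by rw [he']; rfl
  have hxyE : s(x, y) ∈ (supp H z x y).edgeSet := (supp_adj hxy).2 (Or.inr rfl)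
  -- an edge expanding an edge different from `e'` is different from `e`
  have hne : ∀ f ∈ (supp H z x y).edgeSet, f ≠ e' → ∀ g, exps z x y f g → g ≠ e := by
    rintro f hf hfe g hg rfl
    exact hfe ((exps_contr hzx hzy hxy hf hg).symm.trans he'')
  refine ⟨?_, ?_⟩
  · by_cases h : e = s(x, z) ∨ e = s(z, y)
    · rw [he', if_pos h]
      exact hxyE
    · rw [he', if_neg h]
      induction e using Sym2.ind with | _ a b => ?_
      rw [SimpleGraph.mem_edgeSet] at he ⊢
      refine (supp_adj hxy).2 (Or.inl ⟨he, ?_, ?_⟩)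
      · rintro rfl
        rcases hnb b he with rfl | rfl
        · exact h (Or.inl Sym2.eq_swap)
        · exact h (Or.inr rfl)
      · rintro rfl
        rcases hnb a he.symm with rfl | rfl
        · exact h (Or.inl rfl)
        · exact h (Or.inr Sym2.eq_swap)
  · intro f hf hfe
    have hP : ∀ g, exps z x y f g →
        {f' | f' ∈ H.edgeSet ∧ f' ≠ e ∧ X g f'}.ncard ≤ w g := fun g hg =>
      hX g (exps_mem hzx hzy hxy hf hg) (hne f hf hfe g hg)
    by_cases h : f = s(x, y)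
    · subst h
      have h1 := hP s(x, z) (Or.inl ⟨rfl, Or.inl rfl⟩)
      have h2 := hP s(z, y) (Or.inl ⟨rfl, Or.inr rfl⟩)
      have hsub : {f' | f' ∈ (supp H z x y).edgeSet ∧ f' ≠ e' ∧ suppX X z x y s(x, y) f'} ⊆
          contr z x y '' ({f' | f' ∈ H.edgeSet ∧ f' ≠ e ∧ X s(x, z) f'} ∪
            {f' | f' ∈ H.edgeSet ∧ f' ≠ e ∧ X s(z, y) f'}) := by
        rintro f' ⟨hf', hfe', -, g, g', hg, hg', hgg⟩
        refine ⟨g', ?_, exps_contr hzx hzy hxy hf' hg'⟩
        rcases hg with ⟨-, rfl | rfl⟩ | ⟨hg, -⟩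
        · exact Or.inl ⟨exps_mem hzx hzy hxy hf' hg', hne f' hf' hfe' g' hg', hgg⟩
        · exact Or.inr ⟨exps_mem hzx hzy hxy hf' hg', hne f' hf' hfe' g' hg', hgg⟩
        · exact absurd rfl hg
      have h3 := Set.ncard_le_ncard hsub (Set.toFinite _)
      have h4 := Set.ncard_image_le (f := contr z x y)
        (s := {f' | f' ∈ H.edgeSet ∧ f' ≠ e ∧ X s(x, z) f'} ∪
            {f' | f' ∈ H.edgeSet ∧ f' ≠ e ∧ X s(z, y) f'}) (Set.toFinite _)
      have h5 := Set.ncard_union_le {f' | f' ∈ H.edgeSet ∧ f' ≠ e ∧ X s(x, z) f'}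
            {f' | f' ∈ H.edgeSet ∧ f' ≠ e ∧ X s(z, y) f'}
      unfold suppW
      rw [if_pos rfl]
      omega
    · have h1 := hP f (Or.inr ⟨h, rfl⟩)
      have hsub : {f' | f' ∈ (supp H z x y).edgeSet ∧ f' ≠ e' ∧ suppX X z x y f f'} ⊆
          contr z x y '' {f' | f' ∈ H.edgeSet ∧ f' ≠ e ∧ X f f'} := by
        rintro f' ⟨hf', hfe', -, g, g', hg, hg', hgg⟩
        refine ⟨g', ?_, exps_contr hzx hzy hxy hf' hg'⟩
        rcases hg with ⟨hg, -⟩ | ⟨-, rfl⟩
        · exact absurd hg h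
        · exact ⟨exps_mem hzx hzy hxy hf' hg', hne f' hf' hfe' g' hg', hgg⟩
      have h3 := Set.ncard_le_ncard hsub (Set.toFinite _)
      have h4 := Set.ncard_image_le (f := contr z x y)
        (s := {f' | f' ∈ H.edgeSet ∧ f' ≠ e ∧ X f f'}) (Set.toFinite _)
      unfold suppW
      rw [if_neg h]
      omega

open Classical in
theorem supp_planar (H : SimpleGraph V) (z x y : V) (hzx : H.Adj z x) (hzy : H.Adj z y)
    (hxy : x ≠ y) (_hnb : ∀ a, H.Adj z a → a = x ∨ a = y) (hn : ¬ H.Adj x y) (e : Sym2 V)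
    (_he : e ∈ H.edgeSet) (X : Sym2 V → Sym2 V → Prop)
    (hP : PlanarLike (H.deleteEdges {e}) X)
    (e' : Sym2 V) (he' : e' = if e = s(x, z) ∨ e = s(z, y) then s(x, y) else e) :
    PlanarLike ((supp H z x y).deleteEdges {e'}) (suppX X z x y) := by
  have he'' : contr z x y e = e' := by rw [he']; rfl
  intro Γ R' hR'
  have hlift : ∀ s t (h : Γ.Adj s t), s ≠ z ∧ ∃ p : (H.deleteEdges {e}).Walk s t,
      (∀ c, c ∈ p.support ↔ c ∈ (R' s t h).support ∨
        (c = z ∧ s(x, y) ∈ (R' s t h).edges)) ∧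
      (∀ g, g ∈ p.edges ↔ ∃ f ∈ (R' s t h).edges, exps z x y f g) := by
    intro s t h
    have hsz : s ≠ z := by
      have hst : s ≠ t := h.ne
      generalize R' s t h = q
      cases q with
      | nil => exact absurd rfl hst
      | cons h1 q =>
        exact (supp_adj_ne hzx hzy hxy (SimpleGraph.deleteEdges_le _ h1)).1
    refine ⟨hsz, ?_⟩
    obtain ⟨p, h1, h2, -, -⟩ := lift_walk H z x y hzx hzy hxy hn (fun _ => 0)
      ((R' s t h).mapLe (SimpleGraph.deleteEdges_le _)) hsz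
    rw [SimpleGraph.Walk.edges_mapLe_eq_edges, SimpleGraph.Walk.support_mapLe_eq_support] at h1
    rw [SimpleGraph.Walk.edges_mapLe_eq_edges] at h2
    have h3 : ∀ g ∈ p.edges, g ∉ ({e} : Set (Sym2 V)) := by
      intro g hg hge
      rw [Set.mem_singleton_iff] at hge
      subst hge
      obtain ⟨f, hf, hfg⟩ := (h2 g).1 hg
      have hf' := SimpleGraph.Walk.edges_subset_edgeSet _ hf
      rw [SimpleGraph.edgeSet_deleteEdges] at hf'
      exact hf'.2 ((exps_contr hzx hzy hxy hf'.1 hfg).symm.trans he'')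
    refine ⟨p.toDeleteEdges {e} h3, ?_, ?_⟩
    · intro c
      rw [← h1]
      simp
    · intro g
      rw [← h2]
      simp
  choose hsz R hR1 hR2 using hlift
  have hzsup : ∀ s t (h : Γ.Adj s t), z ∉ (R' s t h).support := by
    intro s t h
    have := supp_walk_ne hzx hzy hxy ((R' s t h).mapLe (SimpleGraph.deleteEdges_le _)) (hsz s t h)
    rwa [SimpleGraph.Walk.support_mapLe_eq_support] at this
  refine hP Γ R ?_
  intro s t s' t' h h' h1 h2 h3 h4
  obtain ⟨hv, hX⟩ := hR' s t s' t' h h' h1 h2 h3 h4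
  have hedge : ∀ f, f ∈ (R' s t h).edges → f ∉ (R' s' t' h').edges := by
    intro f
    induction f using Sym2.ind with | _ a b => ?_
    intro hf hf'
    exact hv a (SimpleGraph.Walk.fst_mem_support_of_mem_edges _ hf)
      (SimpleGraph.Walk.fst_mem_support_of_mem_edges _ hf')
  constructor
  · intro v hv1 hv2
    rw [hR1] at hv1 hv2
    rcases hv1 with hv1 | ⟨rfl, hv1⟩
    · rcases hv2 with hv2 | ⟨rfl, hv2⟩
      · exact hv v hv1 hv2
      · exact hzsup s t h hv1
    · rcases hv2 with hv2 | ⟨-, hv2⟩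
      · exact hzsup s' t' h' hv2
      · exact hedge _ hv1 hv2
  · intro f hf f' hf' hff
    rw [hR2] at hf hf'
    obtain ⟨g, hg, hgf⟩ := hf
    obtain ⟨g', hg', hgf'⟩ := hf'
    refine hX g hg g' hg' ⟨?_, f, f', hgf, hgf', hff⟩
    rintro rfl
    exact hedge _ hg hg'

end SuppX

end Pool.Agent.Helper83.OP
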