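import Pool.Agent.Helper83.OP.Mader

/-!
# The shadow of a bipartite graph
-/

namespace Pool.Agent.Helper83.OP

open Set

section Shadow

variable {V : Type}

/-- contract every `s ∈ T` into its neighbour `η s` -/
private def con (Γ : SimpleGraph V) (T W : Set V) (η : V → V) : SimpleGraph V where
  Adj h h' := h ∈ W ∧ h' ∈ W ∧ h ≠ h' ∧
    ∃ s ∈ T, Γ.Adj s h ∧ Γ.Adj s h' ∧ (η s = h ∨ η s = h')
  symm := ⟨by
    rintro a b ⟨h1, h2, h3, s, h4, h5, h6, h7⟩
    exact ⟨h2, h1, h3.symm, s, h4, h6, h5, h7.symm⟩⟩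
  loopless := ⟨fun a h => h.2.2.1 rfl⟩

private theorem con_model (Γ : SimpleGraph V) (T Hb W : Set V) (hTH : Disjoint T Hb)
    (hW : W ⊆ Hb) (η : V → V) (h : HasModel 5 (con Γ T W η)) : HasModel 5 Γ := by
  obtain ⟨B, hconn, hdisj, hadj⟩ := h
  -- branch sets are contained in `W`
  have hBW : ∀ i, B i ⊆ W := by
    intro i v hv
    obtain ⟨j, hj⟩ : ∃ j : Fin 5, i ≠ j := by
      rcases eq_or_ne i 0 with h | h
      · exact ⟨1, by rw [h]; decide⟩
      · exact ⟨0, h⟩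
    obtain ⟨a, ha, b, -, hab⟩ := hadj i j hj
    by_cases hva : v = a
    · rw [hva]
      exact hab.1
    · have hc := (hconn i).preconnected ⟨v, hv⟩ ⟨a, ha⟩
      obtain ⟨p⟩ := hc
      cases p with
      | nil => exact absurd rfl hva
      | cons h' _ => exact h'.1
  let B' : Fin 5 → Set V := fun i => B i ∪ {s | s ∈ T ∧ Γ.Adj s (η s) ∧ η s ∈ B i}
  have hBT : ∀ i, ∀ s ∈ T, s ∉ B i := fun i s hs hs' =>
    Set.disjoint_left.mp hTH hs (hW (hBW i hs'))
  refine ⟨B', ?_, ?_, ?_⟩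
  · intro i
    have hne : (B i).Nonempty := by
      obtain ⟨⟨x, hx⟩⟩ := (hconn i).nonempty
      exact ⟨x, hx⟩
    obtain ⟨x0, hx0⟩ := hne
    have hx0' : x0 ∈ B' i := Or.inl hx0
    rw [SimpleGraph.connected_iff_exists_forall_reachable]
    refine ⟨⟨x0, hx0'⟩, ?_⟩
    have hB : ∀ y (hy : y ∈ B i), (Γ.induce (B' i)).Reachable ⟨x0, hx0'⟩ ⟨y, Or.inl hy⟩ := by
      intro y hy
      obtain ⟨p⟩ := (hconn i).preconnected ⟨x0, hx0⟩ ⟨y, hy⟩
      have key : ∀ (u w : B i) (q : ((con Γ T W η).induce (B i)).Walk u w),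
          (Γ.induce (B' i)).Reachable ⟨u.1, Or.inl u.2⟩ ⟨w.1, Or.inl w.2⟩ := by
        intro u w q
        induction q with
        | nil => exact SimpleGraph.Reachable.refl _
        | @cons a b c' hab _ ih =>
          refine SimpleGraph.Reachable.trans ?_ ih
          obtain ⟨h1, h2, h3, s, hs, hsa, hsb, hη⟩ := hab
          have hsB : s ∈ B' i := by
            right
            rcases hη with hη | hη
            · exact ⟨hs, hη ▸ hsa, hη ▸ a.2⟩
            · exact ⟨hs, hη ▸ hsb, hη ▸ b.2⟩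
          have e1 : (Γ.induce (B' i)).Adj ⟨a.1, Or.inl a.2⟩ ⟨s, hsB⟩ := hsa.symm
          have e2 : (Γ.induce (B' i)).Adj ⟨s, hsB⟩ ⟨b.1, Or.inl b.2⟩ := hsb
          exact e1.reachable.trans e2.reachable
      exact key _ _ p
    rintro ⟨y, hy | hy⟩
    · exact hB y hy
    · refine (hB (η y) hy.2.2).trans ?_
      have e1 : (Γ.induce (B' i)).Adj ⟨η y, Or.inl hy.2.2⟩ ⟨y, Or.inr hy⟩ := hy.2.1.symm
      exact e1.reachable
  · intro i j hij
    rw [Set.disjoint_left]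
    rintro y (hy | hy) (hy' | hy')
    · exact Set.disjoint_left.mp (hdisj i j hij) hy hy'
    · exact hBT i y hy'.1 hy
    · exact hBT j y hy.1 hy'
    · exact Set.disjoint_left.mp (hdisj i j hij) hy.2.2 hy'.2.2
  · intro i j hij
    obtain ⟨a, ha, b, hb, h1, h2, h3, s, hs, hsa, hsb, hη⟩ := hadj i j hij
    rcases hη with hη | hη
    · exact ⟨s, Or.inr ⟨hs, hη ▸ hsa, hη ▸ ha⟩, b, Or.inl hb, hsb⟩
    · exact ⟨a, Or.inl ha, s, Or.inr ⟨hs, hη ▸ hsb, hη ▸ hb⟩, hsa.symm⟩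

/-- averaging over the three neighbours -/
private theorem exists_eta [DecidableEq V] (A : Finset V) (hA : A.card = 3)
    (R : Finset (Sym2 V)) (hR : ∀ e ∈ R, ∃ x ∈ A, ∃ y ∈ A, x ≠ y ∧ e = s(x, y)) :
    ∃ x ∈ A, 2 * R.card ≤ 3 * (R.filter fun e => x ∈ e).card := by
  by_contra hno
  push Not at hno
  have h1 : ∑ x ∈ A, 3 * (R.filter fun e => x ∈ e).card < ∑ x ∈ A, 2 * R.card := by
    refine Finset.sum_lt_sum_of_nonempty ?_ fun x hx => hno x hx
    rw [← Finset.card_pos, hA]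
    norm_num
  rw [Finset.sum_const, hA, ← Finset.mul_sum] at h1
  have h2 : ∑ x ∈ A, (R.filter fun e => x ∈ e).card = ∑ e ∈ R, (A.filter fun x => x ∈ e).card := by
    simp only [Finset.card_filter]
    rw [Finset.sum_comm]
  have h3 : ∑ e ∈ R, (A.filter fun x => x ∈ e).card = ∑ e ∈ R, 2 := by
    refine Finset.sum_congr rfl fun e he => ?_
    obtain ⟨x, hx, y, hy, hxy, rfl⟩ := hR e he
    rw [Finset.card_eq_two]
    refine ⟨x, y, hxy, ?_⟩
    ext z
    simp only [Finset.mem_filter, Sym2.mem_iff, Finset.mem_insert, Finset.mem_singleton]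
    constructor
    · rintro ⟨-, h⟩
      exact h
    · rintro (rfl | rfl)
      · exact ⟨hx, Or.inl rfl⟩
      · exact ⟨hy, Or.inr rfl⟩
  rw [h2, h3, Finset.sum_const, smul_eq_mul, smul_eq_mul] at h1
  omega

set_option linter.unusedVariables false in
theorem shadow {V : Type} [Finite V] (Γ : SimpleGraph V) (T Hb : Set V) (hTH : Disjoint T Hb)
    (hbip : ∀ s t, Γ.Adj s t → (s ∈ T ∧ t ∈ Hb) ∨ (t ∈ T ∧ s ∈ Hb))
    (h3 : ∀ s ∈ T, (Γ.neighborSet s).ncard = 3) (hK5 : ¬ HasModel 5 Γ) (W : Set V) (hW : W ⊆ Hb) :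
    {e : Sym2 V | ∃ x ∈ W, ∃ y ∈ W, x ≠ y ∧ e = s(x, y) ∧ ∃ s ∈ T, Γ.Adj s x ∧ Γ.Adj s y}.ncard ≤
      6 * W.ncard := by
  classical
  have := Fintype.ofFinite V
  -- the shadow as a finset
  let S : Finset (Sym2 V) := Finset.univ.filter fun e =>
    ∃ x ∈ W, ∃ y ∈ W, x ≠ y ∧ e = s(x, y) ∧ ∃ s ∈ T, Γ.Adj s x ∧ Γ.Adj s y
  have hS : {e : Sym2 V | ∃ x ∈ W, ∃ y ∈ W, x ≠ y ∧ e = s(x, y) ∧
      ∃ s ∈ T, Γ.Adj s x ∧ Γ.Adj s y} = (S : Set (Sym2 V)) := by
    ext e
    simp only [S, Finset.coe_filter, Finset.mem_univ, true_and]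
  rw [hS, Set.ncard_coe_finset]
  -- responsible vertices
  have hresp : ∀ e : Sym2 V, ∃ s : V, e ∈ S → s ∈ T ∧ ∃ x ∈ W, ∃ y ∈ W, x ≠ y ∧ e = s(x, y) ∧
      Γ.Adj s x ∧ Γ.Adj s y := by
    intro e
    by_cases he : e ∈ S
    · obtain ⟨x, hx, y, hy, hxy, h1, s, hs, h2⟩ := (Finset.mem_filter.mp he).2
      exact ⟨s, fun _ => ⟨hs, x, hx, y, hy, hxy, h1, h2⟩⟩
    · obtain ⟨v⟩ : Nonempty V := by
        induction e with
        | h a b => exact ⟨a⟩
      exact ⟨v, fun h => absurd h he⟩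
  choose r hr using hresp
  let R : V → Finset (Sym2 V) := fun s => S.filter fun e => r e = s
  let A : V → Finset V := fun s => Finset.univ.filter fun x => Γ.Adj s x
  have hA : ∀ s ∈ T, (A s).card = 3 := by
    intro s hs
    rw [← h3 s hs, ← Set.ncard_coe_finset]
    congr 1
    ext x
    simp [A]
  have heta : ∀ s : V, ∃ x : V, s ∈ T → x ∈ A s ∧
      2 * (R s).card ≤ 3 * ((R s).filter fun e => x ∈ e).card := by
    intro s
    by_cases hs : s ∈ T
    · obtain ⟨x, hx, h⟩ := exists_eta (A s) (hA s hs) (R s) (by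
        intro e he
        obtain ⟨he1, he2⟩ := Finset.mem_filter.mp he
        obtain ⟨-, x, hx, y, hy, hxy, h1, h2, h4⟩ := hr e he1
        rw [he2] at h2 h4
        exact ⟨x, by simpa [A] using h2, y, by simpa [A] using h4, hxy, h1⟩)
      exact ⟨x, fun _ => ⟨hx, h⟩⟩
    · exact ⟨s, fun h => absurd h hs⟩
  choose η hη using heta
  -- upper bound
  have hcon : (con Γ T W η).edgeSet.ncard ≤ 4 * W.ncard :=
    few_edges _ W (fun a b h => ⟨h.1, h.2.1⟩) fun h => hK5 (con_model Γ T Hb W hTH hW η h)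
  -- counting
  have hcount : 2 * S.card ≤ 3 * (S.filter fun e => η (r e) ∈ e).card := by
    have hmaps : ∀ e ∈ S, r e ∈ (Finset.univ.filter fun s => s ∈ T) := by
      intro e he
      simp only [Finset.mem_filter, Finset.mem_univ, true_and]
      exact (hr e he).1
    rw [Finset.card_eq_sum_card_fiberwise (f := r) (s := S)
      (t := Finset.univ.filter fun s => s ∈ T) hmaps,
      Finset.card_eq_sum_card_fiberwise (f := r) (s := S.filter fun e => η (r e) ∈ e)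
      (t := Finset.univ.filter fun s => s ∈ T) (fun e he => hmaps e (Finset.mem_filter.mp he).1),
      Finset.mul_sum, Finset.mul_sum]
    refine Finset.sum_le_sum fun s hs => ?_
    have hs' : s ∈ T := by simpa using hs
    refine ((hη s hs').2).trans (Nat.mul_le_mul_left 3 (Finset.card_le_card ?_))
    intro e he
    simp only [R, Finset.mem_filter] at he ⊢
    obtain ⟨⟨h1, h2⟩, h4⟩ := he
    exact ⟨⟨h1, h2 ▸ h4⟩, h2⟩
  have hsub : ((S.filter fun e => η (r e) ∈ e : Finset (Sym2 V)) : Set (Sym2 V)) ⊆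
      (con Γ T W η).edgeSet := by
    intro e he
    obtain ⟨he1, he2⟩ := Finset.mem_filter.mp (Finset.mem_coe.mp he)
    obtain ⟨hT, x, hx, y, hy, hxy, h1, h2, h4⟩ := hr e he1
    rw [h1] at he2 ⊢
    rw [SimpleGraph.mem_edgeSet]
    refine ⟨hx, hy, hxy, r e, hT, h2, h4, ?_⟩
    rcases Sym2.mem_iff.mp he2 with h | h
    · exact Or.inl (by rw [h1]; exact h)
    · exact Or.inr (by rw [h1]; exact h)
  have hle := Set.ncard_le_ncard hsub (Set.toFinite _)
  rw [Set.ncard_coe_finset] at hle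
  omega

end Shadow

end Pool.Agent.Helper83.OP
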