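import Pool.Agent.Helper83.OP.Defs

/-!
# Counting the triples of a bipartite graph
-/

namespace Pool.Agent.Helper83.OP

open Set

section Triples

variable {V : Type} [Fintype V] [DecidableEq V]

omit [Fintype V] in
/-- double counting: some vertex of `W` lies in at most twelve pairs -/
private theorem tr_low (W : Finset V) (hW : W.Nonempty) (S : Finset (Sym2 V))
    (hS : ∀ e ∈ S, ∃ x ∈ W, ∃ y ∈ W, x ≠ y ∧ e = s(x, y)) (hc : S.card ≤ 6 * W.card) :
    ∃ x ∈ W, (S.filter fun e => x ∈ e).card ≤ 12 := by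
  by_contra hno
  push Not at hno
  have h1 : ∑ x ∈ W, 12 < ∑ x ∈ W, (S.filter fun e => x ∈ e).card :=
    Finset.sum_lt_sum_of_nonempty hW fun x hx => hno x hx
  have h2 : ∑ x ∈ W, (S.filter fun e => x ∈ e).card = ∑ e ∈ S, (W.filter fun x => x ∈ e).card := by
    simp only [Finset.card_filter]
    rw [Finset.sum_comm]
  have h3 : ∑ e ∈ S, (W.filter fun x => x ∈ e).card = ∑ e ∈ S, 2 := by
    refine Finset.sum_congr rfl fun e he => ?_
    obtain ⟨x, hx, y, hy, hxy, rfl⟩ := hS e he
    rw [Finset.card_eq_two]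
    refine ⟨x, y, hxy, ?_⟩
    ext z
    simp only [Finset.mem_filter, Sym2.mem_iff, Finset.mem_insert, Finset.mem_singleton]
    constructor
    · rintro ⟨-, h⟩
      exact h
    · rintro (rfl | rfl)
      · exact ⟨hx, Or.inl rfl⟩
      · exact ⟨hy, Or.inr rfl⟩
  rw [h2, h3, Finset.sum_const, Finset.sum_const, smul_eq_mul, smul_eq_mul] at h1
  omega

omit [Fintype V] [DecidableEq V] in
/-- three vertices with the same three neighbours -/
private theorem tr_K33 (Γ : SimpleGraph V) (T Hb : Set V) (hTH : Disjoint T Hb)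
    (hK33 : ¬ HasK33 Γ) (x y z : V) (hxy : x ≠ y) (hxz : x ≠ z) (hyz : y ≠ z) (hx : x ∈ Hb)
    (hy : y ∈ Hb) (hz : z ∈ Hb) (F : Finset V)
    (hF : ∀ s ∈ F, s ∈ T ∧ Γ.Adj s x ∧ Γ.Adj s y ∧ Γ.Adj s z) : F.card ≤ 2 := by
  by_contra hno
  push Not at hno
  obtain ⟨a, b, c, ha, hb, hc, hab, hac, hbc⟩ := Finset.two_lt_card_iff.mp hno
  refine hK33 ⟨![a, b, c], ![x, y, z], ?_, ?_, ?_, ?_⟩
  · intro i j hij
    fin_cases i <;> fin_cases j <;> simp_all
  · intro i j hij
    fin_cases i <;> fin_cases j <;> simp_all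
  · have key : ∀ s ∈ F, ∀ t ∈ Hb, s ≠ t := by
      rintro s hs t ht rfl
      exact Set.disjoint_left.mp hTH (hF s hs).1 ht
    intro i j
    fin_cases i <;> fin_cases j <;> simp [key a ha x hx, key a ha y hy, key a ha z hz,
      key b hb x hx, key b hb y hy, key b hb z hz, key c hc x hx, key c hc y hy, key c hc z hz]
  · intro i j
    fin_cases i <;> fin_cases j <;> simp [hF a ha, hF b hb, hF c hc]

private theorem tr_main (Γ : SimpleGraph V) (T Hb : Set V) (hTH : Disjoint T Hb)
    (h3 : ∀ s ∈ T, (Γ.neighborSet s).ncard = 3)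
    (hsh : ∀ W : Set V, W ⊆ Hb →
      {e : Sym2 V | ∃ x ∈ W, ∃ y ∈ W, x ≠ y ∧ e = s(x, y) ∧ ∃ s ∈ T, Γ.Adj s x ∧ Γ.Adj s y}.ncard ≤
        6 * W.ncard)
    (hK33 : ¬ HasK33 Γ) (W : Finset V) : (W : Set V) ⊆ Hb →
    {s | s ∈ T ∧ Γ.neighborSet s ⊆ (W : Set V)}.ncard ≤ 132 * W.card := by
  classical
  induction W using Finset.strongInduction with
  | H W ih =>
  intro hW
  rcases W.eq_empty_or_nonempty with rfl | hne
  · have : {s | s ∈ T ∧ Γ.neighborSet s ⊆ ((∅ : Finset V) : Set V)} = ∅ := by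
      ext s
      simp only [Set.mem_ofPred_eq, Set.mem_empty_iff_false, iff_false, not_and]
      intro hs hsub
      have h1 := h3 s hs
      rw [Finset.coe_empty] at hsub
      rw [Set.subset_empty_iff.mp hsub, Set.ncard_empty] at h1
      omega
    rw [this, Set.ncard_empty]
    exact Nat.zero_le _
  · let S : Finset (Sym2 V) := Finset.univ.filter fun e =>
      ∃ x ∈ (W : Set V), ∃ y ∈ (W : Set V), x ≠ y ∧ e = s(x, y) ∧ ∃ s ∈ T, Γ.Adj s x ∧ Γ.Adj s y
    have hS1 : ∀ e ∈ S, ∃ x ∈ W, ∃ y ∈ W, x ≠ y ∧ e = s(x, y) := by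
      intro e he
      obtain ⟨x, hx, y, hy, hxy, h1, -⟩ := (Finset.mem_filter.mp he).2
      exact ⟨x, hx, y, hy, hxy, h1⟩
    have hS2 : S.card ≤ 6 * W.card := by
      have h1 := hsh W hW
      rw [Set.ncard_coe_finset] at h1
      rw [← Set.ncard_coe_finset]
      refine le_of_eq_of_le ?_ h1
      congr 1
      ext e
      simp only [S, Finset.coe_filter, Finset.mem_univ, true_and]
    obtain ⟨x, hxW, hx⟩ := tr_low W hne S hS1 hS2
    -- the shadow neighbours of `x`
    let Nx : Finset V := W.filter fun y => x ≠ y ∧ s(x, y) ∈ S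
    have hNx : Nx.card ≤ 12 := by
      refine le_trans ?_ hx
      refine Finset.card_le_card_of_injOn (fun y => s(x, y)) ?_ ?_
      · intro y hy
        obtain ⟨-, -, h1⟩ := Finset.mem_filter.mp (Finset.mem_coe.mp hy)
        simp [h1]
      · intro y _ z _ hyz
        exact Sym2.congr_right.mp hyz
    -- the `s` with `x ∈ N(s) ⊆ W`
    let F : Finset V := Finset.univ.filter fun s => s ∈ T ∧ Γ.neighborSet s ⊆ (W : Set V) ∧ Γ.Adj s x
    have hF : F.card ≤ 132 := by
      have h66 : (Nx.powersetCard 2).card ≤ 66 := by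
        rw [Finset.card_powersetCard]
        refine (Nat.choose_le_choose 2 hNx).trans ?_
        decide
      refine (Finset.card_le_mul_card_image_of_maps_to (s := F) (t := Nx.powersetCard 2)
        (f := fun s => (Finset.univ.filter fun y => Γ.Adj s y).erase x) ?_ 2 ?_).trans ?_
      · intro s hs
        obtain ⟨-, hsT, hsW, hsx⟩ := Finset.mem_filter.mp hs
        rw [Finset.mem_powersetCard]
        constructor
        · intro y hy
          obtain ⟨hyx, hy2⟩ := Finset.mem_erase.mp hy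
          have hsy : Γ.Adj s y := (Finset.mem_filter.mp hy2).2
          have hyW : y ∈ W := hsW hsy
          refine Finset.mem_filter.mpr ⟨hyW, hyx.symm, ?_⟩
          exact Finset.mem_filter.mpr ⟨Finset.mem_univ _, x, hxW, y, hyW, hyx.symm, rfl, s, hsT,
            hsx, hsy⟩
        · rw [Finset.card_erase_of_mem (Finset.mem_filter.mpr ⟨Finset.mem_univ _, hsx⟩)]
          have h1 : (Finset.univ.filter fun y => Γ.Adj s y).card = 3 := by
            rw [← h3 s hsT, ← Set.ncard_coe_finset]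
            congr 1
            ext y
            simp
          rw [h1]
      · intro P hP
        obtain ⟨hP1, hP2⟩ := Finset.mem_powersetCard.mp hP
        obtain ⟨y, z, hyz, rfl⟩ := Finset.card_eq_two.mp hP2
        have hy := Finset.mem_filter.mp (hP1 (Finset.mem_insert_self y _))
        have hz := Finset.mem_filter.mp (hP1 (Finset.mem_insert_of_mem (Finset.mem_singleton_self z)))
        refine tr_K33 Γ T Hb hTH hK33 x y z hy.2.1 hz.2.1 hyz (hW hxW) (hW hy.1) (hW hz.1) _ ?_
        intro s hs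
        obtain ⟨hs1, hs2⟩ := Finset.mem_filter.mp hs
        obtain ⟨-, hsT, hsW, hsx⟩ := Finset.mem_filter.mp hs1
        have hmem : ∀ w ∈ ({y, z} : Finset V), Γ.Adj s w := by
          intro w hw
          rw [← hs2] at hw
          exact (Finset.mem_filter.mp (Finset.mem_of_mem_erase hw)).2
        exact ⟨hsT, hsx, hmem y (by simp), hmem z (by simp)⟩
      · omega
    -- remove `x`
    have hih := ih (W.erase x) (Finset.erase_ssubset hxW)
      ((Finset.coe_subset.mpr (Finset.erase_subset x W)).trans hW)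
    have hsub : {s | s ∈ T ∧ Γ.neighborSet s ⊆ (W : Set V)} ⊆
        {s | s ∈ T ∧ Γ.neighborSet s ⊆ ((W.erase x : Finset V) : Set V)} ∪ (F : Set V) := by
      rintro s ⟨hsT, hsW⟩
      by_cases hsx : Γ.Adj s x
      · right
        simp only [F, Finset.coe_filter, Finset.mem_univ, true_and, Set.mem_ofPred_eq]
        exact ⟨hsT, hsW, hsx⟩
      · left
        refine ⟨hsT, fun y hy => ?_⟩
        rw [Finset.coe_erase]
        refine ⟨hsW hy, ?_⟩
        rintro rfl
        exact hsx hy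
    have h1 := Set.ncard_le_ncard hsub (Set.toFinite _)
    have h2 := Set.ncard_union_le
      {s | s ∈ T ∧ Γ.neighborSet s ⊆ ((W.erase x : Finset V) : Set V)} (F : Set V)
    rw [Set.ncard_coe_finset] at h2
    rw [Finset.card_erase_of_mem hxW] at hih
    have h3 : 1 ≤ W.card := Finset.card_pos.mpr hne
    omega

end Triples

theorem triples {V : Type} [Finite V] (Γ : SimpleGraph V) (T Hb : Set V) (hTH : Disjoint T Hb)
    (hbip : ∀ s t, Γ.Adj s t → (s ∈ T ∧ t ∈ Hb) ∨ (t ∈ T ∧ s ∈ Hb))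
    (h3 : ∀ s ∈ T, (Γ.neighborSet s).ncard = 3)
    (hsh : ∀ W : Set V, W ⊆ Hb →
      {e : Sym2 V | ∃ x ∈ W, ∃ y ∈ W, x ≠ y ∧ e = s(x, y) ∧ ∃ s ∈ T, Γ.Adj s x ∧ Γ.Adj s y}.ncard ≤
        6 * W.ncard)
    (hK33 : ¬ HasK33 Γ) : T.ncard ≤ 132 * Hb.ncard := by
  classical
  have := Fintype.ofFinite V
  have h := tr_main Γ T Hb hTH h3 hsh hK33 (Set.toFinite Hb).toFinset
    (by rw [Set.Finite.coe_toFinset])
  have e1 : (Set.toFinite Hb).toFinset.card = Hb.ncard := by
    rw [← Set.ncard_coe_finset, Set.Finite.coe_toFinset]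
  rw [e1] at h
  refine le_trans (Set.ncard_le_ncard ?_ (Set.toFinite _)) h
  intro s hs
  refine ⟨hs, fun y hy => ?_⟩
  rcases hbip s y hy with h1 | h1
  · rw [Set.Finite.coe_toFinset]
    exact h1.2
  · exact absurd h1.2 (Set.disjoint_left.mp hTH hs)

end Pool.Agent.Helper83.OP
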