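import Pool.Agent.Helper83.OP.Defs
import Pool.Agent.Helper83.OP.Sampling
import Pool.Agent.Helper83.OP.Mader
import Pool.Agent.Helper83.OP.Tidy
import Pool.Agent.Helper83.OP.Shadow
import Pool.Agent.Helper83.OP.Triples

/-! # Few clusters with three hub edges (OP-14) -/

namespace Pool.Agent.Helper83.OP

open Set

section F

variable {V : Type} [Finite V] {H : SimpleGraph V} {N : Set V} {ρ : ℕ}

theorem tri_bound (X : Sym2 V → Sym2 V → Prop) (m : ℕ)
    (hX : ∀ f ∈ H.edgeSet, {f' | f' ∈ H.edgeSet ∧ X f f'}.ncard ≤ m) (hP : PlanarLike H X)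
    (K : Clus H N ρ) (hK : K.Tidy) :
    {s | s ∈ K.Ctr ∧ 3 ≤ (K.hOut s).ncard}.ncard ≤
      396 * (6 * m * (2 * ρ + 1) + 1) * {g | g ∉ N ∧ deg H g ≠ 0}.ncard := by
  classical
  have : Fintype V := Fintype.ofFinite V
  set J : Set V := {s | s ∈ K.Ctr ∧ 3 ≤ (K.hOut s).ncard} with hJ
  set Hb : Set V := {g | g ∉ N ∧ deg H g ≠ 0} with hHb
  set M : ℕ := 6 * m * (2 * ρ + 1) with hM
  choose P hP1 hP2 hP3 using clus_path K
  have hTr : ∀ s, ∃ t : Set (V × V), t ⊆ K.hOut s ∧ (s ∈ J → t.ncard = 3) := by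
    intro s
    by_cases hs : s ∈ J
    · obtain ⟨t, ht, ht2⟩ := Set.exists_subset_card_eq hs.2
      exact ⟨t, ht, fun _ => ht2⟩
    · exact ⟨∅, Set.empty_subset _, fun h => absurd h hs⟩
  choose Tr hTr1 hTr2 using hTr
  let hubs : V → Set V := fun s => Prod.snd '' Tr s
  have hinj : ∀ s, Set.InjOn (Prod.snd : V × V → V) (Tr s) := by
    rintro s ⟨v, g⟩ h1 ⟨v', g'⟩ h2 h
    obtain ⟨a1, a2, a3, a4⟩ := hTr1 s h1
    obtain ⟨b1, b2, b3, b4⟩ := hTr1 s h2
    simp only at h a1 a2 a3 a4 b1 b2 b3 b4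
    subst h
    rw [hK.hub v a1 v' b1 g a3 a4 b4 (a2.trans b2.symm)]
  have hhubs3 : ∀ s ∈ J, (hubs s).ncard = 3 := by
    intro s hs
    rw [(hinj s).ncard_image, hTr2 s hs]
  have hhubsHb : ∀ s, hubs s ⊆ Hb := by
    rintro s g ⟨⟨v, g'⟩, h1, rfl⟩
    obtain ⟨a1, a2, a3, a4⟩ := hTr1 s h1
    refine ⟨a3, ?_⟩
    simp only at a4 ⊢
    unfold deg
    exact ((Set.ncard_pos (Set.toFinite _)).2 ⟨v, a4.symm⟩).ne'
  let E0 : V → Set (Sym2 V) := fun s =>
    {f | ∃ q ∈ Tr s, (∃ h : q.1 ∈ N, f ∈ (P q.1 h).edges) ∨ f = s(q.1, q.2)}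
  have hE0H : ∀ s, E0 s ⊆ H.edgeSet := by
    rintro s f ⟨q, hq, ⟨h, hf⟩ | hf⟩
    · exact SimpleGraph.Walk.edges_subset_edgeSet _ hf
    · obtain ⟨a1, a2, a3, a4⟩ := hTr1 s hq
      rw [hf]; exact a4
  have hE0c : ∀ s ∈ J, (E0 s).ncard ≤ 3 * (2 * ρ + 1) := by
    intro s hs
    have hfin : (Tr s).Finite := Set.toFinite _
    let G : V × V → Finset (Sym2 V) := fun q =>
      if h : q.1 ∈ N then (s(q.1, q.2) :: (P q.1 h).edges).toFinset else ∅
    have hG : ∀ q, (G q).card ≤ 2 * ρ + 1 := by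
      intro q
      by_cases h : q.1 ∈ N
      · simp only [G, h, dite_true]
        refine (List.toFinset_card_le _).trans ?_
        rw [List.length_cons, SimpleGraph.Walk.length_edges, hP1 _ h]
        have := K.d_le _ h
        omega
      · simp [G, h]
    have hsub : E0 s ⊆ ((hfin.toFinset.biUnion G : Finset (Sym2 V)) : Set (Sym2 V)) := by
      rintro f ⟨q, hq, hf⟩
      rw [Finset.mem_coe, Finset.mem_biUnion]
      refine ⟨q, hfin.mem_toFinset.2 hq, ?_⟩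
      have h := (hTr1 s hq).1
      simp only [G, h, dite_true, List.mem_toFinset, List.mem_cons]
      rcases hf with ⟨_, hf⟩ | hf
      · exact Or.inr hf
      · exact Or.inl hf
    refine (Set.ncard_le_ncard hsub (Finset.finite_toSet _)).trans ?_
    rw [Set.ncard_coe_finset]
    refine (Finset.card_biUnion_le_card_mul _ _ (2 * ρ + 1) fun q _ => hG q).trans ?_
    rw [← Set.ncard_eq_toFinset_card _ hfin, hTr2 s hs]
  have hend : ∀ s, ∀ f ∈ E0 s, ∃ x ∈ f, x ∈ N ∧ K.ctr x = s := by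
    rintro s f ⟨q, hq, hf⟩
    obtain ⟨a1, a2, a3, a4⟩ := hTr1 s hq
    rcases hf with ⟨h, hf⟩ | hf
    · obtain ⟨x, hx, _, hx2, hx3⟩ := hP3 _ h f hf
      exact ⟨x, by rw [hx2]; simp, hx, hx3.trans a2⟩
    · exact ⟨q.1, by rw [hf]; simp, a1, a2⟩
  -- sampling data
  let A : J → Finset V := fun s => {s.1}
  let Fc : J → Finset V := fun s => Finset.univ.filter fun t => t ∈ K.conf X (E0 s.1) ∧ t ≠ s.1
  have hA : ∀ s, (A s).card = 1 := fun s => Finset.card_singleton _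
  have hFc : ∀ s, (Fc s).card ≤ M := by
    intro s
    rw [← Set.ncard_coe_finset]
    have h2 : ((Fc s : Finset V) : Set V) ⊆ K.conf X (E0 s.1) := by
      intro t ht
      exact (Finset.mem_filter.1 (Finset.mem_coe.1 ht)).2.1
    refine (Set.ncard_le_ncard h2 (Set.toFinite _)).trans ?_
    refine (conf_card X m hX K (E0 s.1) (hE0H _)).trans ?_
    refine (Nat.mul_le_mul_left _ (hE0c _ s.2)).trans (le_of_eq ?_)
    rw [hM]; ring
  have hAF : ∀ s, Disjoint (A s) (Fc s) := by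
    intro s
    rw [Finset.disjoint_left]
    intro t h1 h2
    exact (Finset.mem_filter.1 h2).2.2 (Finset.mem_singleton.1 h1)
  have : Fintype J := Fintype.ofFinite J
  have hT : ∀ T : Finset V,
      (Finset.univ.filter (fun s => A s ⊆ T ∧ Disjoint (Fc s) T)).card ≤
        0 * T.card + 132 * Hb.ncard := by
    intro T
    rw [zero_mul, zero_add]
    set Gd : Set V := {s | s ∈ J ∧ s ∈ T ∧ ∀ x ∈ T, x ∈ K.conf X (E0 s) → x = s} with hGd
    have hGN : ∀ s ∈ Gd, s ∈ N := fun s hs => hs.1.1.1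
    have hHN : ∀ s, ∀ g ∈ hubs s, g ∉ N := fun s g hg => (hhubsHb s hg).1
    let Γ : SimpleGraph V :=
      { Adj := fun x y => ∃ s ∈ Gd, (x = s ∧ y ∈ hubs s) ∨ (y = s ∧ x ∈ hubs s)
        symm := ⟨by
          rintro x y ⟨s, hs, h⟩
          exact ⟨s, hs, h.symm⟩⟩
        loopless := ⟨by
          rintro x ⟨s, hs, ⟨h1, h2⟩ | ⟨h1, h2⟩⟩
          · exact hHN s x h2 (h1 ▸ hGN s hs)
          · exact hHN s x h2 (h1 ▸ hGN s hs)⟩ }
    have hlink : ∀ s ∈ Gd, ∀ g ∈ hubs s, ∃ p : H.Walk s g,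
        (∀ x ∈ p.support, x = g ∨ (x ∈ N ∧ K.ctr x = s)) ∧ ∀ f ∈ p.edges, f ∈ E0 s := by
      rintro s hs g ⟨⟨v, g'⟩, hq, rfl⟩
      obtain ⟨a1, a2, a3, a4⟩ := hTr1 s hq
      simp only at a1 a2 a3 a4 ⊢
      refine ⟨((P v a1).concat a4).copy a2 rfl, ?_, ?_⟩
      · intro x hx
        rw [SimpleGraph.Walk.support_copy, SimpleGraph.Walk.support_concat, List.mem_append,
          List.mem_singleton] at hx
        rcases hx with hx | hx
        · exact Or.inr ⟨(hP2 _ a1 x hx).1, (hP2 _ a1 x hx).2.trans a2⟩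
        · exact Or.inl hx
      · intro f hf
        rw [SimpleGraph.Walk.edges_copy, SimpleGraph.Walk.edges_concat,
          List.concat_eq_append, List.mem_append, List.mem_singleton] at hf
        rcases hf with hf | hf
        · exact ⟨(v, g'), hq, Or.inl ⟨a1, hf⟩⟩
        · exact ⟨(v, g'), hq, Or.inr hf⟩
    have hW : ∀ x y, Γ.Adj x y → ∃ p : H.Walk x y, ∃ s ∈ Gd, ∃ g ∈ hubs s,
        ((x = s ∧ y = g) ∨ (x = g ∧ y = s)) ∧
        (∀ z ∈ p.support, z = g ∨ (z ∈ N ∧ K.ctr z = s)) ∧ ∀ f ∈ p.edges, f ∈ E0 s := by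
      rintro x y ⟨s, hs, ⟨h1, h2⟩ | ⟨h1, h2⟩⟩
      · subst h1
        obtain ⟨p, p1, p2⟩ := hlink x hs y h2
        exact ⟨p, x, hs, y, h2, Or.inl ⟨rfl, rfl⟩, p1, p2⟩
      · subst h1
        obtain ⟨p, p1, p2⟩ := hlink y hs x h2
        refine ⟨p.reverse, y, hs, x, h2, Or.inr ⟨rfl, rfl⟩, ?_, ?_⟩
        · intro z hz
          rw [SimpleGraph.Walk.support_reverse, List.mem_reverse] at hz
          exact p1 z hz
        · intro f hf
          rw [SimpleGraph.Walk.edges_reverse, List.mem_reverse] at hf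
          exact p2 f hf
    choose R hR using hW
    have hmod := hP Γ R (by
      intro x y x' y' h h' n1 n2 n3 n4
      obtain ⟨s, hs, g, hg, e1, e2, e3⟩ := hR x y h
      obtain ⟨s', hs', g', hg', e1', e2', e3'⟩ := hR x' y' h'
      have hss : s ≠ s' := by
        rintro rfl
        rcases e1 with ⟨k1, k2⟩ | ⟨k1, k2⟩ <;> rcases e1' with ⟨k1', k2'⟩ | ⟨k1', k2'⟩
        · exact n1 (k1.trans k1'.symm)
        · exact n2 (k1.trans k2'.symm)
        · exact n3 (k2.trans k1'.symm)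
        · exact n4 (k2.trans k2'.symm)
      have hgg : g ≠ g' := by
        rintro rfl
        rcases e1 with ⟨k1, k2⟩ | ⟨k1, k2⟩ <;> rcases e1' with ⟨k1', k2'⟩ | ⟨k1', k2'⟩
        · exact n4 (k2.trans k2'.symm)
        · exact n3 (k2.trans k1'.symm)
        · exact n2 (k1.trans k2'.symm)
        · exact n1 (k1.trans k1'.symm)
      refine ⟨?_, ?_⟩
      · intro v hv hv'
        rcases e2 v hv with h1 | ⟨h1, h2⟩ <;> rcases e2' v hv' with h1' | ⟨h1', h2'⟩
        · exact hgg (h1.symm.trans h1')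
        · rw [h1] at h1'; exact hHN s g hg h1'
        · rw [h1'] at h1; exact hHN s' g' hg' h1
        · exact hss (h2.symm.trans h2')
      · intro f hf f' hf' hXf
        obtain ⟨z, hz, hzN, hz2⟩ := hend s' f' (e3' f' hf')
        have hc : s' ∈ K.conf X (E0 s) :=
          ⟨f, e3 f hf, f', hE0H s' (e3' f' hf'), hXf, z, hz, hzN, hz2⟩
        exact hss (hs.2.2 s' hs'.2.1 hc).symm)
    have hTH : Disjoint Gd Hb := by
      rw [Set.disjoint_left]
      intro s h1 h2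
      exact h2.1 (hGN s h1)
    have hbip : ∀ x y, Γ.Adj x y → (x ∈ Gd ∧ y ∈ Hb) ∨ (y ∈ Gd ∧ x ∈ Hb) := by
      rintro x y ⟨s, hs, ⟨h1, h2⟩ | ⟨h1, h2⟩⟩
      · exact Or.inl ⟨h1 ▸ hs, hhubsHb s h2⟩
      · exact Or.inr ⟨h1 ▸ hs, hhubsHb s h2⟩
    have hn3 : ∀ s ∈ Gd, (Γ.neighborSet s).ncard = 3 := by
      intro s hs
      have : Γ.neighborSet s = hubs s := by
        ext y
        constructor
        · rintro ⟨s', hs', ⟨h1, h2⟩ | ⟨h1, h2⟩⟩
          · rw [h1]; exact h2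
          · exact absurd (hGN s hs) (hHN s' s h2)
        · intro hy
          exact ⟨s, hs, Or.inl ⟨rfl, hy⟩⟩
      rw [this]
      exact hhubs3 s hs.1
    have hfin := triples Γ Gd Hb hTH hbip hn3
      (fun W hW => shadow Γ Gd Hb hTH hbip hn3 hmod.1 W hW) hmod.2
    refine le_trans ?_ hfin
    rw [← Set.ncard_coe_finset]
    refine Set.ncard_le_ncard_of_injOn (fun s : J => s.1) ?_ ?_ (Set.toFinite _)
    · intro s hs
      obtain ⟨h1, h2⟩ := (Finset.mem_filter.1 (Finset.mem_coe.1 hs)).2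
      refine ⟨s.2, h1 (Finset.mem_singleton_self _), ?_⟩
      intro x hx hxc
      by_contra hne
      exact Finset.disjoint_left.1 h2 (Finset.mem_filter.2 ⟨Finset.mem_univ _, hxc, hne⟩) hx
    · intro e _ e' _ hee
      exact Subtype.ext hee
  have hS := sampling A Fc 1 M hA hFc hAF 0 (132 * Hb.ncard) hT
  have hc1 : Fintype.card J = J.ncard := by
    rw [← Nat.card_eq_fintype_card, Nat.card_coe_set_eq]
  rw [hc1] at hS
  have h5 : (M + 1) * J.ncard ≤ (M + 1) * (396 * (M + 1) * Hb.ncard) := by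
    calc (M + 1) * J.ncard ≤ 3 * (M + 1) ^ 1 * (0 * Fintype.card V +
          (M + 1) * (132 * Hb.ncard)) := hS
      _ = (M + 1) * (396 * (M + 1) * Hb.ncard) := by ring
  exact Nat.le_of_mul_le_mul_left h5 (Nat.succ_pos M)

end F

end Pool.Agent.Helper83.OP
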