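import Pool.Agent.Helper83.OP.Main
import Pool.Agent.Helper83.OP.Nlc
import Pool.Agent.Helper83.OP.GoodPair
import Pool.Agent.Helper83.OP.SuppGood
import Pool.Agent.Helper83.OP.SuppX
import Pool.Agent.Helper83.OP.CC
import Pool.Agent.Helper83.OP.CH
import Pool.Agent.Helper83.OP.EdgeBound
import Pool.Agent.Helper83.OP.ExAug
import Pool.Agent.Helper83.OP.Growth
import Pool.Agent.Helper83.OP.Insert
import Pool.Agent.Helper83.OP.TriBound
import Pool.Agent.Helper83.OP.OutGe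
import Pool.Agent.Helper83.OP.ExistsClus
import Pool.Agent.Helper83.OP.Tidy
import Pool.Agent.Helper83.OP.PlanarDraw
import Pool.Agent.Helper83.OP.AugEx
import Pool.Agent.Helper83.OP.Pendant
import Pool.Agent.Helper83.OP.Planarize
import Pool.Agent.Helper83.OP.LayoutEx
import Pool.Agent.Helper83.OP.PathArc
import Pool.Agent.Helper83.OP.Reasm
import Pool.Agent.Helper83.OP.NodePath

namespace Pool.Agent.Helper83.OP

open Set

theorem nlc (m : ℕ) : ∃ ℓ D : ℕ, ∀ (V : Type) [Finite V] (H : SimpleGraph V)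
    (X : Sym2 V → Sym2 V → Prop) (x0 y0 : V), (∀ f f', X f f' → X f' f) →
    (∀ f ∈ H.edgeSet, {f' | f' ∈ H.edgeSet ∧ X f f'}.ncard ≤ m) → PlanarLike H X →
    2 ≤ deg H x0 → 2 ≤ deg H y0 → (∀ v, v ≠ x0 → v ≠ y0 → deg H v = 0 ∨ 3 ≤ deg H v) →
    ∃ (u : V) (C : H.Walk u u) (hub : V), C.IsCycle ∧ C.length ≤ ℓ ∧
      ∀ v ∈ C.support, v ≠ hub → deg H v ≤ D :=
  nlc_of (fun H N ρ => exists_clus H N ρ) (fun K h => clus_tidy K h)
    (fun K h x0 y0 h1 h2 s hs => out_ge K h x0 y0 h1 h2 s hs)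
    (fun K h h1 s hs h2 h3 => growth K h h1 s hs h2 h3)
    (fun K h => cc_small K h) (fun X m h1 h2 K h3 => cc_bound X m h1 h2 K h3)
    (fun X m h1 h2 K h3 => ch_bound X m h1 h2 K h3)
    (fun X m h1 h2 K h3 => tri_bound X m h1 h2 K h3)
    (fun X m h0 h1 h2 => edge_bound X m h0 h1 h2) m

theorem good_pair (W : ℕ) : ∃ B D : ℕ, ∀ (V : Type) [Finite V] (H : SimpleGraph V) (e : Sym2 V)
    (X : Sym2 V → Sym2 V → Prop) (w : Sym2 V → ℕ), e ∈ H.edgeSet → (∀ f f', X f f' → X f' f) →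
    (∀ f ∈ H.edgeSet, f ≠ e → {f' | f' ∈ H.edgeSet ∧ f' ≠ e ∧ X f f'}.ncard ≤ w f) →
    PlanarLike (H.deleteEdges {e}) X → (∀ v, deg H v ≠ 1) →
    (∀ u v (p : H.Walk u v), p.IsPath → (∀ c ∈ p.support, c ≠ u → c ≠ v → deg H c = 2) →
      (p.edges.map w).sum ≤ W) → GoodPair H D B w :=
  good_pair_of (fun H z x y h1 h2 h3 h4 h5 => supp_deg H z x y h1 h2 h3 h4 h5)
    (fun H z x y h1 h2 h3 h4 h5 e he X w hX e' he' =>
      supp_partner H z x y h1 h2 h3 h4 h5 e he X w hX e' (by rw [he']))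
    (fun H z x y h1 h2 h3 h4 h5 e he X hP e' he' =>
      supp_planar H z x y h1 h2 h3 h4 h5 e he X hP e' (by rw [he']))
    (fun H z x y h1 h2 h3 h4 h5 w W hW => supp_weight H z x y h1 h2 h3 h4 h5 w W hW)
    (fun H z x y h1 h2 h3 h4 h5 w D B hD hG => supp_good H z x y h1 h2 h3 h4 h5 w D B hD hG)
    W (nlc W)

theorem aug {V : Type} [Finite V] (H : SimpleGraph V) (hH : KPl 1 H) (u v : V) (huv : u ≠ v)
    (Q : H.Walk u v) (ℓ D : ℕ) (hl : Q.length ≤ ℓ)
    (hD : ∀ x ∈ Q.support, x ≠ u → x ≠ v → deg H x ≤ D) : Aug H u v (4 * ℓ * (D + 4)) :=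
  aug_of planarize exists_layout exists_aug path_arc reasm node_path node_deg H hH u v huv Q ℓ D
    hl hD

theorem pendant {V : Type} [Finite V] (G : SimpleGraph V) (v w : V) (hvw : G.Adj v w)
    (hdeg : deg G v = 1) (h : KPl 1 (G.deleteEdges {s(v, w)})) : KPl 1 G :=
  pendant_of G v w hvw hdeg (half_arc_of _ h w (fun w' hw' => ⟨_, aug _ h w w' hw'.ne
    (SimpleGraph.Walk.cons hw' SimpleGraph.Walk.nil) 1 0 (by simp) (by
      intro x hx h1 h2
      simp only [SimpleGraph.Walk.support_cons, SimpleGraph.Walk.support_nil, List.mem_cons,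
        List.not_mem_nil, or_false] at hx
      rcases hx with hx | hx
      · exact absurd hx h1
      · exact absurd hx h2)⟩))

/-- bounded threads -/
theorem main (L : ℕ) : ∃ k : ℕ, ∀ (V : Type) [Fintype V] (G : SimpleGraph V), ¬ KPl 1 G →
    (∀ e ∈ G.edgeSet, KPl 1 (G.deleteEdges {e})) →
    (∀ u v (p : G.Walk u v), p.IsPath → (∀ x ∈ p.support, deg G x = 2) →
      p.support.length ≤ L) → KPl k G :=
  main_of good_pair (fun H pos γ hd => planarLike_of_drawing H pos γ hd)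
    (fun H hH u v huv Q _ ℓ D hl hD => aug H hH u v huv Q ℓ D hl hD)
    (fun G u v huv T hT hT2 k hA => insert_thread G u v huv T hT hT2 k hA)
    (fun G v w hvw hdeg h => pendant G v w hvw hdeg h) L

end Pool.Agent.Helper83.OP
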