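import Pool.Agent.Helper83.OP.Defs

namespace Pool.Agent.Helper83.OP

open Set

theorem KPl.mono {V : Type} {m : ℕ} {H H' : SimpleGraph V} (h : KPl m H) (hle : H' ≤ H) :
    KPl m H' := by
  obtain ⟨pos, γ, hd, hc⟩ := h
  have hE : H'.edgeSet ⊆ H.edgeSet := SimpleGraph.edgeSet_mono hle
  refine ⟨pos, γ, ⟨hd.pos_inj, fun u v huv => hd.ends u v (hle huv), fun e he => hd.cont e (hE he),
    fun e he => hd.inj e (hE he), fun e he => hd.avoid e (hE he)⟩, fun e he => ?_⟩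
  refine le_trans (Set.encard_le_encard ?_) (hc e (hE he))
  rintro q ⟨h1, h2, h3, h4⟩
  exact ⟨hE h1, h2, h3, h4⟩

theorem kpl_bot {V : Type} [Finite V] (m : ℕ) : KPl m (⊥ : SimpleGraph V) := by
  obtain ⟨n, ⟨f⟩⟩ := Finite.exists_equiv_fin V
  refine ⟨fun v => ((f v : ℕ), 0), fun _ _ => 0, ⟨?_, ?_, ?_, ?_, ?_⟩, ?_⟩
  · intro v w h
    have : ((f v : ℕ) : ℝ) = ((f w : ℕ) : ℝ) := (Prod.ext_iff.1 h).1
    exact f.injective (Fin.ext (by exact_mod_cast this))
  · intro u v h; exact absurd h (by simp)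
  · intro e he; simp at he
  · intro e he; simp at he
  · intro e he; simp at he
  · intro e he; simp at he

end Pool.Agent.Helper83.OP
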