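import Pool.Agent.Helper83.OP.Defs

/-!
# Edges leaving a cluster
-/

namespace Pool.Agent.Helper83.OP

open Set

section OutGe

variable {V : Type} [Finite V] {H : SimpleGraph V} {N : Set V} {ρ : ℕ}

private theorem og_sum (K : Clus H N ρ) (s : V) :
    ∃ f : V → ℕ, (∀ v, f v = deg H v) ∧ ∃ C : Finset V, (C : Set V) = K.cl s ∧
      ∑ v ∈ C, f v = {e : V × V | e.1 ∈ K.cl s ∧ H.Adj e.1 e.2}.ncard := by
  classical
  have := Fintype.ofFinite V
  refine ⟨deg H, fun _ => rfl, (Set.toFinite (K.cl s)).toFinset, by simp, ?_⟩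
  have h1 : {e : V × V | e.1 ∈ K.cl s ∧ H.Adj e.1 e.2}.ncard =
      (Finset.univ.filter fun e : V × V => e.1 ∈ K.cl s ∧ H.Adj e.1 e.2).card := by
    rw [← Set.ncard_coe_finset]
    congr 1
    ext e
    simp
  rw [h1, Finset.card_eq_sum_card_fiberwise (f := Prod.fst)
    (t := (Set.toFinite (K.cl s)).toFinset)]
  · refine Finset.sum_congr rfl fun v hv => ?_
    have hv' : v ∈ K.cl s := by simpa using hv
    rw [deg, ← Set.ncard_coe_finset]
    refine Set.ncard_congr (fun w _ => (v, w)) ?_ ?_ ?_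
    · intro w hw
      simp only [Finset.coe_filter, Finset.mem_filter, Finset.mem_univ, true_and,
        Set.mem_ofPred_eq]
      exact ⟨⟨hv', hw⟩, trivial⟩
    · intro a b _ _ hab
      exact (Prod.mk.inj hab).2
    · rintro ⟨a, b⟩ hab
      simp only [Finset.coe_filter, Finset.mem_univ, true_and, Finset.mem_filter,
        Set.mem_ofPred_eq] at hab
      obtain ⟨⟨_, h2⟩, rfl⟩ := hab
      exact ⟨b, h2, rfl⟩
  · intro e he
    simp only [Finset.coe_filter, Finset.mem_univ, true_and, Set.mem_ofPred_eq] at he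
    simpa using he.1

theorem out_ge (K : Clus H N ρ) (hK : K.Tidy) (x0 y0 : V)
    (h3 : ∀ v ∈ N, v ≠ x0 → v ≠ y0 → 3 ≤ deg H v) (h2 : ∀ v ∈ N, 2 ≤ deg H v)
    (s : V) (hs : s ∈ K.Ctr) :
    (K.cl s).ncard + 2 ≤ (K.cOut s).ncard + (K.hOut s).ncard + ({x0, y0} ∩ K.cl s : Set V).ncard := by
  classical
  obtain ⟨f, hf, C, hC, hsum⟩ := og_sum K s
  have hss : s ∈ K.cl s := ⟨hs.1, hs.2⟩
  -- lower bound of the degree sum
  have hlow : 3 * C.card ≤ ∑ v ∈ C, f v + ({x0, y0} ∩ K.cl s : Set V).ncard := by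
    have e1 : ({x0, y0} ∩ K.cl s : Set V).ncard = ∑ v ∈ C, (if v = x0 ∨ v = y0 then 1 else 0) := by
      rw [← Finset.card_filter, ← Set.ncard_coe_finset]
      congr 1
      ext v
      simp only [Set.mem_inter_iff, Set.mem_insert_iff, Set.mem_singleton_iff,
        Finset.coe_filter, Set.mem_ofPred_eq, ← hC, Finset.mem_coe]
      tauto
    rw [e1, ← Finset.sum_add_distrib, mul_comm, ← smul_eq_mul, ← Finset.sum_const]
    refine Finset.sum_le_sum fun v hv => ?_
    have hvN : v ∈ N := by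
      have : v ∈ K.cl s := by rw [← hC]; exact hv
      exact this.1
    rw [hf v]
    split_ifs with h
    · have := h2 v hvN
      omega
    · push Not at h
      have := h3 v hvN h.1 h.2
      omega
  -- the edges
  have hsplit : {e : V × V | e.1 ∈ K.cl s ∧ H.Adj e.1 e.2} =
      {e : V × V | e.1 ∈ K.cl s ∧ e.2 ∈ K.cl s ∧ H.Adj e.1 e.2} ∪ K.cOut s ∪ K.hOut s := by
    ext e
    simp only [Clus.cl, Clus.cOut, Clus.hOut, Set.mem_union, Set.mem_ofPred_eq]
    by_cases h : e.2 ∈ N <;> tauto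
  have hin : {e : V × V | e.1 ∈ K.cl s ∧ e.2 ∈ K.cl s ∧ H.Adj e.1 e.2}.ncard ≤
      2 * (C.card - 1) := by
    have hsub : {e : V × V | e.1 ∈ K.cl s ∧ e.2 ∈ K.cl s ∧ H.Adj e.1 e.2} ⊆
        (fun v => (v, K.par v)) '' ((C.erase s : Finset V) : Set V) ∪
          (fun v => (K.par v, v)) '' ((C.erase s : Finset V) : Set V) := by
      rintro ⟨v, w⟩ ⟨hv, hw, hvw⟩
      have hds : K.d s = 0 := by
        have := K.d_ctr s hs.1
        rwa [hs.2] at this
      rcases hK.tree v hv.1 w hw.1 hvw (hv.2.trans hw.2.symm) with ⟨h1, h2⟩ | ⟨h1, h2⟩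
      · left
        refine ⟨v, ?_, ?_⟩
        · rw [Finset.coe_erase, hC]
          refine ⟨hv, ?_⟩
          rintro rfl
          exact h1 hds
        · simp only [h2]
      · right
        refine ⟨w, ?_, ?_⟩
        · rw [Finset.coe_erase, hC]
          refine ⟨hw, ?_⟩
          rintro rfl
          exact h1 hds
        · simp only [h2]
    have hsC : s ∈ C := by
      rw [← Finset.mem_coe, hC]
      exact hss
    have hcard : (C.erase s).card = C.card - 1 := Finset.card_erase_of_mem hsC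
    refine (Set.ncard_le_ncard hsub (Set.toFinite _)).trans ?_
    refine (Set.ncard_union_le _ _).trans ?_
    have i1 := Set.ncard_image_le (f := fun v => (v, K.par v))
      (s := ((C.erase s : Finset V) : Set V)) (Set.toFinite _)
    have i2 := Set.ncard_image_le (f := fun v => (K.par v, v))
      (s := ((C.erase s : Finset V) : Set V)) (Set.toFinite _)
    rw [Set.ncard_coe_finset, hcard] at i1 i2
    omega
  have hle : {e : V × V | e.1 ∈ K.cl s ∧ H.Adj e.1 e.2}.ncard ≤
      2 * (C.card - 1) + (K.cOut s).ncard + (K.hOut s).ncard := by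
    rw [hsplit]
    have j1 := Set.ncard_union_le
      ({e : V × V | e.1 ∈ K.cl s ∧ e.2 ∈ K.cl s ∧ H.Adj e.1 e.2} ∪ K.cOut s) (K.hOut s)
    have j2 := Set.ncard_union_le
      {e : V × V | e.1 ∈ K.cl s ∧ e.2 ∈ K.cl s ∧ H.Adj e.1 e.2} (K.cOut s)
    omega
  have hcl : (K.cl s).ncard = C.card := by rw [← hC, Set.ncard_coe_finset]
  have hpos : 1 ≤ C.card := by
    rw [← hcl]
    exact (Set.ncard_pos (Set.toFinite _)).mpr ⟨s, hss⟩
  rw [hcl]
  omega

end OutGe

end Pool.Agent.Helper83.OP
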