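import Pool.Agent.Helper83.OP.Defs

/-!
# OP-01: continuous arguments
-/

namespace Pool.Agent.Helper83.OP

open Set

private theorem inc_lift {X : Type} [TopologicalSpace X] [LocallyPathConnectedSpace X]
    [ContractibleSpace X] (g : X → ℂ) (hg : Continuous g) (h0 : ∀ x, g x ≠ 0) :
    ∃ θ : X → ℝ, Continuous θ ∧
      ∀ x, g x = (‖g x‖ : ℂ) * Complex.exp ((θ x : ℂ) * Complex.I) := by
  have hU : IsSimplyConnected (univ : Set X) := by
    have : ContractibleSpace (univ : Set X) :=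
      (Homeomorph.Set.univ X).symm.contractibleSpace_iff.1 inferInstance
    show SimplyConnectedSpace (univ : Set X)
    infer_instance
  obtain ⟨f, hf1, hf2⟩ := Complex.exists_continuousOn_eqOn_exp_comp hU isOpen_univ
    hg.continuousOn (by rintro ⟨x, -, hx⟩; exact h0 x hx)
  rw [continuousOn_univ] at hf1
  refine ⟨fun x => (f x).im, Complex.continuous_im.comp hf1, fun x => ?_⟩
  have h1 : Complex.exp (f x) = g x := hf2 (mem_univ x)
  have h2 : ‖g x‖ = Real.exp (f x).re := by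
    rw [← h1, Complex.norm_exp]
  rw [h2, Complex.ofReal_exp, ← Complex.exp_add, Complex.re_add_im]
  exact h1.symm

/-- projection of the line to the unit interval -/
private noncomputable def clamp (t : ℝ) : ℝ := max 0 (min 1 t)

private theorem clamp_mem (t : ℝ) : clamp t ∈ Icc (0 : ℝ) 1 :=
  ⟨le_max_left _ _, max_le zero_le_one (min_le_left _ _)⟩

private theorem clamp_of_mem {t : ℝ} (ht : t ∈ Icc (0 : ℝ) 1) : clamp t = t := by
  unfold clamp
  rw [min_eq_right ht.2, max_eq_right ht.1]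

private theorem continuous_clamp : Continuous clamp := by
  unfold clamp
  fun_prop

theorem inc_exists (g : ℝ → ℂ) (hg : ContinuousOn g (Icc 0 1))
    (h0 : ∀ t ∈ Icc (0 : ℝ) 1, g t ≠ 0) : ∃ x, IsInc g x := by
  obtain ⟨θ, h1, h2⟩ := inc_lift (fun t => g (clamp t))
    (hg.comp_continuous continuous_clamp clamp_mem) (fun t => h0 _ (clamp_mem t))
  refine ⟨θ 1 - θ 0, θ, h1.continuousOn, fun t ht => ?_, rfl⟩
  have := h2 t
  rw [clamp_of_mem ht] at this
  exact this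

theorem inc_unique (g : ℝ → ℂ) (h0 : ∀ t ∈ Icc (0 : ℝ) 1, g t ≠ 0) (x y : ℝ) (hx : IsInc g x)
    (hy : IsInc g y) : x = y := by
  obtain ⟨θ, c1, e1, rfl⟩ := hx
  obtain ⟨φ, c2, e2, rfl⟩ := hy
  have hint : ∀ t ∈ Icc (0 : ℝ) 1, ∃ n : ℤ, θ t - φ t = n * (2 * Real.pi) := by
    intro t ht
    have h1 := e1 t ht
    have h2 := e2 t ht
    have h3 : (‖g t‖ : ℂ) ≠ 0 := by
      rw [Complex.ofReal_ne_zero]
      exact norm_ne_zero_iff.2 (h0 t ht)
    have h4 : Complex.exp ((θ t : ℂ) * Complex.I) = Complex.exp ((φ t : ℂ) * Complex.I) := by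
      rw [h1] at h2
      have h5 : (‖g t‖ : ℂ) * Complex.exp ((θ t : ℂ) * Complex.I) =
          (‖g t‖ : ℂ) * Complex.exp ((φ t : ℂ) * Complex.I) := by
        rw [← h1, ← e2 t ht]
      exact mul_left_cancel₀ h3 h5
    obtain ⟨n, hn⟩ := Complex.exp_eq_exp_iff_exists_int.1 h4
    refine ⟨n, ?_⟩
    have h6 := congrArg Complex.im hn
    simp at h6
    linarith
  have hcont : ContinuousOn (fun t => θ t - φ t) (Icc 0 1) := c1.sub c2
  have hpi : (0 : ℝ) < 2 * Real.pi := by positivity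
  have key : ∀ f : ℝ → ℝ, ContinuousOn f (Icc 0 1) →
      (∀ t ∈ Icc (0 : ℝ) 1, ∃ n : ℤ, f t = n * (2 * Real.pi)) → f 1 ≤ f 0 := by
    intro f hf hfn
    by_contra hlt
    push Not at hlt
    obtain ⟨m, hm⟩ := hfn 0 ⟨le_refl _, zero_le_one⟩
    obtain ⟨n, hn⟩ := hfn 1 ⟨zero_le_one, le_refl _⟩
    have hmn : m < n := by
      rw [hm, hn] at hlt
      have := lt_of_mul_lt_mul_right hlt hpi.le
      exact_mod_cast this
    have hmem : ((m : ℝ) + 1 / 2) * (2 * Real.pi) ∈ Icc (f 0) (f 1) := by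
      rw [hm, hn]
      have h7 : (m : ℝ) + 1 ≤ n := by exact_mod_cast hmn
      constructor
      · exact mul_le_mul_of_nonneg_right (by linarith) hpi.le
      · exact mul_le_mul_of_nonneg_right (by linarith) hpi.le
    obtain ⟨t, ht, hft⟩ := intermediate_value_Icc zero_le_one hf hmem
    obtain ⟨k, hk⟩ := hfn t ht
    rw [hk] at hft
    have h8 := mul_right_cancel₀ hpi.ne' hft
    have h9 : (2 * k : ℝ) = 2 * m + 1 := by linarith
    have h10 : 2 * k = 2 * m + 1 := by exact_mod_cast h9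
    omega
  have h1 := key _ hcont hint
  have h2 := key (fun t => φ t - θ t) (c2.sub c1) (fun t ht => by
    obtain ⟨n, hn⟩ := hint t ht
    refine ⟨-n, ?_⟩
    push_cast
    linarith)
  beta_reduce at h1 h2
  linarith

theorem inc_square (F : ℝ → ℝ → ℂ)
    (hF : ContinuousOn (fun p : ℝ × ℝ => F p.1 p.2) (Icc (0 : ℝ) 1 ×ˢ Icc (0 : ℝ) 1))
    (h0 : ∀ s ∈ Icc (0 : ℝ) 1, ∀ t ∈ Icc (0 : ℝ) 1, F s t ≠ 0) (a b c d : ℝ)
    (ha : IsInc (fun s => F s 0) a) (hb : IsInc (fun t => F 1 t) b)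
    (hc : IsInc (fun s => F s 1) c) (hd : IsInc (fun t => F 0 t) d) : a + b = d + c := by
  obtain ⟨θ, h1, h2⟩ := inc_lift (fun p : ℝ × ℝ => F (clamp p.1) (clamp p.2))
    (hF.comp_continuous (f := fun p : ℝ × ℝ => (clamp p.1, clamp p.2))
      ((continuous_clamp.comp continuous_fst).prodMk (continuous_clamp.comp continuous_snd))
      (fun p => ⟨clamp_mem _, clamp_mem _⟩))
    (fun p => h0 _ (clamp_mem _) _ (clamp_mem _))
  have h3 : ∀ s ∈ Icc (0 : ℝ) 1, ∀ t ∈ Icc (0 : ℝ) 1,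
      F s t = (‖F s t‖ : ℂ) * Complex.exp ((θ (s, t) : ℂ) * Complex.I) := by
    intro s hs t ht
    have := h2 (s, t)
    simp only [clamp_of_mem hs, clamp_of_mem ht] at this
    exact this
  have m0 : (0 : ℝ) ∈ Icc (0 : ℝ) 1 := ⟨le_refl _, zero_le_one⟩
  have m1 : (1 : ℝ) ∈ Icc (0 : ℝ) 1 := ⟨zero_le_one, le_refl _⟩
  have ka : a = θ (1, 0) - θ (0, 0) := by
    refine inc_unique (fun s => F s 0) (fun s hs => h0 s hs 0 m0) _ _ ha
      ⟨fun s => θ (s, 0), ?_, fun s hs => h3 s hs 0 m0, rfl⟩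
    exact (h1.comp (by fun_prop : Continuous fun s : ℝ => (s, (0 : ℝ)))).continuousOn
  have kb : b = θ (1, 1) - θ (1, 0) := by
    refine inc_unique (fun t => F 1 t) (fun t ht => h0 1 m1 t ht) _ _ hb
      ⟨fun t => θ (1, t), ?_, fun t ht => h3 1 m1 t ht, rfl⟩
    exact (h1.comp (by fun_prop : Continuous fun t : ℝ => ((1 : ℝ), t))).continuousOn
  have kc : c = θ (1, 1) - θ (0, 1) := by
    refine inc_unique (fun s => F s 1) (fun s hs => h0 s hs 1 m1) _ _ hc
      ⟨fun s => θ (s, 1), ?_, fun s hs => h3 s hs 1 m1, rfl⟩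
    exact (h1.comp (by fun_prop : Continuous fun s : ℝ => (s, (1 : ℝ)))).continuousOn
  have kd : d = θ (0, 1) - θ (0, 0) := by
    refine inc_unique (fun t => F 0 t) (fun t ht => h0 0 m0 t ht) _ _ hd
      ⟨fun t => θ (0, t), ?_, fun t ht => h3 0 m0 t ht, rfl⟩
    exact (h1.comp (by fun_prop : Continuous fun t : ℝ => ((0 : ℝ), t))).continuousOn
  rw [ka, kb, kc, kd]
  ring

end Pool.Agent.Helper83.OP
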