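import Pool.Agent.Helper83.OP.Arcs

/-!
# Two disjoint strands in a corridor of cells
-/

namespace Pool.Agent.Helper83.OP

open Set

namespace Corr

/-- the position of the door on the side -/
noncomputable def kap (b : Bool) : ℝ := if b then -1 / 6 else 1 / 6

/-- the door between two adjacent cells -/
noncomputable def door (b : Bool) (c c' : ℤ × ℤ) : ℝ × ℝ :=
  (((c.1 : ℝ) + c'.1 + 1) / 2 - kap b * (c'.2 - c.2),
    ((c.2 : ℝ) + c'.2 + 1) / 2 + kap b * (c'.1 - c.1))

theorem kap_cases (b : Bool) : kap b = -1 / 6 ∨ kap b = 1 / 6 := by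
  cases b <;> simp [kap]

theorem door_rat (b : Bool) (c c' : ℤ × ℤ) :
    ∃ q r : ℚ, door b c c' = ((q : ℝ), (r : ℝ)) := by
  cases b
  · refine ⟨((c.1 : ℚ) + c'.1 + 1) / 2 - 1 / 6 * (c'.2 - c.2),
      ((c.2 : ℚ) + c'.2 + 1) / 2 + 1 / 6 * (c'.1 - c.1), ?_⟩
    simp [door, kap]
  · refine ⟨((c.1 : ℚ) + c'.1 + 1) / 2 - (-1) / 6 * (c'.2 - c.2),
      ((c.2 : ℚ) + c'.2 + 1) / 2 + (-1) / 6 * (c'.1 - c.1), ?_⟩
    simp [door, kap]

theorem mem_cell (c : ℤ × ℤ) (p : ℝ × ℝ) : p ∈ cell c ↔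
    ((c.1 : ℝ) ≤ p.1 ∧ p.1 ≤ c.1 + 1) ∧ ((c.2 : ℝ) ≤ p.2 ∧ p.2 ≤ c.2 + 1) := Iff.rfl

/-- a point of the open cell lies in one closed cell only -/
theorem open_cell {m n : ℤ} {p : ℝ × ℝ} (h1 : (m : ℝ) < p.1) (h2 : p.1 < m + 1)
    (h3 : (n : ℝ) < p.2) (h4 : p.2 < n + 1) {c : ℤ × ℤ} (hc : p ∈ cell c) : c = (m, n) := by
  rw [mem_cell] at hc
  obtain ⟨⟨a1, a2⟩, a3, a4⟩ := hc
  have b1 : (c.1 : ℝ) < (m + 1 : ℤ) := by push_cast; linarith
  have b2 : (m : ℝ) < (c.1 + 1 : ℤ) := by push_cast; linarith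
  have b3 : (c.2 : ℝ) < (n + 1 : ℤ) := by push_cast; linarith
  have b4 : (n : ℝ) < (c.2 + 1 : ℤ) := by push_cast; linarith
  have d1 : c.1 < m + 1 := by exact_mod_cast b1
  have d2 : m < c.1 + 1 := by exact_mod_cast b2
  have d3 : c.2 < n + 1 := by exact_mod_cast b3
  have d4 : n < c.2 + 1 := by exact_mod_cast b4
  exact Prod.ext (by simp; omega) (by simp; omega)

theorem door_cell_left (b : Bool) {c c' : ℤ × ℤ} (h : CAdj c c') : door b c c' ∈ cell c := by
  obtain ⟨c1, c2⟩ := c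
  obtain ⟨d1, d2⟩ := c'
  rw [mem_cell]
  simp only [door, CAdj] at h ⊢
  rcases h with ⟨h, h' | h'⟩ | ⟨h, h' | h'⟩ <;> subst h <;> subst h' <;> push_cast <;>
    rcases kap_cases b with e | e <;> rw [e] <;> refine ⟨⟨?_, ?_⟩, ?_, ?_⟩ <;> linarith

theorem door_cell_right (b : Bool) {c c' : ℤ × ℤ} (h : CAdj c c') : door b c c' ∈ cell c' := by
  obtain ⟨c1, c2⟩ := c
  obtain ⟨d1, d2⟩ := c'
  rw [mem_cell]
  simp only [door, CAdj] at h ⊢
  rcases h with ⟨h, h' | h'⟩ | ⟨h, h' | h'⟩ <;> subst h <;> subst h' <;> push_cast <;>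
    rcases kap_cases b with e | e <;> rw [e] <;> refine ⟨⟨?_, ?_⟩, ?_, ?_⟩ <;> linarith

theorem int_open {e m : ℤ} {x : ℝ} (h1 : (e : ℝ) ≤ x) (h2 : x ≤ e + 1) (h3 : (m : ℝ) < x)
    (h4 : x < m + 1) : e = m := by
  have b1 : (e : ℝ) < (m + 1 : ℤ) := by push_cast; linarith
  have b2 : (m : ℝ) < (e + 1 : ℤ) := by push_cast; linarith
  have d1 : e < m + 1 := by exact_mod_cast b1
  have d2 : m < e + 1 := by exact_mod_cast b2
  omega

theorem int_on {e m : ℤ} {x : ℝ} (h1 : (e : ℝ) ≤ x) (h2 : x ≤ e + 1) (h3 : x = m + 1) :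
    e = m ∨ e = m + 1 := by
  have b1 : (e : ℝ) ≤ (m + 1 : ℤ) := by push_cast; linarith
  have b2 : ((m + 1 : ℤ) : ℝ) ≤ (e + 1 : ℤ) := by push_cast; linarith
  have d1 : e ≤ m + 1 := by exact_mod_cast b1
  have d2 : m + 1 ≤ e + 1 := by exact_mod_cast b2
  omega

/-- the door lies in two cells only -/
theorem door_cell (b : Bool) {c c' : ℤ × ℤ} (h : CAdj c c') {e : ℤ × ℤ}
    (he : door b c c' ∈ cell e) : e = c ∨ e = c' := by
  obtain ⟨c1, c2⟩ := c
  obtain ⟨d1, d2⟩ := c'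
  obtain ⟨e1, e2⟩ := e
  rw [mem_cell] at he
  simp only [door, CAdj] at h he
  obtain ⟨⟨a1, a2⟩, a3, a4⟩ := he
  simp only [Prod.mk.injEq]
  rcases h with ⟨h, h' | h'⟩ | ⟨h, h' | h'⟩ <;> subst h <;> subst h' <;>
    push_cast at a1 a2 a3 a4
  · have f1 := int_open (m := c1) a1 a2
      (by rcases kap_cases b with e | e <;> rw [e] <;> linarith)
      (by rcases kap_cases b with e | e <;> rw [e] <;> linarith)
    have f2 := int_on (m := d2) a3 a4 (by ring)
    omega
  · have f1 := int_open (m := c1) a1 a2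
      (by rcases kap_cases b with e | e <;> rw [e] <;> linarith)
      (by rcases kap_cases b with e | e <;> rw [e] <;> linarith)
    have f2 := int_on (m := c2) a3 a4 (by ring)
    omega
  · have f1 := int_open (m := c2) a3 a4
      (by rcases kap_cases b with e | e <;> rw [e] <;> linarith)
      (by rcases kap_cases b with e | e <;> rw [e] <;> linarith)
    have f2 := int_on (m := d1) a1 a2 (by ring)
    omega
  · have f1 := int_open (m := c2) a3 a4
      (by rcases kap_cases b with e | e <;> rw [e] <;> linarith)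
      (by rcases kap_cases b with e | e <;> rw [e] <;> linarith)
    have f2 := int_on (m := c1) a1 a2 (by ring)
    omega

/-- inner points of the segment between two doors lie in the open cell -/
theorem seg_open (b : Bool) {c0 x y : ℤ × ℤ} (h : CAdj c0 x) (h' : CAdj x y) (hne : c0 ≠ y)
    {t : ℝ} (h0 : 0 < t) (h1 : t < 1) {p : ℝ × ℝ}
    (hp : p = door b c0 x + t • (door b x y - door b c0 x)) :
    (((x.1 : ℝ) < p.1 ∧ p.1 < x.1 + 1) ∧ (x.2 : ℝ) < p.2 ∧ p.2 < x.2 + 1) := by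
  obtain ⟨c1, c2⟩ := c0
  obtain ⟨m, n⟩ := x
  obtain ⟨d1, d2⟩ := y
  rw [Ne, Prod.mk.injEq] at hne
  subst hp
  simp only [door, CAdj, Prod.fst_add, Prod.snd_add, Prod.smul_fst, Prod.smul_snd, Prod.fst_sub,
    Prod.snd_sub, smul_eq_mul] at h h' ⊢
  rcases h with ⟨h, h2 | h2⟩ | ⟨h, h2 | h2⟩ <;>
    rcases h' with ⟨h', h2' | h2'⟩ | ⟨h', h2' | h2'⟩ <;>
    first
    | (exfalso; omega)
    | (subst h; subst h'; subst h2; subst h2'
       push_cast
       rcases kap_cases b with e | e <;> rw [e] <;> refine ⟨⟨?_, ?_⟩, ?_, ?_⟩ <;> nlinarith)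

/-- the strands of the two colours are disjoint in a cell -/
theorem seg_level {c0 x y : ℤ × ℤ} (h : CAdj c0 x) (h' : CAdj x y) (hne : c0 ≠ y)
    {t s : ℝ} (he : door false c0 x + t • (door false x y - door false c0 x) =
      door true c0 x + s • (door true x y - door true c0 x)) : False := by
  obtain ⟨c1, c2⟩ := c0
  obtain ⟨m, n⟩ := x
  obtain ⟨d1, d2⟩ := y
  rw [Ne, Prod.mk.injEq] at hne
  rw [Prod.ext_iff] at he
  simp only [door, CAdj, Prod.fst_add, Prod.snd_add, Prod.smul_fst, Prod.smul_snd, Prod.fst_sub,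
    Prod.snd_sub, smul_eq_mul, kap] at h h' he
  obtain ⟨e1, e2⟩ := he
  rcases h with ⟨h, h2 | h2⟩ | ⟨h, h2 | h2⟩ <;>
    rcases h' with ⟨h', h2' | h2'⟩ | ⟨h', h2' | h2'⟩ <;>
    first
    | (exfalso; omega)
    | (subst h; subst h'; subst h2; subst h2'
       push_cast at e1 e2
       linarith)

theorem door_ne (b : Bool) {c0 x y : ℤ × ℤ} (h : CAdj c0 x) (h' : CAdj x y) (hne : c0 ≠ y) :
    door b c0 x ≠ door b x y := by
  intro he
  have h1 := door_cell b h (e := y) (he ▸ door_cell_right b h')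
  rcases h1 with h1 | h1
  · exact hne h1.symm
  · subst h1
    rcases h' with ⟨_, h2 | h2⟩ | ⟨_, h2 | h2⟩ <;> omega

/-- the cells met by the segment between two doors -/
theorem seg_cells (b : Bool) {c0 x y : ℤ × ℤ} (h : CAdj c0 x) (h' : CAdj x y) (hne : c0 ≠ y)
    {p : ℝ × ℝ} (hp : p ∈ segment ℝ (door b c0 x) (door b x y)) :
    p ∈ cell x ∧ ∀ c, p ∈ cell c → c = x ∨ (c = c0 ∧ p = door b c0 x) ∨
      (c = y ∧ p = door b x y) := by
  rw [segment_eq_image'] at hp
  obtain ⟨t, ht, rfl⟩ := hp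
  simp only
  rcases ht.1.eq_or_lt with h0 | h0
  · subst h0
    simp only [zero_smul, add_zero]
    refine ⟨door_cell_right b h, fun c hc => ?_⟩
    rcases door_cell b h hc with h1 | h1
    · exact Or.inr (Or.inl ⟨h1, trivial⟩)
    · exact Or.inl h1
  rcases ht.2.eq_or_lt with h1 | h1
  · subst h1
    simp only [one_smul, add_sub_cancel]
    refine ⟨door_cell_left b h', fun c hc => ?_⟩
    rcases door_cell b h' hc with h1 | h1
    · exact Or.inl h1
    · exact Or.inr (Or.inr ⟨h1, trivial⟩)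
  · obtain ⟨⟨a1, a2⟩, a3, a4⟩ := seg_open b h h' hne h0 h1 rfl
    refine ⟨(mem_cell _ _).2 ⟨⟨a1.le, a2.le⟩, a3.le, a4.le⟩, fun c hc => Or.inl ?_⟩
    exact open_cell a1 a2 a3 a4 hc

theorem seg_disj {c0 x y : ℤ × ℤ} (h : CAdj c0 x) (h' : CAdj x y) (hne : c0 ≠ y) {p : ℝ × ℝ}
    (hp : p ∈ segment ℝ (door false c0 x) (door false x y))
    (hp' : p ∈ segment ℝ (door true c0 x) (door true x y)) : False := by
  rw [segment_eq_image'] at hp hp'
  obtain ⟨t, -, rfl⟩ := hp
  obtain ⟨s, -, hs⟩ := hp'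
  exact seg_level h h' hne (t := t) (s := s) hs.symm

/-- the strand through the cells `l` -/
noncomputable def strand (b : Bool) : ℤ × ℤ → List (ℤ × ℤ) → ℤ × ℤ → Set (ℝ × ℝ)
  | _, [], _ => ∅
  | c0, x :: l, c1 => segment ℝ (door b c0 x) (door b x (l.headD c1)) ∪ strand b x l c1

theorem main (l : List (ℤ × ℤ)) : ∀ (c0 x c1 : ℤ × ℤ),
    List.IsChain CAdj (c0 :: x :: (l ++ [c1])) → (c0 :: x :: (l ++ [c1])).Nodup →
    (∀ b, IsArc (strand b c0 (x :: l) c1) (door b c0 x) (door b (l.getLastD x) c1)) ∧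
    (∀ b, ∀ p ∈ strand b c0 (x :: l) c1, ∀ c, p ∈ cell c →
      c ∈ x :: l ∨ (c = c0 ∧ p = door b c0 x) ∨ (c = c1 ∧ p = door b (l.getLastD x) c1)) ∧
    (∀ b, ∀ p ∈ strand b c0 (x :: l) c1, ∃ c ∈ x :: l, p ∈ cell c) ∧
    (∀ p, p ∈ strand false c0 (x :: l) c1 → p ∈ strand true c0 (x :: l) c1 → False) ∧
    CAdj (l.getLastD x) c1 := by
  induction l with
  | nil =>
    intro c0 x c1 hch hnd
    rw [List.nil_append, List.isChain_cons_cons, List.isChain_cons_cons] at hch
    obtain ⟨h, h', -⟩ := hch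
    have hne : c0 ≠ c1 := by
      simp only [List.nil_append, List.nodup_cons, List.mem_cons, not_or] at hnd
      exact hnd.1.2.1
    have hs : ∀ b, strand b c0 [x] c1 = segment ℝ (door b c0 x) (door b x c1) := by
      intro b
      simp [strand]
    simp only [hs, List.getLastD_nil]
    refine ⟨fun b => isArc_segment (door_ne b h h' hne), fun b p hp c hc => ?_,
      fun b p hp => ⟨x, by simp, (seg_cells b h h' hne hp).1⟩,
      fun p hp hp' => seg_disj h h' hne hp hp', h'⟩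
    rcases (seg_cells b h h' hne hp).2 c hc with h1 | h1 | h1
    · exact Or.inl (by simp [h1])
    · exact Or.inr (Or.inl h1)
    · exact Or.inr (Or.inr h1)
  | cons y l ih =>
    intro c0 x c1 hch hnd
    have hch' := hch
    rw [List.cons_append, List.isChain_cons_cons, List.isChain_cons_cons] at hch
    obtain ⟨h, h', h''⟩ := hch
    have hch2 : List.IsChain CAdj (x :: y :: (l ++ [c1])) := by
      rw [List.isChain_cons_cons]; exact ⟨h', h''⟩
    have hnd2 : (x :: y :: (l ++ [c1])).Nodup := (List.nodup_cons.1 hnd).2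
    have hne : c0 ≠ y := by
      intro he
      exact (List.nodup_cons.1 hnd).1 (by simp [he])
    have hxl : x ∉ y :: l := by
      intro he
      exact (List.nodup_cons.1 hnd2).1 (by
        have : x ∈ y :: l ++ [c1] := List.mem_append_left _ he
        simpa using this)
    have hxc : x ≠ c1 := by
      intro he
      exact (List.nodup_cons.1 hnd2).1 (by simp [he])
    obtain ⟨i1, i2, i3, i4, i5⟩ := ih x y c1 hch2 hnd2
    have hs : ∀ b, strand b c0 (x :: y :: l) c1 =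
        segment ℝ (door b c0 x) (door b x y) ∪ strand b x (y :: l) c1 := by
      intro b
      rfl
    have hl : (y :: l).getLastD x = l.getLastD y := List.getLastD_cons ..
    simp only [hs, hl]
    -- a point of the cell `x` on the rest is the door
    have key : ∀ b, ∀ p ∈ strand b x (y :: l) c1, p ∈ cell x → p = door b x y := by
      intro b p hp hc
      rcases i2 b p hp x hc with h1 | h1 | h1
      · exact absurd h1 hxl
      · exact h1.2
      · exact absurd h1.1 hxc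
    refine ⟨fun b => ?_, fun b p hp c hc => ?_, fun b p hp => ?_, fun p hp hp' => ?_, i5⟩
    · exact (isArc_segment (door_ne b h h' hne)).union (i1 b) fun p hp hp' =>
        key b p hp' (seg_cells b h h' hne hp).1
    · rcases hp with hp | hp
      · rcases (seg_cells b h h' hne hp).2 c hc with h1 | h1 | h1
        · exact Or.inl (by simp [h1])
        · exact Or.inr (Or.inl h1)
        · exact Or.inl (by simp [h1.1])
      · rcases i2 b p hp c hc with h1 | h1 | h1
        · exact Or.inl (List.mem_cons_of_mem _ h1)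
        · exact Or.inl (by simp [h1.1])
        · exact Or.inr (Or.inr h1)
    · rcases hp with hp | hp
      · exact ⟨x, by simp, (seg_cells b h h' hne hp).1⟩
      · obtain ⟨c, hc, hpc⟩ := i3 b p hp
        exact ⟨c, List.mem_cons_of_mem _ hc, hpc⟩
    · rcases hp with hp | hp <;> rcases hp' with hp' | hp'
      · exact seg_disj h h' hne hp hp'
      · have h1 := key true p hp' (seg_cells false h h' hne hp).1
        exact seg_disj h h' hne hp (h1 ▸ right_mem_segment ℝ _ _)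
      · have h1 := key false p hp (seg_cells true h h' hne hp').1
        exact seg_disj h h' hne (h1 ▸ right_mem_segment ℝ _ _) hp'
      · exact i4 p hp hp'

end Corr

/-- S2: strands in a corridor -/
theorem corridor (c0 c1 : ℤ × ℤ) (l : List (ℤ × ℤ)) (hne : l ≠ [])
    (hch : List.IsChain CAdj (c0 :: (l ++ [c1]))) (hnd : (c0 :: (l ++ [c1])).Nodup) :
    ∃ (St : Bool → Set (ℝ × ℝ)) (A B : Bool → ℝ × ℝ),
      (∀ b, IsArc (St b) (A b) (B b)) ∧
      (∀ b, ∀ p ∈ St b, ∀ c, p ∈ cell c →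
        c ∈ l ∨ (c = c0 ∧ p = A b) ∨ (c = c1 ∧ p = B b)) ∧
      (∀ b, ∀ p ∈ St b, ∃ c ∈ l, p ∈ cell c) ∧
      Disjoint (St false) (St true) ∧
      (∀ b, A b ∈ cell c0) ∧ (∀ b, B b ∈ cell c1) ∧
      (∀ b, ∃ q r : ℚ, A b = ((q : ℝ), (r : ℝ))) ∧
      (∀ b, ∃ q r : ℚ, B b = ((q : ℝ), (r : ℝ))) := by
  obtain ⟨x, l, rfl⟩ := List.exists_cons_of_ne_nil hne
  obtain ⟨i1, i2, i3, i4, i5⟩ := Corr.main l c0 x c1 hch hnd
  have h : CAdj c0 x := by
    rw [List.cons_append, List.isChain_cons_cons] at hch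
    exact hch.1
  exact ⟨fun b => Corr.strand b c0 (x :: l) c1, fun b => Corr.door b c0 x,
    fun b => Corr.door b (l.getLastD x) c1, i1, i2, i3,
    Set.disjoint_left.2 fun p hp hp' => i4 p hp hp', fun b => Corr.door_cell_left b h,
    fun b => Corr.door_cell_right b i5, fun b => Corr.door_rat b _ _,
    fun b => Corr.door_rat b _ _⟩

variable {J I : Type} {src tgt : I → J}

theorem exists_strands (hst : ∀ i, src i ≠ tgt i) (L : Layout J I src tgt) :
    Nonempty (Strands L) := by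
  have key : ∀ i, ∃ (St : Bool → Set (ℝ × ℝ)) (A B : Bool → ℝ × ℝ),
      (∀ b, IsArc (St b) (A b) (B b)) ∧
      (∀ b, ∀ p ∈ St b, ∀ c, p ∈ cell c →
        c ∈ L.cells i ∨ (c = L.cs i ∧ p = A b) ∨ (c = L.ce i ∧ p = B b)) ∧
      (∀ b, ∀ p ∈ St b, ∃ c ∈ L.cells i, p ∈ cell c) ∧
      Disjoint (St false) (St true) ∧
      (∀ b, A b ∈ cell (L.cs i)) ∧ (∀ b, B b ∈ cell (L.ce i)) ∧
      (∀ b, ∃ q r : ℚ, A b = ((q : ℝ), (r : ℝ))) ∧
      (∀ b, ∃ q r : ℚ, B b = ((q : ℝ), (r : ℝ))) := by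
    intro i
    refine corridor (L.cs i) (L.ce i) (L.cells i) (L.ne i) (L.chain i) ?_
    have h1 : L.cs i ∉ L.cells i := fun h => L.cells_free i _ h _ (L.cs_mem i)
    have h2 : L.ce i ∉ L.cells i := fun h => L.cells_free i _ h _ (L.ce_mem i)
    have h3 : L.cs i ≠ L.ce i := by
      intro h
      have h4 := L.ce_mem i
      rw [← h] at h4
      exact hst i (L.blocks _ _ _ (L.cs_mem i) h4)
    rw [List.nodup_cons]
    refine ⟨?_, ?_⟩
    · rw [List.mem_append, List.mem_singleton, not_or]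
      exact ⟨h1, h3⟩
    · rw [List.nodup_append]
      refine ⟨L.nodup i, List.nodup_singleton _, ?_⟩
      intro a ha b hb
      rw [List.mem_singleton] at hb
      subst hb
      exact fun h => h2 (h ▸ ha)
  choose St A B h1 h2 h3 h4 h5 h6 h7 h8 using key
  exact ⟨⟨St, A, B, h1, h2, h3, h4, h5, h6, h7, h8⟩⟩

end Pool.Agent.Helper83.OP
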