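import Pool.Agent.Helper83.OP.Defs

/-!
# OP-17: lifting walks after suppression of a vertex of degree two
-/

namespace Pool.Agent.Helper83.OP

open Set

section Lift

variable {V : Type}

theorem supp_adj {H : SimpleGraph V} {z x y a b : V} (hxy : x ≠ y) :
    (supp H z x y).Adj a b ↔ (H.Adj a b ∧ a ≠ z ∧ b ≠ z) ∨ s(a, b) = s(x, y) := by
  unfold supp
  rw [SimpleGraph.fromRel_adj, Sym2.eq_iff]
  constructor
  · rintro ⟨h, (h1 | h1) | (h1 | h1)⟩
    · exact Or.inl h1
    · exact Or.inr (Or.inl h1)
    · exact Or.inl ⟨h1.1.symm, h1.2.2, h1.2.1⟩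
    · exact Or.inr (Or.inr ⟨h1.2, h1.1⟩)
  · rintro (h1 | ⟨rfl, rfl⟩ | ⟨rfl, rfl⟩)
    · exact ⟨h1.1.ne, Or.inl (Or.inl h1)⟩
    · exact ⟨hxy, Or.inl (Or.inr ⟨rfl, rfl⟩)⟩
    · exact ⟨hxy.symm, Or.inr (Or.inr ⟨rfl, rfl⟩)⟩

theorem supp_adj_ne {H : SimpleGraph V} {z x y a b : V} (hzx : H.Adj z x) (hzy : H.Adj z y)
    (hxy : x ≠ y) (h : (supp H z x y).Adj a b) : a ≠ z ∧ b ≠ z := by
  rcases (supp_adj hxy).1 h with h1 | h1
  · exact h1.2
  · rw [Sym2.eq_iff] at h1
    rcases h1 with ⟨rfl, rfl⟩ | ⟨rfl, rfl⟩
    · exact ⟨hzx.ne.symm, hzy.ne.symm⟩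
    · exact ⟨hzy.ne.symm, hzx.ne.symm⟩

theorem supp_walk_ne {H : SimpleGraph V} {z x y a b : V} (hzx : H.Adj z x) (hzy : H.Adj z y)
    (hxy : x ≠ y) (p : (supp H z x y).Walk a b) (haz : a ≠ z) : z ∉ p.support := by
  induction p with
  | nil => simpa using haz.symm
  | cons h q ih =>
    rw [SimpleGraph.Walk.support_cons, List.mem_cons]
    rintro (h1 | h1)
    · exact haz h1.symm
    · exact ih (supp_adj_ne hzx hzy hxy h).2 h1

theorem lift_walk (H : SimpleGraph V) (z x y : V) (hzx : H.Adj z x) (hzy : H.Adj z y)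
    (hxy : x ≠ y) (hn : ¬ H.Adj x y) (w : Sym2 V → ℕ) {a b : V}
    (p' : (supp H z x y).Walk a b) (haz : a ≠ z) :
    ∃ p : H.Walk a b, (∀ c, c ∈ p.support ↔ c ∈ p'.support ∨ (c = z ∧ s(x, y) ∈ p'.edges)) ∧
      (∀ g, g ∈ p.edges ↔ ∃ f ∈ p'.edges, exps z x y f g) ∧
      (p.edges.map w).sum = (p'.edges.map (suppW w z x y)).sum ∧ (p'.IsPath → p.IsPath) := by
  classical
  induction p' with
  | nil => exact ⟨SimpleGraph.Walk.nil, by simp, by simp, by simp, by simp⟩
  | cons h q ih =>
    rename_i a a₁ b
    have hne := supp_adj_ne hzx hzy hxy h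
    obtain ⟨pq, h1, h2, h3, h4⟩ := ih hne.2
    have hzq := supp_walk_ne hzx hzy hxy q hne.2
    by_cases hE : s(a, a₁) = s(x, y)
    · have haz' : H.Adj a z := by
        rw [Sym2.eq_iff] at hE
        rcases hE with ⟨rfl, rfl⟩ | ⟨rfl, rfl⟩
        · exact hzx.symm
        · exact hzy.symm
      have hza' : H.Adj z a₁ := by
        rw [Sym2.eq_iff] at hE
        rcases hE with ⟨rfl, rfl⟩ | ⟨rfl, rfl⟩
        · exact hzy
        · exact hzx
      refine ⟨SimpleGraph.Walk.cons haz' (SimpleGraph.Walk.cons hza' pq), ?_, ?_, ?_, ?_⟩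
      · intro c
        simp only [SimpleGraph.Walk.support_cons, SimpleGraph.Walk.edges_cons, List.mem_cons, h1,
          hE, true_or, and_true]
        tauto
      · intro g
        simp only [SimpleGraph.Walk.edges_cons, List.mem_cons, h2, exists_eq_or_imp]
        have h5 : exps z x y s(a, a₁) g ↔ g = s(a, z) ∨ g = s(z, a₁) := by
          unfold exps
          rw [hE]
          simp only [true_and, ne_eq, not_true_eq_false, false_and, or_false]
          rw [Sym2.eq_iff] at hE
          rcases hE with ⟨rfl, rfl⟩ | ⟨rfl, rfl⟩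
          · exact Iff.rfl
          · rw [Sym2.eq_swap (a := a₁) (b := z), Sym2.eq_swap (a := z) (b := a)]
            exact or_comm
        rw [h5]
        tauto
      · simp only [SimpleGraph.Walk.edges_cons, List.map_cons, List.sum_cons, h3]
        have h5 : suppW w z x y s(a, a₁) = w s(a, z) + w s(z, a₁) := by
          unfold suppW
          rw [if_pos hE]
          rw [Sym2.eq_iff] at hE
          rcases hE with ⟨rfl, rfl⟩ | ⟨rfl, rfl⟩
          · rfl
          · rw [Sym2.eq_swap (a := a₁) (b := z), Sym2.eq_swap (a := z) (b := a), add_comm]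
        rw [h5]
        ring
      · intro hp
        rw [SimpleGraph.Walk.cons_isPath_iff] at hp
        rw [SimpleGraph.Walk.cons_isPath_iff, SimpleGraph.Walk.cons_isPath_iff]
        refine ⟨⟨h4 hp.1, ?_⟩, ?_⟩
        · rw [h1]
          rintro (h5 | ⟨-, h5⟩)
          · exact hzq h5
          · rw [← hE] at h5
            exact hp.2 (SimpleGraph.Walk.fst_mem_support_of_mem_edges _ h5)
        · rw [SimpleGraph.Walk.support_cons, List.mem_cons, h1]
          rintro (h5 | h5 | ⟨h5, -⟩)
          · exact haz h5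
          · exact hp.2 h5
          · exact haz h5
    · have hA : H.Adj a a₁ := by
        rcases (supp_adj hxy).1 h with h5 | h5
        · exact h5.1
        · exact absurd h5 hE
      refine ⟨SimpleGraph.Walk.cons hA pq, ?_, ?_, ?_, ?_⟩
      · intro c
        have hE' : s(x, y) ≠ s(a, a₁) := fun h => hE h.symm
        simp only [SimpleGraph.Walk.support_cons, SimpleGraph.Walk.edges_cons, List.mem_cons, h1,
          hE', false_or]
        tauto
      · intro g
        simp only [SimpleGraph.Walk.edges_cons, List.mem_cons, h2, exists_eq_or_imp]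
        have h5 : exps z x y s(a, a₁) g ↔ g = s(a, a₁) := by
          unfold exps
          simp [hE]
        rw [h5]
      · simp only [SimpleGraph.Walk.edges_cons, List.map_cons, List.sum_cons, h3]
        have h5 : suppW w z x y s(a, a₁) = w s(a, a₁) := by
          unfold suppW
          rw [if_neg hE]
        rw [h5]
      · intro hp
        rw [SimpleGraph.Walk.cons_isPath_iff] at hp
        rw [SimpleGraph.Walk.cons_isPath_iff]
        refine ⟨h4 hp.1, ?_⟩
        rw [h1]
        rintro (h5 | ⟨h5, -⟩)
        · exact hp.2 h5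
        · exact haz h5

theorem supp_deg [Finite V] (H : SimpleGraph V) (z x y : V) (hzx : H.Adj z x) (hzy : H.Adj z y)
    (hxy : x ≠ y) (hnb : ∀ a, H.Adj z a → a = x ∨ a = y) (hn : ¬ H.Adj x y) :
    deg (supp H z x y) z = 0 ∧ ∀ a, a ≠ z → deg (supp H z x y) a = deg H a := by
  constructor
  · unfold deg
    have : (supp H z x y).neighborSet z = ∅ := by
      ext a
      simp only [SimpleGraph.mem_neighborSet, mem_empty_iff_false, iff_false]
      intro h
      exact (supp_adj_ne hzx hzy hxy h).1 rfl
    rw [this, ncard_empty]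
  · -- the case of an end of the new edge
    have key : ∀ u v : V, H.Adj z u → u ≠ v → v ≠ z → s(u, v) = s(x, y) → ¬ H.Adj u v →
        deg (supp H z x y) u = deg H u := by
      intro u v hzu huv hvz hE hnu
      unfold deg
      have h1 : (supp H z x y).neighborSet u = insert v (H.neighborSet u \ {z}) := by
        ext b
        simp only [SimpleGraph.mem_neighborSet, mem_insert_iff, mem_sdiff, mem_singleton_iff]
        rw [supp_adj hxy, ← hE]
        constructor
        · rintro (h | h)
          · exact Or.inr ⟨h.1, h.2.2⟩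
          · rw [Sym2.eq_iff] at h
            rcases h with ⟨-, h⟩ | ⟨h, -⟩
            · exact Or.inl h
            · exact absurd h huv
        · rintro (rfl | h)
          · exact Or.inr rfl
          · exact Or.inl ⟨h.1, hzu.ne.symm, h.2⟩
      rw [h1, ncard_insert_of_notMem (fun h => hnu h.1) (Set.toFinite _),
        ncard_sdiff_singleton_of_mem (show z ∈ H.neighborSet u from hzu.symm)]
      have h2 : 0 < (H.neighborSet u).ncard :=
        (Set.ncard_pos (Set.toFinite _)).2 ⟨z, hzu.symm⟩
      omega
    intro a haz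
    by_cases hax : a = x
    · subst hax
      exact key a y hzx hxy hzy.ne.symm rfl hn
    · by_cases hay : a = y
      · subst hay
        exact key a x hzy hxy.symm hzx.ne.symm Sym2.eq_swap (fun h => hn h.symm)
      · unfold deg
        congr 1
        ext b
        simp only [SimpleGraph.mem_neighborSet]
        rw [supp_adj hxy]
        constructor
        · rintro (h | h)
          · exact h.1
          · rw [Sym2.eq_iff] at h
            rcases h with ⟨h, -⟩ | ⟨h, -⟩
            · exact absurd h hax
            · exact absurd h hay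
        · intro h
          refine Or.inl ⟨h, haz, ?_⟩
          rintro rfl
          rcases hnb a h.symm with h2 | h2
          · exact hax h2
          · exact hay h2

end Lift

end Pool.Agent.Helper83.OP
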