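import Pool.Agent.Helper83.OP.Mono

namespace Pool.Agent.Helper83.OP

open Set

theorem inner_len {V : Type} (G : SimpleGraph V) (L : ℕ)
    (hL : ∀ u v (p : G.Walk u v), p.IsPath → (∀ x ∈ p.support, deg G x = 2) →
      p.support.length ≤ L) {u v : V} (p : G.Walk u v) (hp : p.IsPath)
    (h2 : ∀ c ∈ p.support, c ≠ u → c ≠ v → deg G c = 2) : p.length ≤ L + 1 := by
  cases p with
  | nil => simp
  | @cons _ u1 _ h p' =>
    by_cases hn : p'.Nil
    · have : p'.length = 0 := SimpleGraph.Walk.length_eq_zero_iff.2 hn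
      simp [this]
    · have hp' := hp
      rw [SimpleGraph.Walk.cons_isPath_iff] at hp'
      have hdp : p'.dropLast.IsPath := hp'.1.dropLast
      have hsup : p'.dropLast.support ++ [v] = p'.support := by
        have := SimpleGraph.Walk.support_dropLast hn
        rw [this]
        exact SimpleGraph.Walk.dropLast_support_concat p'
      have hnd : (p'.dropLast.support ++ [v]).Nodup := by
        rw [hsup]; exact hp'.1.support_nodup
      have := hL _ _ p'.dropLast hdp (fun x hx => by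
        have hx' : x ∈ p'.support := by rw [← hsup]; simp [hx]
        refine h2 x (by simp [hx']) ?_ ?_
        · rintro rfl; exact hp'.2 hx'
        · rintro rfl
          rw [List.nodup_append] at hnd
          exact hnd.2.2 _ hx _ (by simp) rfl)
      have h3 : p'.dropLast.support.length = p'.dropLast.length + 1 :=
        SimpleGraph.Walk.length_support _
      have h4 := SimpleGraph.Walk.length_dropLast_add_one hn
      simp only [SimpleGraph.Walk.length_cons]
      omega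

theorem crossRel_symm {V : Type} (γ : Sym2 V → ℝ → ℝ × ℝ) (f f' : Sym2 V) (h : CrossRel γ f f') :
    CrossRel γ f' f := ⟨h.1.symm, h.2.imp fun _ hp => ⟨hp.2, hp.1⟩⟩

theorem partner_le {V : Type} [Finite V] (G : SimpleGraph V) (e0 : Sym2 V)
    (γ : Sym2 V → ℝ → ℝ × ℝ)
    (hc : ∀ e ∈ (G.deleteEdges {e0}).edgeSet,
      (crossSet (G.deleteEdges {e0}) γ e).encard ≤ ((1 : ℕ) : ℕ∞)) (f : Sym2 V)
    (hf : f ∈ G.edgeSet) (hf0 : f ≠ e0) :
    {f' | f' ∈ G.edgeSet ∧ f' ≠ e0 ∧ CrossRel γ f f'}.ncard ≤ 1 := by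
  rw [Set.ncard_le_one_iff]
  rintro f' f'' ⟨h1, h2, h3, p, hp, hp'⟩ ⟨h1', h2', h3', q, hq, hq'⟩
  have hmem : ∀ g, g ∈ G.edgeSet → g ≠ e0 → g ∈ (G.deleteEdges {e0}).edgeSet := by
    intro g hg hg0
    rw [SimpleGraph.edgeSet_deleteEdges]
    exact ⟨hg, by simpa using hg0⟩
  have := hc f (hmem f hf hf0)
  rw [Nat.cast_one, Set.encard_le_one_iff] at this
  have h := this (f', p) (f'', q) ⟨hmem _ h1 h2, h3.symm, hp, hp'⟩ ⟨hmem _ h1' h2', h3'.symm, hq, hq'⟩
  exact (Prod.ext_iff.1 h).1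

theorem deg_mono {V : Type} [Finite V] {H G : SimpleGraph V} (h : H ≤ G) (v : V) :
    deg H v ≤ deg G v := by
  unfold deg
  exact Set.ncard_le_ncard (fun x hx => h hx) (Set.toFinite _)

theorem main_of
    (good_pair : ∀ (W : ℕ), ∃ B D : ℕ, ∀ (V : Type) [Finite V] (H : SimpleGraph V) (e : Sym2 V)
    (X : Sym2 V → Sym2 V → Prop) (w : Sym2 V → ℕ), e ∈ H.edgeSet → (∀ f f', X f f' → X f' f) →
    (∀ f ∈ H.edgeSet, f ≠ e → {f' | f' ∈ H.edgeSet ∧ f' ≠ e ∧ X f f'}.ncard ≤ w f) →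
    PlanarLike (H.deleteEdges {e}) X → (∀ v, deg H v ≠ 1) →
    (∀ u v (p : H.Walk u v), p.IsPath → (∀ c ∈ p.support, c ≠ u → c ≠ v → deg H c = 2) →
      (p.edges.map w).sum ≤ W) → GoodPair H D B w)
    (planarLike_of_drawing : ∀ {V : Type} [Finite V] (H : SimpleGraph V) (pos : V → ℝ × ℝ)
    (γ : Sym2 V → ℝ → ℝ × ℝ) (_ : IsDrawing H pos γ), PlanarLike H (CrossRel γ))
    (aug : ∀ {V : Type} [Finite V] (H : SimpleGraph V) (_ : KPl 1 H) (u v : V) (_ : u ≠ v)
    (Q : H.Walk u v) (_ : Q.IsPath) (ℓ D : ℕ) (_ : Q.length ≤ ℓ)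
    (_ : ∀ x ∈ Q.support, x ≠ u → x ≠ v → deg H x ≤ D), Aug H u v (4 * ℓ * (D + 4)))
    (insert_thread : ∀ {V : Type} [Finite V] (G : SimpleGraph V) (u v : V) (_ : u ≠ v)
    (T : G.Walk u v) (_ : T.IsPath) (_ : ∀ x ∈ T.support, x ≠ u → x ≠ v → deg G x = 2) (k : ℕ)
    (_ : Aug (G.deleteEdges {f | f ∈ T.edges}) u v k), KPl (max 9 k) G)
    (pendant : ∀ {V : Type} [Finite V] (G : SimpleGraph V) (v w : V) (_ : G.Adj v w)
    (_ : deg G v = 1) (_ : KPl 1 (G.deleteEdges {s(v, w)})), KPl 1 G)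
    (L : ℕ) : ∃ k : ℕ, ∀ (V : Type) [Fintype V] (G : SimpleGraph V), ¬ KPl 1 G →
    (∀ e ∈ G.edgeSet, KPl 1 (G.deleteEdges {e})) →
    (∀ u v (p : G.Walk u v), p.IsPath → (∀ x ∈ p.support, deg G x = 2) →
      p.support.length ≤ L) → KPl k G := by
  obtain ⟨B, D, hgp⟩ := good_pair (L + 1)
  refine ⟨max 9 (4 * B * (D + 4)), fun V _ G h1 hcrit hL => ?_⟩
  have hne : ∃ e0, e0 ∈ G.edgeSet := by
    by_contra hcon
    push Not at hcon
    have : G = ⊥ := by
      rw [← SimpleGraph.edgeSet_eq_empty]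
      exact Set.eq_empty_of_forall_notMem hcon
    exact h1 (this ▸ kpl_bot 1)
  obtain ⟨e0, he0⟩ := hne
  have hdeg : ∀ v, deg G v ≠ 1 := by
    intro v hv
    have hv' := hv
    unfold deg at hv'
    rw [Set.ncard_eq_one] at hv'
    obtain ⟨w, hw⟩ := hv'
    have hvw : G.Adj v w := by
      have : w ∈ G.neighborSet v := by rw [hw]; rfl
      exact this
    exact h1 (pendant G v w hvw hv (hcrit _ hvw))
  obtain ⟨pos, γ, hd, hc⟩ := hcrit e0 he0
  obtain ⟨u, v, T, Q, huv, hT, hQ, hTQ, hsup, hT2, hQD, hB⟩ := hgp V G e0 (CrossRel γ)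
    (fun _ => 1) he0 (crossRel_symm γ) (fun f hf hf0 => partner_le G e0 γ hc f hf hf0)
    (planarLike_of_drawing _ pos γ hd) hdeg
    (fun u v p hp h2 => by
      have := inner_len G L hL p hp h2
      simpa using this)
  have hT0 : T.edges ≠ [] := by
    intro h
    have hl : T.length = 0 := by rw [← SimpleGraph.Walk.length_edges, h]; rfl
    exact huv (SimpleGraph.Walk.eq_of_length_eq_zero hl)
  obtain ⟨e, he⟩ := List.exists_mem_of_ne_nil _ hT0
  have hk1 : KPl 1 (G.deleteEdges {f | f ∈ T.edges}) :=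
    (hcrit e (SimpleGraph.Walk.edges_subset_edgeSet T he)).mono (by
      apply SimpleGraph.deleteEdges_anti
      simpa using he)
  have hQe : ∀ f ∈ Q.edges, f ∈ (G.deleteEdges {f | f ∈ T.edges}).edgeSet := by
    intro f hf
    rw [SimpleGraph.edgeSet_deleteEdges]
    exact ⟨SimpleGraph.Walk.edges_subset_edgeSet Q hf, fun h => hTQ f h hf⟩
  refine insert_thread G u v huv T hT hT2 _ (aug _ hk1 u v huv (Q.transfer _ hQe)
    (hQ.transfer hQe) B D ?_ ?_)
  · rw [SimpleGraph.Walk.length_transfer]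
    simpa using hB
  · intro x hx hxu hxv
    rw [SimpleGraph.Walk.support_transfer] at hx
    exact (deg_mono (SimpleGraph.deleteEdges_le _) x).trans (hQD x hx hxu hxv)

end Pool.Agent.Helper83.OP
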