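import Pool.Agent.Helper83.OP.Inc

/-!
# OP-02: the graphs K5 and K33 have no drawing without crossings of disjoint edges
-/

namespace Pool.Agent.Helper83.OP

open Set

private theorem inc_neg {g : ℝ → ℂ} {x : ℝ} (h : IsInc g x) : IsInc (fun t => - g t) x := by
  obtain ⟨θ, h1, h2, h3⟩ := h
  refine ⟨fun t => θ t + Real.pi, h1.add continuousOn_const, fun t ht => ?_, by rw [← h3]; ring⟩
  rw [norm_neg]
  push_cast
  rw [add_mul, Complex.exp_add, Complex.exp_pi_mul_I]
  nth_rewrite 1 [h2 t ht]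
  ring

private theorem inc_ends {g : ℝ → ℂ} {x : ℝ} (h : IsInc g x) (h0 : g 0 ≠ 0) (h1 : g 1 ≠ 0)
    {A B : ℝ} (hA : g 0 = (‖g 0‖ : ℂ) * Complex.exp ((A : ℂ) * Complex.I))
    (hB : g 1 = (‖g 1‖ : ℂ) * Complex.exp ((B : ℂ) * Complex.I)) :
    ∃ n : ℤ, x = B - A + 2 * Real.pi * n := by
  obtain ⟨θ, -, h2, h3⟩ := h
  have key : ∀ t ∈ Icc (0 : ℝ) 1, g t ≠ 0 → ∀ C : ℝ,
      g t = (‖g t‖ : ℂ) * Complex.exp ((C : ℂ) * Complex.I) →
      ∃ n : ℤ, θ t - C = n * (2 * Real.pi) := by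
    intro t ht hne C hC
    have h4 : (‖g t‖ : ℂ) ≠ 0 := by
      rw [Complex.ofReal_ne_zero]
      exact norm_ne_zero_iff.2 hne
    have h5 : (‖g t‖ : ℂ) * Complex.exp ((θ t : ℂ) * Complex.I) =
        (‖g t‖ : ℂ) * Complex.exp ((C : ℂ) * Complex.I) := by
      rw [← h2 t ht, ← hC]
    obtain ⟨n, hn⟩ := Complex.exp_eq_exp_iff_exists_int.1 (mul_left_cancel₀ h4 h5)
    refine ⟨n, ?_⟩
    have h6 := congrArg Complex.im hn
    simp at h6
    linarith
  obtain ⟨m, hm⟩ := key 0 ⟨le_refl _, zero_le_one⟩ h0 A hA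
  obtain ⟨n, hn⟩ := key 1 ⟨zero_le_one, le_refl _⟩ h1 B hB
  refine ⟨n - m, ?_⟩
  push_cast
  linarith

/-- sign for the order of two nodes -/
private def sgn (x y : ℕ) : ℤ := if x < y then -1 else 1

private theorem nsys {N : Type} (ρ : N → ℕ) (hρ : Function.Injective ρ) (c : N → ℂ)
    (E : N → N → Prop) (γ : N → N → ℝ → ℂ)
    (hc : ∀ x y, E x y → ContinuousOn (γ x y) (Icc 0 1))
    (h0 : ∀ x y, E x y → γ x y 0 = c x) (h1 : ∀ x y, E x y → γ x y 1 = c y)
    (hv : ∀ x y, E x y → ∀ v, v ≠ x → v ≠ y → ∀ s ∈ Icc (0 : ℝ) 1, γ x y s ≠ c v)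
    (hd : ∀ x y z w, E x y → E z w → x ≠ z → x ≠ w → y ≠ z → y ≠ w →
      ∀ s ∈ Icc (0 : ℝ) 1, ∀ t ∈ Icc (0 : ℝ) 1, γ x y s ≠ γ z w t) :
    ∃ n : N → N → N → ℤ, ∀ x y z w, E x y → E z w → x ≠ z → x ≠ w → y ≠ z → y ≠ w →
      2 * (n z x y + n y z w - n x z w - n w x y) =
        sgn (ρ x) (ρ w) - sgn (ρ x) (ρ z) - sgn (ρ y) (ρ w) + sgn (ρ y) (ρ z) := by
  set A : N → N → ℝ := fun x y =>
    if ρ x < ρ y then Complex.arg (c y - c x) else Complex.arg (c x - c y) + Real.pi with hA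
  have hAarg : ∀ x y, c y - c x = (‖c y - c x‖ : ℂ) * Complex.exp ((A x y : ℂ) * Complex.I) := by
    intro x y
    simp only [hA]
    split_ifs with h
    · rw [Complex.norm_mul_exp_arg_mul_I]
    · push_cast
      rw [add_mul, Complex.exp_add, Complex.exp_pi_mul_I, ← mul_assoc, norm_sub_rev,
        Complex.norm_mul_exp_arg_mul_I]
      ring
  have hAsg : ∀ x y, x ≠ y → A x y - A y x = Real.pi * sgn (ρ x) (ρ y) := by
    intro x y hxy
    have hne : ρ x ≠ ρ y := fun h => hxy (hρ h)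
    simp only [hA, sgn]
    rcases lt_or_gt_of_ne hne with h | h
    · rw [if_pos h, if_neg (by omega), if_pos h]
      push_cast
      ring
    · rw [if_neg (by omega), if_pos h, if_neg (by omega)]
      push_cast
      ring
  have m0 : (0 : ℝ) ∈ Icc (0 : ℝ) 1 := ⟨le_refl _, zero_le_one⟩
  have m1 : (1 : ℝ) ∈ Icc (0 : ℝ) 1 := ⟨zero_le_one, le_refl _⟩
  have hn : ∀ v x y, ∃ n : ℤ, E x y → v ≠ x → v ≠ y →
      IsInc (fun s => γ x y s - c v) (A v y - A v x + 2 * Real.pi * n) := by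
    intro v x y
    by_cases h : E x y ∧ v ≠ x ∧ v ≠ y
    · obtain ⟨hE, hx, hy⟩ := h
      have hne : ∀ s ∈ Icc (0 : ℝ) 1, γ x y s - c v ≠ 0 := fun s hs =>
        sub_ne_zero.2 (hv x y hE v hx hy s hs)
      obtain ⟨u, hu⟩ := inc_exists (fun s => γ x y s - c v) ((hc x y hE).sub continuousOn_const) hne
      obtain ⟨n, hn⟩ := inc_ends hu (hne 0 m0) (hne 1 m1) (A := A v x) (B := A v y)
        (by rw [h0 x y hE]; exact hAarg v x)
        (by rw [h1 x y hE]; exact hAarg v y)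
      refine ⟨n, fun _ _ _ => ?_⟩
      rw [← hn]
      exact hu
    · exact ⟨0, fun a b c => absurd ⟨a, b, c⟩ h⟩
  choose n hn using hn
  refine ⟨n, ?_⟩
  intro x y z w hxy hzw hxz hxw hyz hyw
  have e1 := hn z x y hxy hxz.symm hyz.symm
  have e2 := hn y z w hzw hyz hyw
  have e3 := hn x z w hzw hxz hxw
  have e4 := hn w x y hxy hxw.symm hyw.symm
  have hsq := inc_square (fun s t => γ z w t - γ x y s)
    (((hc z w hzw).comp continuousOn_snd (fun p hp => hp.2)).sub
      ((hc x y hxy).comp continuousOn_fst (fun p hp => hp.1)))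
    (fun s hs t ht => sub_ne_zero.2 (hd x y z w hxy hzw hxz hxw hyz hyw s hs t ht).symm)
    _ _ _ _
    (by
      have := inc_neg e1
      simp only [neg_sub] at this
      simpa only [h0 z w hzw] using this)
    (by simpa only [h1 x y hxy] using e2)
    (by
      have := inc_neg e4
      simp only [neg_sub] at this
      simpa only [h1 z w hzw] using this)
    (by simpa only [h0 x y hxy] using e3)
  have s1 := hAsg x w hxw
  have s2 := hAsg x z hxz
  have s3 := hAsg y w hyw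
  have s4 := hAsg y z hyz
  have hpi : Real.pi ≠ 0 := Real.pi_ne_zero
  have hfin : Real.pi * (2 * (n z x y + n y z w - n x z w - n w x y) : ℝ) =
      Real.pi * (sgn (ρ x) (ρ w) - sgn (ρ x) (ρ z) - sgn (ρ y) (ρ w) + sgn (ρ y) (ρ z) : ℝ) := by
    linear_combination hsq + s1 - s2 - s3 + s4
  have h5 := mul_left_cancel₀ hpi hfin
  exact_mod_cast h5

theorem no_K5 (c : Fin 5 → ℂ) (γ : Fin 5 → Fin 5 → ℝ → ℂ)
    (hc : ∀ i j, i < j → ContinuousOn (γ i j) (Icc 0 1))
    (h0 : ∀ i j, i < j → γ i j 0 = c i) (h1 : ∀ i j, i < j → γ i j 1 = c j)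
    (hd : ∀ i j k l, i < j → k < l → i ≠ k → i ≠ l → j ≠ k → j ≠ l →
      ∀ s ∈ Icc (0 : ℝ) 1, ∀ t ∈ Icc (0 : ℝ) 1, γ i j s ≠ γ k l t) : False := by
  have m0 : (0 : ℝ) ∈ Icc (0 : ℝ) 1 := ⟨le_refl _, zero_le_one⟩
  have m1 : (1 : ℝ) ∈ Icc (0 : ℝ) 1 := ⟨zero_le_one, le_refl _⟩
  have hex : ∀ x y v : Fin 5, ∃ w, w ≠ x ∧ w ≠ y ∧ w ≠ v := by decide
  obtain ⟨n, key⟩ := nsys (fun i : Fin 5 => (i : ℕ)) Fin.val_injective c (fun i j => i < j) γ hc h0 h1
    (by
      intro x y hxy v hvx hvy s hs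
      obtain ⟨w, hwx, hwy, hwv⟩ := hex x y v
      rcases lt_or_gt_of_ne hwv with h | h
      · have := hd x y w v hxy h hwx.symm hvx.symm hwy.symm hvy.symm s hs 1 m1
        rw [h1 w v h] at this
        exact this
      · have := hd x y v w hxy h hvx.symm hwx.symm hvy.symm hwy.symm s hs 0 m0
        rw [h0 v w h] at this
        exact this)
    (fun x y z w hxy hzw a b c d => hd x y z w hxy hzw a b c d)
  have e0 := (key 0 1 2 3 (by decide) (by decide) (by decide) (by decide) (by decide)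
    (by decide)).trans (c := (0 : ℤ)) (by decide)
  have e1 := (key 0 1 2 4 (by decide) (by decide) (by decide) (by decide) (by decide)
    (by decide)).trans (c := (0 : ℤ)) (by decide)
  have e2 := (key 0 1 3 4 (by decide) (by decide) (by decide) (by decide) (by decide)
    (by decide)).trans (c := (0 : ℤ)) (by decide)
  have e3 := (key 0 2 1 3 (by decide) (by decide) (by decide) (by decide) (by decide)
    (by decide)).trans (c := (2 : ℤ)) (by decide)
  have e4 := (key 0 2 1 4 (by decide) (by decide) (by decide) (by decide) (by decide)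
    (by decide)).trans (c := (2 : ℤ)) (by decide)
  have e5 := (key 0 2 3 4 (by decide) (by decide) (by decide) (by decide) (by decide)
    (by decide)).trans (c := (0 : ℤ)) (by decide)
  have e6 := (key 0 3 1 2 (by decide) (by decide) (by decide) (by decide) (by decide)
    (by decide)).trans (c := (0 : ℤ)) (by decide)
  have e7 := (key 0 3 1 4 (by decide) (by decide) (by decide) (by decide) (by decide)
    (by decide)).trans (c := (2 : ℤ)) (by decide)
  have e8 := (key 0 3 2 4 (by decide) (by decide) (by decide) (by decide) (by decide)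
    (by decide)).trans (c := (2 : ℤ)) (by decide)
  have e9 := (key 0 4 1 2 (by decide) (by decide) (by decide) (by decide) (by decide)
    (by decide)).trans (c := (0 : ℤ)) (by decide)
  have e10 := (key 0 4 1 3 (by decide) (by decide) (by decide) (by decide) (by decide)
    (by decide)).trans (c := (0 : ℤ)) (by decide)
  have e11 := (key 0 4 2 3 (by decide) (by decide) (by decide) (by decide) (by decide)
    (by decide)).trans (c := (0 : ℤ)) (by decide)
  have e12 := (key 1 2 3 4 (by decide) (by decide) (by decide) (by decide) (by decide)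
    (by decide)).trans (c := (0 : ℤ)) (by decide)
  have e13 := (key 1 3 2 4 (by decide) (by decide) (by decide) (by decide) (by decide)
    (by decide)).trans (c := (2 : ℤ)) (by decide)
  have e14 := (key 1 4 2 3 (by decide) (by decide) (by decide) (by decide) (by decide)
    (by decide)).trans (c := (0 : ℤ)) (by decide)
  omega

theorem no_K33 (a b : Fin 3 → ℂ) (γ : Fin 3 → Fin 3 → ℝ → ℂ)
    (hc : ∀ i j, ContinuousOn (γ i j) (Icc 0 1))
    (h0 : ∀ i j, γ i j 0 = a i) (h1 : ∀ i j, γ i j 1 = b j)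
    (hd : ∀ i j k l, i ≠ k → j ≠ l →
      ∀ s ∈ Icc (0 : ℝ) 1, ∀ t ∈ Icc (0 : ℝ) 1, γ i j s ≠ γ k l t) : False := by
  have m0 : (0 : ℝ) ∈ Icc (0 : ℝ) 1 := ⟨le_refl _, zero_le_one⟩
  have m1 : (1 : ℝ) ∈ Icc (0 : ℝ) 1 := ⟨zero_le_one, le_refl _⟩
  have hex : ∀ x : Fin 3, ∃ w, w ≠ x := by decide
  let γ' : Fin 3 ⊕ Fin 3 → Fin 3 ⊕ Fin 3 → ℝ → ℂ := fun x y =>
    Sum.elim (fun i => Sum.elim (fun _ => fun _ => 0) (fun j => γ i j) y) (fun _ => fun _ => 0) x
  let E : Fin 3 ⊕ Fin 3 → Fin 3 ⊕ Fin 3 → Prop := fun x y => ∃ i j, x = Sum.inl i ∧ y = Sum.inr j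
  obtain ⟨n, key'⟩ := nsys (Sum.elim (fun i : Fin 3 => 2 * (i : ℕ)) (fun j : Fin 3 => 2 * (j : ℕ) + 1))
    (by
      rintro (x | x) (y | y) h
      · simp only [Sum.elim_inl] at h
        congr 1
        ext
        omega
      · simp only [Sum.elim_inl, Sum.elim_inr] at h
        omega
      · simp only [Sum.elim_inl, Sum.elim_inr] at h
        omega
      · simp only [Sum.elim_inr] at h
        congr 1
        ext
        omega)
    (Sum.elim a b) E γ'
    (by
      rintro _ _ ⟨i, j, rfl, rfl⟩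
      exact hc i j)
    (by
      rintro _ _ ⟨i, j, rfl, rfl⟩
      exact h0 i j)
    (by
      rintro _ _ ⟨i, j, rfl, rfl⟩
      exact h1 i j)
    (by
      rintro _ _ ⟨i, j, rfl, rfl⟩ (v | v) hv1 hv2 s hs
      · obtain ⟨l, hl⟩ := hex j
        have hvi : i ≠ v := fun h => hv1 (by rw [h])
        have := hd i j v l hvi hl.symm s hs 0 m0
        rw [h0] at this
        exact this
      · obtain ⟨k, hk⟩ := hex i
        have hvj : j ≠ v := fun h => hv2 (by rw [h])
        have := hd i j k v hk.symm hvj s hs 1 m1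
        rw [h1] at this
        exact this)
    (by
      rintro _ _ _ _ ⟨i, j, rfl, rfl⟩ ⟨k, l, rfl, rfl⟩ hik _ _ hjl s hs t ht
      exact hd i j k l (fun h => hik (by rw [h])) (fun h => hjl (by rw [h])) s hs t ht)
  have key : ∀ i j k l : Fin 3, i ≠ k → j ≠ l →
      2 * (n (Sum.inl k) (Sum.inl i) (Sum.inr j) + n (Sum.inr j) (Sum.inl k) (Sum.inr l) -
        n (Sum.inl i) (Sum.inl k) (Sum.inr l) - n (Sum.inr l) (Sum.inl i) (Sum.inr j)) =
        sgn (2 * (i : ℕ)) (2 * (l : ℕ) + 1) - sgn (2 * (i : ℕ)) (2 * (k : ℕ)) -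
          sgn (2 * (j : ℕ) + 1) (2 * (l : ℕ) + 1) + sgn (2 * (j : ℕ) + 1) (2 * (k : ℕ)) := by
    intro i j k l hik hjl
    exact key' (Sum.inl i) (Sum.inr j) (Sum.inl k) (Sum.inr l) ⟨i, j, rfl, rfl⟩ ⟨k, l, rfl, rfl⟩
      (fun h => hik (Sum.inl_injective h)) (by simp) (by simp) (fun h => hjl (Sum.inr_injective h))
  have e0 := (key 0 0 1 1 (by decide) (by decide)).trans (c := (0 : ℤ)) (by decide)
  have e1 := (key 0 0 1 2 (by decide) (by decide)).trans (c := (0 : ℤ)) (by decide)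
  have e2 := (key 0 0 2 1 (by decide) (by decide)).trans (c := (0 : ℤ)) (by decide)
  have e3 := (key 0 0 2 2 (by decide) (by decide)).trans (c := (0 : ℤ)) (by decide)
  have e4 := (key 0 1 1 0 (by decide) (by decide)).trans (c := (0 : ℤ)) (by decide)
  have e5 := (key 0 1 1 2 (by decide) (by decide)).trans (c := (2 : ℤ)) (by decide)
  have e6 := (key 0 1 2 0 (by decide) (by decide)).trans (c := (-2 : ℤ)) (by decide)
  have e7 := (key 0 1 2 2 (by decide) (by decide)).trans (c := (0 : ℤ)) (by decide)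
  have e8 := (key 0 2 1 0 (by decide) (by decide)).trans (c := (0 : ℤ)) (by decide)
  have e9 := (key 0 2 1 1 (by decide) (by decide)).trans (c := (0 : ℤ)) (by decide)
  have e10 := (key 0 2 2 0 (by decide) (by decide)).trans (c := (0 : ℤ)) (by decide)
  have e11 := (key 0 2 2 1 (by decide) (by decide)).trans (c := (0 : ℤ)) (by decide)
  have e12 := (key 1 0 2 1 (by decide) (by decide)).trans (c := (0 : ℤ)) (by decide)
  have e13 := (key 1 0 2 2 (by decide) (by decide)).trans (c := (0 : ℤ)) (by decide)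
  have e14 := (key 1 1 2 0 (by decide) (by decide)).trans (c := (0 : ℤ)) (by decide)
  have e15 := (key 1 1 2 2 (by decide) (by decide)).trans (c := (0 : ℤ)) (by decide)
  have e16 := (key 1 2 2 0 (by decide) (by decide)).trans (c := (2 : ℤ)) (by decide)
  have e17 := (key 1 2 2 1 (by decide) (by decide)).trans (c := (0 : ℤ)) (by decide)
  omega

end Pool.Agent.Helper83.OP
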