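import Pool.Agent.Helper83.OP.Defs

/-!
# OP-22: scaling a plane multigraph
-/

namespace Pool.Agent.Helper83.OP

open Set

private theorem scaled_unif {ι : Type} [Finite ι] (P : ι → ℝ → Prop)
    (hmono : ∀ a x y, 0 < x → x ≤ y → P a y → P a x) (h : ∀ a, ∃ e, 0 < e ∧ P a e) :
    ∃ e, 0 < e ∧ ∀ a, P a e := by
  choose f hf hP using h
  rcases isEmpty_or_nonempty ι with h0 | h0
  · exact ⟨1, one_pos, fun a => (h0.false a).elim⟩
  · obtain ⟨a0, ha0⟩ := Finite.exists_min f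
    exact ⟨f a0, hf a0, fun a => hmono a _ _ (hf a0) (ha0 a) (hP a)⟩

private theorem scaled_dist_le {p q : ℝ × ℝ} {r : ℝ} (h1 : |p.1 - q.1| ≤ r)
    (h2 : |p.2 - q.2| ≤ r) : dist p q ≤ r := by
  rw [Prod.dist_eq, Real.dist_eq, Real.dist_eq]
  exact max_le h1 h2

private theorem scaled_of_dist {p q : ℝ × ℝ} {r : ℝ} (h : dist p q ≤ r) :
    |p.1 - q.1| ≤ r ∧ |p.2 - q.2| ≤ r := by
  rw [Prod.dist_eq, Real.dist_eq, Real.dist_eq] at h
  exact max_le_iff.1 h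

/-- one coordinate: a cell of the scaled interval is close to the centre -/
private theorem scaled_coord {x d y : ℝ} {n : ℕ} {k : ℤ} (hd : 0 < d) (hn : 0 < n)
    (h0 : (⌊x / d⌋ - 1) * (n : ℤ) ≤ k) (h1 : k < (⌊x / d⌋ + 2) * (n : ℤ))
    (hy : (k : ℝ) ≤ y) (hy' : y ≤ k + 1) : |d / n * y - x| ≤ 2 * d := by
  have hn' : (0 : ℝ) < n := by exact_mod_cast hn
  have hf1 := Int.floor_le (x / d)
  have hf2 := Int.lt_floor_add_one (x / d)
  rw [le_div_iff₀ hd] at hf1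
  rw [div_lt_iff₀ hd] at hf2
  have e0 : ((⌊x / d⌋ : ℝ) - 1) * n ≤ k := by exact_mod_cast h0
  have e1 : (k : ℝ) + 1 ≤ ((⌊x / d⌋ : ℝ) + 2) * n := by exact_mod_cast h1
  have g0 : ((⌊x / d⌋ : ℝ) - 1) * d ≤ d / n * y := by
    calc ((⌊x / d⌋ : ℝ) - 1) * d = d / n * (((⌊x / d⌋ : ℝ) - 1) * n) := by field_simp
      _ ≤ d / n * y := mul_le_mul_of_nonneg_left (e0.trans hy) (by positivity)
  have g1 : d / n * y ≤ ((⌊x / d⌋ : ℝ) + 2) * d := by
    calc d / n * y ≤ d / n * (((⌊x / d⌋ : ℝ) + 2) * n) :=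
          mul_le_mul_of_nonneg_left (hy'.trans e1) (by positivity)
      _ = ((⌊x / d⌋ : ℝ) + 2) * d := by field_simp
  rw [abs_le]
  constructor <;> nlinarith

/-- one coordinate: a point near the centre is in a cell of the scaled interval -/
private theorem scaled_coord' {x d y : ℝ} {n : ℕ} (hd : 0 < d) (hn : 0 < n)
    (hxy : |y - x| ≤ d) :
    (⌊x / d⌋ - 1) * (n : ℤ) ≤ ⌊y / (d / n)⌋ ∧ ⌊y / (d / n)⌋ < (⌊x / d⌋ + 2) * (n : ℤ) := by
  have hn' : (0 : ℝ) < n := by exact_mod_cast hn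
  have hf1 := Int.floor_le (x / d)
  have hf2 := Int.lt_floor_add_one (x / d)
  rw [le_div_iff₀ hd] at hf1
  rw [div_lt_iff₀ hd] at hf2
  rw [abs_le] at hxy
  constructor
  · rw [Int.le_floor]
    push_cast
    rw [le_div_iff₀ (by positivity)]
    calc ((⌊x / d⌋ : ℝ) - 1) * n * (d / n) = ((⌊x / d⌋ : ℝ) - 1) * d := by field_simp
      _ ≤ y := by nlinarith
  · rw [Int.floor_lt]
    push_cast
    rw [div_lt_iff₀ (by positivity)]
    calc y < ((⌊x / d⌋ : ℝ) + 2) * d := by nlinarith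
      _ = ((⌊x / d⌋ : ℝ) + 2) * n * (d / n) := by field_simp

variable {J I : Type} {src tgt : I → J}

/-- T0a -/
theorem scaled [Finite J] [Finite I] (P : PG J I src tgt) :
    ∃ (x0 x1 y0 y1 : J → ℤ) (M : I → Set (ℝ × ℝ)), (∀ j, x0 j < x1 j) ∧ (∀ j, y0 j < y1 j) ∧
      (∀ j j', j ≠ j' → ∀ c ∈ block (x0 j) (x1 j) (y0 j) (y1 j),
        ∀ c' ∈ block (x0 j') (x1 j') (y0 j') (y1 j'), Disjoint (cell c) (cell c')) ∧
      (∀ i, IsPreconnected (M i)) ∧ (∀ i, Bornology.IsBounded (M i)) ∧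
      (∀ i, ∃ c ∈ block (x0 (src i)) (x1 (src i)) (y0 (src i)) (y1 (src i)),
        (cell c ∩ M i).Nonempty) ∧
      (∀ i, ∃ c ∈ block (x0 (tgt i)) (x1 (tgt i)) (y0 (tgt i)) (y1 (tgt i)),
        (cell c ∩ M i).Nonempty) ∧
      (∀ i j, j ≠ src i → j ≠ tgt i → ∀ c ∈ block (x0 j) (x1 j) (y0 j) (y1 j),
        Disjoint (cell c) (M i)) ∧
      (∀ i i', i ≠ i' → ∀ c, (cell c ∩ M i).Nonempty → ¬ (cell c ∩ M i').Nonempty) := by
  choose γ hcont hinj h0 h1 himg using P.isArc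
  have hcomp : ∀ i, IsCompact (P.arc i) := by
    intro i
    rw [← himg i]
    exact isCompact_Icc.image_of_continuousOn (hcont i)
  -- separation of the nodes
  obtain ⟨ε1, hε1, hsep1⟩ : ∃ e : ℝ, 0 < e ∧ ∀ a : J × J, a.1 ≠ a.2 →
      e ≤ dist (P.pos a.1) (P.pos a.2) := by
    refine scaled_unif (fun (a : J × J) e => a.1 ≠ a.2 → e ≤ dist (P.pos a.1) (P.pos a.2)) ?_ ?_
    · intro a x y _ hxy h hne
      exact hxy.trans (h hne)
    · intro a
      by_cases hne : a.1 = a.2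
      · exact ⟨1, one_pos, fun h => absurd hne h⟩
      · exact ⟨_, dist_pos.2 (fun h => hne (P.pos_inj h)), fun _ => le_rfl⟩
  -- separation of nodes and arcs
  obtain ⟨ε2, hε2, hsep2⟩ : ∃ e : ℝ, 0 < e ∧ ∀ a : I × J, a.2 ≠ src a.1 → a.2 ≠ tgt a.1 →
      ∀ p ∈ P.arc a.1, e ≤ dist p (P.pos a.2) := by
    refine scaled_unif (fun (a : I × J) e => a.2 ≠ src a.1 → a.2 ≠ tgt a.1 →
      ∀ p ∈ P.arc a.1, e ≤ dist p (P.pos a.2)) ?_ ?_
    · intro a x y _ hxy h h1 h2 p hp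
      exact hxy.trans (h h1 h2 p hp)
    · intro a
      by_cases ha : P.pos a.2 ∈ P.arc a.1
      · refine ⟨1, one_pos, fun h1 h2 => ?_⟩
        rcases P.nodes a.1 a.2 ha with h | h
        · exact absurd h h1
        · exact absurd h h2
      · have hopen : IsOpen (P.arc a.1)ᶜ := (hcomp a.1).isClosed.isOpen_compl
        obtain ⟨e, he, hball⟩ := Metric.isOpen_iff.1 hopen _ ha
        refine ⟨e, he, fun _ _ p hp => ?_⟩
        by_contra hlt
        push Not at hlt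
        exact hball (Metric.mem_ball.2 hlt) hp
  -- the coarse scale
  obtain ⟨d, hd, hd1, hd2⟩ : ∃ d : ℝ, 0 < d ∧ 4 * d < ε1 ∧ 2 * d < ε2 := by
    refine ⟨min ε1 ε2 / 8, by positivity, ?_, ?_⟩
    · have := min_le_left ε1 ε2
      linarith
    · have := min_le_right ε1 ε2
      linarith
  -- the cut times
  have hcut0 : ∀ i, ∃ s : ℝ, 0 < s ∧ s < 1 / 2 ∧ dist (γ i s) (P.pos (src i)) ≤ d := by
    intro i
    have hc : ContinuousWithinAt (γ i) (Icc 0 1) 0 :=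
      hcont i 0 ⟨le_rfl, zero_le_one⟩
    obtain ⟨δ, hδ, hlim⟩ := Metric.continuousWithinAt_iff.1 hc d hd
    have hs0 : 0 < min (δ / 2) (1 / 4) := by positivity
    have hs1 : min (δ / 2) (1 / 4) ≤ 1 / 4 := min_le_right _ _
    have hs2 : min (δ / 2) (1 / 4) ≤ δ / 2 := min_le_left _ _
    refine ⟨min (δ / 2) (1 / 4), hs0, by linarith, ?_⟩
    have hs : min (δ / 2) (1 / 4) ∈ Icc (0 : ℝ) 1 := ⟨hs0.le, by linarith⟩
    have h2 : dist (min (δ / 2) (1 / 4)) 0 < δ := by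
      rw [Real.dist_eq, sub_zero, abs_of_pos hs0]
      linarith
    have := hlim hs h2
    rw [h0 i] at this
    exact this.le
  have hcut1 : ∀ i, ∃ t : ℝ, 1 / 2 < t ∧ t < 1 ∧ dist (γ i t) (P.pos (tgt i)) ≤ d := by
    intro i
    have hc : ContinuousWithinAt (γ i) (Icc 0 1) 1 :=
      hcont i 1 ⟨zero_le_one, le_rfl⟩
    obtain ⟨δ, hδ, hlim⟩ := Metric.continuousWithinAt_iff.1 hc d hd
    have hs0 : 0 < min (δ / 2) (1 / 4) := by positivity
    have hs1 : min (δ / 2) (1 / 4) ≤ 1 / 4 := min_le_right _ _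
    have hs2 : min (δ / 2) (1 / 4) ≤ δ / 2 := min_le_left _ _
    refine ⟨1 - min (δ / 2) (1 / 4), by linarith, by linarith, ?_⟩
    have hs : 1 - min (δ / 2) (1 / 4) ∈ Icc (0 : ℝ) 1 := ⟨by linarith, by linarith⟩
    have h2 : dist (1 - min (δ / 2) (1 / 4)) 1 < δ := by
      rw [Real.dist_eq, sub_sub_cancel_left, abs_neg, abs_of_pos hs0]
      linarith
    have := hlim hs h2
    rw [h1 i] at this
    exact this.le
  choose s hs0 hs1 hs using hcut0
  choose t ht0 ht1 ht using hcut1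
  have hsub : ∀ i, Icc (s i) (t i) ⊆ Icc (0 : ℝ) 1 := by
    intro i x hx
    exact ⟨(hs0 i).le.trans hx.1, hx.2.trans (ht1 i).le⟩
  -- the middle parts
  set M' : I → Set (ℝ × ℝ) := fun i => γ i '' Icc (s i) (t i) with hM'
  have hM'comp : ∀ i, IsCompact (M' i) := fun i =>
    isCompact_Icc.image_of_continuousOn ((hcont i).mono (hsub i))
  have hM'arc : ∀ i, M' i ⊆ P.arc i := by
    intro i p hp
    obtain ⟨x, hx, rfl⟩ := hp
    rw [← himg i]
    exact ⟨x, hsub i hx, rfl⟩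
  have hM'disj : ∀ i i', i ≠ i' → Disjoint (M' i) (M' i') := by
    intro i i' hii
    rw [Set.disjoint_left]
    intro p hp hp'
    have h3 := (P.disj i i' hii p (hM'arc i hp) (hM'arc i' hp')).1
    obtain ⟨x, hx, rfl⟩ := hp
    rcases h3 with h3 | h3
    · rw [← h0 i] at h3
      have := hinj i (hsub i hx) ⟨le_rfl, zero_le_one⟩ h3
      rw [this] at hx
      exact absurd hx.1 (not_le.2 (hs0 i))
    · rw [← h1 i] at h3
      have := hinj i (hsub i hx) ⟨zero_le_one, le_rfl⟩ h3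
      rw [this] at hx
      exact absurd hx.2 (not_le.2 (ht1 i))
  obtain ⟨η, hη, hsep3⟩ : ∃ e : ℝ, 0 < e ∧ ∀ a : I × I, a.1 ≠ a.2 →
      ∀ p ∈ M' a.1, ∀ p' ∈ M' a.2, e ≤ dist p p' := by
    refine scaled_unif (fun (a : I × I) e => a.1 ≠ a.2 →
      ∀ p ∈ M' a.1, ∀ p' ∈ M' a.2, e ≤ dist p p') ?_ ?_
    · intro a x y _ hxy h hne p hp p' hp'
      exact hxy.trans (h hne p hp p' hp')
    · intro a
      by_cases hne : a.1 = a.2
      · exact ⟨1, one_pos, fun h => absurd hne h⟩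
      · obtain ⟨e, he, hdis⟩ := (hM'disj a.1 a.2 hne).exists_thickenings (hM'comp a.1)
          (hM'comp a.2).isClosed
        refine ⟨e, he, fun _ p hp p' hp' => ?_⟩
        by_contra hlt
        push Not at hlt
        have m1 : p' ∈ Metric.thickening e (M' a.1) :=
          Metric.mem_thickening_iff.2 ⟨p, hp, by rw [dist_comm]; exact hlt⟩
        have m2 : p' ∈ Metric.thickening e (M' a.2) :=
          Metric.self_subset_thickening he _ hp'
        exact Set.disjoint_left.1 hdis m1 m2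
  -- the fine scale
  obtain ⟨n, hn⟩ := exists_nat_gt (d / η)
  have hn0 : (0 : ℝ) < n := lt_trans (by positivity) hn
  have hnpos : 0 < n := by exact_mod_cast hn0
  have hδη : d / n < η := by
    rw [div_lt_iff₀ hη] at hn
    rw [div_lt_iff₀ hn0]
    linarith
  have hδ0 : 0 < d / n := by positivity
  -- cells of a block are near the node
  have hnear : ∀ (j : J) (c : ℤ × ℤ),
      c ∈ block ((⌊(P.pos j).1 / d⌋ - 1) * (n : ℤ)) ((⌊(P.pos j).1 / d⌋ + 2) * (n : ℤ))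
        ((⌊(P.pos j).2 / d⌋ - 1) * (n : ℤ)) ((⌊(P.pos j).2 / d⌋ + 2) * (n : ℤ)) →
      ∀ p ∈ cell c, dist ((d / n * p.1, d / n * p.2) : ℝ × ℝ) (P.pos j) ≤ 2 * d := by
    intro j c hc p hp
    obtain ⟨hc1, hc2, hc3, hc4⟩ := hc
    obtain ⟨hp1, hp2⟩ := hp
    exact scaled_dist_le (scaled_coord hd hnpos hc1 hc2 hp1.1 hp1.2)
      (scaled_coord hd hnpos hc3 hc4 hp2.1 hp2.2)
  -- points near the node are in a cell of the block
  have hnear' : ∀ (j : J) (q : ℝ × ℝ), dist q (P.pos j) ≤ d →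
      ∃ c ∈ block ((⌊(P.pos j).1 / d⌋ - 1) * (n : ℤ)) ((⌊(P.pos j).1 / d⌋ + 2) * (n : ℤ))
        ((⌊(P.pos j).2 / d⌋ - 1) * (n : ℤ)) ((⌊(P.pos j).2 / d⌋ + 2) * (n : ℤ)),
        ((q.1 / (d / n), q.2 / (d / n)) : ℝ × ℝ) ∈ cell c := by
    intro j q hq
    obtain ⟨hq1, hq2⟩ := scaled_of_dist hq
    obtain ⟨a1, a2⟩ := scaled_coord' hd hnpos hq1
    obtain ⟨b1, b2⟩ := scaled_coord' hd hnpos hq2
    refine ⟨(⌊q.1 / (d / n)⌋, ⌊q.2 / (d / n)⌋), ⟨a1, a2, b1, b2⟩, ?_, ?_⟩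
    · exact ⟨Int.floor_le _, (Int.lt_floor_add_one _).le⟩
    · exact ⟨Int.floor_le _, (Int.lt_floor_add_one _).le⟩
  have hsc : Continuous (fun q : ℝ × ℝ => ((q.1 / (d / n), q.2 / (d / n)) : ℝ × ℝ)) := by
    fun_prop
  have hback : ∀ q : ℝ × ℝ, ((d / n * (q.1 / (d / n)), d / n * (q.2 / (d / n))) : ℝ × ℝ) = q := by
    intro q
    ext
    · simp only
      field_simp
    · simp only
      field_simp
  refine ⟨fun j => (⌊(P.pos j).1 / d⌋ - 1) * (n : ℤ), fun j => (⌊(P.pos j).1 / d⌋ + 2) * (n : ℤ),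
    fun j => (⌊(P.pos j).2 / d⌋ - 1) * (n : ℤ), fun j => (⌊(P.pos j).2 / d⌋ + 2) * (n : ℤ),
    fun i => (fun q : ℝ × ℝ => ((q.1 / (d / n), q.2 / (d / n)) : ℝ × ℝ)) '' M' i,
    ?_, ?_, ?_, ?_, ?_, ?_, ?_, ?_, ?_⟩
  · intro j
    have : (0 : ℤ) < n := by exact_mod_cast hnpos
    simp only
    nlinarith
  · intro j
    have : (0 : ℤ) < n := by exact_mod_cast hnpos
    simp only
    nlinarith
  · intro j j' hjj c hc c' hc'
    rw [Set.disjoint_left]
    intro p hp hp'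
    have e1 := hnear j c hc p hp
    have e2 := hnear j' c' hc' p hp'
    have e3 := hsep1 (j, j') hjj
    have e4 := dist_triangle_left (P.pos j) (P.pos j')
      ((d / n * p.1, d / n * p.2) : ℝ × ℝ)
    simp only at e3
    linarith
  · intro i
    apply IsPreconnected.image _ _ hsc.continuousOn
    exact isPreconnected_Icc.image _ ((hcont i).mono (hsub i))
  · intro i
    exact ((hM'comp i).image hsc).isBounded
  · intro i
    obtain ⟨c, hc, hcc⟩ := hnear' (src i) (γ i (s i)) (hs i)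
    refine ⟨c, hc, _, hcc, _, ⟨s i, ⟨le_rfl, ?_⟩, rfl⟩, rfl⟩
    linarith [hs1 i, ht0 i]
  · intro i
    obtain ⟨c, hc, hcc⟩ := hnear' (tgt i) (γ i (t i)) (ht i)
    refine ⟨c, hc, _, hcc, _, ⟨t i, ⟨?_, le_rfl⟩, rfl⟩, rfl⟩
    linarith [hs1 i, ht0 i]
  · intro i j hj1 hj2 c hc
    rw [Set.disjoint_left]
    intro p hp hp'
    obtain ⟨q, hq, rfl⟩ := hp'
    have e1 := hnear j c hc _ hp
    simp only at e1
    rw [hback q] at e1
    have e2 := hsep2 (i, j) hj1 hj2 q (hM'arc i hq)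
    simp only at e2
    linarith
  · intro i i' hii c hne hne'
    obtain ⟨p, hp, q, hq, rfl⟩ := hne
    obtain ⟨p', hp', q', hq', rfl⟩ := hne'
    have e1 := hsep3 (i, i') hii q hq q' hq'
    have e2 : dist q q' ≤ d / n := by
      obtain ⟨a1, a2⟩ := hp
      obtain ⟨b1, b2⟩ := hp'
      simp only [mem_Icc] at a1 a2 b1 b2
      rw [le_div_iff₀ hδ0, div_le_iff₀ hδ0] at a1 a2 b1 b2
      apply scaled_dist_le
      · rw [abs_le]
        constructor <;> nlinarith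
      · rw [abs_le]
        constructor <;> nlinarith
    linarith

end Pool.Agent.Helper83.OP
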